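import Pool.Agent.Lib_MP_f31343_h.Defs

/-!
# A1: block algebra of `O(4,3)`

Write `a, b, c, d` for the blocks of `g`.  `gᵀ J g = J` gives `aᵀ a = 1 + cᵀ c`,
`dᵀ d = 1 + bᵀ b`, `aᵀ b = cᵀ d`; `g⁻¹ = J gᵀ J` has the blocks `aᵀ, -cᵀ, -bᵀ, dᵀ`.

* `den g S` is invertible for a contraction `S`: if `(c S + d) u = 0` then
  `|(a S + b) u|² - 0 = |S u|² - |u|² ≤ 0` (`g` preserves `q`), so `g (S u, u) = 0` and `u = 0`.
* `act g S` is a contraction: with `w = den g S u`, `|act g S w|² - |w|² = |S u|² - |u|² ≤ 0`.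
* `act (g h) S = act g (act h S)`, `den (g h) S = den g (act h S) * den h S`.
* `denᵀ (1 - (g S)ᵀ (g S')) den' = 1 - Sᵀ S'` (both sides are `-` the form on the graphs).
* with `g⁻¹` one gets `Jf g S = Dl g * pr (Sg g⁻¹) S`: `(Sg g⁻¹)ᵀ = -(cᵀ (dᵀ)⁻¹)ᵀ = -d⁻¹ c`,
  `c S + d = d (1 + d⁻¹ c S)`.
-/

open Matrix Filter Topology
open scoped Matrix.Norms.L2Operator

namespace F31343H

lemma J7_mul_J7 : J7 * J7 = 1 := by
  unfold J7
  rw [fromBlocks_multiply]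
  simp

lemma isO_one : IsO 1 := by
  unfold IsO
  simp

lemma IsO.mul {g h : M7} (hg : IsO g) (hh : IsO h) : IsO (g * h) := by
  unfold IsO at *
  calc (g * h)ᵀ * J7 * (g * h) = hᵀ * (gᵀ * J7 * g) * h := by
        rw [transpose_mul]; simp only [Matrix.mul_assoc]
    _ = J7 := by rw [hg, hh]

lemma IsO.inv_eq {g : M7} (hg : IsO g) : g⁻¹ = J7 * gᵀ * J7 := by
  refine inv_eq_left_inv ?_
  unfold IsO at hg
  calc J7 * gᵀ * J7 * g = J7 * (gᵀ * J7 * g) := by simp only [Matrix.mul_assoc]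
    _ = 1 := by rw [hg, J7_mul_J7]

lemma IsO.inv_mul {g : M7} (hg : IsO g) : g⁻¹ * g = 1 := by
  rw [hg.inv_eq]
  unfold IsO at hg
  calc J7 * gᵀ * J7 * g = J7 * (gᵀ * J7 * g) := by simp only [Matrix.mul_assoc]
    _ = 1 := by rw [hg, J7_mul_J7]

lemma IsO.mul_inv {g : M7} (hg : IsO g) : g * g⁻¹ = 1 := mul_eq_one_comm.mp hg.inv_mul

lemma IsO.inv {g : M7} (hg : IsO g) : IsO g⁻¹ := by
  have h1 := hg.mul_inv
  unfold IsO at *
  calc g⁻¹ᵀ * J7 * g⁻¹ = g⁻¹ᵀ * (gᵀ * J7 * g) * g⁻¹ := by rw [hg]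
    _ = (g * g⁻¹)ᵀ * J7 * (g * g⁻¹) := by rw [transpose_mul]; simp only [Matrix.mul_assoc]
    _ = J7 := by rw [h1]; simp

lemma IsO.inv_blocks {g : M7} (hg : IsO g) : g⁻¹ = fromBlocks g.toBlocks₁₁ᵀ (-g.toBlocks₂₁ᵀ)
    (-g.toBlocks₁₂ᵀ) g.toBlocks₂₂ᵀ := by
  rw [hg.inv_eq]
  conv_lhs => rw [← fromBlocks_toBlocks g]
  rw [fromBlocks_transpose]
  unfold J7
  rw [fromBlocks_multiply, fromBlocks_multiply]
  simp

lemma IsO.inv11 {g : M7} (hg : IsO g) : g⁻¹.toBlocks₁₁ = g.toBlocks₁₁ᵀ := by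
  rw [hg.inv_blocks, toBlocks_fromBlocks₁₁]
lemma IsO.inv12 {g : M7} (hg : IsO g) : g⁻¹.toBlocks₁₂ = -g.toBlocks₂₁ᵀ := by
  rw [hg.inv_blocks, toBlocks_fromBlocks₁₂]
lemma IsO.inv21 {g : M7} (hg : IsO g) : g⁻¹.toBlocks₂₁ = -g.toBlocks₁₂ᵀ := by
  rw [hg.inv_blocks, toBlocks_fromBlocks₂₁]
lemma IsO.inv22 {g : M7} (hg : IsO g) : g⁻¹.toBlocks₂₂ = g.toBlocks₂₂ᵀ := by
  rw [hg.inv_blocks, toBlocks_fromBlocks₂₂]

lemma IsO.rels {g : M7} (hg : IsO g) :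
    g.toBlocks₁₁ᵀ * g.toBlocks₁₁ - g.toBlocks₂₁ᵀ * g.toBlocks₂₁ = 1 ∧
    g.toBlocks₁₁ᵀ * g.toBlocks₁₂ - g.toBlocks₂₁ᵀ * g.toBlocks₂₂ = 0 ∧
    g.toBlocks₁₂ᵀ * g.toBlocks₁₂ - g.toBlocks₂₂ᵀ * g.toBlocks₂₂ = -1 := by
  unfold IsO J7 at hg
  rw [← fromBlocks_toBlocks g, fromBlocks_transpose, fromBlocks_multiply, fromBlocks_multiply,
    fromBlocks_inj] at hg
  obtain ⟨h1, h2, _, h4⟩ := hg
  simp only [Matrix.mul_one, Matrix.mul_zero, add_zero, zero_add,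
    Matrix.mul_neg, Matrix.neg_mul] at h1 h2 h4
  simp only [sub_eq_add_neg]
  exact ⟨h1, h2, h4⟩

lemma IsO.rel11 {g : M7} (hg : IsO g) :
    g.toBlocks₁₁ᵀ * g.toBlocks₁₁ = 1 + g.toBlocks₂₁ᵀ * g.toBlocks₂₁ :=
  sub_eq_iff_eq_add.mp hg.rels.1
lemma IsO.rel22 {g : M7} (hg : IsO g) :
    g.toBlocks₂₂ᵀ * g.toBlocks₂₂ = 1 + g.toBlocks₁₂ᵀ * g.toBlocks₁₂ := by
  have h := hg.rels.2.2
  rw [sub_eq_iff_eq_add] at h
  rw [h]
  abel
lemma IsO.rel12 {g : M7} (hg : IsO g) :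
    g.toBlocks₁₁ᵀ * g.toBlocks₁₂ = g.toBlocks₂₁ᵀ * g.toBlocks₂₂ := sub_eq_zero.mp hg.rels.2.1
lemma IsO.rel22' {g : M7} (hg : IsO g) :
    g.toBlocks₂₂ * g.toBlocks₂₂ᵀ = 1 + g.toBlocks₂₁ * g.toBlocks₂₁ᵀ := by
  have h := hg.inv.rel22
  rw [hg.inv22, hg.inv12] at h
  simpa using h
lemma IsO.rel11' {g : M7} (hg : IsO g) :
    g.toBlocks₁₁ * g.toBlocks₁₁ᵀ = 1 + g.toBlocks₁₂ * g.toBlocks₁₂ᵀ := by
  have h := hg.inv.rel11
  rw [hg.inv11, hg.inv21] at h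
  simpa using h

lemma dot_mulVec_left {n m : Type*} [Fintype n] [Fintype m] (A : Matrix m n ℝ) (x : n → ℝ)
    (y : m → ℝ) : (A *ᵥ x) ⬝ᵥ y = x ⬝ᵥ (Aᵀ *ᵥ y) := by
  rw [dotProduct_mulVec, vecMul_transpose]

lemma bf_eq (v w : V7) : bf v w = v ⬝ᵥ (J7 *ᵥ w) := by
  unfold bf J7 hi lo
  simp only [dotProduct, mulVec, Fintype.sum_sum_type, fromBlocks_apply₁₁, fromBlocks_apply₁₂,
    fromBlocks_apply₂₁, fromBlocks_apply₂₂, Matrix.zero_apply, zero_mul, Finset.sum_const_zero,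
    add_zero, zero_add, Matrix.neg_apply, neg_mul, Finset.sum_neg_distrib, mul_neg]
  simp only [Matrix.one_apply, ite_mul, one_mul, zero_mul, Finset.sum_ite_eq, Finset.mem_univ,
    if_true]
  ring

lemma qf_eq_bf (v : V7) : qf v = bf v v := rfl

lemma IsO.bf_mulVec {g : M7} (hg : IsO g) (v w : V7) : bf (g *ᵥ v) (g *ᵥ w) = bf v w := by
  rw [bf_eq, bf_eq, dot_mulVec_left, mulVec_mulVec, mulVec_mulVec]
  unfold IsO at hg
  rw [hg]

lemma IsO.qf_mulVec {g : M7} (hg : IsO g) (v : V7) : qf (g *ᵥ v) = qf v := hg.bf_mulVec v v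

lemma hi_mulVec (g : M7) (v : V7) :
    hi (g *ᵥ v) = g.toBlocks₁₁ *ᵥ hi v + g.toBlocks₁₂ *ᵥ lo v := by
  funext i
  simp only [hi, lo, mulVec, dotProduct, Fintype.sum_sum_type, Pi.add_apply, toBlocks₁₁,
    toBlocks₁₂, of_apply]
lemma lo_mulVec (g : M7) (v : V7) :
    lo (g *ᵥ v) = g.toBlocks₂₁ *ᵥ hi v + g.toBlocks₂₂ *ᵥ lo v := by
  funext i
  simp only [hi, lo, mulVec, dotProduct, Fintype.sum_sum_type, Pi.add_apply, toBlocks₂₁,
    toBlocks₂₂, of_apply]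

lemma hi_elim (y : V4) (u : V3) : hi (Sum.elim y u) = y := rfl
lemma lo_elim (y : V4) (u : V3) : lo (Sum.elim y u) = u := rfl
lemma elim_hi_lo (v : V7) : Sum.elim (hi v) (lo v) = v := by
  funext i
  rcases i with i | i <;> rfl

lemma nrm_sq_mulVec {n m : Type*} [Fintype n] [Fintype m] (A : Matrix m n ℝ) (x : n → ℝ) :
    nrm (A *ᵥ x) ^ 2 = x ⬝ᵥ ((Aᵀ * A) *ᵥ x) := by
  rw [nrm_sq, dot_mulVec_left, mulVec_mulVec]

lemma IsO.nrm_sq_d {g : M7} (hg : IsO g) (u : V3) :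
    nrm (g.toBlocks₂₂ *ᵥ u) ^ 2 = nrm u ^ 2 + nrm (g.toBlocks₁₂ *ᵥ u) ^ 2 := by
  rw [nrm_sq_mulVec, nrm_sq_mulVec, hg.rel22, add_mulVec, one_mulVec, dotProduct_add, nrm_sq]

lemma IsO.nrm_sq_a {g : M7} (hg : IsO g) (y : V4) :
    nrm (g.toBlocks₁₁ *ᵥ y) ^ 2 = nrm y ^ 2 + nrm (g.toBlocks₂₁ *ᵥ y) ^ 2 := by
  rw [nrm_sq_mulVec, nrm_sq_mulVec, hg.rel11, add_mulVec, one_mulVec, dotProduct_add, nrm_sq]

/-- a lower bound for `d` -/
lemma IsO.nrm_le_d {g : M7} (hg : IsO g) (u : V3) : nrm u ≤ nrm (g.toBlocks₂₂ *ᵥ u) := by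
  have h := hg.nrm_sq_d u
  refine le_of_sq_le_sq ?_ (nrm_nonneg _)
  have := sq_nonneg (nrm (g.toBlocks₁₂ *ᵥ u))
  linarith
lemma IsO.nrm_b_le_d {g : M7} (hg : IsO g) (u : V3) :
    nrm (g.toBlocks₁₂ *ᵥ u) ≤ nrm (g.toBlocks₂₂ *ᵥ u) := by
  have h := hg.nrm_sq_d u
  refine le_of_sq_le_sq ?_ (nrm_nonneg _)
  have := sq_nonneg (nrm u)
  linarith
lemma IsO.det_d {g : M7} (hg : IsO g) : g.toBlocks₂₂.det ≠ 0 := by
  intro h
  obtain ⟨v, hv, hv'⟩ := exists_mulVec_eq_zero_iff.mpr h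
  have h1 := hg.nrm_le_d v
  rw [hv', nrm_zero] at h1
  exact hv (nrm_eq_zero.mp (le_antisymm h1 (nrm_nonneg _)))
lemma IsO.det_a {g : M7} (hg : IsO g) : g.toBlocks₁₁.det ≠ 0 := by
  intro h
  obtain ⟨v, hv, hv'⟩ := exists_mulVec_eq_zero_iff.mpr h
  have h1 := hg.nrm_sq_a v
  rw [hv', nrm_zero] at h1
  have h2 : nrm v ^ 2 = 0 := by
    have := sq_nonneg (nrm v)
    have := sq_nonneg (nrm (g.toBlocks₂₁ *ᵥ v))
    linarith
  exact hv (nrm_eq_zero.mp (pow_eq_zero_iff (by norm_num) |>.mp h2))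

lemma IsIsom.nrm_eq {S : M43} (hS : IsIsom S) (u : V3) : nrm (S *ᵥ u) = nrm u := by
  have h : nrm (S *ᵥ u) ^ 2 = nrm u ^ 2 := by
    unfold IsIsom at hS
    rw [nrm_sq_mulVec, hS, one_mulVec, nrm_sq]
  exact (sq_eq_sq₀ (nrm_nonneg _) (nrm_nonneg _)).mp h
lemma IsIsom.contr {S : M43} (hS : IsIsom S) : IsContr S := fun u => (hS.nrm_eq u).le
lemma isContr_iff (S : M43) : IsContr S ↔ ‖S‖ ≤ 1 := by
  constructor
  · intro h
    refine opNorm_le zero_le_one fun x => ?_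
    rw [one_mul]
    exact h x
  · intro h u
    calc nrm (S *ᵥ u) ≤ ‖S‖ * nrm u := nrm_mulVec_le S u
      _ ≤ 1 * nrm u := mul_le_mul_of_nonneg_right h (nrm_nonneg _)
      _ = nrm u := one_mul _
lemma isContr_zero : IsContr 0 := by
  intro u
  rw [zero_mulVec, nrm_zero]
  exact nrm_nonneg _

lemma lo_graph (g : M7) (S : M43) (u : V3) :
    lo (g *ᵥ (Sum.elim (S *ᵥ u) u)) = den g S *ᵥ u := by
  rw [lo_mulVec, hi_elim, lo_elim, mulVec_mulVec, ← add_mulVec, den]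

lemma hi_graph (g : M7) (S : M43) (u : V3) :
    hi (g *ᵥ (Sum.elim (S *ᵥ u) u)) = (g.toBlocks₁₁ * S + g.toBlocks₁₂) *ᵥ u := by
  rw [hi_mulVec, hi_elim, lo_elim, mulVec_mulVec, ← add_mulVec]

lemma qf_eq_nrm (v : V7) : qf v = nrm (hi v) ^ 2 - nrm (lo v) ^ 2 := by
  rw [nrm_sq, nrm_sq, qf]

lemma IsO.den_det {g : M7} (hg : IsO g) {S : M43} (hS : IsContr S) : (den g S).det ≠ 0 := by
  intro h
  obtain ⟨u, hu, hu'⟩ := exists_mulVec_eq_zero_iff.mpr h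
  set v : V7 := Sum.elim (S *ᵥ u) u with hv
  have h1 : qf (g *ᵥ v) = qf v := hg.qf_mulVec v
  rw [qf_eq_nrm, qf_eq_nrm v, lo_graph, hu', nrm_zero] at h1
  have h2 : nrm (hi v) ≤ nrm (lo v) := hS u
  have h3 : nrm (hi v) ^ 2 ≤ nrm (lo v) ^ 2 := by
    have := nrm_nonneg (hi v)
    gcongr
  have h4 : nrm (hi (g *ᵥ v)) ^ 2 = 0 := by
    have := sq_nonneg (nrm (hi (g *ᵥ v)))
    linarith
  have h5 : hi (g *ᵥ v) = 0 := nrm_eq_zero.mp (pow_eq_zero_iff (by norm_num) |>.mp h4)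
  have h6 : g *ᵥ v = 0 := by
    rw [← elim_hi_lo (g *ᵥ v), h5, lo_graph, hu']
    funext i
    rcases i with i | i <;> rfl
  have h7 : v = 0 := by
    have : g⁻¹ *ᵥ (g *ᵥ v) = 0 := by rw [h6, mulVec_zero]
    rwa [mulVec_mulVec, hg.inv_mul, one_mulVec] at this
  apply hu
  funext i
  exact congrFun h7 (Sum.inr i)

lemma IsO.act_den {g : M7} (hg : IsO g) {S : M43} (hS : IsContr S) :
    act g S * den g S = g.toBlocks₁₁ * S + g.toBlocks₁₂ := by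
  unfold act
  rw [Matrix.mul_assoc, nonsing_inv_mul _ (isUnit_iff_ne_zero.mpr (hg.den_det hS)), Matrix.mul_one]

/-- `g` maps the graph of `S` to the graph of `act g S` -/
lemma IsO.graph {g : M7} (hg : IsO g) {S : M43} (hS : IsContr S) (u : V3) :
    g *ᵥ (Sum.elim (S *ᵥ u) u) = Sum.elim (act g S *ᵥ (den g S *ᵥ u)) (den g S *ᵥ u) := by
  rw [← elim_hi_lo (g *ᵥ (Sum.elim (S *ᵥ u) u)), lo_graph, hi_graph, mulVec_mulVec, hg.act_den hS]

lemma inv_mulVec_den {D : M33} (hD : D.det ≠ 0) (w : V3) : D *ᵥ (D⁻¹ *ᵥ w) = w := by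
  rw [Matrix.mulVec_mulVec, Matrix.mul_nonsing_inv D (isUnit_iff_ne_zero.mpr hD),
    Matrix.one_mulVec]

lemma qf_elim (x : V4) (u : V3) : qf (Sum.elim x u) = x ⬝ᵥ x - u ⬝ᵥ u := rfl

lemma bf_elim (x x' : V4) (u u' : V3) :
    bf (Sum.elim x u) (Sum.elim x' u') = x ⬝ᵥ x' - u ⬝ᵥ u' := rfl

lemma nrm_le_of_dot {n m : Type*} [Fintype n] [Fintype m] {x : n → ℝ} {y : m → ℝ}
    (h : x ⬝ᵥ x ≤ y ⬝ᵥ y) : nrm x ≤ nrm y := by
  rw [← nrm_sq, ← nrm_sq] at h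
  exact le_of_sq_le_sq h (nrm_nonneg y)

lemma dot_le_of_nrm {n m : Type*} [Fintype n] [Fintype m] {x : n → ℝ} {y : m → ℝ}
    (h : nrm x ≤ nrm y) : x ⬝ᵥ x ≤ y ⬝ᵥ y := by
  rw [← nrm_sq, ← nrm_sq]
  exact pow_le_pow_left₀ (nrm_nonneg x) h 2

lemma IsO.act_contr {g : M7} (hg : IsO g) {S : M43} (hS : IsContr S) : IsContr (act g S) := by
  intro w
  have hw : den g S *ᵥ ((den g S)⁻¹ *ᵥ w) = w := inv_mulVec_den (hg.den_det hS) w
  have h1 := hg.graph hS ((den g S)⁻¹ *ᵥ w)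
  have h2 := hg.qf_mulVec (Sum.elim (S *ᵥ ((den g S)⁻¹ *ᵥ w)) ((den g S)⁻¹ *ᵥ w))
  rw [h1, hw, qf_elim, qf_elim] at h2
  have h3 := dot_le_of_nrm (hS ((den g S)⁻¹ *ᵥ w))
  exact nrm_le_of_dot (by linarith)

/-- invariance of the form -/
lemma IsO.pair {g : M7} (hg : IsO g) {S S' : M43} (hS : IsContr S) (hS' : IsContr S') :
    (den g S)ᵀ * (1 - (act g S)ᵀ * act g S') * den g S' = 1 - Sᵀ * S' := by
  have e1 : (den g S)ᵀ * (1 - (act g S)ᵀ * act g S') * den g S' =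
      (den g S)ᵀ * den g S' - (act g S * den g S)ᵀ * (act g S' * den g S') := by
    rw [Matrix.mul_sub, Matrix.sub_mul, Matrix.mul_one, Matrix.transpose_mul]
    simp only [Matrix.mul_assoc]
  rw [e1, hg.act_den hS, hg.act_den hS']
  have r12' : g.toBlocks₁₂ᵀ * g.toBlocks₁₁ = g.toBlocks₂₂ᵀ * g.toBlocks₂₁ := by
    have := congrArg Matrix.transpose hg.rel12
    simpa only [Matrix.transpose_mul, Matrix.transpose_transpose] using this
  have e2 : (den g S)ᵀ * den g S' =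
      Sᵀ * (g.toBlocks₂₁ᵀ * g.toBlocks₂₁) * S' + Sᵀ * (g.toBlocks₂₁ᵀ * g.toBlocks₂₂) +
      (g.toBlocks₂₂ᵀ * g.toBlocks₂₁) * S' + g.toBlocks₂₂ᵀ * g.toBlocks₂₂ := by
    unfold den
    simp only [Matrix.transpose_add, Matrix.transpose_mul, Matrix.mul_add, Matrix.add_mul,
      Matrix.mul_assoc]
    abel
  have e3 : (g.toBlocks₁₁ * S + g.toBlocks₁₂)ᵀ * (g.toBlocks₁₁ * S' + g.toBlocks₁₂) =
      Sᵀ * (g.toBlocks₁₁ᵀ * g.toBlocks₁₁) * S' + Sᵀ * (g.toBlocks₁₁ᵀ * g.toBlocks₁₂) +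
      (g.toBlocks₁₂ᵀ * g.toBlocks₁₁) * S' + g.toBlocks₁₂ᵀ * g.toBlocks₁₂ := by
    simp only [Matrix.transpose_add, Matrix.transpose_mul, Matrix.mul_add, Matrix.add_mul,
      Matrix.mul_assoc]
    abel
  rw [e2, e3, hg.rel11, hg.rel12, r12', hg.rel22, Matrix.mul_add, Matrix.add_mul, Matrix.mul_one]
  abel

lemma cancel_right {A B : M33} {D : M33} (hD : D.det ≠ 0) (h : A * D = B * D) : A = B := by
  have h1 := congrArg (fun M => M * D⁻¹) h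
  simpa only [Matrix.mul_assoc, Matrix.mul_nonsing_inv D (isUnit_iff_ne_zero.mpr hD),
    Matrix.mul_one] using h1

lemma cancel_right43 {A B : M43} {D : M33} (hD : D.det ≠ 0) (h : A * D = B * D) : A = B := by
  have h1 := congrArg (fun M : M43 => M * D⁻¹) h
  simpa only [Matrix.mul_assoc, Matrix.mul_nonsing_inv D (isUnit_iff_ne_zero.mpr hD),
    Matrix.mul_one] using h1

lemma cancel_left {A B : M33} {D : M33} (hD : D.det ≠ 0) (h : D * A = D * B) : A = B := by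
  have h1 := congrArg (fun M => D⁻¹ * M) h
  simpa only [← Matrix.mul_assoc, Matrix.nonsing_inv_mul D (isUnit_iff_ne_zero.mpr hD),
    Matrix.one_mul] using h1

lemma IsO.act_isom {g : M7} (hg : IsO g) {S : M43} (hS : IsIsom S) : IsIsom (act g S) := by
  have hc := hS.contr
  have h := hg.pair hc hc
  have hD := hg.den_det hc
  have hS' : Sᵀ * S = 1 := hS
  rw [hS', sub_self] at h
  have hDt : ((den g S)ᵀ).det ≠ 0 := by rwa [Matrix.det_transpose]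
  have h2 : (den g S)ᵀ * (1 - (act g S)ᵀ * act g S) = 0 := by
    apply cancel_right hD
    rw [h, Matrix.zero_mul]
  have h3 : 1 - (act g S)ᵀ * act g S = 0 := by
    apply cancel_left hDt
    rw [h2, Matrix.mul_zero]
  exact (sub_eq_zero.mp h3).symm

lemma mul_blocks (g h : M7) :
    (g * h).toBlocks₁₁ = g.toBlocks₁₁ * h.toBlocks₁₁ + g.toBlocks₁₂ * h.toBlocks₂₁ ∧
    (g * h).toBlocks₁₂ = g.toBlocks₁₁ * h.toBlocks₁₂ + g.toBlocks₁₂ * h.toBlocks₂₂ ∧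
    (g * h).toBlocks₂₁ = g.toBlocks₂₁ * h.toBlocks₁₁ + g.toBlocks₂₂ * h.toBlocks₂₁ ∧
    (g * h).toBlocks₂₂ = g.toBlocks₂₁ * h.toBlocks₁₂ + g.toBlocks₂₂ * h.toBlocks₂₂ := by
  have h1 : g * h = fromBlocks
      (g.toBlocks₁₁ * h.toBlocks₁₁ + g.toBlocks₁₂ * h.toBlocks₂₁)
      (g.toBlocks₁₁ * h.toBlocks₁₂ + g.toBlocks₁₂ * h.toBlocks₂₂)
      (g.toBlocks₂₁ * h.toBlocks₁₁ + g.toBlocks₂₂ * h.toBlocks₂₁)
      (g.toBlocks₂₁ * h.toBlocks₁₂ + g.toBlocks₂₂ * h.toBlocks₂₂) := by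
    rw [← fromBlocks_multiply, fromBlocks_toBlocks, fromBlocks_toBlocks]
  rw [h1]
  exact ⟨toBlocks_fromBlocks₁₁ .., toBlocks_fromBlocks₁₂ .., toBlocks_fromBlocks₂₁ ..,
    toBlocks_fromBlocks₂₂ ..⟩

lemma den_mul {g h : M7} (hg : IsO g) (hh : IsO h) {S : M43} (hS : IsContr S) :
    den (g * h) S = den g (act h S) * den h S := by
  have _ := hg
  obtain ⟨_, _, m3, m4⟩ := mul_blocks g h
  have e1 : den g (act h S) * den h S =
      g.toBlocks₂₁ * (act h S * den h S) + g.toBlocks₂₂ * den h S := by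
    unfold den
    rw [Matrix.add_mul, Matrix.mul_assoc]
  rw [e1, hh.act_den hS]
  unfold den
  rw [m3, m4]
  simp only [Matrix.mul_add, Matrix.add_mul, Matrix.mul_assoc]
  abel

lemma act_mul {g h : M7} (hg : IsO g) (hh : IsO h) {S : M43} (hS : IsContr S) :
    act (g * h) S = act g (act h S) := by
  have hgh := hg.mul hh
  have hc := hh.act_contr hS
  apply cancel_right43 (hgh.den_det hS)
  rw [hgh.act_den hS, den_mul hg hh hS, ← Matrix.mul_assoc, hg.act_den hc, Matrix.add_mul,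
    Matrix.mul_assoc, hh.act_den hS]
  obtain ⟨m1, m2, _, _⟩ := mul_blocks g h
  rw [m1, m2]
  unfold den
  simp only [Matrix.mul_add, Matrix.add_mul, Matrix.mul_assoc]
  abel

lemma act_one (S : M43) : act 1 S = S := by
  have h1 : (1 : M7) = fromBlocks 1 0 0 1 := fromBlocks_one.symm
  have hden : den 1 S = 1 := by
    unfold den
    rw [h1, toBlocks_fromBlocks₂₁, toBlocks_fromBlocks₂₂, Matrix.zero_mul, zero_add]
  unfold act
  rw [hden, h1, toBlocks_fromBlocks₁₁, toBlocks_fromBlocks₁₂, Matrix.one_mul, add_zero, inv_one,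
    Matrix.mul_one]

lemma den_zero' (g : M7) : den g 0 = g.toBlocks₂₂ := by
  unfold den
  rw [Matrix.mul_zero, zero_add]

lemma Sg_eq (g : M7) : Sg g = act g 0 := by
  unfold Sg act
  rw [den_zero', Matrix.mul_zero, zero_add]

lemma IsO.Sg_contr {g : M7} (hg : IsO g) : IsContr (Sg g) := by
  rw [Sg_eq]
  exact hg.act_contr isContr_zero

lemma Sg_mul {g h : M7} (hg : IsO g) (hh : IsO h) : Sg (g * h) = act g (Sg h) := by
  rw [Sg_eq, Sg_eq, act_mul hg hh isContr_zero]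

lemma Jf_mul {g h : M7} (hg : IsO g) (hh : IsO h) {S : M43} (hS : IsContr S) :
    Jf (g * h) S = Jf g (act h S) * Jf h S := by
  unfold Jf
  rw [den_mul hg hh hS, Matrix.det_mul, abs_mul]

lemma Dl_eq (g : M7) : Dl g = Jf g 0 := by
  unfold Dl Jf
  rw [den_zero']

lemma Dl_mul {g h : M7} (hg : IsO g) (hh : IsO h) : Dl (g * h) = Jf g (Sg h) * Dl h := by
  rw [Dl_eq, Dl_eq, Sg_eq, Jf_mul hg hh isContr_zero]

lemma IsO.Jf_pos {g : M7} (hg : IsO g) {S : M43} (hS : IsContr S) : 0 < Jf g S :=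
  abs_pos.mpr (hg.den_det hS)

lemma IsO.Dl_pos {g : M7} (hg : IsO g) : 0 < Dl g := abs_pos.mpr hg.det_d

lemma IsO.Jf_eq {g : M7} (hg : IsO g) (S : M43) : Jf g S = Dl g * pr (Sg g⁻¹) S := by
  have hd : IsUnit g.toBlocks₂₂.det := isUnit_iff_ne_zero.mpr hg.det_d
  have e1 : (Sg g⁻¹)ᵀ = -(g.toBlocks₂₂⁻¹ * g.toBlocks₂₁) := by
    unfold Sg
    rw [hg.inv12, hg.inv22, Matrix.transpose_mul, ← Matrix.transpose_nonsing_inv,
      Matrix.transpose_transpose, Matrix.transpose_neg, Matrix.transpose_transpose,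
      Matrix.mul_neg]
  unfold Jf Dl pr
  rw [e1, ← abs_mul, ← Matrix.det_mul, Matrix.neg_mul, sub_neg_eq_add, Matrix.mul_add,
    Matrix.mul_one, Matrix.mul_assoc, ← Matrix.mul_assoc g.toBlocks₂₂,
    Matrix.mul_nonsing_inv _ hd, Matrix.one_mul, add_comm]
  rfl

lemma IsO.pr_act {g : M7} (hg : IsO g) {S S' : M43} (hS : IsContr S) (hS' : IsContr S') :
    Jf g S * pr (act g S) (act g S') * Jf g S' = pr S S' := by
  have h := congrArg Matrix.det (hg.pair hS hS')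
  rw [Matrix.det_mul, Matrix.det_mul, Matrix.det_transpose] at h
  unfold Jf pr
  rw [← abs_mul, ← abs_mul, h]

lemma nrm_elim_sq (x : V4) (u : V3) : nrm (Sum.elim x u : V7) ^ 2 = nrm x ^ 2 + nrm u ^ 2 := by
  rw [nrm_sq, nrm_sq, nrm_sq]
  unfold dotProduct
  rw [Fintype.sum_sum_type]
  rfl

/-- `|g (S u, u)| ≥ |u| / ‖g⁻¹‖` and `|g (S u, u)| ≤ √2 |den g S u|` -/
lemma IsO.den_lower {g : M7} (hg : IsO g) {S : M43} (hS : IsContr S) (u : V3) :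
    nrm u ≤ 2 * ‖g⁻¹‖ * nrm (den g S *ᵥ u) := by
  set v : V7 := Sum.elim (S *ᵥ u) u with hv
  have h1 : nrm u ≤ nrm v := by
    apply le_of_sq_le_sq _ (nrm_nonneg v)
    rw [hv, nrm_elim_sq]
    nlinarith [sq_nonneg (nrm (S *ᵥ u))]
  have h2 : nrm v ≤ ‖g⁻¹‖ * nrm (g *ᵥ v) := by
    have := nrm_mulVec_le g⁻¹ (g *ᵥ v)
    rwa [Matrix.mulVec_mulVec, hg.inv_mul, Matrix.one_mulVec] at this
  have h3 : nrm (g *ᵥ v) ≤ 2 * nrm (den g S *ᵥ u) := by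
    have hc := hg.act_contr hS (den g S *ᵥ u)
    have hn := nrm_nonneg (den g S *ᵥ u)
    have hn' := nrm_nonneg (act g S *ᵥ (den g S *ᵥ u))
    apply le_of_sq_le_sq _ (by positivity)
    rw [hv, hg.graph hS u, nrm_elim_sq]
    nlinarith
  calc nrm u ≤ nrm v := h1
    _ ≤ ‖g⁻¹‖ * nrm (g *ᵥ v) := h2
    _ ≤ ‖g⁻¹‖ * (2 * nrm (den g S *ᵥ u)) := mul_le_mul_of_nonneg_left h3 (norm_nonneg _)
    _ = 2 * ‖g⁻¹‖ * nrm (den g S *ᵥ u) := by ring

lemma IsO.norm_den_inv {g : M7} (hg : IsO g) {S : M43} (hS : IsContr S) :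
    ‖(den g S)⁻¹‖ ≤ 2 * ‖g⁻¹‖ := by
  apply opNorm_le (by positivity)
  intro x
  have h := hg.den_lower hS ((den g S)⁻¹ *ᵥ x)
  rwa [inv_mulVec_den (hg.den_det hS)] at h

lemma mulVec_elim (g : M7) (x : V4) (u : V3) :
    g *ᵥ (Sum.elim x u) =
      Sum.elim (g.toBlocks₁₁ *ᵥ x + g.toBlocks₁₂ *ᵥ u) (g.toBlocks₂₁ *ᵥ x + g.toBlocks₂₂ *ᵥ u) := by
  conv_lhs => rw [← fromBlocks_toBlocks g]
  rw [fromBlocks_mulVec]
  rfl

lemma norm_block12 (g : M7) : ‖g.toBlocks₁₂‖ ≤ ‖g‖ := by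
  apply opNorm_le (norm_nonneg _)
  intro x
  have h1 := nrm_mulVec_le g (Sum.elim (0 : V4) x)
  have h2 : nrm (Sum.elim (0 : V4) x : V7) = nrm x := by
    have := nrm_elim_sq 0 x
    rw [nrm_zero] at this
    exact (pow_left_inj₀ (nrm_nonneg _) (nrm_nonneg _) two_ne_zero).mp (by linarith)
  rw [h2, mulVec_elim, Matrix.mulVec_zero, zero_add, Matrix.mulVec_zero, zero_add] at h1
  refine le_trans ?_ h1
  apply le_of_sq_le_sq _ (nrm_nonneg _)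
  rw [nrm_elim_sq]
  nlinarith [sq_nonneg (nrm (g.toBlocks₂₂ *ᵥ x))]

lemma norm_block22 (g : M7) : ‖g.toBlocks₂₂‖ ≤ ‖g‖ := by
  apply opNorm_le (norm_nonneg _)
  intro x
  have h1 := nrm_mulVec_le g (Sum.elim (0 : V4) x)
  have h2 : nrm (Sum.elim (0 : V4) x : V7) = nrm x := by
    have := nrm_elim_sq 0 x
    rw [nrm_zero] at this
    exact (pow_left_inj₀ (nrm_nonneg _) (nrm_nonneg _) two_ne_zero).mp (by linarith)
  rw [h2, mulVec_elim, Matrix.mulVec_zero, zero_add, Matrix.mulVec_zero, zero_add] at h1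
  refine le_trans ?_ h1
  apply le_of_sq_le_sq _ (nrm_nonneg _)
  rw [nrm_elim_sq]
  nlinarith [sq_nonneg (nrm (g.toBlocks₁₂ *ᵥ x))]

lemma norm_block21 (g : M7) : ‖g.toBlocks₂₁‖ ≤ ‖g‖ := by
  apply opNorm_le (norm_nonneg _)
  intro x
  have h1 := nrm_mulVec_le g (Sum.elim x (0 : V3))
  have h2 : nrm (Sum.elim x (0 : V3) : V7) = nrm x := by
    have := nrm_elim_sq x 0
    rw [nrm_zero] at this
    exact (pow_left_inj₀ (nrm_nonneg _) (nrm_nonneg _) two_ne_zero).mp (by linarith)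
  rw [h2, mulVec_elim, Matrix.mulVec_zero, add_zero, Matrix.mulVec_zero, add_zero] at h1
  refine le_trans ?_ h1
  apply le_of_sq_le_sq _ (nrm_nonneg _)
  rw [nrm_elim_sq]
  nlinarith [sq_nonneg (nrm (g.toBlocks₁₁ *ᵥ x))]

lemma norm_den_le {g : M7} {S : M43} (hS : IsContr S) : ‖den g S‖ ≤ 2 * ‖g‖ := by
  have hS1 : ‖S‖ ≤ 1 := (isContr_iff S).mp hS
  unfold den
  calc ‖g.toBlocks₂₁ * S + g.toBlocks₂₂‖ ≤ ‖g.toBlocks₂₁ * S‖ + ‖g.toBlocks₂₂‖ := norm_add_le _ _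
    _ ≤ ‖g.toBlocks₂₁‖ * ‖S‖ + ‖g.toBlocks₂₂‖ := by
        linarith [opNorm_mul_le g.toBlocks₂₁ S]
    _ ≤ ‖g‖ * 1 + ‖g‖ := by
        have h1 := norm_block21 g
        have h2 := norm_block22 g
        have h3 : ‖g.toBlocks₂₁‖ * ‖S‖ ≤ ‖g‖ * 1 :=
          mul_le_mul h1 hS1 (norm_nonneg _) (norm_nonneg _)
        linarith
    _ = 2 * ‖g‖ := by ring

lemma abs_le_nrm {n : Type*} [Fintype n] (x : n → ℝ) (i : n) : |x i| ≤ nrm x := by
  have h : x i ^ 2 ≤ nrm x ^ 2 := by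
    rw [nrm_sq]
    unfold dotProduct
    have := Finset.single_le_sum (f := fun j => x j * x j) (fun j _ => mul_self_nonneg (x j))
      (Finset.mem_univ i)
    rw [sq]
    exact this
  exact abs_le_of_sq_le_sq h (nrm_nonneg x)

lemma nrm_single {n : Type*} [Fintype n] [DecidableEq n] (j : n) :
    nrm (Pi.single j (1 : ℝ)) = 1 := by
  have h : nrm (Pi.single j (1 : ℝ)) ^ 2 = 1 := by
    rw [nrm_sq]
    simp
  exact (pow_left_inj₀ (nrm_nonneg _) zero_le_one two_ne_zero).mp (by rw [h, one_pow])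

lemma abs_entry_le {n m : Type*} [Fintype n] [Fintype m] [DecidableEq n] (M : Matrix m n ℝ)
    (i : m) (j : n) : |M i j| ≤ ‖M‖ := by
  have h1 := abs_le_nrm (M *ᵥ Pi.single j (1 : ℝ)) i
  have h2 := nrm_mulVec_le M (Pi.single j (1 : ℝ))
  rw [nrm_single, mul_one] at h2
  have h3 : (M *ᵥ Pi.single j (1 : ℝ)) i = M i j := by
    rw [Matrix.mulVec_single_one]
    rfl
  rw [h3] at h1
  exact h1.trans h2

lemma abs_triple_le {a b c t : ℝ} (ha : |a| ≤ t) (hb : |b| ≤ t) (hc : |c| ≤ t) :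
    |a * b * c| ≤ t ^ 3 := by
  have ht : 0 ≤ t := (abs_nonneg a).trans ha
  rw [abs_mul, abs_mul]
  calc |a| * |b| * |c| ≤ t * t * t := by
        apply mul_le_mul _ hc (abs_nonneg c) (by positivity)
        exact mul_le_mul ha hb (abs_nonneg b) ht
    _ = t ^ 3 := by ring

/-- determinants of `3 × 3` matrices -/
lemma abs_det_le (M : M33) : |M.det| ≤ 6 * ‖M‖ ^ 3 := by
  have h : ∀ i j, |M i j| ≤ ‖M‖ := abs_entry_le M
  rw [Matrix.det_fin_three]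
  have h1 := abs_le.mp (abs_triple_le (h 0 0) (h 1 1) (h 2 2))
  have h2 := abs_le.mp (abs_triple_le (h 0 0) (h 1 2) (h 2 1))
  have h3 := abs_le.mp (abs_triple_le (h 0 1) (h 1 0) (h 2 2))
  have h4 := abs_le.mp (abs_triple_le (h 0 1) (h 1 2) (h 2 0))
  have h5 := abs_le.mp (abs_triple_le (h 0 2) (h 1 0) (h 2 1))
  have h6 := abs_le.mp (abs_triple_le (h 0 2) (h 1 1) (h 2 0))
  rw [abs_le]
  constructor <;> linarith [h1.1, h1.2, h2.1, h2.2, h3.1, h3.2, h4.1, h4.2, h5.1, h5.2, h6.1, h6.2]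

/-- `act` is continuous at contractions, in fact on the contractions -/
lemma IsO.continuousOn_act {g : M7} (hg : IsO g) : ContinuousOn (act g) {S | IsContr S} := by
  have hden : Continuous (den g) := by
    unfold den
    exact (continuous_const.matrix_mul continuous_id).add continuous_const
  intro S hS
  apply ContinuousAt.continuousWithinAt
  have hinv : ContinuousAt (fun T : M43 => (den g T)⁻¹) S := by
    have : (fun T : M43 => (den g T)⁻¹) = fun T => ((den g T).det)⁻¹ • (den g T).adjugate := by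
      funext T
      rw [Matrix.inv_def, Ring.inverse_eq_inv']
    rw [this]
    have c1 : ContinuousAt (fun T : M43 => ((den g T).det)⁻¹) S :=
      (hden.matrix_det.continuousAt).inv₀ (hg.den_det hS)
    have c2 : ContinuousAt (fun T : M43 => (den g T).adjugate) S :=
      hden.matrix_adjugate.continuousAt
    exact c1.smul c2
  have htop : ContinuousAt (fun T : M43 => g.toBlocks₁₁ * T + g.toBlocks₁₂) S :=
    ((continuous_const.matrix_mul continuous_id).add continuous_const).continuousAt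
  have hmul : Continuous fun p : M43 × M33 => p.1 * p.2 := by
    exact continuous_fst.matrix_mul continuous_snd
  exact hmul.continuousAt.comp (htop.prodMk hinv)

lemma nrm_J7_mulVec (v : V7) : nrm (J7 *ᵥ v) = nrm v := by
  have hJt : J7ᵀ = J7 := by
    unfold J7
    rw [fromBlocks_transpose]
    simp
  have h : nrm (J7 *ᵥ v) ^ 2 = nrm v ^ 2 := by
    rw [nrm_sq, nrm_sq, Matrix.dotProduct_mulVec, Matrix.vecMul_mulVec, hJt, J7_mul_J7,
      Matrix.vecMul_one]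
  exact (pow_left_inj₀ (nrm_nonneg _) (nrm_nonneg _) two_ne_zero).mp h

lemma norm_J7_le : ‖J7‖ ≤ 1 := by
  apply opNorm_le zero_le_one
  intro x
  rw [nrm_J7_mulVec, one_mul]

lemma IsO.norm_inv_le {g : M7} (hg : IsO g) : ‖g⁻¹‖ ≤ ‖g‖ := by
  rw [hg.inv_eq]
  have h1 := opNorm_mul_le (J7 * gᵀ) J7
  have h2 := opNorm_mul_le J7 gᵀ
  rw [opNorm_transpose] at h2
  have h3 := norm_J7_le
  have h4 := norm_nonneg J7
  have h5 := norm_nonneg g
  have h6 : ‖J7 * gᵀ‖ ≤ ‖g‖ := by nlinarith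
  have h7 := norm_nonneg (J7 * gᵀ)
  nlinarith

/-- the norm of `g⁻¹` -/
lemma IsO.norm_inv {g : M7} (hg : IsO g) : ‖g⁻¹‖ = ‖g‖ := by
  apply le_antisymm hg.norm_inv_le
  have h := hg.inv.norm_inv_le
  have h1 : g⁻¹⁻¹ = g := Matrix.inv_eq_left_inv hg.mul_inv
  rwa [h1] at h

/-- a homomorphism with values in `O(4,3)` -/
lemma map_inv' {Γ : Type*} [Group Γ] (ρ : Γ →* M7) (γ : Γ) : ρ γ⁻¹ = (ρ γ)⁻¹ := by
  symm
  apply Matrix.inv_eq_left_inv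
  rw [← map_mul, inv_mul_cancel, map_one]

end F31343H
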