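import Pool.Agent.Lib_MP_f31343_h.Groups

/-!
# `O(4,3)` is transitive on `{q = -1}` with bounded transporters

For `q v = -1` let `ε` be the sign of the last coordinate of `v` and `n = v + ε e7`; then
`q n = -2 (1 + ε v₇) ≤ -2`, and `-ε` times the reflection in `n` maps `e7` to `v`.
-/

open Matrix F31343
open scoped Matrix.Norms.Operator

namespace F31343H

/-- the reflection in `n` (for the form) -/
noncomputable def rfl7 (n : V7) : M7 := 1 - (2 / qf n) • vecMulVec n (J7 *ᵥ n)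

private lemma J7_mulVec_inl (n : V7) (i : Fin 4) : (J7 *ᵥ n) (Sum.inl i) = n (Sum.inl i) := by
  rw [J7_mulVec]; rfl

private lemma J7_mulVec_inr (n : V7) (i : Fin 3) : (J7 *ᵥ n) (Sum.inr i) = -n (Sum.inr i) := by
  rw [J7_mulVec]; rfl

private lemma abs_J7_mulVec (n : V7) (i : I7) : |(J7 *ᵥ n) i| = |n i| := by
  rcases i with i | i
  · rw [J7_mulVec_inl]
  · rw [J7_mulVec_inr, abs_neg]

lemma rfl7_isO {n : V7} (hn : qf n ≠ 0) : IsO (rfl7 n) := by
  have hJn : J7 *ᵥ (J7 *ᵥ n) = n := by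
    rw [mulVec_mulVec, J7_mul_J7, one_mulVec]
  have h1 : (rfl7 n)ᵀ = 1 - (2 / qf n) • vecMulVec (J7 *ᵥ n) n := by
    unfold rfl7
    rw [transpose_sub, transpose_one, transpose_smul, transpose_vecMulVec]
  have hq : n ⬝ᵥ (J7 *ᵥ n) = qf n := by rw [qf_eq_bf, bf_eq]
  have h2 : vecMulVec (J7 *ᵥ n) n * J7 = vecMulVec (J7 *ᵥ n) (J7 *ᵥ n) := by
    rw [vecMulVec_mul]
    congr 1
    rw [← mulVec_transpose, J7_transpose]
  have h3 : J7 * vecMulVec n (J7 *ᵥ n) = vecMulVec (J7 *ᵥ n) (J7 *ᵥ n) := by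
    rw [mul_vecMulVec]
  have h4 : vecMulVec (J7 *ᵥ n) (J7 *ᵥ n) * vecMulVec n (J7 *ᵥ n) =
      qf n • vecMulVec (J7 *ᵥ n) (J7 *ᵥ n) := by
    rw [vecMulVec_mul_vecMulVec, dotProduct_comm, hq, vecMulVec_smul]
  unfold IsO
  rw [h1, Matrix.sub_mul, Matrix.one_mul, Matrix.smul_mul, h2]
  unfold rfl7
  rw [Matrix.mul_sub, Matrix.mul_one, Matrix.sub_mul, Matrix.mul_smul, h3, Matrix.smul_mul,
    Matrix.mul_smul, h4]
  have h5 : (2 / qf n) • (2 / qf n) • qf n • vecMulVec (J7 *ᵥ n) (J7 *ᵥ n) =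
      (2 / qf n) • vecMulVec (J7 *ᵥ n) (J7 *ᵥ n) + (2 / qf n) • vecMulVec (J7 *ᵥ n) (J7 *ᵥ n) := by
    rw [← add_smul, smul_smul, smul_smul]
    congr 1
    field_simp
    ring
  rw [h5]
  abel

lemma rfl7_mulVec (n x : V7) : rfl7 n *ᵥ x = x - (2 / qf n * bf x n) • n := by
  unfold rfl7
  rw [sub_mulVec, one_mulVec, smul_mulVec, vecMulVec_mulVec, bf_eq, dotProduct_comm (J7 *ᵥ n) x,
    op_smul_eq_smul, smul_smul]

private lemma abs_one_apply_le (i j : I7) : |(1 : M7) i j| ≤ 1 := by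
  by_cases h : i = j
  · subst h; simp
  · rw [Matrix.one_apply_ne h, abs_zero]; exact zero_le_one

lemma abs_rfl7_le {n : V7} {r : ℝ} (hq : 2 ≤ |qf n|) (hr : ∀ i, |n i| ≤ r) (i j : I7) :
    |rfl7 n i j| ≤ 1 + r * r := by
  have hr0 : 0 ≤ r := (abs_nonneg _).trans (hr i)
  have h0 : 0 < |qf n| := by linarith
  have h1 : |2 / qf n| ≤ 1 := by
    rw [abs_div, abs_two, div_le_one h0]
    exact hq
  have h2 : rfl7 n i j = (1 : M7) i j - (2 / qf n) * (n i * (J7 *ᵥ n) j) := rfl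
  have h3 : |n i * (J7 *ᵥ n) j| ≤ r * r := by
    rw [abs_mul, abs_J7_mulVec]
    exact mul_le_mul (hr i) (hr j) (abs_nonneg _) hr0
  have h4 : |(2 / qf n) * (n i * (J7 *ᵥ n) j)| ≤ r * r := by
    rw [abs_mul]
    calc |2 / qf n| * |n i * (J7 *ᵥ n) j| ≤ 1 * |n i * (J7 *ᵥ n) j| :=
          mul_le_mul_of_nonneg_right h1 (abs_nonneg _)
      _ ≤ r * r := by rw [one_mul]; exact h3
  rw [h2]
  calc |(1 : M7) i j - (2 / qf n) * (n i * (J7 *ᵥ n) j)|
      ≤ |(1 : M7) i j| + |(2 / qf n) * (n i * (J7 *ᵥ n) j)| := abs_sub _ _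
    _ ≤ 1 + r * r := add_le_add (abs_one_apply_le i j) h4

private lemma qf_e7 : qf e7 = -1 := by
  rw [qf_eq_bf, bf_eq, J7_e7, dotProduct_neg]
  unfold e7
  rw [single_one_dotProduct, Pi.single_eq_same]

private lemma bf_e7_left (v : V7) : bf e7 v = -v (Sum.inr 2) := by
  rw [bf_eq]
  unfold e7
  rw [single_one_dotProduct, J7_mulVec_inr]

private lemma bf_comm (v w : V7) : bf v w = bf w v := by
  unfold bf
  rw [dotProduct_comm (hi v), dotProduct_comm (lo v)]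

private lemma bf_add_right (u v w : V7) : bf u (v + w) = bf u v + bf u w := by
  rw [bf_eq, bf_eq, bf_eq, mulVec_add, dotProduct_add]

private lemma bf_smul_right (c : ℝ) (u v : V7) : bf u (c • v) = c * bf u v := by
  rw [bf_eq, bf_eq, mulVec_smul, dotProduct_smul, smul_eq_mul]

/-- `O(4,3)` is transitive on `{q = -1}`, with bounded transporters -/
theorem exists_transporter (R : ℝ) : ∃ R' : ℝ, ∀ v : V7, qf v = -1 → nrm (lo v) ≤ R →
    ∃ g : GL I7 ℝ, g ∈ O43.grp ∧ g.val *ᵥ e7 = v ∧ ∀ i j, |g.val i j| ≤ R' := by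
  refine ⟨1 + (R + 1) * (R + 1), fun v hv hR => ?_⟩
  -- the sign
  obtain ⟨ε, hε, hεv⟩ : ∃ ε : ℝ, (ε = 1 ∨ ε = -1) ∧ 0 ≤ ε * v (Sum.inr 2) := by
    rcases le_total 0 (v (Sum.inr 2)) with h | h
    · exact ⟨1, Or.inl rfl, by linarith⟩
    · exact ⟨-1, Or.inr rfl, by linarith⟩
  have hε2 : ε * ε = 1 := by rcases hε with h | h <;> rw [h] <;> norm_num
  have hεa : |ε| = 1 := by rcases hε with h | h <;> rw [h] <;> norm_num
  set n : V7 := v + ε • e7 with hn
  have hqn : qf n = -2 * (1 + ε * v (Sum.inr 2)) := by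
    have hvv : bf v v = -1 := hv
    have hee : bf e7 e7 = -1 := qf_e7
    rw [qf_eq_bf, hn, bf_add_right, bf_smul_right, bf_comm (v + ε • e7) v,
      bf_comm (v + ε • e7) e7, bf_add_right, bf_add_right, bf_smul_right, bf_smul_right,
      bf_comm v e7, bf_e7_left, hvv, hee]
    linear_combination (-1 : ℝ) * hε2
  have hbn : bf e7 n = -ε * (1 + ε * v (Sum.inr 2)) := by
    have hee : bf e7 e7 = -1 := qf_e7
    rw [hn, bf_add_right, bf_smul_right, bf_e7_left, hee]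
    linear_combination (v (Sum.inr 2)) * hε2
  have hpos : 0 < 1 + ε * v (Sum.inr 2) := by linarith
  have hq0 : qf n ≠ 0 := by
    rw [hqn]
    have : -2 * (1 + ε * v (Sum.inr 2)) < 0 := by linarith
    exact this.ne
  have hqa : 2 ≤ |qf n| := by
    rw [hqn, abs_mul, abs_neg, abs_two, abs_of_pos hpos]
    linarith
  -- entries of `v`
  have hR0 : 0 ≤ R := (nrm_nonneg _).trans hR
  have hhi : nrm (hi v) ≤ R := by
    have h1 : nrm (hi v) ^ 2 = nrm (lo v) ^ 2 - 1 := by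
      have := qf_eq_nrm v
      rw [hv] at this
      linarith
    apply le_of_sq_le_sq _ hR0
    nlinarith [nrm_nonneg (lo v)]
  have hvi : ∀ i, |v i| ≤ R := by
    intro i
    rcases i with i | i
    · exact (abs_le_nrm (hi v) i).trans hhi
    · exact (abs_le_nrm (lo v) i).trans hR
  have hei : ∀ i, |e7 i| ≤ 1 := by
    intro i
    unfold e7
    by_cases h : i = Sum.inr 2
    · rw [h, Pi.single_eq_same, abs_one]
    · rw [Pi.single_eq_of_ne h, abs_zero]; exact zero_le_one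
  have hni : ∀ i, |n i| ≤ R + 1 := by
    intro i
    have h1 : n i = v i + ε * e7 i := rfl
    rw [h1]
    calc |v i + ε * e7 i| ≤ |v i| + |ε * e7 i| := abs_add_le _ _
      _ ≤ R + 1 := by
        rw [abs_mul, hεa, one_mul]
        exact add_le_add (hvi i) (hei i)
  -- the matrix
  have hO : IsO (rfl7 n) := rfl7_isO hq0
  have hO' : IsO ((-ε) • rfl7 n) := by
    unfold IsO at hO ⊢
    rw [transpose_smul, Matrix.smul_mul, Matrix.smul_mul, Matrix.mul_smul, hO, smul_smul]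
    rw [show -ε * -ε = 1 by linarith, one_smul]
  refine ⟨⟨(-ε) • rfl7 n, ((-ε) • rfl7 n)⁻¹, hO'.mul_inv, hO'.inv_mul⟩, mem_O43.mpr hO', ?_, ?_⟩
  · show ((-ε) • rfl7 n) *ᵥ e7 = v
    rw [smul_mulVec, rfl7_mulVec, hbn, hqn]
    have h1 : 2 / (-2 * (1 + ε * v (Sum.inr 2))) * (-ε * (1 + ε * v (Sum.inr 2))) = ε := by
      field_simp
    rw [h1, smul_sub, smul_smul, show -ε * ε = -1 by linarith, hn, smul_add]
    module
  · intro i j
    show |(-ε) * rfl7 n i j| ≤ _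
    rw [abs_mul, abs_neg, hεa, one_mul]
    exact abs_rfl7_le hqa hni i j

end F31343H
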