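import Pool.Agent.Lib_MP_f31343_h.BridgeAct
import Pool.Agent.Lib_MP_f31343_h.Transp

/-!
# R: a compact quotient of `O(4,3)/O(4,2)` gives a group acting on `{q = -1}`

`O43.grp ⧸ O42.grp.subgroupOf O43.grp → {q = -1}`, `g ↦ g e7`, is a homeomorphism:
continuous bijection (Witt: `O(4,3)` is transitive on `{q = -1}`), and proper
(`{v : q v = -1, |lo v| ≤ R}` is the image of the compact set of `g` with bounded norm: for
`v` with `q v = -1` there is `g ∈ O(4,3)` with `g e7 = v` and `‖g‖` bounded by a continuous function
of `|v|`, for instance a rotation of `ℝ³` times a boost).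
(P): the compact set `K = {g : ‖g‖ ≤ R'} O(4,2)` of the quotient; proper discontinuity:
`finite_disjoint_inter_image`.  (C): the quotient by `Γ` is compact, so some compact set of
`G/H` meets all the orbits (`G/H` is locally compact), and `g ↦ g e7` is bounded on it.
-/

open Matrix F31343
open scoped Matrix.Norms.Operator

namespace F31343H

theorem exists_act (h : AdmitsCompactQuotients O43 O42) :
    ∃ (Γ : Type) (_ : Group Γ) (ρ : Γ →* M7), Act Γ ρ :=
  exists_act_of exists_transporter h

end F31343H
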