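import Pool.Agent.Lib_MP_f31343_h.Groups
import Pool.Agent.Lib_MP_f31343_dis.GDefs

/-!
# From a compact quotient of `O(4,3)/O(4,2)` to a group acting on `{q = -1}`

The transitivity of `O(4,3)` on `{q = -1}` (with bounded transporters) is a hypothesis here; it is
`exists_transporter` in `Bridge.lean`.
-/

open Matrix F31343
open scoped Matrix.Norms.Operator

namespace F31343H

/-- the bounded elements of `O(4,3)`, as matrices -/
def bdO (R' : ℝ) : Set M7 := {A | IsO A ∧ ∀ i j, |A i j| ≤ R'}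

lemma isCompact_bdO (R' : ℝ) : IsCompact (bdO R') := by
  have hc : IsCompact (Set.pi Set.univ fun _ : I7 => Set.pi Set.univ fun _ : I7 =>
      Set.Icc (-R') R') :=
    isCompact_univ_pi fun _ => isCompact_univ_pi fun _ => isCompact_Icc
  have hcl : IsClosed {A : M7 | IsO A} := by
    unfold IsO
    exact isClosed_eq (by fun_prop) continuous_const
  have h2 : bdO R' = (Set.pi Set.univ fun _ : I7 => Set.pi Set.univ fun _ : I7 =>
      Set.Icc (-R') R') ∩ {A : M7 | IsO A} := by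
    ext A
    constructor
    · rintro ⟨h1, h2⟩
      refine ⟨fun i _ j _ => ?_, h1⟩
      exact abs_le.1 (h2 i j)
    · rintro ⟨h1, h2⟩
      exact ⟨h2, fun i j => abs_le.2 (h1 i trivial j trivial)⟩
  rw [h2]
  exact hc.inter_right hcl

/-- a matrix of `O(4,3)` as an element of the group -/
noncomputable def toG (A : {A : M7 // IsO A}) : O43.grp :=
  ⟨⟨A.1, J7 * A.1ᵀ * J7, by rw [← A.2.inv_eq]; exact A.2.mul_inv,
    by rw [← A.2.inv_eq]; exact A.2.inv_mul⟩, mem_O43.2 A.2⟩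

lemma continuous_toG : Continuous toG := by
  refine Continuous.subtype_mk ?_ _
  refine Units.continuous_iff.2 ⟨?_, ?_⟩
  · exact continuous_subtype_val
  · change Continuous fun A : {A : M7 // IsO A} => J7 * A.1ᵀ * J7
    fun_prop

lemma isCompact_bdG (R' : ℝ) : IsCompact {g : O43.grp | ∀ i j, |g.1.val i j| ≤ R'} := by
  have h1 : IsCompact {A : {A : M7 // IsO A} | ∀ i j, |A.1 i j| ≤ R'} := by
    rw [Subtype.isCompact_iff]
    convert isCompact_bdO R' using 1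
    ext A
    constructor
    · rintro ⟨B, hB, rfl⟩
      exact ⟨B.2, hB⟩
    · rintro ⟨hA, hA'⟩
      exact ⟨⟨A, hA⟩, hA', rfl⟩
  convert h1.image continuous_toG using 1
  ext g
  constructor
  · intro hg
    refine ⟨⟨g.1.val, mem_O43.1 g.2⟩, hg, ?_⟩
    apply Subtype.ext
    apply Units.ext
    rfl
  · rintro ⟨A, hA, rfl⟩
    exact hA

/-- the function `g ↦ nrm (lo (g e7))` on the quotient -/
noncomputable def nlo : (O43.grp ⧸ O42.grp.subgroupOf O43.grp) → ℝ :=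
  Quotient.lift (fun g : O43.grp => nrm (lo (g.1.val *ᵥ e7))) (by
    intro a b hab
    have h1 : a⁻¹ * b ∈ O42.grp.subgroupOf O43.grp := QuotientGroup.leftRel_apply.1 hab
    have h2 : ((a⁻¹ * b : O43.grp) : GL I7 ℝ).val *ᵥ e7 = e7 := (mem_O42.1 h1).2
    have h3 : b.1.val *ᵥ e7 = a.1.val *ᵥ e7 := by
      have h4 : b.1.val = a.1.val * ((a⁻¹ * b : O43.grp) : GL I7 ℝ).val := by
        rw [← Units.val_mul, ← Subgroup.coe_mul, mul_inv_cancel_left]
      rw [h4, ← Matrix.mulVec_mulVec, h2]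
    change nrm (lo (a.1.val *ᵥ e7)) = nrm (lo (b.1.val *ᵥ e7))
    rw [h3])

lemma nlo_mk (g : O43.grp) : nlo (QuotientGroup.mk g) = nrm (lo (g.1.val *ᵥ e7)) := rfl

lemma continuous_nlo : Continuous nlo := by
  refine Continuous.quotient_lift ?_ _
  unfold nrm lo
  fun_prop

/-- from a compact quotient to the two properties (P) and (C) -/
theorem exists_act_of
    (ht : ∀ R : ℝ, ∃ R' : ℝ, ∀ v : V7, qf v = -1 → nrm (lo v) ≤ R →
      ∃ g : GL I7 ℝ, g ∈ O43.grp ∧ g.val *ᵥ e7 = v ∧ ∀ i j, |g.val i j| ≤ R')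
    (h : AdmitsCompactQuotients O43 O42) :
    ∃ (Γ : Type) (_ : Group Γ) (ρ : Γ →* M7), Act Γ ρ := by
  obtain ⟨Γ, -, hp, hc⟩ := h
  -- the representation
  let ρ : Γ →* M7 := (Units.coeHom M7).comp (O43.grp.subtype.comp Γ.subtype)
  have hρ : ∀ γ : Γ, ρ γ = ((γ : O43.grp) : GL I7 ℝ).val := fun _ => rfl
  refine ⟨Γ, inferInstance, ρ, ⟨fun γ => ?_, fun R => ?_, ?_⟩⟩
  · rw [hρ]; exact mem_O43.1 (γ : O43.grp).2
  · -- properness
    obtain ⟨R', hR'⟩ := ht R
    have hK : IsCompact ((QuotientGroup.mk : O43.grp → (O43.grp ⧸ O42.grp.subgroupOf O43.grp)) ''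
        {g : O43.grp | ∀ i j, |g.1.val i j| ≤ R'}) :=
      (isCompact_bdG R').image continuous_quot_mk
    refine (hp.finite_disjoint_inter_image hK hK).subset ?_
    rintro γ ⟨v, hv, hv1, hv2⟩
    obtain ⟨g, hg, hgv, hgb⟩ := hR' v hv hv1
    have hO : IsO (ρ γ) := by rw [hρ]; exact mem_O43.1 (γ : O43.grp).2
    obtain ⟨g', hg', hgv', hgb'⟩ := hR' (ρ γ *ᵥ v) (by rw [hO.qf_mulVec, hv]) hv2
    change Set.Nonempty _
    refine ⟨QuotientGroup.mk (⟨g', hg'⟩ : O43.grp), ?_, ?_⟩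
    · refine ⟨QuotientGroup.mk (⟨g, hg⟩ : O43.grp), ⟨(⟨g, hg⟩ : O43.grp), hgb, rfl⟩, ?_⟩
      change (QuotientGroup.mk ((γ : O43.grp) * (⟨g, hg⟩ : O43.grp)) : (O43.grp ⧸ O42.grp.subgroupOf O43.grp))
        = QuotientGroup.mk (⟨g', hg'⟩ : O43.grp)
      rw [QuotientGroup.eq]
      change (((γ : O43.grp) * (⟨g, hg⟩ : O43.grp))⁻¹ * (⟨g', hg'⟩ : O43.grp) : O43.grp).1 ∈ O42.grp
      refine mem_O42.2 ⟨mem_O43.1 (((γ : O43.grp) * (⟨g, hg⟩ : O43.grp))⁻¹ * (⟨g', hg'⟩ : O43.grp) : O43.grp).2, ?_⟩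
      change (((((γ : O43.grp) : GL I7 ℝ) * g)⁻¹ * g' : GL I7 ℝ)).val *ᵥ e7 = e7
      have h1 : ((((γ : O43.grp) : GL I7 ℝ) * g : GL I7 ℝ)).val *ᵥ e7 = g'.val *ᵥ e7 := by
        rw [Units.val_mul, ← Matrix.mulVec_mulVec, hgv, hgv', hρ]
      rw [Units.val_mul, ← Matrix.mulVec_mulVec, ← h1, Matrix.mulVec_mulVec, Units.inv_mul,
        Matrix.one_mulVec]
    · exact ⟨(⟨g', hg'⟩ : O43.grp), hgb', rfl⟩
  · -- cocompactness
    let _ : Setoid (O43.grp ⧸ O42.grp.subgroupOf O43.grp) :=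
      MulAction.orbitRel Γ (O43.grp ⧸ O42.grp.subgroupOf O43.grp)
    have : ContinuousConstSMul Γ (O43.grp ⧸ O42.grp.subgroupOf O43.grp) :=
      ⟨fun γ => continuous_const_smul (γ : O43.grp)⟩
    have hopen : IsOpenMap (Quotient.mk' : (O43.grp ⧸ O42.grp.subgroupOf O43.grp) →
        Quotient (MulAction.orbitRel Γ (O43.grp ⧸ O42.grp.subgroupOf O43.grp))) :=
      isOpenMap_quotient_mk'_mul
    let U : ℕ → Set (MulAction.orbitRel.Quotient Γ (O43.grp ⧸ O42.grp.subgroupOf O43.grp)) :=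
      fun n => Quotient.mk' '' {x | nlo x < n}
    have hU : ∀ n, IsOpen (U n) := fun n =>
      hopen _ (isOpen_lt continuous_nlo continuous_const)
    have hcov : (Set.univ : Set (MulAction.orbitRel.Quotient Γ
        (O43.grp ⧸ O42.grp.subgroupOf O43.grp))) ⊆ ⋃ n, U n := by
      intro x _
      induction x using Quotient.inductionOn' with
      | h x =>
        obtain ⟨n, hn⟩ := exists_nat_gt (nlo x)
        exact Set.mem_iUnion.2 ⟨n, x, hn, rfl⟩
    have hmono : Monotone U := by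
      intro m n hmn
      rintro _ ⟨x, hx, rfl⟩
      refine ⟨x, ?_, rfl⟩
      have : (m : ℝ) ≤ n := by exact_mod_cast hmn
      exact lt_of_lt_of_le hx this
    obtain ⟨N, hN⟩ := isCompact_univ.elim_directed_cover U hU hcov
      (directed_of_isDirected_le hmono)
    refine ⟨N, fun v hv => ?_⟩
    obtain ⟨R', hR'⟩ := ht (nrm (lo v))
    obtain ⟨g, hg, hgv, -⟩ := hR' v hv le_rfl
    obtain ⟨x, hx, hxg⟩ := hN (Set.mem_univ
      (Quotient.mk' (QuotientGroup.mk (⟨g, hg⟩ : O43.grp) :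
        (O43.grp ⧸ O42.grp.subgroupOf O43.grp))))
    have h1 := Quotient.eq'.1 hxg
    obtain ⟨γ, hγ⟩ := MulAction.orbitRel_apply.1 h1
    refine ⟨γ⁻¹, ?_⟩
    rw [inv_inv]
    have h2 : nlo x = nrm (lo (ρ γ *ᵥ v)) := by
      rw [← hγ]
      change nlo (QuotientGroup.mk ((γ : O43.grp) * (⟨g, hg⟩ : O43.grp))) = _
      rw [nlo_mk]
      change nrm (lo ((((γ : O43.grp) : GL I7 ℝ) * g : GL I7 ℝ).val *ᵥ e7)) = _
      rw [Units.val_mul, ← Matrix.mulVec_mulVec, hgv, hρ]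
    rw [← h2]
    exact le_of_lt hx

end F31343H
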