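import Pool.Agent.Lib_MP_f31343_h.Norm
import Pool.Agent.Lib_MP_f31343_h.Alg

/-!
# B1: the chart

`E_S = {(S u, u)}`.  `nv e c f ∈ E_S` iff `S (f - e) = snoc (e + f) c`.
* existence of the parameter: `S` isometric with `det (1 - S0ᵀ S) ≠ 0`: `e = (S' u - u)/2`,
  `S' = S0ᵀ S` (upper `3 × 3` block), is an isomorphism `u ↦ e`; `c = x·e` and `f = Q e` are linear
  in `e`; isotropy `4 e·Qe + (x·e)² = 0` for all `e` gives `Q + Qᵀ = -x xᵀ / 2`, and the
  antisymmetric part of `Q` is `Y ×`.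
* uniqueness of `S` for given `p`: the vectors `ff p e - e` fill `ℝ³`
  (`|ff p e - e|² = |ff p e + e|² + (x·e)²`, so if it vanishes then `ff p e = e`, `ff p e = -e`).
* `bf (ph p e) (ph p₀ e') = om p₀ p e e'` (Lagrange identities).
* the matrix of `om p₀ p` is `-(1/2) d dᵀ + [Yt]`, determinant `-(d·Yt)²/2 = -2 (d·(Y - Y₀))²`;
  kernel vector when `d·Yt = 0`: if `d·Yt = 0` then `om p₀ p e · = 0` for some `e ≠ 0` (take
  `e = Yt` if `Yt ≠ 0`, any `e ⊥ d` otherwise).  If `om p₀ p e · = 0`, `e ≠ 0`, then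
  `ph p e ⊥ E_{S₀}`, i.e. `S₀ᵀ S` fixes `u = lo (ph p e) ≠ 0`.
-/

open Matrix Filter Topology
open scoped Matrix.Norms.L2Operator

namespace F31343H

lemma hi_nv (e : V3) (c : ℝ) (f : V3) : hi (nv e c f) = Fin.snoc (e + f) c := rfl
lemma lo_nv (e : V3) (c : ℝ) (f : V3) : lo (nv e c f) = f - e := rfl

lemma snoc_dot (a b : V3) (c c' : ℝ) :
    (Fin.snoc a c : V4) ⬝ᵥ (Fin.snoc b c' : V4) = a ⬝ᵥ b + c * c' := by
  simp only [dotProduct, Fin.sum_univ_castSucc, Fin.snoc_castSucc, Fin.snoc_last]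

lemma bf_nv (e : V3) (c : ℝ) (f : V3) (e' : V3) (c' : ℝ) (f' : V3) :
    bf (nv e c f) (nv e' c' f') = 2 * (e ⬝ᵥ f') + 2 * (e' ⬝ᵥ f) + c * c' := by
  unfold bf
  rw [hi_nv, hi_nv, lo_nv, lo_nv, snoc_dot]
  simp only [dotProduct, Fin.sum_univ_three, Pi.add_apply, Pi.sub_apply]
  ring

lemma qf_nv (e : V3) (c : ℝ) (f : V3) : qf (nv e c f) = 4 * (e ⬝ᵥ f) + c ^ 2 := by
  change bf (nv e c f) (nv e c f) = _
  rw [bf_nv]
  ring

lemma bf_ph (p₀ p : V3 × V3) (e e' : V3) : bf (ph p e) (ph p₀ e') = om p₀ p e e' := by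
  unfold ph
  rw [bf_nv]
  unfold om Yt ff
  simp only [dotProduct, Fin.sum_univ_three, Pi.add_apply, Pi.sub_apply, Pi.smul_apply,
    smul_eq_mul, cross_apply, cons_val_zero, cons_val_one, cons_val]
  ring

lemma qf_ph (p : V3 × V3) (e : V3) : qf (ph p e) = 0 := by
  change bf (ph p e) (ph p e) = 0
  rw [bf_ph]
  unfold om Yt
  simp

/-- the graph of `S` contains `v` -/
lemma IsPl.hi_ph {S : M43} {p : V3 × V3} (h : IsPl S p) (e : V3) :
    S *ᵥ lo (ph p e) = hi (ph p e) := by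
  unfold ph
  rw [lo_nv, hi_nv]
  exact h e

lemma lo_ph (p : V3 × V3) (e : V3) : lo (ph p e) = ff p e - e := rfl

lemma ff_add (p : V3 × V3) (e e' : V3) : ff p (e + e') = ff p e + ff p e' := by
  unfold ff
  rw [dotProduct_add, map_add, add_div, neg_add, add_smul]
  abel

lemma ff_smul (p : V3 × V3) (t : ℝ) (e : V3) : ff p (t • e) = t • ff p e := by
  unfold ff
  rw [dotProduct_smul, map_smul, smul_add, smul_smul, smul_eq_mul]
  congr 2
  ring

/-- `e ↦ lo (ph p e)` as a linear map -/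
noncomputable def loL (p : V3 × V3) : V3 →ₗ[ℝ] V3 where
  toFun e := ff p e - e
  map_add' e e' := by rw [ff_add]; abel
  map_smul' t e := by rw [ff_smul, RingHom.id_apply, smul_sub]

lemma loL_apply (p : V3 × V3) (e : V3) : loL p e = lo (ph p e) := rfl

lemma eq_zero_of_lo_ph {p : V3 × V3} {e : V3} (h : lo (ph p e) = 0) : e = 0 := by
  have h1 := qf_ph p e
  rw [qf_eq_nrm, h, nrm_zero] at h1
  have h2 : nrm (hi (ph p e)) ^ 2 = 0 := by linarith
  have h3 : hi (ph p e) = 0 := nrm_eq_zero.mp (pow_eq_zero_iff (by norm_num) |>.mp h2)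
  rw [lo_ph] at h
  funext i
  have h4 := congrFun h i
  have h5 := congrFun h3 i.castSucc
  change (Fin.snoc (e + ff p e) (p.1 ⬝ᵥ e) : V4) i.castSucc = 0 at h5
  rw [Fin.snoc_castSucc] at h5
  simp only [Pi.add_apply, Pi.sub_apply, Pi.zero_apply] at h4 h5 ⊢
  linarith

lemma loL_injective (p : V3 × V3) : Function.Injective (loL p) := by
  rw [← LinearMap.ker_eq_bot, LinearMap.ker_eq_bot']
  intro e he
  exact eq_zero_of_lo_ph he

/-- every vector of the graph of `S` is `ph p e` for some `e` -/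
lemma IsPl.exists_ph {S : M43} {p : V3 × V3} (h : IsPl S p) (u : V3) :
    ∃ e, lo (ph p e) = u ∧ hi (ph p e) = S *ᵥ u := by
  obtain ⟨e, he⟩ := (LinearMap.injective_iff_surjective.mp (loL_injective p)) u
  rw [loL_apply] at he
  exact ⟨e, he, by rw [← h.hi_ph e, he]⟩

lemma nv_inj {e e' : V3} {c c' : ℝ} {f f' : V3} (h : nv e c f = nv e' c' f') :
    e = e' ∧ c = c' ∧ f = f' := by
  have h1 : ∀ i : Fin 3, e i + f i = e' i + f' i := fun i => by
    have := congrFun h (Sum.inl i.castSucc)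
    change (Fin.snoc (e + f) c : V4) i.castSucc = (Fin.snoc (e' + f') c' : V4) i.castSucc at this
    rwa [Fin.snoc_castSucc, Fin.snoc_castSucc] at this
  have h2 : ∀ i : Fin 3, f i - e i = f' i - e' i := fun i => congrFun h (Sum.inr i)
  have h3 : c = c' := by
    have := congrFun h (Sum.inl (Fin.last 3))
    change (Fin.snoc (e + f) c : V4) (Fin.last 3) = (Fin.snoc (e' + f') c' : V4) (Fin.last 3)
      at this
    rwa [Fin.snoc_last, Fin.snoc_last] at this
  refine ⟨?_, h3, ?_⟩ <;> funext i <;> linarith [h1 i, h2 i]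

/-- null coordinates exist -/
lemma exists_nv (v : V7) : ∃ e c f, v = nv e c f := by
  let e : V3 := fun i => (v (Sum.inl i.castSucc) - v (Sum.inr i)) / 2
  let f : V3 := fun i => (v (Sum.inl i.castSucc) + v (Sum.inr i)) / 2
  refine ⟨e, v (Sum.inl (Fin.last 3)), f, ?_⟩
  funext i
  rcases i with i | i
  · change v (Sum.inl i) = (Fin.snoc (e + f) (v (Sum.inl (Fin.last 3))) : V4) i
    refine Fin.lastCases ?_ (fun i => ?_) i
    · rw [Fin.snoc_last]
    · rw [Fin.snoc_castSucc]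
      simp only [Pi.add_apply, e, f]
      ring
  · change v (Sum.inr i) = (f - e) i
    simp only [Pi.sub_apply, e, f]
    ring

theorem IsPl.unique {S S' : M43} {p : V3 × V3} (h : IsPl S p) (h' : IsPl S' p) : S = S' := by
  refine Matrix.ext_of_mulVec_single fun i => ?_
  obtain ⟨e, he1, he2⟩ := h.exists_ph (Pi.single i 1)
  rw [← he2, ← h'.hi_ph e, he1]

theorem IsPl.unique' {S : M43} {p p' : V3 × V3} (h : IsPl S p) (h' : IsPl S p') : p = p' := by
  have key : ∀ e, p.1 ⬝ᵥ e = p'.1 ⬝ᵥ e ∧ ff p e = ff p' e := by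
    intro e
    obtain ⟨e1, he1, he2⟩ := h'.exists_ph (lo (ph p e))
    rw [h.hi_ph e] at he2
    have h3 : ph p' e1 = ph p e := by
      rw [← elim_hi_lo (ph p' e1), he1, he2, elim_hi_lo]
    obtain ⟨h4, h5, h6⟩ := nv_inj h3
    subst h4
    exact ⟨h5.symm, h6.symm⟩
  have h1 : p.1 = p'.1 := dotProduct_eq _ _ fun e => (key e).1
  have h2 : p.2 = p'.2 := by
    have h3 : ∀ e, p.2 ⨯₃ e = p'.2 ⨯₃ e := by
      intro e
      have := (key e).2
      unfold ff at this
      rw [h1] at this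
      exact add_left_cancel this
    have a := h3 ![1, 0, 0]
    have b := h3 ![0, 1, 0]
    have a1 := congrFun a 1
    have a2 := congrFun a 2
    have b2 := congrFun b 2
    simp [cross_apply] at a1 a2 b2
    funext i
    fin_cases i
    · exact b2
    · exact a2
    · exact a1
  exact Prod.ext h1 h2

lemma S0T_snoc (a : V3) (c : ℝ) : S0ᵀ *ᵥ (Fin.snoc a c : V4) = a := by
  funext i
  simp only [S0, mulVec, dotProduct, transpose_apply, of_apply, ite_mul, one_mul, zero_mul,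
    Finset.sum_ite_eq', Finset.mem_univ, if_true, Fin.snoc_castSucc]

/-- `S` and `S0` are transverse -/
theorem IsPl.transv {S : M43} {p : V3 × V3} (hS : IsIsom S) (h : IsPl S p) :
    (1 - S0ᵀ * S).det ≠ 0 := by
  intro h0
  obtain ⟨u, hu, hu'⟩ := exists_mulVec_eq_zero_iff.mpr h0
  obtain ⟨e, he1, he2⟩ := h.exists_ph u
  rw [sub_mulVec, one_mulVec, ← mulVec_mulVec, ← he2, sub_eq_zero] at hu'
  change u = S0ᵀ *ᵥ (Fin.snoc (e + ff p e) (p.1 ⬝ᵥ e) : V4) at hu'
  rw [S0T_snoc, ← he1, lo_ph] at hu'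
  have he : e = 0 := by
    funext i
    have := congrFun hu' i
    simp only [Pi.add_apply, Pi.sub_apply, Pi.zero_apply] at this ⊢
    linarith
  apply hu
  rw [← he1, he, ← loL_apply, map_zero]

/-- an antisymmetric matrix is a cross product -/
lemma exists_cross {M : M33} (h : ∀ e : V3, e ⬝ᵥ (M *ᵥ e) = 0) :
    ∃ Y : V3, ∀ e, M *ᵥ e = Y ⨯₃ e := by
  have hd : ∀ i j, M i j + M j i = 0 := by
    intro i j
    have h1 := h (Pi.single i 1)
    have h2 := h (Pi.single j 1)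
    have h3 := h (Pi.single i 1 + Pi.single j 1)
    rw [mulVec_add, add_dotProduct, dotProduct_add, dotProduct_add, h1, h2] at h3
    simp only [mulVec_single_one, single_dotProduct, one_mul] at h3
    simpa [add_comm] using h3
  refine ⟨![M 2 1, M 0 2, M 1 0], fun e => ?_⟩
  have h00 := hd 0 0
  have h11 := hd 1 1
  have h22 := hd 2 2
  have h01 := hd 0 1
  have h02 := hd 0 2
  have h12 := hd 1 2
  have e00 : M 0 0 = 0 := by linarith
  have e11 : M 1 1 = 0 := by linarith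
  have e22 : M 2 2 = 0 := by linarith
  have e01 : M 0 1 = -M 1 0 := by linarith
  have e12 : M 1 2 = -M 2 1 := by linarith
  have e20 : M 2 0 = -M 0 2 := by linarith
  funext i
  fin_cases i
  · simp [mulVec, dotProduct, Fin.sum_univ_three, cross_apply, e00, e01]
    ring
  · simp [mulVec, dotProduct, Fin.sum_univ_three, cross_apply, e11, e12]
    ring
  · simp [mulVec, dotProduct, Fin.sum_univ_three, cross_apply, e22, e20]
    ring

theorem exists_isPl {S : M43} (hS : IsIsom S) (h : (1 - S0ᵀ * S).det ≠ 0) :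
    ∃ p, IsPl S p := by
  set S' : M33 := S0ᵀ * S with hS'
  set B : M33 := (1 / 2 : ℝ) • (S' - 1) with hB
  have hBdet : B.det ≠ 0 := by
    rw [hB, det_smul, ← neg_sub, det_neg]
    simp [h]
  have hBA : B * B⁻¹ = 1 := mul_nonsing_inv _ (isUnit_iff_ne_zero.mpr hBdet)
  set A : M33 := B⁻¹ with hA
  -- `x`
  set x : V3 := (fun j => S (Fin.last 3) j) ᵥ* A with hx
  have hSx : ∀ e : V3, (S *ᵥ (A *ᵥ e)) (Fin.last 3) = x ⬝ᵥ e := by
    intro e
    rw [hx, ← dotProduct_mulVec]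
    rfl
  have hS'A : ∀ e : V3, S' *ᵥ (A *ᵥ e) = A *ᵥ e + (2 : ℝ) • e := by
    intro e
    have h1 : B *ᵥ (A *ᵥ e) = e := by rw [mulVec_mulVec, hBA, one_mulVec]
    rw [hB, smul_mulVec, sub_mulVec, one_mulVec] at h1
    have h2 : S' *ᵥ (A *ᵥ e) - A *ᵥ e = (2 : ℝ) • e := by
      conv_rhs => rw [← h1]
      rw [smul_smul]
      norm_num
    rw [← h2]
    abel
  have hSu : ∀ e : V3, S *ᵥ (A *ᵥ e) = Fin.snoc (A *ᵥ e + (2 : ℝ) • e) (x ⬝ᵥ e) := by
    intro e
    funext i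
    refine Fin.lastCases ?_ (fun i => ?_) i
    · rw [Fin.snoc_last, hSx]
    · rw [Fin.snoc_castSucc, ← hS'A e, hS', ← mulVec_mulVec]
      simp only [S0, mulVec, dotProduct, transpose_apply, of_apply, ite_mul, one_mul, zero_mul,
        Finset.sum_ite_eq', Finset.mem_univ, if_true]
  -- isotropy
  have hiso : ∀ e : V3, 4 * (e ⬝ᵥ (A *ᵥ e + e)) + (x ⬝ᵥ e) ^ 2 = 0 := by
    intro e
    rw [← qf_nv e (x ⬝ᵥ e) (A *ᵥ e + e), qf_eq_nrm, hi_nv, lo_nv]
    have h1 : e + (A *ᵥ e + e) = A *ᵥ e + (2 : ℝ) • e := by rw [two_smul]; abel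
    have h2 : A *ᵥ e + e - e = A *ᵥ e := by abel
    rw [h1, h2, ← hSu e, hS.nrm_eq, sub_self]
  set M : M33 := A + 1 + (1 / 4 : ℝ) • vecMulVec x x with hM
  have hMe : ∀ e : V3, M *ᵥ e = A *ᵥ e + e + ((x ⬝ᵥ e) / 4) • x := by
    intro e
    rw [hM, add_mulVec, add_mulVec, one_mulVec, smul_mulVec, vecMulVec_mulVec]
    congr 1
    funext i
    simp
    ring
  obtain ⟨Y, hY⟩ := exists_cross (M := M) (fun e => by
    rw [hMe, dotProduct_add, dotProduct_smul, dotProduct_comm e x, smul_eq_mul]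
    have := hiso e
    linarith)
  refine ⟨(x, Y), fun e => ?_⟩
  have hff : ff (x, Y) e = A *ᵥ e + e := by
    unfold ff
    rw [← hY e, hMe]
    simp only
    rw [neg_smul]
    abel
  rw [hff]
  have h2 : A *ᵥ e + e - e = A *ᵥ e := by abel
  have h1 : e + (A *ᵥ e + e) = A *ᵥ e + (2 : ℝ) • e := by rw [two_smul]; abel
  rw [h2, h1, hSu e]

/-- a vector orthogonal to `d` -/
lemma exists_perp (d : V3) : ∃ e : V3, e ≠ 0 ∧ d ⬝ᵥ e = 0 := by
  by_cases h : d = 0
  · refine ⟨![1, 0, 0], ?_, by rw [h, zero_dotProduct]⟩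
    intro h0
    have := congrFun h0 0
    simp at this
  · by_cases h0 : d 0 = 0 ∧ d 1 = 0
    · refine ⟨![1, 0, 0], ?_, ?_⟩
      · intro h0
        have := congrFun h0 0
        simp at this
      · simp [dotProduct, Fin.sum_univ_three, h0.1]
    · refine ⟨![d 1, -d 0, 0], ?_, ?_⟩
      · intro h1
        apply h0
        have h2 := congrFun h1 0
        have h3 := congrFun h1 1
        simp at h2 h3
        exact ⟨h3, h2⟩
      · simp only [dotProduct, Fin.sum_univ_three, cons_val_zero, cons_val_one, cons_val]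
        ring

/-- the degenerate case of the form `om` -/
lemma exists_om_ker {p₀ p : V3 × V3} (h0 : (p.1 - p₀.1) ⬝ᵥ (p.2 - p₀.2) = 0) :
    ∃ e : V3, e ≠ 0 ∧ ∀ e', om p₀ p e e' = 0 := by
  have h1 : (p.1 - p₀.1) ⬝ᵥ Yt p₀ p = 0 := by
    unfold Yt
    rw [dotProduct_sub, dotProduct_smul, h0, dotProduct_smul, dot_cross_self]
    simp
  by_cases hY : Yt p₀ p = 0
  · obtain ⟨e, he, he'⟩ := exists_perp (p.1 - p₀.1)
    refine ⟨e, he, fun e' => ?_⟩
    unfold om
    rw [he', hY]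
    simp
  · refine ⟨Yt p₀ p, hY, fun e' => ?_⟩
    unfold om
    rw [h1]
    simp

theorem det_eq_zero_of_dot {S S' : M43} {p p' : V3 × V3} (hS : IsIsom S) (hS' : IsIsom S')
    (h : IsPl S p) (h' : IsPl S' p') (h0 : (p.1 - p'.1) ⬝ᵥ (p.2 - p'.2) = 0) :
    (1 - Sᵀ * S').det = 0 := by
  obtain ⟨e, he, hom⟩ := exists_om_ker h0
  set u : V3 := lo (ph p e) with hu
  have hu0 : u ≠ 0 := fun hu0 => he (eq_zero_of_lo_ph hu0)
  have key : (1 - S'ᵀ * S) *ᵥ u = 0 := by
    have h1 : ∀ w : V3, ((1 - S'ᵀ * S) *ᵥ u) ⬝ᵥ w = 0 := by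
      intro w
      obtain ⟨e', he1, he2⟩ := h'.exists_ph w
      have h2 := bf_ph p' p e e'
      rw [hom e'] at h2
      unfold bf at h2
      rw [he1, he2, ← h.hi_ph e, ← hu] at h2
      rw [sub_mulVec, one_mulVec, sub_dotProduct, ← mulVec_mulVec, dot_mulVec_left,
        transpose_transpose]
      linarith
    exact dotProduct_eq_zero _ h1
  have h3 : (1 - S'ᵀ * S).det = 0 := exists_mulVec_eq_zero_iff.mp ⟨u, hu0, key⟩
  rw [← det_transpose, transpose_sub, transpose_one, transpose_mul, transpose_transpose] at h3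
  exact h3

end F31343H
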