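import Pool.Agent.Lib_MP_f31343_h.ChartSec
import Pool.Agent.Lib_MP_f31343_h.Alg

/-!
# B3 = Step 5 of note 2741: dynamics in the chart

`Λ` a limit set with `S0 ∈ Λ`, `p₀` the parameter of `S ∈ Λ`, `g` from `dyn S S0`,
`N e = den g S (lo (ph p₀ e))`, `W e = den g T (lo (ph p e))`, `A = act g S`, `B = act g S0`,
`T₁ = act g T`.
* pairing with `g E_{S0}`: `(1 - Bᵀ T₁) (W e) = (1 - Bᵀ A) (N e)`;
* pairing with `g E_S`: `N e' · (1 - Aᵀ T₁) (W e) = - om p₀ p e e'`.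
If `|d·e| ≤ |N e|` for all `e`, take `e₀` parallel to `Yt p₀ p` with `|N e₀| = 1`; `w = W e₀`:
`|(1 - Aᵀ T₁) w| ≤ 1/2`, `c ≤ |(1 - Bᵀ T₁) w| ≤ 2`, so `|A w - T₁ w|² ≤ |w|`,
`|B w - T₁ w|² ≤ 4 |w|`, `c |w| ≤ |A w - B w| ≤ 3 √|w|`, `|w| ≤ 9/c²` and
`‖1 - Bᵀ T₁‖ ≥ c³/9`; compactness of `Λ × Λ` gives `|det (1 - Bᵀ T₁)| ≥ c₂`, so `|W e| ≤ C |N e|`
for all `e`, and `|om p₀ p e e'| ≤ C |N e| |N e'|`.
`κ` is the unit vector that minimises `|N κ|`, `r = |N κ|`.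
-/

open Matrix Filter Topology
open scoped Matrix.Norms.L2Operator

namespace F31343H

/-! ### small lemmas on `nrm` for `V3` -/

lemma CD.nrm_le_of_sq {n : Type*} [Fintype n] {x : n → ℝ} {r : ℝ} (hr : 0 ≤ r)
    (h : x ⬝ᵥ x ≤ r ^ 2) : nrm x ≤ r := by
  have h1 := nrm_sq x
  have h2 := nrm_nonneg x
  nlinarith

lemma CD.bf_graph (A B : M43) (a b : V3) :
    bf (Sum.elim (A *ᵥ a) a) (Sum.elim (B *ᵥ b) b) = -(a ⬝ᵥ ((1 - Aᵀ * B) *ᵥ b)) := by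
  have h1 : hi (Sum.elim (A *ᵥ a) a) = A *ᵥ a := rfl
  have h2 : lo (Sum.elim (A *ᵥ a) a) = a := rfl
  have h3 : hi (Sum.elim (B *ᵥ b) b) = B *ᵥ b := rfl
  have h4 : lo (Sum.elim (B *ᵥ b) b) = b := rfl
  unfold bf
  rw [h1, h2, h3, h4, Matrix.sub_mulVec, Matrix.one_mulVec, ← Matrix.mulVec_mulVec,
    dotProduct_sub, Matrix.dotProduct_mulVec a Aᵀ, Matrix.vecMul_transpose]
  ring

lemma CD.S0_mulVec (f : V3) : S0 *ᵥ f = Fin.snoc f 0 := by
  ext i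
  refine Fin.lastCases ?_ (fun j => ?_) i
  · rw [Fin.snoc_last]
    simp [S0, Matrix.mulVec, dotProduct, Fin.ext_iff]
    apply Finset.sum_eq_zero
    intro x _
    rw [if_neg (by omega)]
  · rw [Fin.snoc_castSucc]
    simp [S0, Matrix.mulVec, dotProduct]

lemma CD.dot_snoc (a b : V3) (s t : ℝ) :
    (Fin.snoc a s : V4) ⬝ᵥ (Fin.snoc b t : V4) = a ⬝ᵥ b + s * t := by
  simp only [dotProduct, Fin.sum_univ_castSucc, Fin.snoc_castSucc, Fin.snoc_last]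

lemma CD.bf_nv (e f e' f' : V3) (c c' : ℝ) :
    bf (nv e c f) (nv e' c' f') = 2 * (e ⬝ᵥ f' + e' ⬝ᵥ f) + c * c' := by
  have h1 : hi (nv e c f) = (Fin.snoc (e + f) c : V4) := rfl
  have h2 : lo (nv e c f) = f - e := rfl
  have h3 : hi (nv e' c' f') = (Fin.snoc (e' + f') c' : V4) := rfl
  have h4 : lo (nv e' c' f') = f' - e' := rfl
  unfold bf
  rw [h1, h2, h3, h4, CD.dot_snoc]
  simp only [dotProduct, Fin.sum_univ_three, Pi.add_apply, Pi.sub_apply]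
  ring

lemma CD.bf_ph (p₀ p : V3 × V3) (e e' : V3) : bf (ph p e) (ph p₀ e') = om p₀ p e e' := by
  unfold ph
  rw [CD.bf_nv]
  simp only [ff, om, Yt, dotProduct, Fin.sum_univ_three, Pi.add_apply, Pi.smul_apply,
    Pi.sub_apply, smul_eq_mul, cross_apply, Matrix.cons_val_zero,
    Matrix.cons_val_one, Matrix.cons_val]
  ring

lemma CD.bf_ph_S0 (p : V3 × V3) (e f : V3) :
    bf (ph p e) (Sum.elim (S0 *ᵥ f) f) = 2 * (e ⬝ᵥ f) := by
  have h : (Sum.elim (S0 *ᵥ f) f : V7) = nv 0 0 f := by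
    unfold nv
    rw [CD.S0_mulVec]
    simp
  rw [h]
  unfold ph
  rw [CD.bf_nv]
  simp

lemma CD.ph_eq {S : M43} {p : V3 × V3} (hp : IsPl S p) (e : V3) :
    ph p e = Sum.elim (S *ᵥ (ff p e - e)) (ff p e - e) := by
  unfold ph nv
  rw [hp e]

/-- `e ↦ ff p e - e` as a linear map -/
noncomputable def CD.fl (p : V3 × V3) : V3 →ₗ[ℝ] V3 where
  toFun e := ff p e - e
  map_add' e e' := by
    unfold ff
    rw [dotProduct_add, LinearMap.map_add]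
    ext i
    simp only [Pi.add_apply, Pi.smul_apply, Pi.sub_apply, smul_eq_mul]
    ring
  map_smul' c e := by
    unfold ff
    rw [dotProduct_smul, LinearMap.map_smul]
    ext i
    simp only [Pi.add_apply, Pi.smul_apply, Pi.sub_apply, smul_eq_mul, RingHom.id_apply]
    ring

lemma CD.fl_apply (p : V3 × V3) (e : V3) : CD.fl p e = ff p e - e := rfl

lemma CD.fl_inj {S : M43} {p : V3 × V3} (hp : IsPl S p) {e : V3} (h : CD.fl p e = 0) : e = 0 := by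
  rw [CD.fl_apply] at h
  have h1 := hp e
  rw [h, Matrix.mulVec_zero] at h1
  have h2 : e + ff p e = 0 := by
    ext i
    have := congrFun h1 (Fin.castSucc i)
    rw [Fin.snoc_castSucc] at this
    simpa using this.symm
  have h3 : ff p e = e := sub_eq_zero.mp h
  rw [h3] at h2
  ext i
  have := congrFun h2 i
  simp only [Pi.add_apply, Pi.zero_apply] at this
  simp only [Pi.zero_apply]
  linarith

/-- entries are bounded by the operator norm -/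
lemma CD.entry_le (A : M33) (i j : Fin 3) : |A i j| ≤ ‖A‖ := by
  have h1 : A i j = (Pi.single i (1 : ℝ) : V3) ⬝ᵥ (A *ᵥ (Pi.single j (1 : ℝ) : V3)) := by
    simp
  have hs : ∀ k : Fin 3, nrm (Pi.single k (1 : ℝ) : V3) = 1 := by
    intro k
    have h2 := nrm_sq (Pi.single k (1 : ℝ) : V3)
    have h3 := nrm_nonneg (Pi.single k (1 : ℝ) : V3)
    simp at h2
    rcases h2 with h2 | h2
    · exact h2
    · linarith
  rw [h1]
  refine (abs_dot_le _ _).trans ?_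
  rw [hs, one_mul]
  refine (nrm_mulVec_le _ _).trans ?_
  rw [hs, mul_one]

lemma CD.nrm_comp_le {x : V3} {r : ℝ} (hr : 0 ≤ r) (h : ∀ i, |x i| ≤ r) : nrm x ≤ 2 * r := by
  apply CD.nrm_le_of_sq (by positivity)
  have h0 := sq_le_sq' (abs_le.mp (h 0)).1 (abs_le.mp (h 0)).2
  have h1 := sq_le_sq' (abs_le.mp (h 1)).1 (abs_le.mp (h 1)).2
  have h2 := sq_le_sq' (abs_le.mp (h 2)).1 (abs_le.mp (h 2)).2
  simp only [dotProduct, Fin.sum_univ_three]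
  nlinarith

lemma CD.comp_le (x : V3) (i : Fin 3) : |x i| ≤ nrm x := by
  have h1 := nrm_sq x
  have h2 := nrm_nonneg x
  apply abs_le_of_sq_le_sq _ h2
  rw [h1]
  simp only [dotProduct, Fin.sum_univ_three]
  fin_cases i <;> simp <;> nlinarith [sq_nonneg (x 0), sq_nonneg (x 1), sq_nonneg (x 2)]

/-- a lower bound from the determinant -/
lemma CD.lower_of_det (A : M33) (hA : ‖A‖ ≤ 2) (u : V3) :
    |A.det| * nrm u ≤ 48 * nrm (A *ᵥ u) := by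
  have h1 : A.det • u = A.adjugate *ᵥ (A *ᵥ u) := by
    rw [Matrix.mulVec_mulVec, Matrix.adjugate_mul, Matrix.smul_mulVec, Matrix.one_mulVec]
  have h2 : |A.det| * nrm u = nrm (A.adjugate *ᵥ (A *ᵥ u)) := by
    rw [← h1, nrm_smul]
  rw [h2]
  set v := A *ᵥ u with hv
  have he : ∀ i j, |A i j| ≤ 2 := fun i j => (CD.entry_le A i j).trans hA
  have hm : ∀ a b c d : ℝ, |a| ≤ 2 → |b| ≤ 2 → |c| ≤ 2 → |d| ≤ 2 → |a * b - c * d| ≤ 8 := by
    intro a b c d ha hb hc hd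
    have e1 : |a * b| ≤ 4 := by
      rw [abs_mul]; nlinarith [abs_nonneg a, abs_nonneg b]
    have e2 : |c * d| ≤ 4 := by
      rw [abs_mul]; nlinarith [abs_nonneg c, abs_nonneg d]
    rw [abs_le] at e1 e2 ⊢
    constructor <;> linarith [e1.1, e1.2, e2.1, e2.2]
  have hadj : ∀ i j, |A.adjugate i j| ≤ 8 := by
    intro i j
    rw [Matrix.adjugate_fin_three]
    fin_cases i <;> fin_cases j <;>
      simp only [Matrix.of_apply, Matrix.cons_val', Matrix.cons_val_zero, Matrix.cons_val_one,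
        Matrix.cons_val, Fin.zero_eta, Fin.mk_one, Fin.reduceFinMk, Matrix.cons_val_fin_one]
    · exact hm _ _ _ _ (he _ _) (he _ _) (he _ _) (he _ _)
    · rw [show -(A 0 1 * A 2 2) + A 0 2 * A 2 1 = A 0 2 * A 2 1 - A 0 1 * A 2 2 by ring]
      exact hm _ _ _ _ (he _ _) (he _ _) (he _ _) (he _ _)
    · exact hm _ _ _ _ (he _ _) (he _ _) (he _ _) (he _ _)
    · rw [show -(A 1 0 * A 2 2) + A 1 2 * A 2 0 = A 1 2 * A 2 0 - A 1 0 * A 2 2 by ring]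
      exact hm _ _ _ _ (he _ _) (he _ _) (he _ _) (he _ _)
    · exact hm _ _ _ _ (he _ _) (he _ _) (he _ _) (he _ _)
    · rw [show -(A 0 0 * A 1 2) + A 0 2 * A 1 0 = A 0 2 * A 1 0 - A 0 0 * A 1 2 by ring]
      exact hm _ _ _ _ (he _ _) (he _ _) (he _ _) (he _ _)
    · exact hm _ _ _ _ (he _ _) (he _ _) (he _ _) (he _ _)
    · rw [show -(A 0 0 * A 2 1) + A 0 1 * A 2 0 = A 0 1 * A 2 0 - A 0 0 * A 2 1 by ring]
      exact hm _ _ _ _ (he _ _) (he _ _) (he _ _) (he _ _)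
    · exact hm _ _ _ _ (he _ _) (he _ _) (he _ _) (he _ _)
  have hc : ∀ i, |(A.adjugate *ᵥ v) i| ≤ 24 * nrm v := by
    intro i
    simp only [Matrix.mulVec, dotProduct, Fin.sum_univ_three]
    have t : ∀ j, |A.adjugate i j * v j| ≤ 8 * nrm v := by
      intro j
      rw [abs_mul]
      exact mul_le_mul (hadj i j) (CD.comp_le v j) (abs_nonneg _) (by norm_num)
    have t0 := t 0
    have t1 := t 1
    have t2 := t 2
    rw [abs_le] at t0 t1 t2 ⊢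
    constructor <;> linarith [t0.1, t0.2, t1.1, t1.2, t2.1, t2.2]
  have := CD.nrm_comp_le (by have := nrm_nonneg v; positivity) hc
  linarith

lemma CD.norm_isom {A : M43} (hA : IsIsom A) : ‖A‖ ≤ 1 := (isContr_iff A).mp hA.contr

lemma CD.norm_one_sub {A B : M43} (hA : IsIsom A) (hB : IsIsom B) : ‖1 - Aᵀ * B‖ ≤ 2 := by
  apply opNorm_le (by norm_num)
  intro x
  rw [Matrix.sub_mulVec, Matrix.one_mulVec, ← Matrix.mulVec_mulVec]
  refine (nrm_sub_le _ _).trans ?_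
  have h1 : nrm (Aᵀ *ᵥ (B *ᵥ x)) ≤ nrm x := by
    refine (nrm_mulVec_le _ _).trans ?_
    rw [opNorm_transpose, hB.nrm_eq]
    have := CD.norm_isom hA
    have := nrm_nonneg x
    nlinarith
  linarith

lemma CD.diff_lower {A B : M43} (hA : IsIsom A) (w : V3) :
    nrm ((1 - Aᵀ * B) *ᵥ w) ≤ nrm (A *ᵥ w - B *ᵥ w) := by
  have h : (1 - Aᵀ * B) *ᵥ w = Aᵀ *ᵥ (A *ᵥ w - B *ᵥ w) := by
    rw [Matrix.mulVec_sub, Matrix.mulVec_mulVec, Matrix.mulVec_mulVec, hA, Matrix.sub_mulVec]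
  rw [h]
  refine (nrm_mulVec_le _ _).trans ?_
  rw [opNorm_transpose]
  have := CD.norm_isom hA
  have := nrm_nonneg (A *ᵥ w - B *ᵥ w)
  nlinarith

lemma CD.diff_sq {A T : M43} (hA : IsIsom A) (hT : IsIsom T) (w : V3) (r : ℝ)
    (h : nrm ((1 - Aᵀ * T) *ᵥ w) ≤ r) : nrm (A *ᵥ w - T *ᵥ w) ^ 2 ≤ 2 * r * nrm w := by
  have e1 : nrm (A *ᵥ w - T *ᵥ w) ^ 2 = 2 * (w ⬝ᵥ ((1 - Aᵀ * T) *ᵥ w)) := by
    rw [nrm_sq, Matrix.sub_mulVec, Matrix.one_mulVec, ← Matrix.mulVec_mulVec,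
      dotProduct_sub w w, Matrix.dotProduct_mulVec w Aᵀ, Matrix.vecMul_transpose]
    have a1 : (A *ᵥ w) ⬝ᵥ (A *ᵥ w) = w ⬝ᵥ w := by rw [← nrm_sq, ← nrm_sq, hA.nrm_eq]
    have a2 : (T *ᵥ w) ⬝ᵥ (T *ᵥ w) = w ⬝ᵥ w := by rw [← nrm_sq, ← nrm_sq, hT.nrm_eq]
    rw [sub_dotProduct, dotProduct_sub, dotProduct_sub, a1, a2,
      dotProduct_comm (T *ᵥ w) (A *ᵥ w)]
    ring
  rw [e1]
  have e2 := dot_le w ((1 - Aᵀ * T) *ᵥ w)
  have e3 : nrm w * nrm ((1 - Aᵀ * T) *ᵥ w) ≤ nrm w * r :=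
    mul_le_mul_of_nonneg_left h (nrm_nonneg w)
  linarith

/-- the bound for `w(e₀)` -/
lemma CD.bound_w {A B T : M43} (hA : IsIsom A) (hB : IsIsom B) (hT : IsIsom T) (w : V3) (c : ℝ)
    (hc : 0 < c) (hAB : ∀ u : V3, c * nrm u ≤ nrm ((1 - Aᵀ * B) *ᵥ u))
    (h1 : nrm ((1 - Aᵀ * T) *ᵥ w) ≤ 1 / 2) (h2 : nrm ((1 - Bᵀ * T) *ᵥ w) ≤ 2) :
    nrm w ≤ 9 / c ^ 2 := by
  have s1 := CD.diff_sq hA hT w _ h1
  have s2 := CD.diff_sq hB hT w _ h2
  have s3 := (hAB w).trans (CD.diff_lower (B := B) hA w)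
  have s4 : nrm (A *ᵥ w - B *ᵥ w) ≤ nrm (A *ᵥ w - T *ᵥ w) + nrm (B *ᵥ w - T *ᵥ w) := by
    have : A *ᵥ w - B *ᵥ w = (A *ᵥ w - T *ᵥ w) - (B *ᵥ w - T *ᵥ w) := by abel
    rw [this]
    exact nrm_sub_le _ _
  have hw := nrm_nonneg w
  set t := Real.sqrt (nrm w) with ht
  have t0 : 0 ≤ t := Real.sqrt_nonneg _
  have t2 : t ^ 2 = nrm w := Real.sq_sqrt hw
  have u1 : nrm (A *ᵥ w - T *ᵥ w) ≤ t := by
    have := nrm_nonneg (A *ᵥ w - T *ᵥ w)
    nlinarith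
  have u2 : nrm (B *ᵥ w - T *ᵥ w) ≤ 2 * t := by
    have := nrm_nonneg (B *ᵥ w - T *ᵥ w)
    nlinarith
  have u3 : c * t ^ 2 ≤ 3 * t := by
    rw [t2]; linarith
  rcases t0.eq_or_lt with h0 | h0
  · rw [← t2, ← h0, zero_pow two_ne_zero]
    positivity
  · have u4 : c * t ≤ 3 := by
      by_contra hcon
      push Not at hcon
      nlinarith
    rw [le_div_iff₀ (by positivity), ← t2]
    have : (c * t) ^ 2 ≤ 3 ^ 2 := by
      apply pow_le_pow_left₀ (by positivity) u4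
    nlinarith

/-- uniform transversality -/
lemma CD.unif {Λ : Set M43} (hΛ : LimitSet Λ) (c : ℝ) (hc : 0 < c) :
    ∃ c2 > 0, ∀ A ∈ Λ, ∀ B ∈ Λ, c ≤ ‖1 - Aᵀ * B‖ → c2 ≤ |(1 - Aᵀ * B).det| := by
  have hcont1 : Continuous (fun P : M43 × M43 => ‖1 - P.1ᵀ * P.2‖) := by
    apply continuous_norm.comp
    exact continuous_const.sub ((Continuous.matrix_transpose continuous_fst).matrix_mul
      continuous_snd)
  have hcont2 : Continuous (fun P : M43 × M43 => |(1 - P.1ᵀ * P.2).det|) := by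
    apply continuous_abs.comp
    apply Continuous.matrix_det
    exact continuous_const.sub ((Continuous.matrix_transpose continuous_fst).matrix_mul
      continuous_snd)
  set K : Set (M43 × M43) := (Λ ×ˢ Λ) ∩ {P | c ≤ ‖1 - P.1ᵀ * P.2‖} with hK
  have hKc : IsCompact K := (hΛ.compact.prod hΛ.compact).inter_right
    (isClosed_le continuous_const hcont1)
  rcases K.eq_empty_or_nonempty with hE | hE
  · refine ⟨1, one_pos, fun A hA B hB h => ?_⟩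
    exfalso
    have : (A, B) ∈ K := ⟨⟨hA, hB⟩, h⟩
    rw [hE] at this
    exact this
  · obtain ⟨P, hP, hmin⟩ := hKc.exists_isMinOn hE hcont2.continuousOn
    refine ⟨|(1 - P.1ᵀ * P.2).det|, ?_, fun A hA B hB h => ?_⟩
    · apply abs_pos.mpr
      apply hΛ.transv P.1 hP.1.1 P.2 hP.1.2
      intro heq
      have h1 := hP.2
      replace h1 : c ≤ ‖1 - P.1ᵀ * P.2‖ := h1
      rw [← heq] at h1
      have h2 : P.1ᵀ * P.1 = 1 := hΛ.isom P.1 hP.1.1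
      rw [h2, sub_self, norm_zero] at h1
      linarith
    · have hm := isMinOn_iff.mp hmin (A, B) ⟨⟨hA, hB⟩, h⟩
      exact hm

/-- `N e = den g S (ff p e - e)`, the lower part of `g φ_p(e)` -/
noncomputable def CD.Nl (g : M7) (S : M43) (p : V3 × V3) : V3 →ₗ[ℝ] V3 :=
  (Matrix.toLin' (den g S)).comp (CD.fl p)

lemma CD.Nl_apply (g : M7) (S : M43) (p : V3 × V3) (e : V3) :
    CD.Nl g S p e = den g S *ᵥ (ff p e - e) := by
  simp [CD.Nl, CD.fl_apply, Matrix.toLin'_apply]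

lemma CD.g_ph {g : M7} (hg : IsO g) {S : M43} {p : V3 × V3} (hS : IsIsom S) (hp : IsPl S p)
    (e : V3) :
    g *ᵥ ph p e = Sum.elim (act g S *ᵥ CD.Nl g S p e) (CD.Nl g S p e) := by
  rw [CD.ph_eq hp, hg.graph hS.contr, CD.Nl_apply]

lemma CD.Nl_inj {g : M7} (hg : IsO g) {S : M43} {p : V3 × V3} (hS : IsIsom S) (hp : IsPl S p)
    {e : V3} (h : CD.Nl g S p e = 0) : e = 0 := by
  apply CD.fl_inj hp
  rw [CD.Nl_apply] at h
  have hdet := hg.den_det hS.contr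
  have h1 : (den g S)⁻¹ *ᵥ (den g S *ᵥ (ff p e - e)) = 0 := by rw [h, Matrix.mulVec_zero]
  rw [Matrix.mulVec_mulVec, Matrix.nonsing_inv_mul _ (isUnit_iff_ne_zero.mpr hdet),
    Matrix.one_mulVec] at h1
  exact h1

lemma CD.bf_comm (v w : V7) : bf v w = bf w v := by
  unfold bf
  rw [dotProduct_comm (hi v), dotProduct_comm (lo v)]

lemma CD.ext_dot {a b : V3} (h : ∀ v : V3, v ⬝ᵥ a = v ⬝ᵥ b) : a = b := by
  ext i
  have := h (Pi.single i 1)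
  simpa using this

/-- pairing with `g E₋` -/
lemma CD.pairA {g : M7} (hg : IsO g) (hS0 : IsIsom S0) {S T : M43} {p₀ p : V3 × V3}
    (hS : IsIsom S) (hT : IsIsom T) (hp₀ : IsPl S p₀) (hp : IsPl T p) (e : V3) :
    (1 - (act g S0)ᵀ * act g T) *ᵥ CD.Nl g T p e =
      (1 - (act g S0)ᵀ * act g S) *ᵥ CD.Nl g S p₀ e := by
  apply CD.ext_dot
  intro v
  have hdet := hg.den_det hS0.contr
  set f : V3 := (den g S0)⁻¹ *ᵥ v with hf
  have hv : den g S0 *ᵥ f = v := by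
    rw [hf, Matrix.mulVec_mulVec, Matrix.mul_nonsing_inv _ (isUnit_iff_ne_zero.mpr hdet),
      Matrix.one_mulVec]
  have hgr := hg.graph hS0.contr f
  rw [hv] at hgr
  have k1 : v ⬝ᵥ ((1 - (act g S0)ᵀ * act g T) *ᵥ CD.Nl g T p e) = - (2 * (e ⬝ᵥ f)) := by
    rw [← CD.bf_ph_S0 p e f, ← hg.bf_mulVec, CD.g_ph hg hT hp, hgr, CD.bf_comm, CD.bf_graph]
    ring
  have k2 : v ⬝ᵥ ((1 - (act g S0)ᵀ * act g S) *ᵥ CD.Nl g S p₀ e) = - (2 * (e ⬝ᵥ f)) := by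
    rw [← CD.bf_ph_S0 p₀ e f, ← hg.bf_mulVec, CD.g_ph hg hS hp₀, hgr, CD.bf_comm, CD.bf_graph]
    ring
  rw [k1, k2]

/-- pairing with `g E_{p₀}` -/
lemma CD.pairB {g : M7} (hg : IsO g) {S T : M43} {p₀ p : V3 × V3}
    (hS : IsIsom S) (hT : IsIsom T) (hp₀ : IsPl S p₀) (hp : IsPl T p) (e e' : V3) :
    CD.Nl g S p₀ e' ⬝ᵥ ((1 - (act g S)ᵀ * act g T) *ᵥ CD.Nl g T p e) = - om p₀ p e e' := by
  rw [← CD.bf_ph p₀ p e e', ← hg.bf_mulVec, CD.g_ph hg hT hp, CD.g_ph hg hS hp₀, CD.bf_comm,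
    CD.bf_graph]
  ring

lemma CD.det_swap (A B : M43) : (1 - Bᵀ * A).det = (1 - Aᵀ * B).det := by
  rw [← Matrix.det_transpose (1 - Aᵀ * B)]
  congr 1
  rw [Matrix.transpose_sub, Matrix.transpose_one, Matrix.transpose_mul, Matrix.transpose_transpose]

lemma CD.lower {A B : M43} (hA : IsIsom A) (hB : IsIsom B) {k : ℝ}
    (hk : k ≤ |(1 - Aᵀ * B).det|) (u : V3) : k * nrm u ≤ 48 * nrm ((1 - Aᵀ * B) *ᵥ u) := by
  refine le_trans ?_ (CD.lower_of_det _ (CD.norm_one_sub hA hB) u)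
  exact mul_le_mul_of_nonneg_right hk (nrm_nonneg u)

/-- the uniform estimate of the form `om` -/
lemma CD.claim {Λ : Set M43} (hΛ : LimitSet Λ) (h0 : S0 ∈ Λ) (κ0 : ℝ) (hκ : 0 < κ0) :
    ∃ C > 0, ∀ S ∈ Λ, ∀ p₀, IsPl S p₀ → ∀ g, IsO g → (∀ T ∈ Λ, act g T ∈ Λ) →
      κ0 ≤ pr (act g S) (act g S0) → ∀ T ∈ Λ, ∀ p, IsPl T p →
      (∀ e, |(p.1 - p₀.1) ⬝ᵥ e| ≤ nrm (CD.Nl g S p₀ e)) →
      ∀ e e', |om p₀ p e e'| ≤ C * nrm (CD.Nl g S p₀ e) * nrm (CD.Nl g S p₀ e') := by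
  set c : ℝ := κ0 / 48 with hcdef
  have hc : 0 < c := by positivity
  obtain ⟨c2, hc2, hunif⟩ := CD.unif hΛ (c ^ 3 / 9) (by positivity)
  refine ⟨192 / c2, by positivity, ?_⟩
  intro S hS p₀ hp₀ g hg hinv hpr T hT p hp hd
  have iS := hΛ.isom S hS
  have iT := hΛ.isom T hT
  have i0 := hΛ.isom S0 h0
  have mA := hinv S hS
  have mB := hinv S0 h0
  have mT := hinv T hT
  have iA := hΛ.isom _ mA
  have iB := hΛ.isom _ mB
  have iT1 := hΛ.isom _ mT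
  have pA := CD.pairA hg i0 iS iT hp₀ hp
  have pB := CD.pairB hg iS iT hp₀ hp
  set A := act g S with hAdef
  set B := act g S0 with hBdef
  set T1 := act g T with hT1def
  set N := CD.Nl g S p₀ with hN
  set W := CD.Nl g T p with hW
  have hNinj : ∀ e, N e = 0 → e = 0 := fun e he => CD.Nl_inj hg iS hp₀ he
  have hNsurj : Function.Surjective N := by
    rw [← LinearMap.injective_iff_surjective]
    exact (injective_iff_map_eq_zero N).mpr hNinj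
  have hAB : ∀ u : V3, c * nrm u ≤ nrm ((1 - Aᵀ * B) *ᵥ u) := by
    intro u
    have := CD.lower iA iB (k := κ0) hpr u
    rw [hcdef]
    linarith
  have hBA : ∀ u : V3, c * nrm u ≤ nrm ((1 - Bᵀ * A) *ᵥ u) := by
    intro u
    have h1 : κ0 ≤ |(1 - Bᵀ * A).det| := by rw [CD.det_swap]; exact hpr
    have := CD.lower iB iA h1 u
    rw [hcdef]
    linarith
  -- the special vector
  obtain ⟨e0, he0, hY0⟩ : ∃ e0 : V3, nrm (N e0) = 1 ∧ ∀ e', Yt p₀ p ⬝ᵥ (e0 ⨯₃ e') = 0 := by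
    obtain ⟨y, hy, hyY⟩ : ∃ y : V3, y ≠ 0 ∧ ∀ e', Yt p₀ p ⬝ᵥ (y ⨯₃ e') = 0 := by
      by_cases h : Yt p₀ p = 0
      · refine ⟨Pi.single 0 1, ?_, ?_⟩
        · intro h1
          have := congrFun h1 0
          simp at this
        · intro e'
          rw [h, zero_dotProduct]
      · exact ⟨Yt p₀ p, h, fun e' => dot_self_cross _ _⟩
    have hNy : 0 < nrm (N y) := by
      rcases (nrm_nonneg (N y)).eq_or_lt with h | h
      · exact absurd (hNinj y (nrm_eq_zero.mp h.symm)) hy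
      · exact h
    refine ⟨(nrm (N y))⁻¹ • y, ?_, ?_⟩
    · rw [map_smul, nrm_smul, abs_of_pos (inv_pos.mpr hNy), inv_mul_cancel₀ hNy.ne']
    · intro e'
      rw [LinearMap.map_smul₂, dotProduct_smul, hyY, smul_zero]
  -- first bound
  have h1 : nrm ((1 - Aᵀ * T1) *ᵥ W e0) ≤ 1 / 2 := by
    obtain ⟨e', he'⟩ := hNsurj ((1 - Aᵀ * T1) *ᵥ W e0)
    have h2 := pB e0 e'
    rw [he'] at h2
    have h3 : om p₀ p e0 e' = -(((p.1 - p₀.1) ⬝ᵥ e0) * ((p.1 - p₀.1) ⬝ᵥ e')) / 2 := by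
      unfold om
      rw [hY0, add_zero]
    have h4 := hd e0
    have h5 := hd e'
    rw [he0] at h4
    rw [he'] at h5
    set x := (1 - Aᵀ * T1) *ᵥ W e0 with hx
    have h6 : nrm x ^ 2 = (((p.1 - p₀.1) ⬝ᵥ e0) * ((p.1 - p₀.1) ⬝ᵥ e')) / 2 := by
      rw [nrm_sq, h2, h3]; ring
    have h7 : ((p.1 - p₀.1) ⬝ᵥ e0) * ((p.1 - p₀.1) ⬝ᵥ e') ≤ 1 * nrm x := by
      refine (le_abs_self _).trans ?_
      rw [abs_mul]
      exact mul_le_mul h4 h5 (abs_nonneg _) zero_le_one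
    have h8 := nrm_nonneg x
    by_contra hcon
    push Not at hcon
    nlinarith
  have eA := pA e0
  have h2 : nrm ((1 - Bᵀ * T1) *ᵥ W e0) ≤ 2 := by
    rw [eA]
    refine (nrm_mulVec_le _ _).trans ?_
    rw [he0, mul_one]
    exact CD.norm_one_sub iB iA
  have h3 : c ≤ nrm ((1 - Bᵀ * T1) *ᵥ W e0) := by
    rw [eA]
    have := hBA (N e0)
    rw [he0, mul_one] at this
    exact this
  have hw0 := CD.bound_w iA iB iT1 (W e0) c hc hAB h1 h2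
  have h4 : c ^ 3 / 9 ≤ ‖1 - Bᵀ * T1‖ := by
    have h5 : c ≤ ‖1 - Bᵀ * T1‖ * (9 / c ^ 2) :=
      h3.trans ((nrm_mulVec_le _ _).trans (mul_le_mul_of_nonneg_left hw0 (norm_nonneg _)))
    have h6 : ‖1 - Bᵀ * T1‖ * (9 / c ^ 2) * c ^ 2 = ‖1 - Bᵀ * T1‖ * 9 := by
      field_simp
    have h7 : c * c ^ 2 ≤ ‖1 - Bᵀ * T1‖ * 9 := by
      rw [← h6]
      exact mul_le_mul_of_nonneg_right h5 (by positivity)
    have h8 : c ^ 3 = c * c ^ 2 := by ring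
    rw [h8]
    linarith
  have hdet := hunif B mB T1 mT h4
  intro e e'
  have w1 : c2 * nrm (W e) ≤ 96 * nrm (N e) := by
    have := CD.lower iB iT1 hdet (W e)
    rw [pA e] at this
    have h5 : nrm ((1 - Bᵀ * A) *ᵥ N e) ≤ 2 * nrm (N e) :=
      (nrm_mulVec_le _ _).trans (mul_le_mul_of_nonneg_right (CD.norm_one_sub iB iA)
        (nrm_nonneg _))
    linarith
  have w2 : nrm (W e) ≤ 96 / c2 * nrm (N e) := by
    rw [div_mul_eq_mul_div, le_div_iff₀ hc2]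
    linarith
  have w3 : |om p₀ p e e'| ≤ nrm (N e') * (2 * nrm (W e)) := by
    rw [← abs_neg, ← pB e e']
    refine (abs_dot_le _ _).trans ?_
    apply mul_le_mul_of_nonneg_left _ (nrm_nonneg _)
    exact (nrm_mulVec_le _ _).trans (mul_le_mul_of_nonneg_right (CD.norm_one_sub iA iT1)
        (nrm_nonneg _))
  refine w3.trans ?_
  have w4 : nrm (N e') * (2 * nrm (W e)) ≤ nrm (N e') * (2 * (96 / c2 * nrm (N e))) := by
    apply mul_le_mul_of_nonneg_left _ (nrm_nonneg _)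
    linarith
  refine w4.trans (le_of_eq ?_)
  ring

/-- the minimal stretch of a linear map -/
lemma CD.exists_min (N : V3 →ₗ[ℝ] V3) :
    ∃ k : V3, nrm k = 1 ∧ ∀ e, nrm (N k) * nrm e ≤ nrm (N e) := by
  have hcont : Continuous (fun x : EuclideanSpace ℝ (Fin 3) => nrm (N (WithLp.ofLp x))) := by
    have h1 : Continuous (fun x : EuclideanSpace ℝ (Fin 3) => N (WithLp.ofLp x)) :=
      (LinearMap.continuous_of_finiteDimensional N).comp (PiLp.continuous_ofLp 2 _)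
    have h2 : Continuous (fun y : V3 => nrm y) :=
      continuous_norm.comp (PiLp.continuous_toLp 2 _)
    exact h2.comp h1
  have hne : (Metric.sphere (0 : EuclideanSpace ℝ (Fin 3)) 1).Nonempty :=
    NormedSpace.sphere_nonempty.mpr zero_le_one
  obtain ⟨x, hx, hmin⟩ := (isCompact_sphere (0 : EuclideanSpace ℝ (Fin 3)) 1).exists_isMinOn hne
    hcont.continuousOn
  have hx1 : nrm (WithLp.ofLp x) = 1 := by
    have : ‖x‖ = 1 := by simpa using hx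
    exact this
  refine ⟨WithLp.ofLp x, hx1, fun e => ?_⟩
  rcases (nrm_nonneg e).eq_or_lt with h | h
  · rw [← h, mul_zero]
    exact nrm_nonneg _
  · set e' : V3 := (nrm e)⁻¹ • e with he'
    have h1 : nrm e' = 1 := by
      rw [he', nrm_smul, abs_of_pos (inv_pos.mpr h), inv_mul_cancel₀ h.ne']
    have h2 : (WithLp.toLp 2 e' : EuclideanSpace ℝ (Fin 3)) ∈
        Metric.sphere (0 : EuclideanSpace ℝ (Fin 3)) 1 := by
      rw [mem_sphere_zero_iff_norm]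
      exact h1
    have h3 := isMinOn_iff.mp hmin _ h2
    have h4 : nrm (N e') = (nrm e)⁻¹ * nrm (N e) := by
      rw [he', map_smul, nrm_smul, abs_of_pos (inv_pos.mpr h)]
    have h5 : nrm (N (WithLp.ofLp x)) ≤ (nrm e)⁻¹ * nrm (N e) := by
      rw [← h4]; exact h3
    calc nrm (N (WithLp.ofLp x)) * nrm e ≤ (nrm e)⁻¹ * nrm (N e) * nrm e :=
          mul_le_mul_of_nonneg_right h5 h.le
      _ = nrm (N e) := by field_simp

/-- Step 5: the dynamics in the chart -/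
theorem chart_dyn {Λ : Set M43} (hΛ : LimitSet Λ) (h0 : S0 ∈ Λ) {S : M43} (hS : S ∈ Λ)
    (hne : S ≠ S0) {p₀ : V3 × V3} (hp₀ : IsPl S p₀) :
    ∃ C : ℝ, ∀ ε > 0, ∃ r > 0, r < ε ∧ ∃ κ : V3, nrm κ = 1 ∧
      ∀ p : V3 × V3, (∃ T ∈ Λ, IsPl T p) → nrm (p.1 - p₀.1) ≤ r →
        nrm (Yt p₀ p ⨯₃ κ) ≤ C * r * ε := by
  obtain ⟨κ0, hκ0, hdyn⟩ := hΛ.dyn S hS S0 h0 hne
  obtain ⟨C0, hC0, hcl⟩ := CD.claim hΛ h0 κ0 hκ0
  refine ⟨C0 + 1, fun ε hε => ?_⟩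
  set Bd : ℝ := ‖LinearMap.toMatrix' (CD.fl p₀)‖ with hBd
  have hBd0 : 0 ≤ Bd := norm_nonneg _
  have hfl : ∀ e, nrm (ff p₀ e - e) ≤ Bd * nrm e := by
    intro e
    have h := nrm_mulVec_le (LinearMap.toMatrix' (CD.fl p₀)) e
    rw [LinearMap.toMatrix'_mulVec] at h
    exact h
  obtain ⟨g, hg, hinv, hsmall, hpr⟩ := hdyn (ε / (2 * (Bd + 1))) (by positivity)
  have iS := hΛ.isom S hS
  set N := CD.Nl g S p₀ with hN
  have hNsmall : ∀ e, nrm (N e) ≤ ε / 2 * nrm e := by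
    intro e
    rw [hN, CD.Nl_apply]
    refine (hsmall _).trans ?_
    have h1 := hfl e
    have h2 : ε / (2 * (Bd + 1)) * nrm (ff p₀ e - e) ≤ ε / (2 * (Bd + 1)) * (Bd * nrm e) :=
      mul_le_mul_of_nonneg_left h1 (by positivity)
    have h3 : ε / (2 * (Bd + 1)) * (Bd * nrm e) = ε / 2 * nrm e * (Bd / (Bd + 1)) := by
      field_simp
    have h4 : Bd / (Bd + 1) ≤ 1 := by
      rw [div_le_one (by positivity)]; linarith
    have h5 : ε / 2 * nrm e * (Bd / (Bd + 1)) ≤ ε / 2 * nrm e * 1 :=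
      mul_le_mul_of_nonneg_left h4 (by have := nrm_nonneg e; positivity)
    linarith
  obtain ⟨k, hk, hmin⟩ := CD.exists_min N
  have hr0 : 0 < nrm (N k) := by
    rcases (nrm_nonneg (N k)).eq_or_lt with h | h
    · exfalso
      have h1 := CD.Nl_inj hg iS hp₀ (nrm_eq_zero.mp h.symm)
      rw [h1, nrm_zero] at hk
      exact zero_ne_one hk
    · exact h
  have hr1 : nrm (N k) ≤ ε / 2 := by
    have := hNsmall k
    rw [hk, mul_one] at this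
    exact this
  refine ⟨nrm (N k), hr0, by linarith, k, hk, ?_⟩
  rintro p ⟨T, hT, hp⟩ hd
  have hdd : ∀ e, |(p.1 - p₀.1) ⬝ᵥ e| ≤ nrm (N e) := fun e =>
    (abs_dot_le _ _).trans ((mul_le_mul_of_nonneg_right hd (nrm_nonneg e)).trans (hmin e))
  have hom := hcl S hS p₀ hp₀ g hg hinv hpr T hT p hp hdd k
  set z : V3 := Yt p₀ p ⨯₃ k with hz
  have h1 := hom z
  have h2 : Yt p₀ p ⬝ᵥ (k ⨯₃ z) = nrm z ^ 2 := by
    rw [nrm_sq, triple_product_permutation, triple_product_permutation]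
  have h3 : om p₀ p k z = -(((p.1 - p₀.1) ⬝ᵥ k) * ((p.1 - p₀.1) ⬝ᵥ z)) / 2 + nrm z ^ 2 := by
    unfold om
    rw [h2]
  have h4 : |((p.1 - p₀.1) ⬝ᵥ k) * ((p.1 - p₀.1) ⬝ᵥ z)| ≤ nrm (N k) * nrm (N z) := by
    rw [abs_mul]
    exact mul_le_mul (hdd k) (hdd z) (abs_nonneg _) hr0.le
  have h5 : nrm z ^ 2 ≤ (C0 + 1) * nrm (N k) * nrm (N z) := by
    rw [h3] at h1
    have h6 := (abs_le.mp h1).2
    have h7 := (abs_le.mp h4).2
    have h8 : 0 ≤ nrm (N k) * nrm (N z) := mul_nonneg hr0.le (nrm_nonneg _)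
    nlinarith
  have h6 := hNsmall z
  have h7 : nrm z ^ 2 ≤ (C0 + 1) * nrm (N k) * (ε / 2 * nrm z) :=
    h5.trans (mul_le_mul_of_nonneg_left h6 (by positivity))
  have h8 := nrm_nonneg z
  rcases h8.eq_or_lt with h9 | h9
  · rw [← h9]
    positivity
  · have h10 : nrm z ≤ (C0 + 1) * nrm (N k) * (ε / 2) := by
      by_contra hcon
      push Not at hcon
      nlinarith
    have h11 : (C0 + 1) * nrm (N k) * (ε / 2) ≤ (C0 + 1) * nrm (N k) * ε :=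
      mul_le_mul_of_nonneg_left (by linarith) (by positivity)
    linarith

theorem LimitSet.chart_dyn {Λ : Set M43} (h : LimitSet Λ) (h0 : S0 ∈ Λ) :
    ∀ p₀ ∈ chartSet Λ, ∃ C : ℝ, ∀ ε > 0, ∃ r > 0, r < ε ∧ ∃ κ : V3, nrm κ = 1 ∧
      ∀ p ∈ chartSet Λ, nrm (p.1 - p₀.1) ≤ r → nrm (Yt p₀ p ⨯₃ κ) ≤ C * r * ε := by
  rintro p₀ ⟨S, hS, hp₀⟩
  have hne : S ≠ S0 := by
    intro he
    have h1 := hp₀.transv (h.isom S hS)
    have h2 : S0ᵀ * S0 = 1 := h.isom S0 h0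
    rw [he, h2, sub_self, Matrix.det_zero] at h1
    exact h1 rfl
  obtain ⟨C, hC⟩ := F31343H.chart_dyn h h0 hS hne hp₀
  refine ⟨C, fun ε hε => ?_⟩
  obtain ⟨r, hr0, hr1, k, hk, hp⟩ := hC ε hε
  refine ⟨r, hr0, hr1, k, hk, ?_⟩
  rintro p ⟨T, hT, hpT⟩ hd
  exact hp p ⟨T, hT, hpT⟩ hd

end F31343H
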