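import Mathlib

open MeasureTheory Metric Set Filter Topology

namespace Pool.Agent.LibF31343h

theorem slabVolume (n w0 : EuclideanSpace ℝ (Fin 3)) (hn : ‖n‖ = 1) (a b : ℝ) (ha : 0 ≤ a)
    (hb : 0 ≤ b) :
    volume {w : EuclideanSpace ℝ (Fin 3) | ‖w - w0‖ ≤ b ∧ |inner ℝ (w - w0) n| ≤ a} ≤
      ENNReal.ofReal (8 * a * b ^ 2) := by
  classical
  have hs : Orthonormal ℝ (({0} : Set (Fin 3)).domRestrict fun _ : Fin 3 => n) := by
    rw [orthonormal_iff_ite]
    rintro ⟨i, hi⟩ ⟨j, hj⟩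
    have hi' : i = 0 := hi
    have hj' : j = 0 := hj
    subst hi'; subst hj'
    simp [Set.domRestrict, hn]
  obtain ⟨B, hB⟩ := hs.exists_orthonormalBasis_extension_of_card_eq (by simp)
  have hB0 : B 0 = n := hB 0 (by simp)
  set r : Fin 3 → ℝ := ![a, b, b] with hr
  set c : Fin 3 → ℝ := fun i => B.repr w0 i with hc
  have hmp : MeasurePreserving (fun w : EuclideanSpace ℝ (Fin 3) => WithLp.ofLp (B.repr w))
      volume volume :=
    (PiLp.volume_preserving_ofLp (Fin 3)).comp B.measurePreserving_repr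
  have hsub : {w : EuclideanSpace ℝ (Fin 3) | ‖w - w0‖ ≤ b ∧ |inner ℝ (w - w0) n| ≤ a} ⊆
      (fun w : EuclideanSpace ℝ (Fin 3) => WithLp.ofLp (B.repr w)) ⁻¹' (Icc (c - r) (c + r)) := by
    rintro w ⟨h1, h2⟩
    have key : ∀ i, |B.repr w i - c i| ≤ r i := by
      intro i
      have h3 : B.repr w i - c i = inner ℝ (w - w0) (B i) := by
        rw [hc]
        simp only [OrthonormalBasis.repr_apply_apply]
        rw [real_inner_comm (B i) (w - w0), inner_sub_right]
      rw [h3]
      have h4 : |inner ℝ (w - w0) (B i)| ≤ b := by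
        calc |inner ℝ (w - w0) (B i)| ≤ ‖w - w0‖ * ‖B i‖ := abs_real_inner_le_norm _ _
          _ = ‖w - w0‖ := by rw [B.norm_eq_one, mul_one]
          _ ≤ b := h1
      fin_cases i
      · simpa [hr, hB0] using h2
      · simpa [hr] using h4
      · simpa [hr] using h4
    refine ⟨fun i => ?_, fun i => ?_⟩
    · have := abs_le.1 (key i)
      simp only [Pi.sub_apply]
      linarith [this.1]
    · have := abs_le.1 (key i)
      simp only [Pi.add_apply]
      linarith [this.2]
  calc volume {w : EuclideanSpace ℝ (Fin 3) | ‖w - w0‖ ≤ b ∧ |inner ℝ (w - w0) n| ≤ a}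
      ≤ volume ((fun w : EuclideanSpace ℝ (Fin 3) => WithLp.ofLp (B.repr w)) ⁻¹'
          (Icc (c - r) (c + r))) := measure_mono hsub
    _ = volume (Icc (c - r) (c + r)) := hmp.measure_preimage measurableSet_Icc.nullMeasurableSet
    _ = ∏ i, ENNReal.ofReal ((c + r) i - (c - r) i) := Real.volume_Icc_pi
    _ = ENNReal.ofReal (8 * a * b ^ 2) := by
        rw [Fin.prod_univ_three]
        simp only [Pi.add_apply, Pi.sub_apply, hr, Matrix.cons_val_zero, Matrix.cons_val_one,
          Matrix.cons_val_two, Matrix.tail_cons, Matrix.head_cons]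
        rw [← ENNReal.ofReal_mul (by linarith), ← ENNReal.ofReal_mul (by
          refine mul_nonneg ?_ ?_ <;> linarith)]
        congr 1
        ring

/-- The open set of pairs of different points of `ℝ³` is connected. -/
theorem pairsPreconnected :
    IsPreconnected {x : EuclideanSpace ℝ (Fin 3) × EuclideanSpace ℝ (Fin 3) | x.1 ≠ x.2} := by
  have h0 : IsPreconnected ({(0 : EuclideanSpace ℝ (Fin 3))}ᶜ) := by
    refine (isConnected_compl_singleton_of_one_lt_rank ?_ 0).isPreconnected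
    have h1 : Module.rank ℝ (EuclideanSpace ℝ (Fin 3)) = 3 := by
      rw [← Module.finrank_eq_rank, finrank_euclideanSpace]
      simp
    rw [h1]
    norm_num
  have h2 : IsPreconnected
      ((univ : Set (EuclideanSpace ℝ (Fin 3))) ×ˢ ({(0 : EuclideanSpace ℝ (Fin 3))}ᶜ)) :=
    isPreconnected_univ.prod h0
  have h3 := h2.image (fun x : EuclideanSpace ℝ (Fin 3) × EuclideanSpace ℝ (Fin 3) =>
    (x.1, x.1 + x.2)) (by fun_prop)
  refine (congrArg IsPreconnected ?_).mp h3
  ext ⟨x, y⟩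
  constructor
  · rintro ⟨⟨u, v⟩, ⟨-, hv⟩, huv⟩
    simp only [Prod.mk.injEq] at huv
    obtain ⟨rfl, rfl⟩ := huv
    intro hh
    apply hv
    have : u = u + v := hh
    simpa using this
  · intro hxy
    refine ⟨(x, y - x), ⟨mem_univ _, ?_⟩, ?_⟩
    · intro hh
      apply hxy
      have : y - x = 0 := hh
      exact (sub_eq_zero.1 this).symm
    · simp

/-- A continuous function on pairs of different points which never vanishes has constant sign. -/
theorem pairsSign (f : EuclideanSpace ℝ (Fin 3) × EuclideanSpace ℝ (Fin 3) → ℝ)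
    (hf : ContinuousOn f {x | x.1 ≠ x.2}) (h0 : ∀ x, x.1 ≠ x.2 → f x ≠ 0) :
    (∀ x, x.1 ≠ x.2 → 0 < f x) ∨ (∀ x, x.1 ≠ x.2 → f x < 0) := by
  by_contra hcon
  rw [not_or] at hcon
  obtain ⟨h1, h2⟩ := hcon
  push Not at h1 h2
  obtain ⟨x, hx, hfx⟩ := h1
  obtain ⟨y, hy, hfy⟩ := h2
  have h3 := pairsPreconnected.intermediate_value hx hy hf
  obtain ⟨w, hw, hw0⟩ := h3 (mem_Icc.2 ⟨hfx, hfy⟩)
  exact h0 w hw hw0

end Pool.Agent.LibF31343h
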