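import Mathlib

/-!
# MP_f31343_gt, the space O(4,3)/O(4,2): a covering lemma and the volume of a thin slab
-/

set_option autoImplicit false

namespace Pool.Agent.H42

open MeasureTheory Metric Set Module

/-- Vitali: if arbitrarily small balls round the points of `M` have small images, the image of `M` is null. -/
theorem vit {E F : Type*} [NormedAddCommGroup E] [NormedSpace ℝ E] [FiniteDimensional ℝ E]
    [MeasurableSpace E] [BorelSpace E] [Nontrivial E] (μ : Measure E) [μ.IsAddHaarMeasure]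
    [MeasurableSpace F] (ν : Measure F) (G : E → F) (M : Set E) (R : ℝ) (hM : M ⊆ closedBall 0 R)
    (h : ∀ z ∈ M, ∀ ε > 0, ∀ r > 0, ∃ ρ : ℝ, 0 < ρ ∧ ρ ≤ r ∧
      ν (G '' (M ∩ closedBall z ρ)) ≤ ENNReal.ofReal (ε * ρ ^ finrank ℝ E)) : ν (G '' M) = 0 := by
  set d := finrank ℝ E with hd
  set c := μ (ball (0 : E) 1) with hc
  have hc0 : c ≠ 0 := (measure_ball_pos μ 0 one_pos).ne'
  set V := μ (closedBall (0 : E) (R + 1)) with hV
  have hVf : V ≠ ⊤ := measure_closedBall_lt_top.ne
  have key : ∀ ε > 0, ν (G '' M) * c ≤ ENNReal.ofReal (ε * 5 ^ d) * V := by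
    intro ε hε
    choose! ρ hρ0 hρ1 hρ using fun z hz => h z hz ε hε 1 one_pos
    obtain ⟨u, hu, hdis, hcov⟩ := Vitali.exists_disjoint_subfamily_covering_enlargement_closedBall
      M (fun z : E => z) (fun z => ρ z / 5) 1 (fun a ha => by linarith [hρ1 a ha, hρ0 a ha]) 5 (by norm_num)
    have hcnt : u.Countable := by
      refine hdis.countable_of_nonempty_interior fun a ha => ?_
      refine ⟨a, ?_⟩
      rw [mem_interior]
      exact ⟨ball a (ρ a / 5), ball_subset_closedBall, isOpen_ball,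
        mem_ball_self (by linarith [hρ0 a (hu ha)])⟩
    have hsub : G '' M ⊆ ⋃ b ∈ u, G '' (M ∩ closedBall b (ρ b)) := by
      rintro _ ⟨a, ha, rfl⟩
      obtain ⟨b, hb, hab⟩ := hcov a ha
      have h1 : a ∈ closedBall b (5 * (ρ b / 5)) := hab (mem_closedBall_self (by linarith [hρ0 a ha]))
      rw [show 5 * (ρ b / 5) = ρ b by ring] at h1
      exact mem_iUnion₂.2 ⟨b, hb, mem_image_of_mem G ⟨ha, h1⟩⟩
    have hs1 : ν (G '' M) ≤ ∑' b : u, ENNReal.ofReal (ε * ρ b ^ d) := by
      refine (measure_mono hsub).trans ?_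
      refine (measure_biUnion_le ν hcnt _).trans ?_
      exact ENNReal.tsum_le_tsum fun b => hρ b (hu b.2)
    have hs2 : ∑' b : u, μ (closedBall (b : E) (ρ b / 5)) ≤ V := by
      rw [← measure_biUnion hcnt hdis fun b _ => measurableSet_closedBall]
      refine measure_mono (iUnion₂_subset fun b hb => ?_)
      intro x hx
      rw [mem_closedBall] at hx ⊢
      have h1 := hM (hu hb)
      rw [mem_closedBall] at h1
      have h2 := dist_triangle x b 0
      linarith [hρ1 b (hu hb), hρ0 b (hu hb)]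
    calc ν (G '' M) * c ≤ (∑' b : u, ENNReal.ofReal (ε * ρ b ^ d)) * c := by gcongr
      _ = ∑' b : u, ENNReal.ofReal (ε * ρ b ^ d) * c := ENNReal.tsum_mul_right.symm
      _ = ∑' b : u, ENNReal.ofReal (ε * 5 ^ d) * μ (closedBall (b : E) (ρ b / 5)) := by
          refine tsum_congr fun b => ?_
          have hb := hρ0 b (hu b.2)
          rw [Measure.addHaar_closedBall μ (b : E) (by positivity), ← mul_assoc, ← ENNReal.ofReal_mul (by positivity)]
          congr 2
          rw [div_pow, ← hd]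
          field_simp
      _ = ENNReal.ofReal (ε * 5 ^ d) * ∑' b : u, μ (closedBall (b : E) (ρ b / 5)) := ENNReal.tsum_mul_left
      _ ≤ ENNReal.ofReal (ε * 5 ^ d) * V := by gcongr
  have hz : ν (G '' M) * c = 0 := by
    rw [← nonpos_iff_eq_zero]
    refine ENNReal.le_of_forall_pos_le_add fun δ hδ _ => ?_
    rw [zero_add]
    have hK : 0 < 5 ^ d * V.toReal + 1 := by positivity
    refine (key (δ / (5 ^ d * V.toReal + 1)) (by positivity)).trans ?_
    rw [← ENNReal.ofReal_toReal hVf, ← ENNReal.ofReal_mul (by positivity), ← ENNReal.ofReal_coe_nnreal]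
    refine ENNReal.ofReal_le_ofReal ?_
    rw [ENNReal.toReal_ofReal ENNReal.toReal_nonneg]
    have h1 : (δ : ℝ) / (5 ^ d * V.toReal + 1) * 5 ^ d * V.toReal = δ * ((5 ^ d * V.toReal) / (5 ^ d * V.toReal + 1)) := by
      ring
    rw [h1]
    have h2 : (5 ^ d * V.toReal) / (5 ^ d * V.toReal + 1) ≤ 1 := by
      rw [div_le_one hK]
      linarith
    have h3 : (0 : ℝ) < δ := hδ
    nlinarith
  exact (mul_eq_zero.1 hz).resolve_right hc0

/-- the volume of a thin slab of a ball of `R³` -/
theorem slab (n : EuclideanSpace ℝ (Fin 3)) (hn : ‖n‖ = 1) (h R : ℝ) (h0 : 0 ≤ h) (hR : 0 ≤ R) :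
    volume {v : EuclideanSpace ℝ (Fin 3) | |inner ℝ n v| ≤ h ∧ ‖v‖ ≤ R} ≤ ENNReal.ofReal (8 * h * R ^ 2) := by
  classical
  have hon : Orthonormal ℝ ((({0} : Set (Fin 3))).domRestrict (fun _ => n)) := by
    constructor
    · intro i
      exact hn
    · intro i j hij
      exact absurd (Subsingleton.elim i j) hij
  obtain ⟨b, hb⟩ := hon.exists_orthonormalBasis_extension_of_card_eq (by simp)
  have hb0 : b 0 = n := hb 0 rfl
  have hmp := b.repr.measurePreserving
  have hmp2 := EuclideanSpace.volume_preserving_symm_measurableEquiv_toLp (Fin 3)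
  have hsub : {v : EuclideanSpace ℝ (Fin 3) | |inner ℝ n v| ≤ h ∧ ‖v‖ ≤ R} ⊆
      b.repr ⁻¹' ((MeasurableEquiv.toLp 2 (Fin 3 → ℝ)).symm ⁻¹'
        (Set.Icc (![-h, -R, -R] : Fin 3 → ℝ) ![h, R, R])) := by
    rintro v ⟨h1, h2⟩
    have h3 : ∀ i, |b.repr v i| ≤ R := by
      intro i
      rw [b.repr_apply_apply]
      refine (abs_real_inner_le_norm _ _).trans ?_
      rw [b.norm_eq_one i, one_mul]
      exact h2
    have h4 : |b.repr v 0| ≤ h := by
      rw [b.repr_apply_apply, hb0]
      exact h1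
    have h5 := abs_le.1 h4
    have h6 := abs_le.1 (h3 1)
    have h7 := abs_le.1 (h3 2)
    rw [mem_preimage, mem_preimage, Set.mem_Icc]
    constructor
    · intro i
      fin_cases i
      · exact h5.1
      · exact h6.1
      · exact h7.1
    · intro i
      fin_cases i
      · exact h5.2
      · exact h6.2
      · exact h7.2
  refine (measure_mono hsub).trans ?_
  rw [hmp.measure_preimage (((MeasurableEquiv.toLp 2 (Fin 3 → ℝ)).symm.measurable measurableSet_Icc).nullMeasurableSet),
    hmp2.measure_preimage measurableSet_Icc.nullMeasurableSet, Real.volume_Icc_pi]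
  rw [Fin.prod_univ_three]
  simp only [Matrix.cons_val_zero, Matrix.cons_val_one, Matrix.cons_val]
  rw [← ENNReal.ofReal_mul (by linarith), ← ENNReal.ofReal_mul (by nlinarith)]
  exact ENNReal.ofReal_le_ofReal (by nlinarith)

end Pool.Agent.H42
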