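import Pool.Agent.Lib_MP_f31343_h.Defs
import Pool.Agent.Lib_MP_f31343_h.Vit
import Pool.Agent.Lib_MP_f31343_h.Slab

/-!
# The volume argument (Step 6): there is no `ChartData`
-/

open Matrix Filter Topology MeasureTheory

namespace F31343H

lemma cf_nrm_sq3 (x : V3) : nrm x ^ 2 = x 0 ^ 2 + x 1 ^ 2 + x 2 ^ 2 := by
  rw [nrm_sq, dotProduct, Fin.sum_univ_three]
  ring

lemma cf_abs_le_nrm (x : V3) (i : Fin 3) : |x i| ≤ nrm x := by
  refine abs_le_of_sq_le_sq ?_ (nrm_nonneg x)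
  rw [cf_nrm_sq3]
  fin_cases i <;> simp <;> nlinarith [sq_nonneg (x 0), sq_nonneg (x 1), sq_nonneg (x 2)]

lemma cf_nrm_le_sum (x : V3) : nrm x ≤ |x 0| + |x 1| + |x 2| := by
  refine abs_le_of_sq_le_sq' ?_ (by positivity) |>.2
  rw [cf_nrm_sq3, ← sq_abs (x 0), ← sq_abs (x 1), ← sq_abs (x 2)]
  nlinarith [mul_nonneg (abs_nonneg (x 0)) (abs_nonneg (x 1)),
    mul_nonneg (abs_nonneg (x 0)) (abs_nonneg (x 2)),
    mul_nonneg (abs_nonneg (x 1)) (abs_nonneg (x 2))]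

lemma cf_cross (x y : V3) : x ⨯₃ y = ![x 1 * y 2 - x 2 * y 1, x 2 * y 0 - x 0 * y 2,
    x 0 * y 1 - x 1 * y 0] := by
  rw [cross_apply]

lemma cf_nrm_cross_le (x y : V3) : nrm (x ⨯₃ y) ≤ nrm x * nrm y := by
  refine abs_le_of_sq_le_sq' ?_ (mul_nonneg (nrm_nonneg x) (nrm_nonneg y)) |>.2
  rw [mul_pow, cf_nrm_sq3, cf_nrm_sq3, cf_nrm_sq3, cf_cross]
  simp only [Matrix.cons_val_zero, Matrix.cons_val_one, Matrix.cons_val]
  nlinarith [sq_nonneg (x 0 * y 0 + x 1 * y 1 + x 2 * y 2)]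

/-- the components of `W` along `κ` and orthogonal to `κ` -/
lemma cf_decomp (W κ : V3) (hκ : nrm κ = 1) :
    ∃ (t : ℝ) (w : V3), (∀ i, W i = t * κ i + w i) ∧ nrm w ≤ nrm (W ⨯₃ κ) := by
  refine ⟨W ⬝ᵥ κ, κ ⨯₃ (W ⨯₃ κ), fun i => ?_, ?_⟩
  · have h1 : κ 0 ^ 2 + κ 1 ^ 2 + κ 2 ^ 2 = 1 := by rw [← cf_nrm_sq3, hκ]; norm_num
    rw [cf_cross, cf_cross, dotProduct, Fin.sum_univ_three]
    fin_cases i
    · simp only [Fin.zero_eta, Matrix.cons_val_zero, Matrix.cons_val_one, Matrix.cons_val]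
      linear_combination (-W 0) * h1
    · simp only [Fin.mk_one, Matrix.cons_val_zero, Matrix.cons_val_one, Matrix.cons_val]
      linear_combination (-W 1) * h1
    · simp only [Fin.reduceFinMk, Matrix.cons_val_zero, Matrix.cons_val_one, Matrix.cons_val]
      linear_combination (-W 2) * h1
  · have := cf_nrm_cross_le κ (W ⨯₃ κ)
    rwa [hκ, one_mul] at this

/-- the normal vector of the plane -/
lemma cf_normal (κ : V3) (α β : ℝ) :
    ∃ n : V3, nrm n = 1 ∧ n 0 = (α * n 1 + β * n 2) / 2 ∧ n 1 * κ 2 = n 2 * κ 1 := by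
  obtain ⟨m₁, m₂, hm, hm'⟩ : ∃ m₁ m₂ : ℝ, (m₁ ≠ 0 ∨ m₂ ≠ 0) ∧ m₁ * κ 2 = m₂ * κ 1 := by
    by_cases h : κ 1 = 0 ∧ κ 2 = 0
    · exact ⟨1, 0, Or.inl one_ne_zero, by rw [h.1, h.2]; ring⟩
    · refine ⟨κ 1, κ 2, ?_, mul_comm _ _⟩
      by_contra hc
      push Not at hc
      exact h hc
  set m : V3 := ![(α * m₁ + β * m₂) / 2, m₁, m₂] with hmdef
  have hm0 : m ≠ 0 := by
    intro h
    have h1 := congrFun h 1
    have h2 := congrFun h 2
    simp only [hmdef, Matrix.cons_val_one, Matrix.cons_val_zero, Pi.zero_apply,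
      Matrix.cons_val] at h1 h2
    rcases hm with hm | hm
    · exact hm h1
    · exact hm h2
  have hpos : 0 < nrm m := lt_of_le_of_ne (nrm_nonneg m) (fun h => hm0 (nrm_eq_zero.1 h.symm))
  refine ⟨(nrm m)⁻¹ • m, ?_, ?_, ?_⟩
  · rw [nrm_smul, abs_of_pos (inv_pos.2 hpos), inv_mul_cancel₀ hpos.ne']
  · simp only [Pi.smul_apply, smul_eq_mul, hmdef, Matrix.cons_val_one, Matrix.cons_val_zero,
      Matrix.cons_val]
    ring
  · simp only [Pi.smul_apply, smul_eq_mul, hmdef, Matrix.cons_val_one, Matrix.cons_val_zero,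
      Matrix.cons_val]
    linear_combination ((nrm ![(α * m₁ + β * m₂) / 2, m₁, m₂])⁻¹) * hm'

/-- the difference of the evaluations -/
lemma cf_Gm_sub (p₀ p : V3 × V3) :
    Gm p 0 - Gm p₀ 0 = (p.1 - p₀.1) 0 ∧
    Gm p 1 - Gm p₀ 1 = Yt p₀ p 2 / 2 - p₀.1 1 * (p.1 - p₀.1) 0 / 2
      - (p.1 - p₀.1) 0 * (p.1 - p₀.1) 1 / 4 ∧
    Gm p 2 - Gm p₀ 2 = - Yt p₀ p 1 / 2 - p₀.1 2 * (p.1 - p₀.1) 0 / 2
      - (p.1 - p₀.1) 0 * (p.1 - p₀.1) 2 / 4 := by
  unfold Gm Yt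
  rw [cf_cross]
  refine ⟨?_, ?_, ?_⟩
  · simp only [Matrix.cons_val_zero, Pi.sub_apply]
  · simp only [Matrix.cons_val_zero, Matrix.cons_val_one, Matrix.cons_val, Pi.sub_apply,
      Pi.smul_apply, smul_eq_mul]
    ring
  · simp only [Matrix.cons_val_zero, Matrix.cons_val_one, Matrix.cons_val, Pi.sub_apply,
      Pi.smul_apply, smul_eq_mul]
    ring

/-- all estimates at one pair of points -/
lemma cf_est (p₀ p : V3 × V3) (κ n : V3) (r ε C : ℝ) (hr : 0 < r) (hrε : r ≤ ε) (hε : ε ≤ 1)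
    (hκ : nrm κ = 1) (hn : nrm n = 1) (hn0 : n 0 = (p₀.1 1 * n 1 + p₀.1 2 * n 2) / 2)
    (hn1 : n 1 * κ 2 = n 2 * κ 1)
    (hd : nrm (p.1 - p₀.1) ≤ r) (hY : nrm (p.2 - p₀.2) ≤ r)
    (hW : nrm (Yt p₀ p ⨯₃ κ) ≤ C * r * ε) :
    |n ⬝ᵥ (Gm p - Gm p₀)| ≤ (C + 1 / 2) * r * ε ∧
      nrm (Gm p - Gm p₀) ≤ (5 + 2 * nrm p₀.1) * r := by
  obtain ⟨g0, g1, g2⟩ := cf_Gm_sub p₀ p
  obtain ⟨t, w, hw, hwn⟩ := cf_decomp (Yt p₀ p) κ hκ
  have hw' := hwn.trans hW
  have hn1' : |n 1| ≤ 1 := (cf_abs_le_nrm n 1).trans hn.le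
  have hn2' : |n 2| ≤ 1 := (cf_abs_le_nrm n 2).trans hn.le
  have hd0 : |(p.1 - p₀.1) 0| ≤ r := (cf_abs_le_nrm _ 0).trans hd
  have hd1 : |(p.1 - p₀.1) 1| ≤ r := (cf_abs_le_nrm _ 1).trans hd
  have hd2 : |(p.1 - p₀.1) 2| ≤ r := (cf_abs_le_nrm _ 2).trans hd
  have hw1 : |w 1| ≤ C * r * ε := (cf_abs_le_nrm _ 1).trans hw'
  have hw2 : |w 2| ≤ C * r * ε := (cf_abs_le_nrm _ 2).trans hw'
  have hx1 : |p₀.1 1| ≤ nrm p₀.1 := cf_abs_le_nrm _ 1
  have hx2 : |p₀.1 2| ≤ nrm p₀.1 := cf_abs_le_nrm _ 2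
  have hYt : nrm (Yt p₀ p) ≤ (2 + nrm p₀.1 / 2) * r := by
    unfold Yt
    refine (nrm_sub_le _ _).trans ?_
    rw [nrm_smul, nrm_smul, abs_of_pos (by norm_num : (0 : ℝ) < 2),
      abs_of_pos (by norm_num : (0 : ℝ) < 1 / 2)]
    have h1 := cf_nrm_cross_le p₀.1 (p.1 - p₀.1)
    have h2 : nrm p₀.1 * nrm (p.1 - p₀.1) ≤ nrm p₀.1 * r :=
      mul_le_mul_of_nonneg_left hd (nrm_nonneg _)
    nlinarith
  have hY1 : |Yt p₀ p 1| ≤ (2 + nrm p₀.1 / 2) * r := (cf_abs_le_nrm _ 1).trans hYt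
  have hY2 : |Yt p₀ p 2| ≤ (2 + nrm p₀.1 / 2) * r := (cf_abs_le_nrm _ 2).trans hYt
  set d0 := (p.1 - p₀.1) 0 with hd0def
  set d1 := (p.1 - p₀.1) 1 with hd1def
  set d2 := (p.1 - p₀.1) 2 with hd2def
  have hr2 : r * r ≤ r * ε := mul_le_mul_of_nonneg_left hrε hr.le
  have hr1 : r * r ≤ r := by nlinarith
  have m01 : |d0 * d1| ≤ r * r := by
    rw [abs_mul]; exact mul_le_mul hd0 hd1 (abs_nonneg _) hr.le
  have m02 : |d0 * d2| ≤ r * r := by
    rw [abs_mul]; exact mul_le_mul hd0 hd2 (abs_nonneg _) hr.le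
  constructor
  · have key : n ⬝ᵥ (Gm p - Gm p₀) = n 1 * (w 2 / 2 - d0 * d1 / 4)
        + n 2 * (-w 1 / 2 - d0 * d2 / 4) := by
      rw [dotProduct, Fin.sum_univ_three]
      simp only [Pi.sub_apply]
      rw [g0, g1, g2, hw 2, hw 1, hn0]
      linear_combination (t / 2) * hn1
    rw [key]
    have e1 : |n 1 * (w 2 / 2 - d0 * d1 / 4)| ≤ (C * r * ε) / 2 + r * r / 4 := by
      rw [abs_mul]
      have : |w 2 / 2 - d0 * d1 / 4| ≤ (C * r * ε) / 2 + r * r / 4 := by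
        have a1 := abs_sub (w 2 / 2) (d0 * d1 / 4)
        rw [abs_div, abs_div, abs_of_pos (by norm_num : (0 : ℝ) < 2),
          abs_of_pos (by norm_num : (0 : ℝ) < 4)] at a1
        linarith
      calc |n 1| * |w 2 / 2 - d0 * d1 / 4| ≤ 1 * |w 2 / 2 - d0 * d1 / 4| :=
            mul_le_mul_of_nonneg_right hn1' (abs_nonneg _)
        _ ≤ _ := by rw [one_mul]; exact this
    have e2 : |n 2 * (-w 1 / 2 - d0 * d2 / 4)| ≤ (C * r * ε) / 2 + r * r / 4 := by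
      rw [abs_mul]
      have : |-w 1 / 2 - d0 * d2 / 4| ≤ (C * r * ε) / 2 + r * r / 4 := by
        have a1 := abs_sub (-w 1 / 2) (d0 * d2 / 4)
        rw [abs_div, abs_div, abs_neg, abs_of_pos (by norm_num : (0 : ℝ) < 2),
          abs_of_pos (by norm_num : (0 : ℝ) < 4)] at a1
        linarith
      calc |n 2| * |-w 1 / 2 - d0 * d2 / 4| ≤ 1 * |-w 1 / 2 - d0 * d2 / 4| :=
            mul_le_mul_of_nonneg_right hn2' (abs_nonneg _)
        _ ≤ _ := by rw [one_mul]; exact this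
    have e3 := abs_add_le (n 1 * (w 2 / 2 - d0 * d1 / 4)) (n 2 * (-w 1 / 2 - d0 * d2 / 4))
    nlinarith
  · have xd1 : |p₀.1 1 * d0| ≤ nrm p₀.1 * r := by
      rw [abs_mul]; exact mul_le_mul hx1 hd0 (abs_nonneg _) (nrm_nonneg _)
    have xd2 : |p₀.1 2 * d0| ≤ nrm p₀.1 * r := by
      rw [abs_mul]; exact mul_le_mul hx2 hd0 (abs_nonneg _) (nrm_nonneg _)
    have f0 : |(Gm p - Gm p₀) 0| ≤ r := by
      rw [Pi.sub_apply, g0]; exact hd0
    have f1 : |(Gm p - Gm p₀) 1| ≤ (2 + nrm p₀.1) * r := by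
      rw [Pi.sub_apply, g1, abs_le]
      have a1 := abs_le.1 hY2
      have a2 := abs_le.1 xd1
      have a3 := abs_le.1 m01
      constructor <;> nlinarith [nrm_nonneg p₀.1]
    have f2 : |(Gm p - Gm p₀) 2| ≤ (2 + nrm p₀.1) * r := by
      rw [Pi.sub_apply, g2, abs_le]
      have a1 := abs_le.1 hY1
      have a2 := abs_le.1 xd2
      have a3 := abs_le.1 m02
      constructor <;> nlinarith [nrm_nonneg p₀.1]
    have f3 := cf_nrm_le_sum (Gm p - Gm p₀)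
    nlinarith

/-- Step 6: the limit set does not exist. -/
theorem ChartData.false {L : Set (V3 × V3)} (h : ChartData L) : False := by
  obtain ⟨s, hs, hsL, hsG⟩ := h.sec
  have hinj : ∀ a b, s a = s b → a = b := fun a b hab => by rw [← hsG a, ← hsG b, hab]
  -- the sign
  obtain ⟨σ, hσ, hsign⟩ : ∃ σ : ℝ, σ ^ 2 = 1 ∧ ∀ a b : V3,
      0 ≤ σ * (((s b).1 - (s a).1) ⬝ᵥ ((s b).2 - (s a).2)) := by
    set f : E3 × E3 → ℝ := fun x =>
      ((s x.1.ofLp).1 - (s x.2.ofLp).1) ⬝ᵥ ((s x.1.ofLp).2 - (s x.2.ofLp).2) with hf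
    have hfc : Continuous f := by
      have c1 : Continuous fun x : E3 × E3 => s x.1.ofLp :=
        hs.comp ((PiLp.continuous_ofLp 2 _).comp continuous_fst)
      have c2 : Continuous fun x : E3 × E3 => s x.2.ofLp :=
        hs.comp ((PiLp.continuous_ofLp 2 _).comp continuous_snd)
      exact (c1.fst.sub c2.fst).dotProduct (c1.snd.sub c2.snd)
    have hf0 : ∀ x : E3 × E3, x.1 ≠ x.2 → f x ≠ 0 := by
      intro x hx
      refine h.ne _ (hsL _) _ (hsL _) fun hc => hx ?_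
      have h1 := hinj _ _ hc
      exact WithLp.ofLp_injective 2 h1
    rcases Pool.Agent.LibF31343h.pairsSign f hfc.continuousOn hf0 with hp | hp
    · refine ⟨1, by norm_num, fun a b => ?_⟩
      rcases eq_or_ne a b with rfl | hab
      · simp
      · have := hp (WithLp.toLp 2 b, WithLp.toLp 2 a)
          (fun hc => hab (WithLp.toLp_injective 2 hc).symm)
        rw [one_mul]; exact this.le
    · refine ⟨-1, by norm_num, fun a b => ?_⟩
      rcases eq_or_ne a b with rfl | hab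
      · simp
      · have := hp (WithLp.toLp 2 b, WithLp.toLp 2 a)
          (fun hc => hab (WithLp.toLp_injective 2 hc).symm)
        simp only [hf] at this
        linarith
  set z : V3 → E3 := fun a => WithLp.toLp 2 ((s a).1 + σ • (s a).2) with hz
  have hdist : ∀ a b, nrm ((s b).1 - (s a).1) ≤ dist (z b) (z a) ∧
      nrm ((s b).2 - (s a).2) ≤ dist (z b) (z a) := by
    intro a b
    have h1 : dist (z b) (z a) =
        nrm (((s b).1 - (s a).1) + σ • ((s b).2 - (s a).2)) := by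
      rw [dist_eq_norm]
      unfold nrm
      congr 1
      rw [hz]
      simp only
      rw [← WithLp.toLp_sub]
      congr 1
      rw [smul_sub]
      abel
    have h2 : (dist (z b) (z a)) ^ 2 = nrm ((s b).1 - (s a).1) ^ 2 +
        nrm ((s b).2 - (s a).2) ^ 2 +
        2 * (σ * (((s b).1 - (s a).1) ⬝ᵥ ((s b).2 - (s a).2))) := by
      rw [h1, nrm_sq, nrm_sq, nrm_sq]
      simp only [dotProduct_add, add_dotProduct, dotProduct_smul, smul_dotProduct, smul_eq_mul]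
      rw [dotProduct_comm ((s b).2 - (s a).2) ((s b).1 - (s a).1)]
      linear_combination (((s b).2 - (s a).2) ⬝ᵥ ((s b).2 - (s a).2)) * hσ
    have h3 := hsign a b
    constructor
    · refine abs_le_of_sq_le_sq' ?_ dist_nonneg |>.2
      nlinarith [sq_nonneg (nrm ((s b).2 - (s a).2))]
    · refine abs_le_of_sq_le_sq' ?_ dist_nonneg |>.2
      nlinarith [sq_nonneg (nrm ((s b).1 - (s a).1))]
  have hnull : volume (Set.range (fun a : V3 => (WithLp.toLp 2 a : E3))) = 0 := by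
    refine cover_null z _ fun a ε hε => ?_
    obtain ⟨C, hC⟩ := h.dyn (s a) (hsL a)
    set D := 5 + 2 * nrm (s a).1 with hD
    have hDpos : 0 < D := by have := nrm_nonneg (s a).1; positivity
    set Q := 8 * (|C| + 1 / 2) * D ^ 2 with hQ
    have hQpos : 0 < Q := by positivity
    obtain ⟨r, hr0, hrε, κ, hκ, hr⟩ := hC (min 1 (ε / Q)) (lt_min one_pos (by positivity))
    set ε' := min 1 (ε / Q) with hε'
    have hε1 : ε' ≤ 1 := min_le_left _ _
    have hε2 : ε' ≤ ε / Q := min_le_right _ _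
    refine ⟨r, hr0, hrε.trans_le hε1, ?_⟩
    obtain ⟨n, hn, hn0, hn1⟩ := cf_normal κ ((s a).1 1) ((s a).1 2)
    have hn' : ‖(WithLp.toLp 2 n : E3)‖ = 1 := hn
    have hsl := slab (WithLp.toLp 2 n : E3) hn' (WithLp.toLp 2 a) ((|C| + 1 / 2) * r * ε') (D * r)
      (by have : 0 < ε' := lt_min one_pos (by positivity)
          positivity) (by positivity)
    refine (measure_mono ?_).trans (hsl.trans (ENNReal.ofReal_le_ofReal ?_))
    · rintro _ ⟨b, hb, rfl⟩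
      have hb' : dist (z b) (z a) ≤ r := hb
      obtain ⟨hd1, hd2⟩ := hdist a b
      have h4 := hr (s b) (hsL b) (hd1.trans hb')
      have h5 : nrm (Yt (s a) (s b) ⨯₃ κ) ≤ |C| * r * ε' := h4.trans (by
        have : 0 < ε' := lt_min one_pos (by positivity)
        have : C * (r * ε') ≤ |C| * (r * ε') :=
          mul_le_mul_of_nonneg_right (le_abs_self C) (by positivity)
        linarith)
      obtain ⟨e1, e2⟩ := cf_est (s a) (s b) κ n r ε' |C| hr0 hrε.le hε1 hκ hn hn0 hn1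
        (hd1.trans hb') (hd2.trans hb') h5
      rw [hsG, hsG] at e1 e2
      refine ⟨?_, ?_⟩
      · rw [← WithLp.toLp_sub, EuclideanSpace.inner_toLp_toLp]
        simp only [star_trivial]
        rw [dotProduct_comm]
        exact e1
      · rw [← WithLp.toLp_sub]
        exact e2
    · have h6 : ε' * Q ≤ ε := by rwa [le_div_iff₀ hQpos] at hε2
      have h7 : 8 * ((|C| + 1 / 2) * r * ε') * (D * r) ^ 2 = (ε' * Q) * r ^ 3 := by
        rw [hQ]; ring
      rw [h7]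
      exact mul_le_mul_of_nonneg_right h6 (by positivity)
  have huniv : Set.range (fun a : V3 => (WithLp.toLp 2 a : E3)) = Set.univ := by
    ext x
    simp only [Set.mem_range, Set.mem_univ, iff_true]
    exact ⟨WithLp.ofLp x, rfl⟩
  rw [huniv] at hnull
  exact (NeZero.ne (volume (Set.univ : Set E3))) hnull

end F31343H
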