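import Pool.Agent.Lib_MP_f31343_h.ChartAlg

/-!
# B2: the continuous section
-/

open Matrix Filter Topology
open scoped Matrix.Norms.L2Operator

namespace F31343H

/-! ### The parameter of a plane, explicitly -/

/-- the matrix of `ff p` -/
noncomputable def mff (p : V3 × V3) : M33 :=
  -(1 / 4 : ℝ) • vecMulVec p.1 p.1 +
    !![0, -p.2 2, p.2 1; p.2 2, 0, -p.2 0; -p.2 1, p.2 0, 0]

lemma mff_mulVec (p : V3 × V3) (e : V3) : mff p *ᵥ e = ff p e := by
  ext i
  fin_cases i <;>
  · simp [mff, ff, mulVec, dotProduct, Fin.sum_univ_three, vecMulVec_apply, crossProduct]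
    ring

lemma S0T_mul_apply (S : M43) (i j : Fin 3) : (S0ᵀ * S) i j = S i.castSucc j := by
  rw [Matrix.mul_apply, Finset.sum_eq_single i.castSucc]
  · simp [S0]
  · intro b _ hb
    simp [S0, hb]
  · intro h; exact absurd (Finset.mem_univ _) h

lemma S0T_mulVec_snoc (v : V3) (c : ℝ) : S0ᵀ *ᵥ (Fin.snoc v c : V4) = v := by
  ext i
  simp only [mulVec, dotProduct]
  rw [Finset.sum_eq_single i.castSucc]
  · simp [S0]
  · intro b _ hb
    simp [S0, hb]
  · intro h; exact absurd (Finset.mem_univ _) h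

lemma S0_mulVec (v : V3) : S0 *ᵥ v = (Fin.snoc v 0 : V4) := by
  ext i
  refine Fin.lastCases ?_ (fun i => ?_) i
  · simp only [mulVec, dotProduct, Fin.snoc_last]
    refine Finset.sum_eq_zero fun j _ => ?_
    have : Fin.last 3 ≠ j.castSucc := (Fin.castSucc_lt_last j).ne'
    rw [S0, Matrix.of_apply, if_neg this, zero_mul]
  · simp only [mulVec, dotProduct, Fin.snoc_castSucc]
    rw [Finset.sum_eq_single i]
    · simp [S0]
    · intro b _ hb
      have : i.castSucc ≠ b.castSucc := fun h => hb (Fin.castSucc_injective _ h).symm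
      simp [S0, this]
    · intro h; exact absurd (Finset.mem_univ _) h

/-- the parameter, as a function of `S` -/
noncomputable def mOf (S : M43) : M33 :=
  -(((1 - S0ᵀ * S).det)⁻¹ • ((1 - S0ᵀ * S).adjugate * (1 + S0ᵀ * S)))

/-- the parameter, as a function of `S` -/
noncomputable def pOf (S : M43) : V3 × V3 :=
  ((fun j => (S * (mOf S - 1) : M43) (Fin.last 3) j),
    ![(mOf S 2 1 - mOf S 1 2) / 2, (mOf S 0 2 - mOf S 2 0) / 2, (mOf S 1 0 - mOf S 0 1) / 2])

/-- `IsPl` in terms of matrices -/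
lemma IsPl.mul_top {S : M43} {p : V3 × V3} (h : IsPl S p) :
    (S0ᵀ * S) * (mff p - 1) = 1 + mff p := by
  refine Matrix.ext_of_mulVec_single fun j => ?_
  have h1 := congrArg (fun v => S0ᵀ *ᵥ v) (h (Pi.single j 1))
  simp only [mulVec_mulVec, S0T_mulVec_snoc] at h1
  rw [← mulVec_mulVec, sub_mulVec, one_mulVec, mff_mulVec, h1, add_mulVec, one_mulVec, mff_mulVec]

lemma IsPl.mff_eq {S : M43} {p : V3 × V3} (h : IsPl S p) (hd : (1 - S0ᵀ * S).det ≠ 0) :
    mff p = mOf S := by
  have h1 : (1 - S0ᵀ * S) * mff p = -(1 + S0ᵀ * S) := by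
    have := h.mul_top
    rw [mul_sub, mul_one] at this
    rw [sub_mul, one_mul]
    have h2 : S0ᵀ * S * mff p = 1 + mff p + S0ᵀ * S := by rw [← this]; abel
    rw [h2]; abel
  have h2 : (1 - S0ᵀ * S).det • mff p = -((1 - S0ᵀ * S).adjugate * (1 + S0ᵀ * S)) := by
    calc (1 - S0ᵀ * S).det • mff p = ((1 - S0ᵀ * S).adjugate * (1 - S0ᵀ * S)) * mff p := by
          rw [adjugate_mul, smul_mul, one_mul]
      _ = (1 - S0ᵀ * S).adjugate * ((1 - S0ᵀ * S) * mff p) := Matrix.mul_assoc _ _ _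
      _ = _ := by rw [h1, Matrix.mul_neg]
  unfold mOf
  rw [← smul_neg, ← h2, smul_smul, inv_mul_cancel₀ hd, one_smul]

lemma IsPl.eq_pOf {S : M43} {p : V3 × V3} (h : IsPl S p) (hd : (1 - S0ᵀ * S).det ≠ 0) :
    p = pOf S := by
  have hm := h.mff_eq hd
  unfold pOf
  rw [← hm]
  refine Prod.ext ?_ ?_
  · ext j
    have h1 := congrFun (h (Pi.single j 1)) (Fin.last 3)
    rw [Fin.snoc_last] at h1
    have h2 : ff p (Pi.single j 1) - Pi.single j 1 = (mff p - 1) *ᵥ Pi.single j 1 := by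
      rw [sub_mulVec, one_mulVec, mff_mulVec]
    rw [h2, mulVec_mulVec] at h1
    simp only [mulVec_single_one, dotProduct_single_one] at h1
    exact h1.symm
  · ext i
    fin_cases i <;> simp [mff, vecMulVec_apply] <;> ring

lemma continuousAt_mOf {S : M43} (hd : (1 - S0ᵀ * S).det ≠ 0) : ContinuousAt mOf S := by
  unfold mOf
  have h1 : Continuous fun S : M43 => (1 - S0ᵀ * S) := by fun_prop
  have h2 : Continuous fun S : M43 => (1 - S0ᵀ * S).det := h1.matrix_det
  have h3 : Continuous fun S : M43 => (1 - S0ᵀ * S).adjugate * (1 + S0ᵀ * S) :=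
    (h1.matrix_adjugate).matrix_mul (by fun_prop)
  exact ((h2.continuousAt.inv₀ hd).smul h3.continuousAt).neg

lemma continuousAt_pOf {S : M43} (hd : (1 - S0ᵀ * S).det ≠ 0) : ContinuousAt pOf S := by
  have hm := continuousAt_mOf hd
  have hm' : ∀ i j, ContinuousAt (fun S => mOf S i j) S := fun i j =>
    (continuous_apply_apply i j).continuousAt.comp hm
  unfold pOf
  refine ContinuousAt.prodMk ?_ ?_
  · refine continuousAt_pi.mpr fun j => ?_
    have : ContinuousAt (fun S : M43 => S * (mOf S - 1)) S := by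
      refine ContinuousAt.comp (g := fun q : M43 × M33 => q.1 * (q.2 - 1)) (f := fun S => (S, mOf S)) ?_
        (continuousAt_id.prodMk hm)
      exact (continuous_fst.matrix_mul (continuous_snd.sub continuous_const)).continuousAt
    exact (continuous_apply_apply (Fin.last 3) j).continuousAt.comp this
  · refine continuousAt_pi.mpr fun i => ?_
    fin_cases i
    · exact ((hm' 2 1).sub (hm' 1 2)).div_const 2
    · exact ((hm' 0 2).sub (hm' 2 0)).div_const 2
    · exact ((hm' 1 0).sub (hm' 0 1)).div_const 2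

/-! ### The isotropic vectors over `e₀` -/

/-- `e₀` -/
noncomputable def ve : V3 := ![1, 0, 0]

/-- the `f`-component of the isotropic vector over `e₀` with coordinates `a` -/
noncomputable def fa (a : V3) : V3 := ![-(a 0) ^ 2 / 4, a 1, a 2]

/-- the negative part -/
noncomputable def ua (a : V3) : V3 := fa a - ve

/-- the positive part -/
noncomputable def ya (a : V3) : V4 := Fin.snoc (ve + fa a) (a 0)

lemma ff_ve (p : V3 × V3) : ff p ve = fa (Gm p) := by
  ext i
  fin_cases i <;>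
  · simp [ff, fa, ve, Gm, dotProduct, Fin.sum_univ_three, crossProduct]
    ring

lemma eq_of_ff {p : V3 × V3} {a : V3} (h1 : p.1 ⬝ᵥ ve = a 0) (h2 : ff p ve = fa a) : Gm p = a := by
  rw [ff_ve] at h2
  have e1 := congrFun h2 1
  have e2 := congrFun h2 2
  have e0 : Gm p 0 = a 0 := by
    rw [← h1]
    simp [Gm, ve, dotProduct, Fin.sum_univ_three]
  ext i
  fin_cases i
  · exact e0
  · exact e1
  · exact e2

lemma ua_ne (a : V3) : ua a ≠ 0 := by
  intro h
  have := congrFun h 0
  simp [ua, fa, ve] at this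
  nlinarith [sq_nonneg (a 0)]

lemma nrm_ya (a : V3) : nrm (ya a) = nrm (ua a) := by
  rw [← sq_eq_sq₀ (nrm_nonneg _) (nrm_nonneg _), nrm_sq, nrm_sq, ya, snoc_dot]
  simp [ua, fa, ve, dotProduct, Fin.sum_univ_three]
  ring

lemma continuous_fa : Continuous fa := by
  unfold fa
  refine continuous_pi fun i => ?_
  fin_cases i
  · exact ((continuous_apply (0 : Fin 3)).pow 2).neg.div_const 4
  · exact continuous_apply (1 : Fin 3)
  · exact continuous_apply (2 : Fin 3)

lemma continuous_ua : Continuous ua := continuous_fa.sub continuous_const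

lemma continuous_ya : Continuous ya := by
  unfold ya
  refine continuous_pi fun i => ?_
  refine Fin.lastCases ?_ (fun i => ?_) i
  · simp only [Fin.snoc_last]
    exact continuous_apply (0 : Fin 3)
  · simp only [Fin.snoc_castSucc]
    exact (continuous_apply i).comp (continuous_const.add continuous_fa)

lemma S0_not (a : V3) : S0 *ᵥ ua a ≠ ya a := by
  intro h
  have h1 := congrArg (fun v => S0ᵀ *ᵥ v) h
  simp only [S0_mulVec, ya, S0T_mulVec_snoc] at h1
  have := congrFun h1 0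
  simp [ua, ve] at this
  linarith

/-- two planes of the limit set with a common vector are equal -/
lemma LimitSet.eq_of_common {Λ : Set M43} (hΛ : LimitSet Λ) {S S' : M43} (hS : S ∈ Λ) (hS' : S' ∈ Λ)
    {u : V3} (hu : u ≠ 0) (h : S *ᵥ u = S' *ᵥ u) : S = S' := by
  by_contra hne
  apply hΛ.transv S hS S' hS' hne
  rw [← Matrix.exists_mulVec_eq_zero_iff]
  refine ⟨u, hu, ?_⟩
  rw [sub_mulVec, one_mulVec, ← mulVec_mulVec, ← h, mulVec_mulVec, hΛ.isom S hS, one_mulVec, sub_self]

/-- the coordinates of the plane through the isotropic vector over `e₀` -/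
lemma Gm_eq_of_isPl {S : M43} (hd : (1 - S0ᵀ * S).det ≠ 0) {a : V3}
    (ha : S *ᵥ ua a = ya a) {p : V3 × V3} (hp : IsPl S p) : Gm p = a := by
  have h1 := hp ve
  set w : V3 := ff p ve - fa a with hw
  set t : ℝ := p.1 ⬝ᵥ ve - a 0 with ht
  have h2 : S *ᵥ w = (Fin.snoc w t : V4) := by
    have e1 : w = (ff p ve - ve) - ua a := by rw [hw, ua]; abel
    calc S *ᵥ w = S *ᵥ (ff p ve - ve) - S *ᵥ ua a := by rw [e1, mulVec_sub]
      _ = Fin.snoc (ve + ff p ve) (p.1 ⬝ᵥ ve) - ya a := by rw [h1, ha]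
      _ = Fin.snoc w t := by
          ext i
          refine Fin.lastCases ?_ (fun i => ?_) i
          · rw [Pi.sub_apply, ya, Fin.snoc_last, Fin.snoc_last, Fin.snoc_last]
          · rw [Pi.sub_apply, ya, Fin.snoc_castSucc, Fin.snoc_castSucc, Fin.snoc_castSucc, hw]
            simp
  have h3 : w = 0 := by
    by_contra hne
    apply hd
    rw [← Matrix.exists_mulVec_eq_zero_iff]
    refine ⟨w, hne, ?_⟩
    rw [sub_mulVec, one_mulVec, ← mulVec_mulVec, h2, S0T_mulVec_snoc, sub_self]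
  have h4 : t = 0 := by
    have := congrFun h2 (Fin.last 3)
    rw [Fin.snoc_last, h3, mulVec_zero] at this
    exact this.symm
  exact eq_of_ff (sub_eq_zero.mp h4) (sub_eq_zero.mp h3)

/-- **B2**: the continuous section -/
theorem exists_section {Λ : Set M43} (hΛ : LimitSet Λ) (h0 : S0 ∈ Λ)
    (hpl : ∀ S ∈ Λ, (1 - S0ᵀ * S).det ≠ 0 → ∃ p, IsPl S p) :
    ∃ s : V3 → V3 × V3, Continuous s ∧ (∀ a, s a ∈ {p | ∃ S ∈ Λ, IsPl S p}) ∧
      (∀ a, Gm (s a) = a) := by
  have hex : ∀ a : V3, ∃ S ∈ Λ, S *ᵥ ua a = ya a := fun a =>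
    hΛ.cover (ya a) (ua a) (nrm_ya a) (ua_ne a)
  choose σ hσ hσa using hex
  have hd : ∀ a, (1 - S0ᵀ * σ a).det ≠ 0 := by
    intro a
    apply hΛ.transv S0 h0 (σ a) (hσ a)
    intro h
    apply S0_not a
    rw [h]
    exact hσa a
  have hcont : Continuous σ := by
    rw [continuous_iff_ultrafilter]
    intro a g hg
    obtain ⟨S', hS', hlim⟩ := hΛ.compact.ultrafilter_le_nhds (g.map σ)
      (by
        rw [Filter.le_principal_iff]
        exact Filter.mem_map.mpr (Filter.univ_mem' hσ))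
    have hlim' : Tendsto σ (g : Filter V3) (𝓝 S') := hlim
    have hu : Tendsto ua (g : Filter V3) (𝓝 (ua a)) := (continuous_ua.tendsto a).mono_left hg
    have hy : Tendsto ya (g : Filter V3) (𝓝 (ya a)) := (continuous_ya.tendsto a).mono_left hg
    have h1 : Tendsto (fun b => σ b *ᵥ ua b) (g : Filter V3) (𝓝 (S' *ᵥ ua a)) := by
      have hc : Continuous fun q : M43 × V3 => q.1 *ᵥ q.2 := continuous_fst.matrix_mulVec continuous_snd
      exact (hc.tendsto (S', ua a)).comp (hlim'.prodMk_nhds hu)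
    have h2 : S' *ᵥ ua a = ya a := by
      refine tendsto_nhds_unique h1 ?_
      refine hy.congr fun b => ?_
      exact (hσa b).symm
    have h3 : S' = σ a := hΛ.eq_of_common hS' (hσ a) (ua_ne a) (h2.trans (hσa a).symm)
    rw [← h3]
    exact hlim'
  have hpl' : ∀ a, IsPl (σ a) (pOf (σ a)) := by
    intro a
    obtain ⟨p, hp⟩ := hpl (σ a) (hσ a) (hd a)
    rw [← hp.eq_pOf (hd a)]
    exact hp
  refine ⟨fun a => pOf (σ a), ?_, fun a => ⟨σ a, hσ a, hpl' a⟩, fun a => ?_⟩
  · exact continuous_iff_continuousAt.mpr fun a =>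
      (continuousAt_pOf (hd a)).comp hcont.continuousAt
  · exact Gm_eq_of_isPl (hd a) (hσa a) (hpl' a)

/-! ### The final form -/

/-- the parameters of the planes of `Λ` (different from `S0`) -/
def chartSet (Λ : Set M43) : Set (V3 × V3) := {p | ∃ S ∈ Λ, IsPl S p}

theorem LimitSet.exists_sec {Λ : Set M43} (h : LimitSet Λ) (h0 : S0 ∈ Λ) :
    ∃ s : V3 → V3 × V3, Continuous s ∧ (∀ a, s a ∈ chartSet Λ) ∧ (∀ a, Gm (s a) = a) :=
  exists_section h h0 fun S hS hd => exists_isPl (h.isom S hS) hd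

theorem LimitSet.chart_ne {Λ : Set M43} (h : LimitSet Λ) :
    ∀ p ∈ chartSet Λ, ∀ p' ∈ chartSet Λ, p ≠ p' → (p.1 - p'.1) ⬝ᵥ (p.2 - p'.2) ≠ 0 := by
  rintro p ⟨S, hS, hp⟩ p' ⟨S', hS', hp'⟩ hne h0
  have hSS : S ≠ S' := by
    rintro rfl
    exact hne (hp.unique' hp')
  exact h.transv S hS S' hS' hSS (det_eq_zero_of_dot (h.isom S hS) (h.isom S' hS') hp hp' h0)

end F31343H
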