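import Pool.Agent.Lib_MP_f31343_h.Step2

/-!
# A2: the claim (step 3)

`pr (Sg a) (Sg b) = Dl (a⁻¹ b) / (Dl a⁻¹ * Dl b)`.  For `a = α s` with `l s = 1` and
`l a = l α + 1` one has `Dl a⁻¹ = J(s⁻¹, S_{α⁻¹}) Dl α⁻¹` and
`Dl (a⁻¹ b) = J(s⁻¹, S_{α⁻¹b}) Dl (α⁻¹ b)`, and
`‖S_{α⁻¹b} - S_{α⁻¹}‖ ≤ A e^{-c l(α)}` (radial: `l (α⁻¹ b) = l α + l b`), while
`J(g, S') ≤ J(g, S) exp (8 ‖g‖² ‖S' - S‖)`.  The product over the letters of `a` converges.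
-/

open Matrix Filter Topology
open scoped Matrix.Norms.L2Operator

namespace F31343H


lemma abs_det_one_add_le (T : M33) : |(1 + T).det| ≤ Real.exp (4 * ‖T‖) := by
  set t := ‖T‖ with ht
  have ht0 : 0 ≤ t := norm_nonneg _
  have e : ∀ i j, |T i j| ≤ t := abs_entry_le T
  have hexp : 1 + 4 * t + (4 * t) ^ 2 / 2 + (4 * t) ^ 3 / 6 ≤ Real.exp (4 * t) := by
    have h := Real.sum_le_exp_of_nonneg (x := 4 * t) (by positivity) 4
    simp [Finset.sum_range_succ, Nat.factorial] at h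
    linarith
  refine le_trans ?_ hexp
  have m2 : ∀ i j k l, |T i j * T k l| ≤ t ^ 2 := by
    intro i j k l
    rw [abs_mul, sq]
    exact mul_le_mul (e i j) (e k l) (abs_nonneg _) ht0
  have m3 : ∀ i j k l m n, |T i j * T k l * T m n| ≤ t ^ 3 := by
    intro i j k l m n
    rw [abs_mul, pow_succ]
    exact mul_le_mul (m2 i j k l) (e m n) (abs_nonneg _) (by positivity)
  rw [Matrix.det_fin_three]
  simp only [Matrix.add_apply, Matrix.one_apply_eq, Matrix.one_apply_ne, ne_eq, Fin.reduceEq, not_false_eq_true,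
    zero_add]
  have a00 := abs_le.1 (e 0 0)
  have a11 := abs_le.1 (e 1 1)
  have a22 := abs_le.1 (e 2 2)
  have b1 := abs_le.1 (m2 0 0 1 1)
  have b2 := abs_le.1 (m2 0 0 2 2)
  have b3 := abs_le.1 (m2 1 1 2 2)
  have b4 := abs_le.1 (m2 0 1 1 0)
  have b5 := abs_le.1 (m2 0 2 2 0)
  have b6 := abs_le.1 (m2 1 2 2 1)
  have c1 := abs_le.1 (m3 0 0 1 1 2 2)
  have c2 := abs_le.1 (m3 0 0 1 2 2 1)
  have c3 := abs_le.1 (m3 0 1 1 0 2 2)
  have c4 := abs_le.1 (m3 0 1 1 2 2 0)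
  have c5 := abs_le.1 (m3 0 2 1 0 2 1)
  have c6 := abs_le.1 (m3 0 2 1 1 2 0)
  have t2 : 0 ≤ t ^ 2 := by positivity
  have t3 : 0 ≤ t ^ 3 := by positivity
  have hub : 1 + 4 * t + (4 * t) ^ 2 / 2 + (4 * t) ^ 3 / 6 ≥ 1 + 3 * t + 6 * t ^ 2 + 6 * t ^ 3 := by
    nlinarith
  refine le_trans ?_ hub
  rw [abs_le]
  constructor <;> nlinarith

lemma Jf_ratio {g : M7} (hg : IsO g) {S S' : M43} (hS : IsContr S) :
    Jf g S' ≤ Jf g S * Real.exp (8 * ‖g‖ ^ 2 * ‖S' - S‖) := by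
  have hd := hg.den_det hS
  have h1 : den g S' = den g S * (1 + (den g S)⁻¹ * (g.toBlocks₂₁ * (S' - S))) := by
    rw [mul_add, mul_one, ← mul_assoc, Matrix.mul_nonsing_inv _ (isUnit_iff_ne_zero.2 hd), one_mul]
    unfold den
    rw [Matrix.mul_sub]
    abel
  have h2 : ‖(den g S)⁻¹ * (g.toBlocks₂₁ * (S' - S))‖ ≤ 2 * ‖g‖ ^ 2 * ‖S' - S‖ := by
    calc ‖(den g S)⁻¹ * (g.toBlocks₂₁ * (S' - S))‖
        ≤ ‖(den g S)⁻¹‖ * (‖g.toBlocks₂₁‖ * ‖S' - S‖) :=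
          (opNorm_mul_le _ _).trans (mul_le_mul_of_nonneg_left (opNorm_mul_le _ _) (norm_nonneg _))
      _ ≤ (2 * ‖g‖) * (‖g‖ * ‖S' - S‖) := by
          apply mul_le_mul
          · rw [← hg.norm_inv]; exact hg.norm_den_inv hS
          · exact mul_le_mul_of_nonneg_right (norm_block21 g) (norm_nonneg _)
          · positivity
          · positivity
      _ = 2 * ‖g‖ ^ 2 * ‖S' - S‖ := by ring
  unfold Jf
  rw [h1, Matrix.det_mul, abs_mul]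
  apply mul_le_mul_of_nonneg_left _ (abs_nonneg _)
  refine (abs_det_one_add_le _).trans ?_
  apply Real.exp_le_exp.2
  nlinarith

variable {Γ : Type*} [Group Γ] {ρ : Γ →* M7} {l : Γ → ℕ} {c C K : ℝ}

/-- the one-letter induction -/
lemma Grow.ratio (hG : Grow Γ ρ l c C K) {C' : ℝ} (_hC' : 0 ≤ C')
    (hstep : ∀ α β, l (α * β) = l α + l β →
      ‖Sg (ρ α) - Sg (ρ (α * β))‖ ≤ C' * Real.exp (-c * l α)) (b : Γ) (n : ℕ) :
    ∀ a, l a = n → l (a⁻¹ * b) = l a + l b →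
      Dl (ρ a⁻¹) * Dl (ρ b) ≤ Dl (ρ (a⁻¹ * b)) *
        Real.exp (8 * K ^ 2 * C' * ∑ k ∈ Finset.range n, Real.exp (-c * k)) := by
  induction n with
  | zero =>
    intro a ha _
    have h1 := hG.word.eq_one a ha
    subst h1
    have h2 : Dl (1 : M7) = 1 := by
      unfold Dl
      have : (1 : M7).toBlocks₂₂ = 1 := by
        ext i j
        simp [toBlocks₂₂, Matrix.one_apply]
      rw [this]
      simp
    simp [h2]
  | succ n ih =>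
    intro a ha hab
    obtain ⟨α, s, rfl, hα, hs⟩ := hG.word.split a n (by omega)
    have hs1 : l s = 1 := by omega
    have hmul : (α * s)⁻¹ * b = s⁻¹ * (α⁻¹ * b) := by group
    have h1 : l (α⁻¹ * b) = l α + l b := by
      have h2 := hG.word.mul_le α⁻¹ b
      have h3 := hG.word.mul_le s⁻¹ (α⁻¹ * b)
      rw [← hmul, hab, hG.word.inv s] at h3
      rw [hG.word.inv α] at h2
      omega
    have hih := ih α hα h1
    have h4 : l (α⁻¹ * b) = l α⁻¹ + l b := by rw [hG.word.inv, h1]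
    have h5 := hstep α⁻¹ b h4
    rw [hG.word.inv, hα] at h5
    have hO := hG.isO
    have h6 := Jf_ratio (hO s⁻¹) (S := Sg (ρ (α⁻¹ * b))) (S' := Sg (ρ α⁻¹)) (hO _).Sg_contr
    have h7 : ‖ρ s⁻¹‖ ≤ K := by
      have := hG.bound s⁻¹
      rwa [hG.word.inv, hs1, pow_one] at this
    have h8 : 8 * ‖ρ s⁻¹‖ ^ 2 * ‖Sg (ρ α⁻¹) - Sg (ρ (α⁻¹ * b))‖ ≤
        8 * K ^ 2 * (C' * Real.exp (-c * n)) := by
      apply mul_le_mul _ h5 (norm_nonneg _) (by positivity)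
      apply mul_le_mul_of_nonneg_left _ (by norm_num)
      exact pow_le_pow_left₀ (norm_nonneg _) h7 2
    have e1 : Dl (ρ (α * s)⁻¹) = Jf (ρ s⁻¹) (Sg (ρ α⁻¹)) * Dl (ρ α⁻¹) := by
      rw [_root_.mul_inv_rev, map_mul, Dl_mul (hO _) (hO _)]
    have e2 : Dl (ρ ((α * s)⁻¹ * b)) =
        Jf (ρ s⁻¹) (Sg (ρ (α⁻¹ * b))) * Dl (ρ (α⁻¹ * b)) := by
      rw [hmul, map_mul, Dl_mul (hO _) (hO _)]
    have p1 : 0 < Jf (ρ s⁻¹) (Sg (ρ (α⁻¹ * b))) := (hO _).Jf_pos (hO _).Sg_contr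
    have p2 : 0 < Dl (ρ α⁻¹) := (hO _).Dl_pos
    have p3 : 0 < Dl (ρ b) := (hO _).Dl_pos
    rw [e1, e2, Finset.sum_range_succ, mul_add, Real.exp_add]
    calc Jf (ρ s⁻¹) (Sg (ρ α⁻¹)) * Dl (ρ α⁻¹) * Dl (ρ b)
        = Jf (ρ s⁻¹) (Sg (ρ α⁻¹)) * (Dl (ρ α⁻¹) * Dl (ρ b)) := by ring
      _ ≤ (Jf (ρ s⁻¹) (Sg (ρ (α⁻¹ * b))) * Real.exp (8 * K ^ 2 * (C' * Real.exp (-c * n)))) *
          (Dl (ρ (α⁻¹ * b)) *
            Real.exp (8 * K ^ 2 * C' * ∑ k ∈ Finset.range n, Real.exp (-c * k))) := by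
          apply mul_le_mul _ hih (by positivity) (by positivity)
          exact h6.trans (mul_le_mul_of_nonneg_left (Real.exp_le_exp.2 h8) p1.le)
      _ = _ := by
          rw [show 8 * K ^ 2 * (C' * Real.exp (-c * n)) = 8 * K ^ 2 * C' * Real.exp (-c * n) by ring]
          ring

lemma sum_exp_le (hc : 0 < c) (n : ℕ) :
    ∑ k ∈ Finset.range n, Real.exp (-c * k) ≤ (1 - Real.exp (-c))⁻¹ := by
  have h1 : Real.exp (-c) < 1 := by
    rw [← Real.exp_zero]; exact Real.exp_lt_exp.2 (by linarith)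
  have h2 : ∀ k : ℕ, Real.exp (-c * k) = Real.exp (-c) ^ k := by
    intro k
    rw [← Real.exp_nat_mul]
    ring_nf
  simp_rw [h2]
  rw [← tsum_geometric_of_lt_one (Real.exp_pos _).le h1]
  exact (summable_geometric_of_lt_one (Real.exp_pos _).le h1).sum_le_tsum _
    (fun k _ => by positivity)

theorem Grow.claim_of_step (hG : Grow Γ ρ l c C K) {C' : ℝ} (hC' : 0 ≤ C')
    (hstep : ∀ α β, l (α * β) = l α + l β →
      ‖Sg (ρ α) - Sg (ρ (α * β))‖ ≤ C' * Real.exp (-c * l α)) :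
    ∃ κ > 0, ∀ a b, l (a⁻¹ * b) = l a + l b → κ ≤ pr (Sg (ρ a)) (Sg (ρ b)) := by
  refine ⟨Real.exp (-(8 * K ^ 2 * C' * (1 - Real.exp (-c))⁻¹)), Real.exp_pos _, fun a b hab => ?_⟩
  have hO := hG.isO
  have h1 := hG.ratio hC' hstep b (l a) a rfl hab
  have h2 : Real.exp (8 * K ^ 2 * C' * ∑ k ∈ Finset.range (l a), Real.exp (-c * k)) ≤
      Real.exp (8 * K ^ 2 * C' * (1 - Real.exp (-c))⁻¹) := by
    apply Real.exp_le_exp.2
    exact mul_le_mul_of_nonneg_left (sum_exp_le hG.c_pos _) (by positivity)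
  have e1 : Dl (ρ (a⁻¹ * b)) = Dl (ρ a⁻¹) * pr (Sg (ρ a)) (Sg (ρ b)) * Dl (ρ b) := by
    rw [map_mul, Dl_mul (hO _) (hO _), (hO a⁻¹).Jf_eq, map_inv' ρ a,
      Matrix.nonsing_inv_nonsing_inv]
    exact (Matrix.isUnit_iff_isUnit_det _).1 (IsUnit.of_mul_eq_one _ (hO a).mul_inv)
  have p1 : 0 < Dl (ρ a⁻¹) := (hO _).Dl_pos
  have p2 : 0 < Dl (ρ b) := (hO _).Dl_pos
  set P := pr (Sg (ρ a)) (Sg (ρ b)) with hP
  have hP0 : 0 ≤ P := abs_nonneg _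
  set M := 8 * K ^ 2 * C' * (1 - Real.exp (-c))⁻¹ with hM
  have h3 : Dl (ρ a⁻¹) * Dl (ρ b) ≤ Dl (ρ a⁻¹) * P * Dl (ρ b) * Real.exp M := by
    rw [← e1]
    exact h1.trans (mul_le_mul_of_nonneg_left h2 (hO _).Dl_pos.le)
  have h4 : 1 ≤ P * Real.exp M := by
    have h5 : (Dl (ρ a⁻¹) * Dl (ρ b)) * 1 ≤ (Dl (ρ a⁻¹) * Dl (ρ b)) * (P * Real.exp M) := by
      linarith
    exact le_of_mul_le_mul_left h5 (by positivity)
  rw [Real.exp_neg]
  rw [inv_le_iff_one_le_mul₀ (Real.exp_pos _)]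
  exact h4

theorem Grow.claim (h : Grow Γ ρ l c C K) : ∃ κ > 0, ∀ α β : Γ, l (α⁻¹ * β) = l α + l β →
    κ ≤ pr (Sg (ρ α)) (Sg (ρ β)) := by
  obtain ⟨A, hA, hrad⟩ := h.radial
  refine h.claim_of_step hA.le fun α β hαβ => ?_
  have h1 := hrad α (α * β) (by rw [hαβ, inv_mul_cancel_left])
  rw [norm_sub_rev, neg_mul]
  exact h1

end F31343H
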