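import Mathlib

/-!
# `O(4,3)` acting on isotropic 3-planes: definitions

`ℝ^{4,3} = ℝ⁴ ⊕ ℝ³` with the form `q(y, u) = |y|² - |u|²`.  A matrix `g` of `O(4,3)` has the blocks
`a = toBlocks₁₁` (4x4), `b = toBlocks₁₂` (4x3), `c = toBlocks₂₁` (3x4), `d = toBlocks₂₂` (3x3).
-/

open Matrix Filter Topology
open scoped Matrix.Norms.L2Operator

namespace F31343H

abbrev I7 := Fin 4 ⊕ Fin 3
abbrev M7 := Matrix I7 I7 ℝ
abbrev M43 := Matrix (Fin 4) (Fin 3) ℝ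
abbrev M33 := Matrix (Fin 3) (Fin 3) ℝ
abbrev V3 := Fin 3 → ℝ
abbrev V4 := Fin 4 → ℝ
abbrev V7 := I7 → ℝ

/-- the matrix of the form -/
def J7 : M7 := fromBlocks 1 0 0 (-1)

/-- `g ∈ O(4,3)` -/
def IsO (g : M7) : Prop := gᵀ * J7 * g = J7

/-- the Euclidean norm -/
noncomputable def nrm {n : Type*} [Fintype n] (x : n → ℝ) : ℝ :=
  ‖(WithLp.toLp 2 x : EuclideanSpace ℝ n)‖

/-- the negative part of a vector -/
def lo (v : V7) : V3 := fun i => v (Sum.inr i)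

/-- the positive part of a vector -/
def hi (v : V7) : V4 := fun i => v (Sum.inl i)

/-- the quadratic form -/
def qf (v : V7) : ℝ := hi v ⬝ᵥ hi v - lo v ⬝ᵥ lo v

/-- the bilinear form -/
def bf (v w : V7) : ℝ := hi v ⬝ᵥ hi w - lo v ⬝ᵥ lo w

/-- contractions `ℝ³ → ℝ⁴`; the graph `{(S u, u)}` is a negative semidefinite 3-plane -/
def IsContr (S : M43) : Prop := ∀ u, nrm (S *ᵥ u) ≤ nrm u

/-- isometric `ℝ³ → ℝ⁴`; the graph `{(S u, u)}` is an isotropic 3-plane -/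
def IsIsom (S : M43) : Prop := Sᵀ * S = 1

/-- `g (S u, u) = (act g S (den g S u), den g S u)` -/
noncomputable def den (g : M7) (S : M43) : M33 := g.toBlocks₂₁ * S + g.toBlocks₂₂

/-- the action on planes -/
noncomputable def act (g : M7) (S : M43) : M43 :=
  (g.toBlocks₁₁ * S + g.toBlocks₁₂) * (den g S)⁻¹

/-- the plane `g P₀`, where `P₀ = 0 ⊕ ℝ³` -/
noncomputable def Sg (g : M7) : M43 := g.toBlocks₁₂ * (g.toBlocks₂₂)⁻¹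

/-- the cocycle -/
noncomputable def Jf (g : M7) (S : M43) : ℝ := |(den g S).det|

/-- `|det d|` -/
noncomputable def Dl (g : M7) : ℝ := |g.toBlocks₂₂.det|

/-- the transversality of two planes -/
noncomputable def pr (S S' : M43) : ℝ := |(1 - Sᵀ * S').det|

/-- the smallest singular value of `d` -/
noncomputable def dl (g : M7) : ℝ :=
  sInf ((fun u : V3 => nrm (g.toBlocks₂₂ *ᵥ u)) '' {u | nrm u = 1})

/-- A group `Γ` acting (via `ρ`) properly discontinuously and cocompactly on `{q = -1}`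
(`nrm (lo v)` is a proper function on `{q = -1}`). -/
structure Act (Γ : Type*) [Group Γ] (ρ : Γ →* M7) : Prop where
  isO : ∀ γ, IsO (ρ γ)
  proper : ∀ R : ℝ, {γ | ∃ v, qf v = -1 ∧ nrm (lo v) ≤ R ∧ nrm (lo (ρ γ *ᵥ v)) ≤ R}.Finite
  cocompact : ∃ C : ℝ, ∀ v, qf v = -1 → ∃ γ, nrm (lo (ρ γ⁻¹ *ᵥ v)) ≤ C

/-- a word length -/
structure WordLen {Γ : Type*} [Group Γ] (l : Γ → ℕ) : Prop where
  one : l 1 = 0
  eq_one : ∀ γ, l γ = 0 → γ = 1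
  inv : ∀ γ, l γ⁻¹ = l γ
  mul_le : ∀ γ γ', l (γ * γ') ≤ l γ + l γ'
  finite : ∀ n, {γ | l γ ≤ n}.Finite
  split : ∀ γ k, k ≤ l γ → ∃ α β, γ = α * β ∧ l α = k ∧ l β = l γ - k

/-- `h 0, ..., h N` is a geodesic -/
def IsGeod {Γ : Type*} [Group Γ] (l : Γ → ℕ) (h : ℕ → Γ) (N : ℕ) : Prop :=
  ∀ i j, i ≤ j → j ≤ N → l ((h i)⁻¹ * h j) = j - i

/-- The output of steps 0 and 1: word length with exponential growth of `dl`. -/
structure Grow (Γ : Type*) [Group Γ] (ρ : Γ →* M7) (l : Γ → ℕ) (c C K : ℝ) : Prop where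
  isO : ∀ γ, IsO (ρ γ)
  word : WordLen l
  c_pos : 0 < c
  C_pos : 0 < C
  K_ge : 1 ≤ K
  grow : ∀ γ, Real.exp (c * l γ) ≤ C * dl (ρ γ)
  bound : ∀ γ, ‖ρ γ‖ ≤ K ^ l γ
  cocompact : ∃ C : ℝ, ∀ v, qf v = -1 → ∃ γ, nrm (lo (ρ γ⁻¹ *ᵥ v)) ≤ C

/-- the limit set: cluster points of `Sg (ρ γ)`, `γ → ∞` -/
def limSet {Γ : Type*} [Group Γ] (ρ : Γ →* M7) (l : Γ → ℕ) : Set M43 :=
  {S | ∀ ε > 0, ∀ n : ℕ, ∃ γ, n ≤ l γ ∧ ‖Sg (ρ γ) - S‖ < ε}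

/-- The properties of the limit set. -/
structure LimitSet (Λ : Set M43) : Prop where
  compact : IsCompact Λ
  isom : ∀ S ∈ Λ, IsIsom S
  cover : ∀ (y : V4) (u : V3), nrm y = nrm u → u ≠ 0 → ∃ S ∈ Λ, S *ᵥ u = y
  transv : ∀ S ∈ Λ, ∀ S' ∈ Λ, S ≠ S' → (1 - Sᵀ * S').det ≠ 0
  dyn : ∀ S ∈ Λ, ∀ S' ∈ Λ, S ≠ S' → ∃ κ > 0, ∀ ε > 0, ∃ g : M7, IsO g ∧
    (∀ T ∈ Λ, act g T ∈ Λ) ∧ (∀ u, nrm (den g S *ᵥ u) ≤ ε * nrm u) ∧
    κ ≤ pr (act g S) (act g S')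

/-! ### Null coordinates -/

/-- the vector with null coordinates `(e, c, f)`: `q = 4 e·f + c²` -/
def nv (e : V3) (c : ℝ) (f : V3) : V7 := Sum.elim (Fin.snoc (e + f) c) (f - e)

/-- the standard isotropic plane `{e = 0, c = 0}` is the graph of `S0` -/
def S0 : M43 := Matrix.of fun i j => if i = j.castSucc then 1 else 0

/-- the `f`-component of the plane with parameter `p = (x, Y)` -/
noncomputable def ff (p : V3 × V3) (e : V3) : V3 := -((p.1 ⬝ᵥ e) / 4) • p.1 + p.2 ⨯₃ e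

/-- the vector over `e` of the plane with parameter `p = (x, Y)` -/
noncomputable def ph (p : V3 × V3) (e : V3) : V7 := nv e (p.1 ⬝ᵥ e) (ff p e)

/-- `S` is the plane with parameter `p` -/
def IsPl (S : M43) (p : V3 × V3) : Prop :=
  ∀ e : V3, S *ᵥ (ff p e - e) = Fin.snoc (e + ff p e) (p.1 ⬝ᵥ e)

/-- the evaluation at `e₀ = (1,0,0)` -/
noncomputable def Gm (p : V3 × V3) : V3 :=
  ![p.1 0, p.2 2 - p.1 0 * p.1 1 / 4, - p.2 1 - p.1 0 * p.1 2 / 4]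

/-- `2 (Y - Y₀) - x₀ × d / 2` -/
noncomputable def Yt (p₀ p : V3 × V3) : V3 :=
  (2 : ℝ) • (p.2 - p₀.2) - (1 / 2 : ℝ) • (p₀.1 ⨯₃ (p.1 - p₀.1))

/-- the form `⟨φ_p(e), φ_{p₀}(e')⟩` -/
noncomputable def om (p₀ p : V3 × V3) (e e' : V3) : ℝ :=
  -(((p.1 - p₀.1) ⬝ᵥ e) * ((p.1 - p₀.1) ⬝ᵥ e')) / 2 + Yt p₀ p ⬝ᵥ (e ⨯₃ e')

/-- What is used of the limit set in the chart. -/
structure ChartData (L : Set (V3 × V3)) : Prop where
  sec : ∃ s : V3 → V3 × V3, Continuous s ∧ (∀ a, s a ∈ L) ∧ (∀ a, Gm (s a) = a)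
  ne : ∀ p ∈ L, ∀ p' ∈ L, p ≠ p' → (p.1 - p'.1) ⬝ᵥ (p.2 - p'.2) ≠ 0
  dyn : ∀ p₀ ∈ L, ∃ C : ℝ, ∀ ε > 0, ∃ r > 0, r < ε ∧ ∃ κ : V3, nrm κ = 1 ∧
    ∀ p ∈ L, nrm (p.1 - p₀.1) ≤ r → nrm (Yt p₀ p ⨯₃ κ) ≤ C * r * ε

/-! ### Norms -/

section norms
variable {n m : Type*} [Fintype n] [Fintype m]

lemma nrm_sq (x : n → ℝ) : nrm x ^ 2 = x ⬝ᵥ x := by
  unfold nrm
  rw [EuclideanSpace.norm_sq_eq]
  simp [dotProduct, sq]

lemma nrm_nonneg (x : n → ℝ) : 0 ≤ nrm x := norm_nonneg _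

lemma nrm_add_le (x y : n → ℝ) : nrm (x + y) ≤ nrm x + nrm y := norm_add_le _ _

lemma nrm_sub_le (x y : n → ℝ) : nrm (x - y) ≤ nrm x + nrm y := norm_sub_le _ _

lemma nrm_neg (x : n → ℝ) : nrm (-x) = nrm x := norm_neg _

lemma nrm_smul (c : ℝ) (x : n → ℝ) : nrm (c • x) = |c| * nrm x := by
  unfold nrm
  rw [WithLp.toLp_smul, norm_smul, Real.norm_eq_abs]

lemma nrm_zero : nrm (0 : n → ℝ) = 0 := norm_zero

lemma nrm_eq_zero {x : n → ℝ} : nrm x = 0 ↔ x = 0 := by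
  unfold nrm
  rw [norm_eq_zero]
  constructor
  · intro h
    exact congrArg WithLp.ofLp h
  · intro h; rw [h]; rfl

lemma abs_dot_le (x y : n → ℝ) : |x ⬝ᵥ y| ≤ nrm x * nrm y := by
  have h := abs_real_inner_le_norm (WithLp.toLp 2 x : EuclideanSpace ℝ n) (WithLp.toLp 2 y)
  rw [EuclideanSpace.inner_toLp_toLp] at h
  simp only [star_trivial] at h
  rw [dotProduct_comm] at h
  exact h

lemma dot_le (x y : n → ℝ) : x ⬝ᵥ y ≤ nrm x * nrm y := (le_abs_self _).trans (abs_dot_le x y)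

variable [DecidableEq n]

lemma nrm_mulVec_le (A : Matrix m n ℝ) (x : n → ℝ) : nrm (A *ᵥ x) ≤ ‖A‖ * nrm x :=
  Matrix.l2_opNorm_mulVec A (WithLp.toLp 2 x)

lemma opNorm_le {A : Matrix m n ℝ} {c : ℝ} (hc : 0 ≤ c) (h : ∀ x, nrm (A *ᵥ x) ≤ c * nrm x) :
    ‖A‖ ≤ c := by
  rw [Matrix.l2_opNorm_def]
  refine ContinuousLinearMap.opNorm_le_bound _ hc fun x => ?_
  exact h (WithLp.ofLp x)

lemma opNorm_transpose [DecidableEq m] (A : Matrix m n ℝ) : ‖Aᵀ‖ = ‖A‖ := by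
  rw [← conjTranspose_eq_transpose_of_trivial, Matrix.l2_opNorm_conjTranspose]

lemma opNorm_mul_le {k : Type*} [Fintype k] [DecidableEq k] (A : Matrix m n ℝ)
    (B : Matrix n k ℝ) : ‖A * B‖ ≤ ‖A‖ * ‖B‖ := Matrix.l2_opNorm_mul A B

end norms

end F31343H
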