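import Pool.Agent.Lib_MP_f31343_h.Step2

/-!
# A3a: the limit set: compact, isometric, invariant, covering

* `1 - (Sg g)ᵀ (Sg g) = (dᵀ)⁻¹ d⁻¹` has norm `≤ 1 / dl g ^ 2`, and `dl → ∞`: limits are isometric.
* invariance: `Sg (ρ (γ γ')) = act (ρ γ) (Sg (ρ γ'))`, continuity of `act` on contractions,
  `l (γ γ') ≥ l γ' - l γ`.
* covering (first for unit vectors, then scale): `v_n = (sinh n • y, cosh n • u)`, `γ_n` with
  `|lo (γ_n⁻¹ v_n)| ≤ C₀`; then `dl (ρ γ_n) → ∞`? (not needed: `‖ρ γ_n‖ → ∞`, so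
  `l γ_n → ∞`, by `bound`), Lemma 0: `|cosh n u - (Sg)ᵀ (sinh n y)| ≤ C₀ / dl ≤ C₀`, divide by
  `sinh n`; a cluster point `S` of `Sg (ρ γ_n)` has `Sᵀ y = u`, so `S u = S Sᵀ y = y`
  (`|Sᵀ y| = |y|` and `Sᵀ S = 1`: `|S Sᵀ y - y|² = |y|² - |Sᵀ y|² = 0`).
-/

open Matrix Filter Topology
open scoped Matrix.Norms.L2Operator

namespace F31343H

section general

/-- `dl g` bounds `d` from below -/
lemma lim_dl_le (g : M7) (u : V3) : dl g * nrm u ≤ nrm (g.toBlocks₂₂ *ᵥ u) := by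
  by_cases hu : nrm u = 0
  · rw [hu, mul_zero]; exact nrm_nonneg _
  · have hpos : 0 < nrm u := lt_of_le_of_ne (nrm_nonneg u) (Ne.symm hu)
    have h1 : dl g ≤ nrm (g.toBlocks₂₂ *ᵥ ((nrm u)⁻¹ • u)) := by
      refine csInf_le ⟨0, ?_⟩ ⟨(nrm u)⁻¹ • u, ?_, rfl⟩
      · rintro _ ⟨w, -, rfl⟩; exact nrm_nonneg _
      · change nrm ((nrm u)⁻¹ • u) = 1
        rw [nrm_smul, abs_of_pos (inv_pos.2 hpos), inv_mul_cancel₀ hu]
    rw [Matrix.mulVec_smul, nrm_smul, abs_of_pos (inv_pos.2 hpos)] at h1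
    calc dl g * nrm u ≤ (nrm u)⁻¹ * nrm (g.toBlocks₂₂ *ᵥ u) * nrm u :=
          mul_le_mul_of_nonneg_right h1 hpos.le
      _ = nrm (g.toBlocks₂₂ *ᵥ u) := by field_simp

lemma lim_norm_Sg {g : M7} (hg : IsO g) : ‖Sg g‖ ≤ 1 := (isContr_iff _).1 hg.Sg_contr

/-- `Sgᵀ Sg = 1 - (d⁻¹)ᵀ d⁻¹` -/
lemma lim_SgT_Sg {g : M7} (hg : IsO g) :
    (Sg g)ᵀ * Sg g = 1 - ((g.toBlocks₂₂)⁻¹)ᵀ * (g.toBlocks₂₂)⁻¹ := by
  have hdet : IsUnit g.toBlocks₂₂.det := isUnit_iff_ne_zero.2 hg.det_d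
  have h1 : g.toBlocks₂₂ * (g.toBlocks₂₂)⁻¹ = 1 := Matrix.mul_nonsing_inv _ hdet
  have h2 : ((g.toBlocks₂₂)⁻¹)ᵀ * (g.toBlocks₂₂)ᵀ = 1 := by
    rw [← Matrix.transpose_mul, h1, Matrix.transpose_one]
  have h3 : g.toBlocks₁₂ᵀ * g.toBlocks₁₂ = g.toBlocks₂₂ᵀ * g.toBlocks₂₂ - 1 := by
    rw [hg.rel22]; abel
  unfold Sg
  rw [Matrix.transpose_mul]
  calc ((g.toBlocks₂₂)⁻¹)ᵀ * g.toBlocks₁₂ᵀ * (g.toBlocks₁₂ * (g.toBlocks₂₂)⁻¹)
      = ((g.toBlocks₂₂)⁻¹)ᵀ * (g.toBlocks₁₂ᵀ * g.toBlocks₁₂) * (g.toBlocks₂₂)⁻¹ := by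
        simp only [Matrix.mul_assoc]
    _ = (((g.toBlocks₂₂)⁻¹)ᵀ * (g.toBlocks₂₂)ᵀ) * (g.toBlocks₂₂ * (g.toBlocks₂₂)⁻¹)
        - ((g.toBlocks₂₂)⁻¹)ᵀ * (g.toBlocks₂₂)⁻¹ := by
        rw [h3, Matrix.mul_sub, Matrix.sub_mul, Matrix.mul_one]
        simp only [Matrix.mul_assoc]
    _ = 1 - ((g.toBlocks₂₂)⁻¹)ᵀ * (g.toBlocks₂₂)⁻¹ := by
        rw [h1, h2, Matrix.mul_one]

/-- if `1 ≤ A * dl g` then `‖d⁻¹‖ ≤ A` -/
lemma lim_norm_dinv {g : M7} (hg : IsO g) {A : ℝ} (hA : 0 ≤ A) (h : 1 ≤ A * dl g) :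
    ‖(g.toBlocks₂₂)⁻¹‖ ≤ A := by
  have hdet : IsUnit g.toBlocks₂₂.det := isUnit_iff_ne_zero.2 hg.det_d
  refine opNorm_le hA fun x => ?_
  have h1 := lim_dl_le g ((g.toBlocks₂₂)⁻¹ *ᵥ x)
  rw [Matrix.mulVec_mulVec, Matrix.mul_nonsing_inv _ hdet, Matrix.one_mulVec] at h1
  have h2 : 0 ≤ nrm ((g.toBlocks₂₂)⁻¹ *ᵥ x) := nrm_nonneg _
  nlinarith [mul_le_mul_of_nonneg_left h1 hA, mul_le_mul_of_nonneg_right h h2]

/-- Lemma 0 (without the factor `dl`) -/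
lemma lim_lemma0 {g : M7} (hg : IsO g) (v : V7) :
    nrm (lo (g *ᵥ v) - (Sg g)ᵀ *ᵥ hi (g *ᵥ v)) ≤ nrm (lo v) := by
  have hdet : IsUnit g.toBlocks₂₂.det := isUnit_iff_ne_zero.2 hg.det_d
  have h1 : g.toBlocks₂₂ᵀ * (Sg g)ᵀ = g.toBlocks₁₂ᵀ := by
    rw [← Matrix.transpose_mul]
    unfold Sg
    rw [Matrix.mul_assoc, Matrix.nonsing_inv_mul _ hdet, Matrix.mul_one]
  have h2 : g⁻¹ *ᵥ (g *ᵥ v) = v := by
    rw [Matrix.mulVec_mulVec, hg.inv_mul, Matrix.one_mulVec]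
  have h3 : lo v = g.toBlocks₂₂ᵀ *ᵥ (lo (g *ᵥ v) - (Sg g)ᵀ *ᵥ hi (g *ᵥ v)) := by
    conv_lhs => rw [← h2]
    rw [lo_mulVec, hg.inv21, hg.inv22, Matrix.mulVec_sub, Matrix.mulVec_mulVec, h1,
      Matrix.neg_mulVec]
    abel
  rw [h3]
  have h4 := hg.inv.nrm_le_d (lo (g *ᵥ v) - (Sg g)ᵀ *ᵥ hi (g *ᵥ v))
  rwa [hg.inv22] at h4

end general

section lim

variable {Γ : Type*} [Group Γ] {ρ : Γ →* M7} {l : Γ → ℕ} {c C K : ℝ}

lemma limSet_isClosed : IsClosed (limSet ρ l) := by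
  refine isClosed_of_closure_subset fun S hS => ?_
  intro ε hε n
  obtain ⟨T, hT, hTS⟩ := Metric.mem_closure_iff.1 hS (ε / 2) (half_pos hε)
  obtain ⟨γ, hγ, hγT⟩ := hT (ε / 2) (half_pos hε) n
  refine ⟨γ, hγ, ?_⟩
  rw [dist_comm, dist_eq_norm] at hTS
  calc ‖Sg (ρ γ) - S‖ = ‖(Sg (ρ γ) - T) + (T - S)‖ := by congr 1; abel
    _ ≤ ‖Sg (ρ γ) - T‖ + ‖T - S‖ := norm_add_le _ _
    _ < ε := by linarith

variable (G : Grow Γ ρ l c C K)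
include G

lemma Grow.limSet_norm_le {S : M43} (hS : S ∈ limSet ρ l) : ‖S‖ ≤ 1 := by
  refine le_of_forall_pos_le_add fun ε hε => ?_
  obtain ⟨γ, -, hγ⟩ := hS ε hε 0
  calc ‖S‖ = ‖Sg (ρ γ) - (Sg (ρ γ) - S)‖ := by congr 1; abel
    _ ≤ ‖Sg (ρ γ)‖ + ‖Sg (ρ γ) - S‖ := norm_sub_le _ _
    _ ≤ 1 + ε := add_le_add (lim_norm_Sg (G.isO γ)) hγ.le

lemma Grow.limSet_contr {S : M43} (hS : S ∈ limSet ρ l) : IsContr S :=
  (isContr_iff S).2 (G.limSet_norm_le hS)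

theorem Grow.isCompact_limSet : IsCompact (limSet ρ l) := by
  have : ProperSpace M43 := FiniteDimensional.proper ℝ M43
  refine (isCompact_closedBall (0 : M43) 1).of_isClosed_subset limSet_isClosed fun S hS => ?_
  rw [Metric.mem_closedBall, dist_zero_right]
  exact G.limSet_norm_le hS

/-- growth: `‖d⁻¹‖ → 0` -/
lemma Grow.lim_dinv (γ : Γ) : ‖((ρ γ).toBlocks₂₂)⁻¹‖ ≤ C * Real.exp (-(c * l γ)) := by
  refine lim_norm_dinv (G.isO γ) (mul_nonneg G.C_pos.le (Real.exp_pos _).le) ?_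
  have h := mul_le_mul_of_nonneg_left (G.grow γ) (Real.exp_pos (-(c * l γ))).le
  rw [← Real.exp_add, neg_add_cancel, Real.exp_zero] at h
  linarith

lemma Grow.lim_tendsto_exp : Tendsto (fun n : ℕ => C * Real.exp (-(c * n))) atTop (𝓝 0) := by
  have h1 : Tendsto (fun n : ℕ => c * (n : ℝ)) atTop atTop :=
    tendsto_natCast_atTop_atTop.const_mul_atTop G.c_pos
  have h2 : Tendsto (fun n : ℕ => Real.exp (-(c * (n : ℝ)))) atTop (𝓝 0) :=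
    Real.tendsto_exp_neg_atTop_nhds_zero.comp h1
  simpa using h2.const_mul C

theorem Grow.isom_limSet : ∀ S ∈ limSet ρ l, IsIsom S := by
  intro S hS
  have key : ‖Sᵀ * S - 1‖ ≤ 0 := by
    refine le_of_forall_pos_le_add fun ε hε => ?_
    -- choose `n` large
    have ht : Tendsto (fun n : ℕ => (C * Real.exp (-(c * n))) * (C * Real.exp (-(c * n))))
        atTop (𝓝 (0 * 0)) := G.lim_tendsto_exp.mul G.lim_tendsto_exp
    rw [mul_zero] at ht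
    obtain ⟨n, hn⟩ := (ht.eventually (gt_mem_nhds (half_pos hε))).exists
    obtain ⟨γ, hγn, hγ⟩ := hS (ε / 4) (by positivity) n
    have hO := G.isO γ
    set T := Sg (ρ γ) with hT
    have hTn : ‖T‖ ≤ 1 := lim_norm_Sg hO
    have hSn : ‖S‖ ≤ 1 := G.limSet_norm_le hS
    have h1 : ‖Tᵀ * T - 1‖ ≤ ε / 2 := by
      rw [hT, lim_SgT_Sg hO]
      have e1 : (1 : M33) - ((ρ γ).toBlocks₂₂⁻¹)ᵀ * (ρ γ).toBlocks₂₂⁻¹ - 1
          = -(((ρ γ).toBlocks₂₂⁻¹)ᵀ * (ρ γ).toBlocks₂₂⁻¹) := by abel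
      rw [e1, norm_neg]
      have h2 := G.lim_dinv γ
      have h3 : C * Real.exp (-(c * l γ)) ≤ C * Real.exp (-(c * n)) := by
        refine mul_le_mul_of_nonneg_left (Real.exp_le_exp.2 ?_) G.C_pos.le
        have : (n : ℝ) ≤ l γ := by exact_mod_cast hγn
        have := mul_le_mul_of_nonneg_left this G.c_pos.le
        linarith
      have h4 : ‖(ρ γ).toBlocks₂₂⁻¹‖ ≤ C * Real.exp (-(c * n)) := h2.trans h3
      calc ‖((ρ γ).toBlocks₂₂⁻¹)ᵀ * (ρ γ).toBlocks₂₂⁻¹‖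
          ≤ ‖((ρ γ).toBlocks₂₂⁻¹)ᵀ‖ * ‖(ρ γ).toBlocks₂₂⁻¹‖ := opNorm_mul_le _ _
        _ = ‖(ρ γ).toBlocks₂₂⁻¹‖ * ‖(ρ γ).toBlocks₂₂⁻¹‖ := by rw [opNorm_transpose]
        _ ≤ (C * Real.exp (-(c * n))) * (C * Real.exp (-(c * n))) :=
            mul_le_mul h4 h4 (norm_nonneg _) (le_trans (norm_nonneg _) h4)
        _ ≤ ε / 2 := hn.le
    have h5 : Sᵀ * S - 1 = (Tᵀ * T - 1) - (Sᵀ * (T - S) + (T - S)ᵀ * T) := by
      rw [Matrix.mul_sub, Matrix.transpose_sub, Matrix.sub_mul]; abel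
    rw [h5, zero_add]
    calc ‖(Tᵀ * T - 1) - (Sᵀ * (T - S) + (T - S)ᵀ * T)‖
        ≤ ‖Tᵀ * T - 1‖ + ‖Sᵀ * (T - S) + (T - S)ᵀ * T‖ := norm_sub_le _ _
      _ ≤ ‖Tᵀ * T - 1‖ + (‖Sᵀ * (T - S)‖ + ‖(T - S)ᵀ * T‖) := by gcongr; exact norm_add_le _ _
      _ ≤ ε / 2 + (1 * (ε / 4) + (ε / 4) * 1) := by
          refine add_le_add h1 (add_le_add ?_ ?_)
          · refine (opNorm_mul_le _ _).trans ?_
            rw [opNorm_transpose]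
            exact mul_le_mul hSn hγ.le (norm_nonneg _) zero_le_one
          · refine (opNorm_mul_le _ _).trans ?_
            rw [opNorm_transpose]
            exact mul_le_mul hγ.le hTn (norm_nonneg _) (by positivity)
      _ = ε := by ring
  have h0 : Sᵀ * S - 1 = 0 := norm_le_zero_iff.1 key
  exact sub_eq_zero.1 h0

theorem Grow.act_mem_limSet (γ' : Γ) :
    ∀ S ∈ limSet ρ l, act (ρ γ') S ∈ limSet ρ l := by
  intro S hS ε hε n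
  have hc := (G.isO γ').continuousOn_act S (G.limSet_contr hS)
  obtain ⟨δ, hδ, hδ'⟩ := Metric.continuousWithinAt_iff.1 hc ε hε
  obtain ⟨γ, hγn, hγ⟩ := hS δ hδ (n + l γ')
  refine ⟨γ' * γ, ?_, ?_⟩
  · have h1 : l γ ≤ l γ' + l (γ' * γ) := by
      have h2 := G.word.mul_le γ'⁻¹ (γ' * γ)
      rwa [inv_mul_cancel_left, G.word.inv] at h2
    omega
  · have h1 := hδ' (x := Sg (ρ γ)) (G.isO γ).Sg_contr (by rw [dist_eq_norm]; exact hγ)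
    rw [map_mul, Sg_mul (G.isO γ') (G.isO γ), ← dist_eq_norm]
    exact h1

/-- approximate covering -/
lemma Grow.limSet_approx (y : V4) (u : V3) (hy : nrm y = 1) (hu : nrm u = 1) (m : ℕ) :
    ∃ γ, m ≤ l γ ∧ nrm ((Sg (ρ γ))ᵀ *ᵥ y - u) ≤ 1 / ((m : ℝ) + 1) := by
  obtain ⟨C₀, hC₀⟩ := G.cocompact
  have hyy : y ⬝ᵥ y = 1 := by rw [← nrm_sq, hy]; norm_num
  have huu : u ⬝ᵥ u = 1 := by rw [← nrm_sq, hu]; norm_num
  -- the vectors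
  have hq : ∀ s : ℝ, qf (Sum.elim (s • y) (Real.sqrt (1 + s ^ 2) • u)) = -1 := by
    intro s
    have h1 : hi (Sum.elim (s • y) (Real.sqrt (1 + s ^ 2) • u)) = s • y := rfl
    have h2 : lo (Sum.elim (s • y) (Real.sqrt (1 + s ^ 2) • u)) = Real.sqrt (1 + s ^ 2) • u := rfl
    unfold qf
    rw [h1, h2]
    simp only [smul_dotProduct, dotProduct_smul, hyy, huu, smul_eq_mul, mul_one]
    rw [Real.mul_self_sqrt (by positivity)]
    ring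
  have hC0 : 0 ≤ C₀ := by
    obtain ⟨γ, hγ⟩ := hC₀ _ (hq 0)
    exact (nrm_nonneg _).trans hγ
  have hKm : 0 ≤ K ^ m := by have := G.K_ge; positivity
  -- the parameter
  obtain ⟨s, hs⟩ : ∃ s : ℝ, s = (C₀ + 1) * (m + 1) + K ^ m * (2 * C₀) + 1 := ⟨_, rfl⟩
  have hs1 : (C₀ + 1) * (m + 1) ≤ s := by
    have : 0 ≤ K ^ m * (2 * C₀) := by positivity
    linarith
  have hs2 : K ^ m * (2 * C₀) < s := by
    have : 0 ≤ (C₀ + 1) * ((m : ℝ) + 1) := by positivity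
    linarith
  have hs0 : 0 < s := lt_of_le_of_lt (by positivity) hs2
  obtain ⟨R, hR⟩ : ∃ R : ℝ, R = Real.sqrt (1 + s ^ 2) := ⟨_, rfl⟩
  have hR0 : 0 ≤ R := by rw [hR]; exact Real.sqrt_nonneg _
  have hR2 : R ^ 2 = 1 + s ^ 2 := by rw [hR]; exact Real.sq_sqrt (by positivity)
  have hRs : s ≤ R := by nlinarith
  have hRs1 : R ≤ s + 1 := by nlinarith
  obtain ⟨γ, hγ⟩ := hC₀ _ (hq s)
  rw [← hR] at hγ
  set v : V7 := Sum.elim (s • y) (R • u) with hv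
  have hhi : hi v = s • y := rfl
  have hlo : lo v = R • u := rfl
  have hqv : qf v = -1 := by rw [hv, hR]; exact hq s
  set w : V7 := ρ γ⁻¹ *ᵥ v with hw
  have hvw : ρ γ *ᵥ w = v := by
    rw [hw, Matrix.mulVec_mulVec, ← map_mul, mul_inv_cancel, map_one, Matrix.one_mulVec]
  have hqw : qf w = -1 := by rw [hw, (G.isO _).qf_mulVec, hqv]
  have hwhl : nrm (hi w) ≤ nrm (lo w) := by
    have h1 : nrm (hi w) ^ 2 = nrm (lo w) ^ 2 - 1 := by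
      rw [nrm_sq, nrm_sq]
      unfold qf at hqw
      linarith
    nlinarith [nrm_nonneg (lo w), nrm_nonneg (hi w)]
  refine ⟨γ, ?_, ?_⟩
  · by_contra hlt
    push Not at hlt
    have h1 : nrm (lo v) ≤ K ^ m * (2 * C₀) := by
      rw [← hvw, lo_mulVec]
      have hb : ‖ρ γ‖ ≤ K ^ m :=
        (G.bound γ).trans (pow_le_pow_right₀ G.K_ge hlt.le)
      calc nrm ((ρ γ).toBlocks₂₁ *ᵥ hi w + (ρ γ).toBlocks₂₂ *ᵥ lo w)
          ≤ nrm ((ρ γ).toBlocks₂₁ *ᵥ hi w) + nrm ((ρ γ).toBlocks₂₂ *ᵥ lo w) := nrm_add_le _ _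
        _ ≤ ‖(ρ γ).toBlocks₂₁‖ * nrm (hi w) + ‖(ρ γ).toBlocks₂₂‖ * nrm (lo w) :=
            add_le_add (nrm_mulVec_le _ _) (nrm_mulVec_le _ _)
        _ ≤ K ^ m * C₀ + K ^ m * C₀ := by
            refine add_le_add ?_ ?_
            · exact mul_le_mul ((norm_block21 _).trans hb) (hwhl.trans hγ) (nrm_nonneg _) hKm
            · exact mul_le_mul ((norm_block22 _).trans hb) hγ (nrm_nonneg _) hKm
        _ = K ^ m * (2 * C₀) := by ring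
    rw [hlo, nrm_smul, hu, abs_of_nonneg hR0, mul_one] at h1
    linarith
  · have h1 := lim_lemma0 (G.isO γ) w
    rw [hvw, hhi, hlo] at h1
    have h2 : s • ((Sg (ρ γ))ᵀ *ᵥ y - u)
        = -(R • u - (Sg (ρ γ))ᵀ *ᵥ (s • y)) + (R - s) • u := by
      rw [Matrix.mulVec_smul, smul_sub, sub_smul]; abel
    have h3 : s * nrm ((Sg (ρ γ))ᵀ *ᵥ y - u) ≤ C₀ + 1 := by
      calc s * nrm ((Sg (ρ γ))ᵀ *ᵥ y - u) = nrm (s • ((Sg (ρ γ))ᵀ *ᵥ y - u)) := by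
            rw [nrm_smul, abs_of_pos hs0]
        _ = nrm (-(R • u - (Sg (ρ γ))ᵀ *ᵥ (s • y)) + (R - s) • u) := by rw [h2]
        _ ≤ nrm (-(R • u - (Sg (ρ γ))ᵀ *ᵥ (s • y))) + nrm ((R - s) • u) := nrm_add_le _ _
        _ ≤ C₀ + 1 := by
            rw [nrm_neg, nrm_smul, hu, mul_one, abs_of_nonneg (by linarith)]
            have := h1.trans hγ
            linarith
    rw [le_div_iff₀ (by positivity)]
    have h4 : (C₀ + 1) * (((m : ℝ) + 1) * nrm ((Sg (ρ γ))ᵀ *ᵥ y - u)) ≤ C₀ + 1 := by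
      calc (C₀ + 1) * (((m : ℝ) + 1) * nrm ((Sg (ρ γ))ᵀ *ᵥ y - u))
          = ((C₀ + 1) * (m + 1)) * nrm ((Sg (ρ γ))ᵀ *ᵥ y - u) := by ring
        _ ≤ s * nrm ((Sg (ρ γ))ᵀ *ᵥ y - u) := mul_le_mul_of_nonneg_right hs1 (nrm_nonneg _)
        _ ≤ C₀ + 1 := h3
    have h5 : ((m : ℝ) + 1) * nrm ((Sg (ρ γ))ᵀ *ᵥ y - u) ≤ 1 := by
      have hpos : 0 < C₀ + 1 := by linarith
      by_contra h6
      push Not at h6
      nlinarith [mul_lt_mul_of_pos_left h6 hpos]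
    linarith

lemma Grow.limSet_cover_unit (y : V4) (u : V3) (hy : nrm y = 1) (hu : nrm u = 1) :
    ∃ S ∈ limSet ρ l, S *ᵥ u = y := by
  choose γ hγl hγ using G.limSet_approx y u hy hu
  have : ProperSpace M43 := FiniteDimensional.proper ℝ M43
  obtain ⟨S, hSb, φ, hφ, hlim⟩ := (isCompact_closedBall (0 : M43) 1).tendsto_subseq
    (x := fun m => Sg (ρ (γ m))) (fun m => by
      rw [Metric.mem_closedBall, dist_zero_right]; exact lim_norm_Sg (G.isO _))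
  have hS1 : ‖S‖ ≤ 1 := by rwa [Metric.mem_closedBall, dist_zero_right] at hSb
  have happ : ∀ ε > 0, ∀ n : ℕ, ∃ k, n ≤ k ∧ ‖Sg (ρ (γ (φ k))) - S‖ < ε := by
    intro ε hε n
    obtain ⟨N, hN⟩ := (Metric.tendsto_atTop.1 hlim) ε hε
    refine ⟨max n N, le_max_left _ _, ?_⟩
    have h := hN (max n N) (le_max_right _ _)
    rwa [dist_eq_norm] at h
  have hSmem : S ∈ limSet ρ l := by
    intro ε hε n
    obtain ⟨k, hk, hk'⟩ := happ ε hε n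
    exact ⟨γ (φ k), hk.trans ((hφ.id_le k).trans (hγl _)), hk'⟩
  have hT : Sᵀ *ᵥ y = u := by
    have h0 : nrm (Sᵀ *ᵥ y - u) ≤ 0 := by
      refine le_of_forall_pos_le_add fun ε hε => ?_
      obtain ⟨n, hn⟩ := exists_nat_one_div_lt (half_pos hε)
      obtain ⟨k, hk, hk'⟩ := happ (ε / 2) (half_pos hε) n
      have h1 : nrm ((Sg (ρ (γ (φ k))))ᵀ *ᵥ y - u) ≤ ε / 2 := by
        refine (hγ (φ k)).trans (le_trans ?_ hn.le)
        have : (n : ℝ) ≤ φ k := by exact_mod_cast hk.trans (hφ.id_le k)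
        exact one_div_le_one_div_of_le (by positivity) (by linarith)
      have h2 : Sᵀ *ᵥ y - u = ((Sg (ρ (γ (φ k))))ᵀ *ᵥ y - u)
          - ((Sg (ρ (γ (φ k))) - S)ᵀ *ᵥ y) := by
        rw [Matrix.transpose_sub, Matrix.sub_mulVec]; abel
      rw [h2, zero_add]
      calc nrm (((Sg (ρ (γ (φ k))))ᵀ *ᵥ y - u) - ((Sg (ρ (γ (φ k))) - S)ᵀ *ᵥ y))
          ≤ nrm ((Sg (ρ (γ (φ k))))ᵀ *ᵥ y - u) + nrm ((Sg (ρ (γ (φ k))) - S)ᵀ *ᵥ y) :=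
            nrm_sub_le _ _
        _ ≤ ε / 2 + ε / 2 := by
            refine add_le_add h1 ((nrm_mulVec_le _ _).trans ?_)
            rw [opNorm_transpose, hy, mul_one]
            exact hk'.le
        _ = ε := by ring
    exact sub_eq_zero.1 (nrm_eq_zero.1 (le_antisymm h0 (nrm_nonneg _)))
  refine ⟨S, hSmem, ?_⟩
  have h1 : nrm (S *ᵥ u) ≤ 1 := by
    have := (isContr_iff S).2 hS1 u
    rwa [hu] at this
  have hyy : y ⬝ᵥ y = 1 := by rw [← nrm_sq, hy]; norm_num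
  have huu : u ⬝ᵥ u = 1 := by rw [← nrm_sq, hu]; norm_num
  have h2 : (S *ᵥ u) ⬝ᵥ y = 1 := by
    rw [← huu]
    nth_rewrite 3 [← hT]
    rw [Matrix.dotProduct_mulVec, Matrix.vecMul_transpose]
  have h3 : nrm (S *ᵥ u - y) ^ 2 ≤ 0 := by
    have h4 : y ⬝ᵥ (S *ᵥ u) = 1 := by rw [dotProduct_comm, h2]
    rw [nrm_sq, sub_dotProduct, dotProduct_sub, dotProduct_sub, h2, hyy, h4, ← nrm_sq]
    nlinarith [nrm_nonneg (S *ᵥ u)]
  have h5 : nrm (S *ᵥ u - y) = 0 := by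
    have := sq_nonneg (nrm (S *ᵥ u - y))
    exact pow_eq_zero_iff (two_ne_zero) |>.1 (le_antisymm h3 this)
  exact sub_eq_zero.1 (nrm_eq_zero.1 h5)

theorem Grow.cover (y : V4) (u : V3) (hyu : nrm y = nrm u) (hu : u ≠ 0) :
    ∃ S ∈ limSet ρ l, S *ᵥ u = y := by
  have hne : nrm u ≠ 0 := fun h => hu (nrm_eq_zero.1 h)
  have hpos : 0 < nrm u := lt_of_le_of_ne (nrm_nonneg u) (Ne.symm hne)
  obtain ⟨S, hS, hSu⟩ := G.limSet_cover_unit ((nrm u)⁻¹ • y) ((nrm u)⁻¹ • u)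
    (by rw [nrm_smul, hyu, abs_of_pos (inv_pos.2 hpos), inv_mul_cancel₀ hne])
    (by rw [nrm_smul, abs_of_pos (inv_pos.2 hpos), inv_mul_cancel₀ hne])
  refine ⟨S, hS, ?_⟩
  rw [Matrix.mulVec_smul] at hSu
  exact smul_right_injective _ (inv_ne_zero hne) hSu

end lim

end F31343H
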