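import Pool.Agent.Lib_MP_f31343_h.LimTrans
import Pool.Agent.Lib_MP_f31343_h.Limit

/-!
# A4: the dynamics (c)

For `S ≠ S'` in the limit set.  For each `i` there is (pigeonhole, finite balls) an `h` with
`l h = i` which lies on geodesics from `1` to `γ_n` for infinitely many `n`, where
`Sg (ρ γ_n) → S`.  Put `g = ρ h⁻¹`.
1. `pr (Sg g) (act g S) ≥ κ`: claim for `α = h⁻¹`, `β = h⁻¹ γ_n`, limit.
2. `Sg g` and `act g S'` are close for large `i`: else (`Grow.far` for `h⁻¹` and `h⁻¹ γ'_n`) some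
   geodesic from `1` to `γ'_n` passes at bounded distance from `h`, and then
   `‖S_{γ'_n} - S_h‖ ≤ A e^{-c(i - n₀)}`, so `S = S'` in the limit (if for infinitely many `i`).
   Hence `pr (act g S) (act g S') ≥ κ/2` for large `i`.
3. `den g S = M⁻¹ (dᵀ)⁻¹` with `M = 1 - (Sg g)ᵀ (act g S)` (`IsO.pair` for `0` and `S`),
   `|det M| ≥ κ`, `‖M‖ ≤ 2`: `‖den g S‖ ≤ const / dl g → 0`.
-/

open Matrix Filter Topology
open scoped Matrix.Norms.L2Operator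

namespace F31343H

namespace Dy

variable {Γ : Type*} [Group Γ] {ρ : Γ →* M7} {l : Γ → ℕ} {c C K : ℝ}

/-! ### linear algebra -/

lemma entry_le {n m : Type*} [Fintype n] [Fintype m] [DecidableEq n] (A : Matrix m n ℝ)
    (i : m) (j : n) : |A i j| ≤ ‖A‖ := by
  have h := nrm_mulVec_le A (Pi.single j 1)
  have h1 : nrm (Pi.single j (1 : ℝ) : n → ℝ) = 1 := by
    have h2 := nrm_sq (Pi.single j (1 : ℝ) : n → ℝ)
    have h3 := nrm_nonneg (Pi.single j (1 : ℝ) : n → ℝ)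
    simp at h2
    rcases h2 with h2 | h2
    · exact h2
    · linarith
  rw [h1, mul_one] at h
  refine le_trans ?_ h
  have h4 : (A *ᵥ Pi.single j 1) i = A i j := by simp
  rw [← h4]
  unfold nrm
  have := EuclideanSpace.norm_eq (WithLp.toLp 2 (A *ᵥ Pi.single j 1) : EuclideanSpace ℝ m)
  exact PiLp.norm_apply_le (WithLp.toLp 2 (A *ᵥ Pi.single j 1) : EuclideanSpace ℝ m) i

lemma nrm_le_of_entries {x : V3} {a : ℝ} (ha : 0 ≤ a) (h : ∀ i, |x i| ≤ a) : nrm x ≤ 2 * a := by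
  have h1 := nrm_sq x
  have h2 : x ⬝ᵥ x ≤ 3 * a ^ 2 := by
    rw [dotProduct, Fin.sum_univ_three]
    have := fun i => sq_le_sq' (neg_le_of_abs_le (h i)) (le_of_abs_le (h i))
    nlinarith [this 0, this 1, this 2]
  have h3 := nrm_nonneg x
  nlinarith

lemma abs_dot_le' (x y : V3) : |x ⬝ᵥ y| ≤ nrm x * nrm y := abs_dot_le x y

lemma abs_apply_le (x : V3) (i : Fin 3) : |x i| ≤ nrm x :=
  PiLp.norm_apply_le (WithLp.toLp 2 x : EuclideanSpace ℝ (Fin 3)) i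

lemma minor_le {m p q r s : ℝ} (hp : |p| ≤ m) (hq : |q| ≤ m) (hr : |r| ≤ m) (hs : |s| ≤ m) :
    |p * q - r * s| ≤ 2 * m ^ 2 := by
  have hm : 0 ≤ m := (abs_nonneg p).trans hp
  have h1 : |p * q| ≤ m * m := by
    rw [abs_mul]; exact mul_le_mul hp hq (abs_nonneg _) hm
  have h2 : |r * s| ≤ m * m := by
    rw [abs_mul]; exact mul_le_mul hr hs (abs_nonneg _) hm
  calc |p * q - r * s| ≤ |p * q| + |r * s| := abs_sub _ _
    _ ≤ 2 * m ^ 2 := by nlinarith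

lemma adj_entry (M : M33) (i j : Fin 3) : |M.adjugate i j| ≤ 2 * ‖M‖ ^ 2 := by
  have e := fun i j => entry_le M i j
  rw [adjugate_fin_three]
  fin_cases i <;> fin_cases j
  · exact minor_le (e 1 1) (e 2 2) (e 1 2) (e 2 1)
  · have := minor_le (e 0 2) (e 2 1) (e 0 1) (e 2 2)
    simpa [neg_add_eq_sub] using this
  · exact minor_le (e 0 1) (e 1 2) (e 0 2) (e 1 1)
  · have := minor_le (e 1 2) (e 2 0) (e 1 0) (e 2 2)
    simpa [neg_add_eq_sub] using this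
  · exact minor_le (e 0 0) (e 2 2) (e 0 2) (e 2 0)
  · have := minor_le (e 0 2) (e 1 0) (e 0 0) (e 1 2)
    simpa [neg_add_eq_sub] using this
  · exact minor_le (e 1 0) (e 2 1) (e 1 1) (e 2 0)
  · have := minor_le (e 0 1) (e 2 0) (e 0 0) (e 2 1)
    simpa [neg_add_eq_sub] using this
  · exact minor_le (e 0 0) (e 1 1) (e 0 1) (e 1 0)

lemma adj_bound (M : M33) (v : V3) : nrm (M.adjugate *ᵥ v) ≤ 12 * ‖M‖ ^ 2 * nrm v := by
  have h0 : 0 ≤ 6 * ‖M‖ ^ 2 * nrm v := by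
    have := nrm_nonneg v; positivity
  have := nrm_le_of_entries (x := M.adjugate *ᵥ v) h0 ?_
  · linarith
  intro i
  rw [mulVec, dotProduct, Fin.sum_univ_three]
  have hb : ∀ j, |M.adjugate i j * v j| ≤ 2 * ‖M‖ ^ 2 * nrm v := by
    intro j
    rw [abs_mul]
    exact mul_le_mul (adj_entry M i j) (abs_apply_le v j) (abs_nonneg _) (by positivity)
  calc |M.adjugate i 0 * v 0 + M.adjugate i 1 * v 1 + M.adjugate i 2 * v 2|
      ≤ |M.adjugate i 0 * v 0| + |M.adjugate i 1 * v 1| + |M.adjugate i 2 * v 2| := abs_add_three _ _ _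
    _ ≤ 6 * ‖M‖ ^ 2 * nrm v := by linarith [hb 0, hb 1, hb 2]

/-- lower bound for an invertible matrix -/
lemma lower_of_det {M : M33} {κ : ℝ} (hκ : κ ≤ |M.det|) (hM : ‖M‖ ≤ 2) (v : V3) :
    κ * nrm v ≤ 48 * nrm (M *ᵥ v) := by
  have h1 : M.adjugate *ᵥ (M *ᵥ v) = M.det • v := by
    rw [mulVec_mulVec, adjugate_mul, smul_mulVec, one_mulVec]
  have h2 := adj_bound M (M *ᵥ v)
  rw [h1, nrm_smul] at h2
  have h3 := nrm_nonneg v
  have h4 := nrm_nonneg (M *ᵥ v)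
  have h5 : ‖M‖ ^ 2 ≤ 4 := by nlinarith [norm_nonneg M]
  nlinarith


/-! ### `pr` -/

lemma pr_comm' (S S' : M43) : pr S S' = pr S' S := by
  unfold pr
  rw [← det_transpose, transpose_sub, transpose_mul, transpose_transpose, transpose_one]

lemma continuous_pr2 : Continuous fun p : M43 × M43 => pr p.1 p.2 := by
  unfold pr
  exact (continuous_const.sub (continuous_fst.matrix_transpose.matrix_mul
    continuous_snd)).matrix_det.abs

lemma pr_near {κ : ℝ} (hκ : 0 < κ) : ∃ η > 0, ∀ A B B' : M43, IsContr A → IsContr B →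
    IsContr B' → ‖B - B'‖ ≤ η → κ ≤ pr A B → κ / 2 ≤ pr A B' := by
  have : ProperSpace M43 := FiniteDimensional.proper ℝ M43
  have hc : IsCompact (Metric.closedBall (0 : M43) 1 ×ˢ Metric.closedBall (0 : M43) 1) :=
    (isCompact_closedBall _ _).prod (isCompact_closedBall _ _)
  have hu := hc.uniformContinuousOn_of_continuous continuous_pr2.continuousOn
  rw [Metric.uniformContinuousOn_iff] at hu
  obtain ⟨δ, hδ, hu⟩ := hu (κ / 2) (by positivity)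
  refine ⟨δ / 2, by positivity, fun A B B' hA hB hB' h hk => ?_⟩
  rw [isContr_iff] at hA hB hB'
  have hm : ∀ A : M43, ‖A‖ ≤ 1 → A ∈ Metric.closedBall (0 : M43) 1 := fun A h => by
    simpa using h
  have := hu (A, B) ⟨hm A hA, hm B hB⟩ (A, B') ⟨hm A hA, hm B' hB'⟩ (by
    rw [Prod.dist_eq]
    simp only [dist_self]
    rw [max_eq_right dist_nonneg, dist_eq_norm]
    linarith)
  rw [Real.dist_eq] at this
  have := (abs_lt.1 this).2
  simp only at this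
  linarith

/-! ### `dl` -/

lemma dl_mul_le (g : M7) (u : V3) : dl g * nrm u ≤ nrm (g.toBlocks₂₂ *ᵥ u) := by
  by_cases hu : nrm u = 0
  · rw [hu, mul_zero]; exact nrm_nonneg _
  have hpos : 0 < nrm u := lt_of_le_of_ne (nrm_nonneg _) (Ne.symm hu)
  have hb : BddBelow ((fun u : V3 => nrm (g.toBlocks₂₂ *ᵥ u)) '' {u | nrm u = 1}) :=
    ⟨0, by rintro _ ⟨v, -, rfl⟩; exact nrm_nonneg _⟩
  have h1 : nrm ((nrm u)⁻¹ • u) = 1 := by
    rw [nrm_smul, abs_of_pos (inv_pos.2 hpos), inv_mul_cancel₀ hu]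
  have : dl g ≤ nrm (g.toBlocks₂₂ *ᵥ ((nrm u)⁻¹ • u)) := csInf_le hb ⟨(nrm u)⁻¹ • u, h1, rfl⟩
  rw [mulVec_smul, nrm_smul, abs_of_pos (inv_pos.2 hpos)] at this
  calc dl g * nrm u ≤ (nrm u)⁻¹ * nrm (g.toBlocks₂₂ *ᵥ u) * nrm u :=
        mul_le_mul_of_nonneg_right this hpos.le
    _ = nrm (g.toBlocks₂₂ *ᵥ u) := by field_simp

lemma den_eq_mul {g : M7} (hg : IsO g) (S : M43) :
    den g S = g.toBlocks₂₂ * (1 - (Sg g⁻¹)ᵀ * S) := by
  unfold Sg den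
  rw [hg.inv12, hg.inv22, Matrix.neg_mul, transpose_neg, transpose_mul, transpose_transpose,
    ← transpose_nonsing_inv, transpose_transpose, Matrix.neg_mul, sub_neg_eq_add, Matrix.mul_add,
    Matrix.mul_one, ← Matrix.mul_assoc, ← Matrix.mul_assoc,
    mul_nonsing_inv _ (isUnit_iff_ne_zero.2 hg.det_d), Matrix.one_mul, add_comm]

lemma norm_one_sub_le {S S' : M43} (hS : IsContr S) (hS' : IsContr S') :
    ‖(1 : M33) - Sᵀ * S'‖ ≤ 2 := by
  rw [isContr_iff] at hS hS'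
  have h1 : ‖(1 : M33)‖ ≤ 1 := opNorm_le zero_le_one fun x => by rw [one_mulVec, one_mul]
  have h2 : ‖Sᵀ * S'‖ ≤ 1 := by
    refine (opNorm_mul_le _ _).trans ?_
    rw [opNorm_transpose]
    exact mul_le_one₀ hS (norm_nonneg _) hS'
  exact (norm_sub_le _ _).trans (by linarith)

lemma den_small {h : M7} (hh : IsO h) {S : M43} (hS : IsContr S) {κ : ℝ}
    (hκ : κ ≤ pr (Sg h⁻¹) (act h⁻¹ S)) (u : V3) :
    dl h * κ * nrm (den h⁻¹ S *ᵥ u) ≤ 48 * nrm u := by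
  have hd : 0 ≤ dl h := by
    unfold dl
    refine Real.sInf_nonneg ?_
    rintro _ ⟨v, -, rfl⟩
    exact nrm_nonneg _
  set w := den h⁻¹ S *ᵥ u with hw
  set E := act h⁻¹ S with hE
  have hEc : IsContr E := hh.inv.act_contr hS
  have h1 : den h E * den h⁻¹ S = 1 := by
    rw [hE, ← den_mul hh hh.inv hS, hh.mul_inv]
    unfold den
    simp [← fromBlocks_one]
  have h2 : den h E *ᵥ w = u := by
    rw [hw, mulVec_mulVec, h1, one_mulVec]
  rw [den_eq_mul hh, ← mulVec_mulVec] at h2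
  have h3 := dl_mul_le h ((1 - (Sg h⁻¹)ᵀ * E) *ᵥ w)
  rw [h2] at h3
  have h4 := lower_of_det (M := 1 - (Sg h⁻¹)ᵀ * E) hκ (norm_one_sub_le hh.inv.Sg_contr hEc) w
  calc dl h * κ * nrm w = dl h * (κ * nrm w) := by ring
    _ ≤ dl h * (48 * nrm ((1 - (Sg h⁻¹)ᵀ * E) *ᵥ w)) := mul_le_mul_of_nonneg_left h4 hd
    _ = 48 * (dl h * nrm ((1 - (Sg h⁻¹)ᵀ * E) *ᵥ w)) := by ring
    _ ≤ 48 * nrm u := by linarith


/-! ### word geometry -/

lemma dyTri (W : WordLen l) (a b d : Γ) : l (a⁻¹ * d) ≤ l (a⁻¹ * b) + l (b⁻¹ * d) := by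
  have := W.mul_le (a⁻¹ * b) (b⁻¹ * d)
  rwa [mul_assoc, mul_inv_cancel_left] at this

lemma dySymm (W : WordLen l) (a b : Γ) : l (a⁻¹ * b) = l (b⁻¹ * a) := by
  rw [← W.inv, _root_.mul_inv_rev, inv_inv]

/-- what is used of step 2 -/
def GeodEst (ρ : Γ →* M7) (l : Γ → ℕ) (E : ℕ → ℝ) : Prop :=
  ∀ (a b : Γ) (L : ℕ), (∀ y, l (a⁻¹ * y) + l (y⁻¹ * b) = l (a⁻¹ * b) → L ≤ l y) →
    ‖Sg (ρ a) - Sg (ρ b)‖ ≤ E L

lemma exists_geodEst (h : Grow Γ ρ l c C K) : ∃ E : ℕ → ℝ, GeodEst ρ l E ∧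
    Tendsto E atTop (𝓝 0) := by
  set P : ℕ → Set ℝ := fun L => {t | t = 0 ∨ ∃ a b : Γ,
    (∀ y, l (a⁻¹ * y) + l (y⁻¹ * b) = l (a⁻¹ * b) → L ≤ l y) ∧ t = ‖Sg (ρ a) - Sg (ρ b)‖} with hP
  have hbd : ∀ L, BddAbove (P L) := by
    intro L
    refine ⟨2, ?_⟩
    rintro t (rfl | ⟨a, b, -, rfl⟩)
    · norm_num
    · have h1 := (isContr_iff _).1 (h.isO a).Sg_contr
      have h2 := (isContr_iff _).1 (h.isO b).Sg_contr
      exact (norm_sub_le _ _).trans (by linarith)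
  refine ⟨fun L => sSup (P L), fun a b L hy => le_csSup (hbd L) (Or.inr ⟨a, b, hy, rfl⟩), ?_⟩
  rw [Metric.tendsto_atTop]
  intro ε hε
  obtain ⟨n, hn⟩ := h.far (ε / 2) (by positivity)
  refine ⟨n, fun L hL => ?_⟩
  have h0 : (0 : ℝ) ∈ P L := Or.inl rfl
  have h1 : 0 ≤ sSup (P L) := le_csSup (hbd L) h0
  have h2 : sSup (P L) ≤ ε / 2 := by
    refine csSup_le ⟨0, h0⟩ ?_
    rintro t (rfl | ⟨a, b, hy, rfl⟩)
    · positivity
    · exact hn a b fun x hx => hL.trans (hy x hx.symm)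
  rw [Real.dist_eq, sub_zero, abs_of_nonneg h1]
  linarith

/-- `h` lies on geodesics from `1` to points near `S` -/
lemma dyPrefix (W : WordLen l) {S : M43} (hS : S ∈ limSet ρ l) (n : ℕ) :
    ∃ h, l h = n ∧ ∃ a : ℕ → Γ, Tendsto (fun k => Sg (ρ (a k))) atTop (𝓝 S) ∧
      ∀ k, l (a k) = l h + l (h⁻¹ * a k) := by
  have hpos : ∀ m : ℕ, (0 : ℝ) < 1 / ((m : ℝ) + 1) := fun m => by positivity
  choose a ha ha' using fun m : ℕ => hS (1 / ((m : ℝ) + 1)) (hpos m) n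
  choose α β hab hα hβ using fun m => W.split (a m) n (ha m)
  have hfin : Finite {γ | l γ ≤ n} := (W.finite n).to_subtype
  obtain ⟨y, hy⟩ := Finite.exists_infinite_fiber
    (fun m : ℕ => (⟨α m, (hα m).le⟩ : {γ | l γ ≤ n}))
  have hinf : (((fun m : ℕ => (⟨α m, (hα m).le⟩ : {γ | l γ ≤ n})) ⁻¹' {y}) : Set ℕ).Infinite :=
    Set.infinite_coe_iff.1 hy
  choose m hm hm' using fun k : ℕ => hinf.exists_gt k
  have hαm : ∀ k, α (m k) = y.1 := fun k => congrArg Subtype.val (hm k)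
  refine ⟨y.1, by rw [← hαm 0]; exact hα _, fun k => a (m k), ?_, fun k => ?_⟩
  · rw [tendsto_iff_norm_sub_tendsto_zero]
    refine squeeze_zero (fun _ => norm_nonneg _) (fun k => ((ha' (m k)).le.trans ?_))
      tendsto_one_div_add_atTop_nhds_zero_nat
    have : (k : ℝ) ≤ m k := by exact_mod_cast (hm' k).le
    exact one_div_le_one_div_of_le (by positivity) (by linarith)
  · rw [← hαm k]
    have h1 : (α (m k))⁻¹ * a (m k) = β (m k) := by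
      rw [hab (m k), inv_mul_cancel_left]
    have := ha (m k)
    show l (a (m k)) = l (α (m k)) + l ((α (m k))⁻¹ * a (m k))
    rw [h1, hα, hβ]
    omega

lemma dyPrefixNear (W : WordLen l) {E : ℕ → ℝ} (H : GeodEst ρ l E) {S : M43} {h : Γ}
    {a : ℕ → Γ} (ha : Tendsto (fun k => Sg (ρ (a k))) atTop (𝓝 S))
    (hl : ∀ k, l (a k) = l h + l (h⁻¹ * a k)) : ‖Sg (ρ h) - S‖ ≤ E (l h) := by
  have h1 : Tendsto (fun k => ‖Sg (ρ h) - Sg (ρ (a k))‖) atTop (𝓝 ‖Sg (ρ h) - S‖) :=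
    (tendsto_const_nhds.sub ha).norm
  refine le_of_tendsto' h1 fun k => H _ _ _ fun y hy => ?_
  have h2 := W.mul_le y (y⁻¹ * a k)
  rw [mul_inv_cancel_left] at h2
  have := hl k
  omega

/-- `g = h⁻¹` maps `S'` near `Sg g` -/
lemma near_of_ne (hO : ∀ γ, IsO (ρ γ)) (W : WordLen l) {E : ℕ → ℝ} (H : GeodEst ρ l E)
    (hE : Tendsto E atTop (𝓝 0)) {S S' : M43} (hS' : S' ∈ limSet ρ l) (hc : IsContr S')
    (hne : S ≠ S') {η : ℝ} (hη : 0 < η) :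
    ∃ n₀, ∀ h, n₀ ≤ l h → ‖Sg (ρ h) - S‖ ≤ E (l h) →
      ‖Sg (ρ h⁻¹) - act (ρ h⁻¹) S'‖ ≤ η := by
  have hD : 0 < ‖S - S'‖ := norm_pos_iff.2 (sub_ne_zero.2 hne)
  obtain ⟨r, hr⟩ := (hE.eventually (gt_mem_nhds (show (0 : ℝ) < η / 2 by positivity))).exists
  obtain ⟨n₁, hn₁⟩ := eventually_atTop.1
    (hE.eventually (gt_mem_nhds (show (0 : ℝ) < ‖S - S'‖ / 8 by positivity)))
  refine ⟨n₁ + r, fun h hh hhS => ?_⟩
  by_contra hcon
  push Not at hcon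
  have hcont := (hO h⁻¹).continuousOn_act S' hc
  rw [Metric.continuousWithinAt_iff] at hcont
  obtain ⟨δ, hδ, hcont⟩ := hcont (η / 2) (by positivity)
  obtain ⟨b, -, hb⟩ := hS' (min δ (‖S - S'‖ / 8)) (by positivity) 0
  have hb1 := hcont (x := Sg (ρ b)) (hO b).Sg_contr
    (by rw [dist_eq_norm]; exact hb.trans_le (min_le_left _ _))
  rw [← Sg_mul (hO h⁻¹) (hO b), ← map_mul, dist_eq_norm] at hb1
  -- the geodesic from `h⁻¹` to `h⁻¹ b` meets the `r`-ball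
  have hex : ∃ x, l x + l (x⁻¹ * b) = l b ∧ l (h⁻¹ * x) < r := by
    by_contra hno
    push Not at hno
    have := H h⁻¹ (h⁻¹ * b) r fun y hy => by
      have e1 : (h⁻¹)⁻¹ * y = h * y := by rw [inv_inv]
      have e2 : y⁻¹ * (h⁻¹ * b) = (h * y)⁻¹ * b := by group
      have e3 : (h⁻¹)⁻¹ * (h⁻¹ * b) = b := by group
      rw [e1, e2, e3] at hy
      have := hno (h * y) hy
      rwa [inv_mul_cancel_left] at this
    have h3 : ‖Sg (ρ h⁻¹) - act (ρ h⁻¹) S'‖ ≤ ‖Sg (ρ h⁻¹) - Sg (ρ (h⁻¹ * b))‖ +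
        ‖Sg (ρ (h⁻¹ * b)) - act (ρ h⁻¹) S'‖ := norm_sub_le_norm_sub_add_norm_sub _ _ _
    linarith
  obtain ⟨x, hx, hxr⟩ := hex
  have hlh : l h ≤ l x + l (h⁻¹ * x) := by
    have h4 := W.mul_le x (x⁻¹ * h)
    rw [mul_inv_cancel_left] at h4
    rw [dySymm W h x]
    exact h4
  have hlx : n₁ ≤ l x := by omega
  have k1 : ‖Sg (ρ x) - Sg (ρ b)‖ ≤ E (l x) := H _ _ _ fun y hy => by
    have h5 := W.mul_le y (y⁻¹ * b)
    rw [mul_inv_cancel_left] at h5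
    omega
  have k2 : ‖Sg (ρ h) - Sg (ρ x)‖ ≤ E n₁ := H _ _ _ fun y hy => by
    have h6 := W.mul_le y (y⁻¹ * h)
    rw [mul_inv_cancel_left, dySymm W y h] at h6
    omega
  have k3 := hn₁ (l x) hlx
  have k4 := hn₁ n₁ le_rfl
  have k5 := hn₁ (l h) (by omega)
  have k6 := hb.trans_le (min_le_right _ _)
  have k7 : ‖S - S'‖ ≤ ‖S - Sg (ρ h)‖ + ‖Sg (ρ h) - Sg (ρ x)‖ + ‖Sg (ρ x) - Sg (ρ b)‖ +
      ‖Sg (ρ b) - S'‖ := by
    have : S - S' = (S - Sg (ρ h)) + (Sg (ρ h) - Sg (ρ x)) + (Sg (ρ x) - Sg (ρ b)) +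
      (Sg (ρ b) - S') := by abel
    rw [this]
    exact (norm_add_le _ _).trans (add_le_add_left (norm_add₃_le) _)
  rw [norm_sub_rev S (Sg (ρ h))] at k7
  linarith


/-- the transversality passes to the limit -/
lemma pr_limit (hO : ∀ γ, IsO (ρ γ)) (W : WordLen l) {κ : ℝ}
    (hcl : ∀ a b, l (a⁻¹ * b) = l a + l b → κ ≤ pr (Sg (ρ a)) (Sg (ρ b))) {S : M43}
    (hc : IsContr S) {h : Γ} {a : ℕ → Γ} (ha : Tendsto (fun k => Sg (ρ (a k))) atTop (𝓝 S))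
    (hl : ∀ k, l (a k) = l h + l (h⁻¹ * a k)) :
    κ ≤ pr (Sg (ρ h⁻¹)) (act (ρ h⁻¹) S) := by
  have h1 : Tendsto (fun k => act (ρ h⁻¹) (Sg (ρ (a k)))) atTop (𝓝 (act (ρ h⁻¹) S)) := by
    have := (hO h⁻¹).continuousOn_act S hc
    refine this.tendsto.comp (tendsto_nhdsWithin_iff.2 ⟨ha, Eventually.of_forall fun k => ?_⟩)
    exact (hO _).Sg_contr
  have h2 : Tendsto (fun k => pr (Sg (ρ h⁻¹)) (act (ρ h⁻¹) (Sg (ρ (a k))))) atTop
      (𝓝 (pr (Sg (ρ h⁻¹)) (act (ρ h⁻¹) S))) :=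
    (continuous_pr2.comp (continuous_const.prodMk continuous_id)).continuousAt.tendsto.comp h1
  refine ge_of_tendsto' h2 fun k => ?_
  rw [← Sg_mul (hO h⁻¹) (hO _), ← map_mul, pr_comm']
  refine hcl _ _ ?_
  have h3 := hl k
  have e1 : (h⁻¹ * a k)⁻¹ * h⁻¹ = (a k)⁻¹ := by group
  rw [e1, W.inv, W.inv, h3, add_comm]

end Dy

open Dy

variable {Γ : Type*} [Group Γ] {ρ : Γ →* M7} {l : Γ → ℕ} {c C K : ℝ}

theorem Grow.dyn (hG : Grow Γ ρ l c C K) : ∀ S ∈ limSet ρ l, ∀ S' ∈ limSet ρ l, S ≠ S' →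
    ∃ κ > 0, ∀ ε > 0, ∃ γ : Γ, (∀ u, nrm (den (ρ γ) S *ᵥ u) ≤ ε * nrm u) ∧
      κ ≤ pr (act (ρ γ) S) (act (ρ γ) S') := by
  intro S hS S' hS' hne
  have hcon : ∀ S ∈ limSet ρ l, IsContr S := fun S hS => (hG.isom_limSet S hS).contr
  obtain ⟨κ, hκ, hcl⟩ := hG.claim
  obtain ⟨E, H, hE⟩ := exists_geodEst hG
  obtain ⟨η, hη, hpr⟩ := pr_near hκ
  obtain ⟨n₀, hn₀⟩ := near_of_ne hG.isO hG.word H hE hS' (hcon S' hS') hne hη
  refine ⟨κ / 2, by positivity, fun ε hε => ?_⟩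
  -- choose the length
  have hexp : Tendsto (fun n : ℕ => Real.exp (c * n)) atTop atTop :=
    Real.tendsto_exp_atTop.comp
      ((tendsto_natCast_atTop_atTop (R := ℝ)).const_mul_atTop hG.c_pos)
  obtain ⟨n, hn, hn'⟩ := ((hexp.eventually_ge_atTop (48 * C / (ε * κ))).and
    (eventually_ge_atTop n₀)).exists
  obtain ⟨h, hln, a, ha, hl⟩ := dyPrefix hG.word hS n
  have hnear := hn₀ h (by omega) (dyPrefixNear hG.word H ha hl)
  have hk := pr_limit hG.isO hG.word hcl (hcon S hS) ha hl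
  refine ⟨h⁻¹, fun u => ?_, ?_⟩
  · have hg : ρ h⁻¹ = (ρ h)⁻¹ := map_inv' ρ h
    have h1 := den_small (hG.isO h) (hcon S hS) (κ := κ) (by rw [← hg]; exact hk) u
    rw [← hg] at h1
    have h2 := hG.grow h
    rw [hln] at h2
    have h3 : 48 * C / (ε * κ) ≤ C * dl (ρ h) := hn.trans h2
    have h4 : 48 ≤ dl (ρ h) * κ * ε := by
      rw [div_le_iff₀ (by positivity)] at h3
      have hC := hG.C_pos
      nlinarith
    have h5 := nrm_nonneg (den (ρ h⁻¹) S *ᵥ u)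
    have h6 := nrm_nonneg u
    have h7 : 48 * nrm (den (ρ h⁻¹) S *ᵥ u) ≤ 48 * (ε * nrm u) := by
      calc 48 * nrm (den (ρ h⁻¹) S *ᵥ u)
          ≤ dl (ρ h) * κ * ε * nrm (den (ρ h⁻¹) S *ᵥ u) := mul_le_mul_of_nonneg_right h4 h5
        _ = ε * (dl (ρ h) * κ * nrm (den (ρ h⁻¹) S *ᵥ u)) := by ring
        _ ≤ ε * (48 * nrm u) := mul_le_mul_of_nonneg_left h1 hε.le
        _ = 48 * (ε * nrm u) := by ring
    linarith
  · have h1 : IsContr (act (ρ h⁻¹) S) := (hG.isO _).act_contr (hcon S hS)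
    have h2 : IsContr (act (ρ h⁻¹) S') := (hG.isO _).act_contr (hcon S' hS')
    refine hpr _ _ _ h1 (hG.isO h⁻¹).Sg_contr h2 hnear ?_
    rw [pr_comm']
    exact hk

end F31343H
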