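import Pool.Agent.Lib_MP_f31343_h.FibC

/-!
# The local geometric fibration of `O(4,3)/O(4,2)`
-/

open Matrix Module F31343 Filter Topology
open scoped Matrix.Norms.Operator ContDiff

namespace F31343H.Fib

lemma continuous_D : Continuous (fun p : V4 => D p) := by
  refine continuous_matrix fun i j => ?_
  fin_cases i <;> fin_cases j <;> simp [D] <;> fun_prop

lemma continuous_cc : Continuous (fun p : V4 => cc p) := by
  unfold cc
  refine Real.continuous_sqrt.comp ?_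
  unfold dotProduct
  fun_prop

lemma continuous_Bm : Continuous (fun p : V4 => Bm p) := by
  unfold Bm
  have hD := continuous_D
  have hc := continuous_cc
  have hinv : Continuous (fun p : V4 => (1 + cc p)⁻¹) :=
    (continuous_const.add hc).inv₀ fun p => (add_pos one_pos (cc_pos p)).ne'
  refine Continuous.matrix_fromBlocks ?_ hD hD.matrix_transpose (hc.smul continuous_const)
  exact continuous_const.add (hinv.smul (hD.matrix_mul hD.matrix_transpose))

lemma continuous_Bu : Continuous (fun p : V4 => Bu p) := by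
  rw [isOpenEmbedding_val.isInducing.continuous_iff]
  exact continuous_Bm

/-- the norm of the projection -/
lemma norm_sq_pr4 {g : M7} (hg : IsO g) :
    ‖pr4 g‖ ^ 2 * (uu g ⬝ᵥ uu g) = uu g ⬝ᵥ uu g - 1 := by
  have hu := uu_pos hg
  have h1 : yy g = D (pv (yy g) (uu g)) *ᵥ uu g := (pv_eq_iff hu.ne' _).mp rfl
  have h2 := dot_D (pv (yy g) (uu g)) (uu g)
  rw [← h1] at h2
  have h3 : ‖pr4 g‖ ^ 2 = pv (yy g) (uu g) ⬝ᵥ pv (yy g) (uu g) := nrm_sq _
  rw [h3, ← h2]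
  linarith [yu_rel hg]

lemma norm_pr4_lt {g : M7} (hg : IsO g) : ‖pr4 g‖ < 1 := by
  have hu := uu_pos hg
  have h1 := norm_sq_pr4 hg
  by_contra h
  push Not at h
  have h2 : 1 ≤ ‖pr4 g‖ ^ 2 := by nlinarith
  nlinarith

lemma proper_pr4 {g : GL I7 ℝ} (hg : g ∈ O43.grp) :
    ProperAt O42 (O43.grp : Set (GL I7 ℝ)) pr4 g := by
  have hgO := mem_O43.mp hg
  obtain ⟨ρ, hρ1, hρ2⟩ := exists_between (norm_pr4_lt hgO)
  have hρ0 : 0 ≤ ρ := (norm_nonneg _).trans hρ1.le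
  have hρ3 : 0 < 1 - ρ ^ 2 := by nlinarith
  set R : ℝ := Real.sqrt (1 / (1 - ρ ^ 2)) with hR
  let f : EuclideanSpace ℝ (Fin 4) × GL I7 ℝ → GL I7 ℝ := fun x => Bu (WithLp.ofLp x.1) * x.2
  have hf : Continuous f := by
    refine Continuous.mul ?_ continuous_snd
    exact continuous_Bu.comp ((PiLp.continuous_ofLp 2 _).comp continuous_fst)
  refine ⟨{x | ‖x‖ < ρ}, ?_, f '' (Metric.closedBall 0 R ×ˢ (O43.K : Set (GL I7 ℝ))), ?_, ?_, ?_⟩
  · exact (isOpen_lt continuous_norm continuous_const).mem_nhds hρ1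
  · exact ((isCompact_closedBall _ _).prod (isCompact_K O43)).image hf
  · rintro _ ⟨⟨x, k⟩, ⟨_, hk⟩, rfl⟩
    exact O43.grp.mul_mem (Bu_mem _) hk.1
  · intro g' hg' hV
    have hgO' := mem_O43.mp hg'
    obtain ⟨p, hp, hpc⟩ := exists_p hgO'
    have hu := uu_pos hgO'
    have h1 : cc p • yy g'.val = D p *ᵥ uu g'.val := (pv_iff hp hu.ne').mp rfl
    obtain ⟨k, hk, h, hh, he⟩ := fibre_mp hg' h1
    refine ⟨Bu p * k, ⟨(WithLp.toLp 2 p, k), ⟨?_, hk⟩, rfl⟩, h, hh, he⟩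
    rw [Metric.mem_closedBall, dist_zero_right]
    have h2 : ‖(WithLp.toLp 2 p : EuclideanSpace ℝ (Fin 4))‖ ^ 2 = p ⬝ᵥ p := nrm_sq p
    have h3 := norm_sq_pr4 hgO'
    have h4 : ‖pr4 g'.val‖ ^ 2 ≤ ρ ^ 2 := by
      have h5 : ‖pr4 g'.val‖ < ρ := hV
      nlinarith [norm_nonneg (pr4 g'.val)]
    have h6 := cc_sq p
    rw [hpc] at h6
    have h7 : p ⬝ᵥ p ≤ 1 / (1 - ρ ^ 2) := by
      rw [le_div_iff₀ hρ3]
      nlinarith
    refine Real.le_sqrt_of_sq_le ?_
    rw [h2]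
    exact h7

theorem exists_fib_aux {ι : Type*} [Fintype ι] [DecidableEq ι] {G H : LinRed ι} {m : ℕ}
    (hm : codim G H = m) (π : Matrix ι ι ℝ → EuclideanSpace ℝ (Fin m))
    (hH : H.grp ≤ G.grp)
    (smooth : ∀ g ∈ G.grp, SmoothAt π g.val)
    (fibre : ∀ g ∈ G.grp, ∃ g₀ ∈ G.grp, ∀ g' : GL ι ℝ,
      g' ∈ G.grp ∧ π g'.val = π g.val ↔ ∃ k ∈ G.K, ∃ h ∈ H.grp, g' = g₀ * k * h)
    (submersion : ∀ g ∈ G.grp, ∀ v, ∃ A ∈ G.𝔨, ∃ X ∈ G.𝔭, dirDeriv π g.val (g.val * (A + X)) = v)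
    (proper : ∀ g ∈ G.grp, ProperAt H (G.grp : Set (GL ι ℝ)) π g) :
    ∃ F : LocalGeometricFibration G H, F.U = G.grp := by
  subst hm
  exact ⟨{
    U := G.grp
    isOpen := ⟨Set.univ, isOpen_univ, by rw [Set.univ_inter]⟩
    nonempty := ⟨1, G.grp.one_mem⟩
    mul_mem := fun g hg h hh => G.grp.mul_mem hg (hH hh)
    π := π
    smooth := smooth
    fibre := fibre
    submersion := submersion
    proper := proper }, rfl⟩

end F31343H.Fib

namespace F31343H

open Fib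

/-- `O(4,3)/O(4,2)` has a global geometric fibration. -/
theorem exists_fib_global : ∃ F : LocalGeometricFibration O43 O42, F.U = O43.grp := by
  refine exists_fib_aux codim_eq pr4 O42_le (fun g hg => smooth_pr4 (mem_O43.mp hg)) ?_
    (fun g hg v => submersion_pr4 (mem_O43.mp hg) v) (fun g hg => proper_pr4 hg)
  intro g hg
  have hgO := mem_O43.mp hg
  obtain ⟨p, hp, hpc⟩ := exists_p hgO
  refine ⟨Bu p, Bu_mem p, fun g' => ?_⟩
  have key : ∀ {g' : GL I7 ℝ}, g' ∈ O43.grp →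
      (pr4 g'.val = pr4 g.val ↔ cc p • yy g'.val = D p *ᵥ uu g'.val) := by
    intro g' hg'
    rw [← pv_iff hp (uu_pos (mem_O43.mp hg')).ne']
    constructor
    · intro h; exact congrArg WithLp.ofLp h
    · intro h; exact congrArg (WithLp.toLp 2) h
  constructor
  · rintro ⟨hg', h⟩
    exact fibre_mp hg' ((key hg').mp h)
  · rintro ⟨k, hk, h, hh, rfl⟩
    have hm : Bu p * k * h ∈ O43.grp :=
      O43.grp.mul_mem (O43.grp.mul_mem (Bu_mem p) hk.1) (O42_le hh)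
    exact ⟨hm, (key hm).mpr (fibre_mpr hk hh)⟩

theorem exists_fib : Nonempty (LocalGeometricFibration O43 O42) := by
  obtain ⟨F, _⟩ := exists_fib_global
  exact ⟨F⟩

end F31343H
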