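import Pool.Agent.Lib_MP_f31343_h.Groups

/-!
# The local geometric fibration of `O(4,3)/O(4,2)`, part A: the boosts

`ℝ⁴` is the space of quaternions and `ℝ³` the space of imaginary quaternions.  `D p` is the matrix of
the map `u ↦ p u`, and `Bm p` is the symmetric element of `O(4,3)` which maps `(0, w)` to
`(p w, sqrt (1 + |p|²) w)`.
-/

open Matrix Module

namespace F31343H.Fib

/-- the matrix of `u ↦ p u` -/
def D (p : V4) : M43 :=
  !![-p 1, -p 2, -p 3; p 0, -p 3, p 2; p 3, p 0, -p 1; -p 2, p 1, p 0]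

lemma D_mul (p : V4) : (D p)ᵀ * D p = (p ⬝ᵥ p) • (1 : M33) := by
  ext i j
  rw [Matrix.mul_apply, Fin.sum_univ_four, Matrix.smul_apply, dotProduct, Fin.sum_univ_four]
  fin_cases i <;> fin_cases j <;> simp [D] <;> ring

lemma D_smul (c : ℝ) (p : V4) : D (c • p) = c • D p := by
  ext i j
  fin_cases i <;> fin_cases j <;> simp [D]

/-- `sqrt (1 + |p|²)` -/
noncomputable def cc (p : V4) : ℝ := Real.sqrt (1 + p ⬝ᵥ p)

lemma dot_self_nonneg {n : Type*} [Fintype n] (p : n → ℝ) : 0 ≤ p ⬝ᵥ p := by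
  rw [← nrm_sq]; exact sq_nonneg _

lemma cc_sq (p : V4) : cc p ^ 2 = 1 + p ⬝ᵥ p := by
  unfold cc
  exact Real.sq_sqrt (by linarith [dot_self_nonneg p])

lemma cc_pos (p : V4) : 0 < cc p := Real.sqrt_pos.mpr (by linarith [dot_self_nonneg p])

/-- the boost -/
noncomputable def Bm (p : V4) : M7 :=
  fromBlocks (1 + (1 + cc p)⁻¹ • (D p * (D p)ᵀ)) (D p) (D p)ᵀ (cc p • 1)

lemma isO_aux {D : M43} {c s : ℝ} (hD : Dᵀ * D = (c ^ 2 - 1) • (1 : M33)) (hs : s * (1 + c) = 1) :
    IsO (fromBlocks (1 + s • (D * Dᵀ)) D Dᵀ (c • 1)) := by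
  set M : Matrix (Fin 4) (Fin 4) ℝ := 1 + s • (D * Dᵀ) with hM
  have hA : Mᵀ = M := by
    rw [hM, transpose_add, transpose_one, transpose_smul, transpose_mul, transpose_transpose]
  have h12 : M * D = c • D := by
    rw [hM, Matrix.add_mul, Matrix.one_mul, Matrix.smul_mul, Matrix.mul_assoc, hD, Matrix.mul_smul,
      Matrix.mul_one, smul_smul]
    have : s * (c ^ 2 - 1) = c - 1 := by linear_combination (c - 1) * hs
    rw [this, sub_smul, one_smul]
    abel
  have h21 : Dᵀ * M = c • Dᵀ := by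
    have := congrArg transpose h12
    rw [transpose_mul, hA, transpose_smul] at this
    exact this
  have h11 : M * M - D * Dᵀ = 1 := by
    have e1 : M * M = M + s • (c • (D * Dᵀ)) := by
      calc M * M = M * (1 + s • (D * Dᵀ)) := by rw [← hM]
        _ = M + s • ((M * D) * Dᵀ) := by
          rw [Matrix.mul_add, Matrix.mul_one, Matrix.mul_smul, Matrix.mul_assoc]
        _ = M + s • (c • (D * Dᵀ)) := by rw [h12, Matrix.smul_mul]
    rw [e1, smul_smul]
    have e2 : M + (s * c) • (D * Dᵀ) = 1 + (s * (1 + c)) • (D * Dᵀ) := by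
      rw [hM, mul_add, mul_one, add_smul, add_assoc]
    rw [e2, hs, one_smul]
    abel
  unfold IsO J7
  rw [fromBlocks_transpose, hA, transpose_transpose, fromBlocks_multiply, fromBlocks_multiply]
  simp only [Matrix.mul_one, Matrix.mul_zero, add_zero, zero_add, Matrix.mul_neg, Matrix.neg_mul]
  rw [h12, h21, transpose_smul, transpose_one]
  refine fromBlocks_inj.mpr ⟨?_, ?_, ?_, ?_⟩
  · rw [← sub_eq_add_neg, h11]
  · rw [Matrix.mul_smul, Matrix.mul_one]
    abel
  · rw [Matrix.smul_mul, Matrix.one_mul]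
    abel
  · rw [hD, Matrix.smul_mul, Matrix.one_mul, smul_smul, sub_smul, one_smul, sq]
    abel

lemma Bm_isO (p : V4) : IsO (Bm p) := by
  refine isO_aux ?_ ?_
  · rw [D_mul, cc_sq]; congr 1; ring
  · exact inv_mul_cancel₀ (by linarith [cc_pos p])

lemma Bm_mulVec (p : V4) (w : V3) :
    Bm p *ᵥ (Sum.elim 0 w) = Sum.elim (D p *ᵥ w) (cc p • w) := by
  unfold Bm
  rw [fromBlocks_mulVec]
  have h1 : (Sum.elim (0 : V4) w) ∘ Sum.inl = 0 := rfl
  have h2 : (Sum.elim (0 : V4) w) ∘ Sum.inr = w := rfl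
  rw [h1, h2, mulVec_zero, mulVec_zero, zero_add, zero_add, smul_mulVec, one_mulVec]

/-- the boost in the group -/
noncomputable def Bu (p : V4) : GL I7 ℝ :=
  ⟨Bm p, (Bm p)⁻¹, (Bm_isO p).mul_inv, (Bm_isO p).inv_mul⟩

lemma Bu_val (p : V4) : (Bu p).val = Bm p := rfl

lemma Bu_mem (p : V4) : Bu p ∈ O43.grp := mem_O43.mpr (Bm_isO p)

/-! ### Transitivity of `K` on the unit sphere of `ℝ³` -/

lemma exists_refl {w : V3} (hw : w ⬝ᵥ w = 1) :
    ∃ R : M33, Rᵀ * R = 1 ∧ R *ᵥ (Pi.single 2 1) = w := by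
  by_cases h : (Pi.single 2 1 : V3) = w
  · exact ⟨1, by simp, by rw [one_mulVec, h]⟩
  set e : V3 := Pi.single 2 1 with he
  set n : V3 := e - w with hn
  have hee : e ⬝ᵥ e = 1 := by rw [he]; simp
  have hnn : n ⬝ᵥ n = 2 * (n ⬝ᵥ e) := by
    rw [hn, sub_dotProduct, dotProduct_sub, dotProduct_sub, sub_dotProduct, hee, hw,
      dotProduct_comm w e]
    ring
  have hne : n ⬝ᵥ n ≠ 0 := by
    intro h0
    apply h
    rw [← nrm_sq, sq_eq_zero_iff, nrm_eq_zero] at h0
    exact sub_eq_zero.mp h0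
  have hT : (vecMulVec n n)ᵀ = vecMulVec n n := by rw [transpose_vecMulVec]
  have hsq : vecMulVec n n * vecMulVec n n = (n ⬝ᵥ n) • vecMulVec n n := by
    rw [vecMulVec_mul_vecMulVec]
    ext i j
    simp [vecMulVec_apply]
    ring
  have hα : ∃ α : ℝ, α * (n ⬝ᵥ n) = 2 := ⟨2 / (n ⬝ᵥ n), by field_simp⟩
  obtain ⟨α, hα⟩ := hα
  refine ⟨1 - α • vecMulVec n n, ?_, ?_⟩
  · have e0 : (1 - α • vecMulVec n n) * (1 - α • vecMulVec n n) = (1 : M33) := by
      rw [Matrix.sub_mul, Matrix.one_mul, Matrix.smul_mul, Matrix.mul_sub, Matrix.mul_one,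
        Matrix.mul_smul, hsq, smul_smul, hα, two_smul, smul_sub, smul_add]
      abel
    rw [transpose_sub, transpose_one, transpose_smul, hT, e0]
  · rw [sub_mulVec, one_mulVec, smul_mulVec, vecMulVec_mulVec]
    have e1 : α * (n ⬝ᵥ e) = 1 := by
      rw [hnn] at hα
      linarith
    ext i
    have e2 : n i = e i - w i := rfl
    simp only [Pi.sub_apply, Pi.smul_apply, smul_eq_mul, MulOpposite.smul_eq_mul_unop,
      MulOpposite.unop_op]
    rw [e2]
    linear_combination -(e i - w i) * e1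

end F31343H.Fib
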