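import Pool.Agent.Lib_MP_f31343_h.FibA

/-!
# The local geometric fibration of `O(4,3)/O(4,2)`, part B: the fibres
-/

open Matrix Module F31343

namespace F31343H.Fib

/-- `-y u` in quaternions -/
def qy (y : V4) (u : V3) : V4 :=
  ![y 1 * u 0 + y 2 * u 1 + y 3 * u 2, -(y 0 * u 0 + (y 2 * u 2 - y 3 * u 1)),
    -(y 0 * u 1 + (y 3 * u 0 - y 1 * u 2)), -(y 0 * u 2 + (y 1 * u 1 - y 2 * u 0))]

/-- `y u⁻¹` in quaternions -/
noncomputable def pv (y : V4) (u : V3) : V4 := (u ⬝ᵥ u)⁻¹ • qy y u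

lemma D_qy (y : V4) (u : V3) : D (qy y u) *ᵥ u = (u ⬝ᵥ u) • y := by
  ext i
  rw [Pi.smul_apply, smul_eq_mul, Matrix.mulVec, dotProduct, dotProduct, Fin.sum_univ_three,
    Fin.sum_univ_three]
  fin_cases i <;> simp [D, qy] <;> ring

lemma qy_D (p : V4) (u : V3) : qy (D p *ᵥ u) u = (u ⬝ᵥ u) • p := by
  have h : ∀ i, (D p *ᵥ u) i = D p i 0 * u 0 + D p i 1 * u 1 + D p i 2 * u 2 := fun i => by
    rw [Matrix.mulVec, dotProduct, Fin.sum_univ_three]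
  ext i
  rw [Pi.smul_apply, smul_eq_mul, dotProduct, Fin.sum_univ_three]
  fin_cases i <;> simp [qy, h] <;> simp [D] <;> ring

lemma pv_eq_iff {y : V4} {u : V3} (hu : u ⬝ᵥ u ≠ 0) (q : V4) : pv y u = q ↔ y = D q *ᵥ u := by
  constructor
  · rintro rfl
    unfold pv
    rw [D_smul, smul_mulVec, D_qy, smul_smul, inv_mul_cancel₀ hu, one_smul]
  · rintro rfl
    unfold pv
    rw [qy_D, smul_smul, inv_mul_cancel₀ hu, one_smul]

lemma dot_D (q : V4) (u : V3) : (D q *ᵥ u) ⬝ᵥ (D q *ᵥ u) = (q ⬝ᵥ q) * (u ⬝ᵥ u) := by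
  rw [dot_mulVec_left, mulVec_mulVec, D_mul, smul_mulVec, one_mulVec, dotProduct_smul, smul_eq_mul]

/-- the last column, upper part -/
def yy (g : M7) : V4 := hi (g *ᵥ e7)

/-- the last column, lower part -/
def uu (g : M7) : V3 := lo (g *ᵥ e7)

lemma e7_eq : e7 = Sum.elim (0 : V4) (Pi.single 2 1 : V3) := by
  ext i
  rcases i with i | i
  · simp [e7]
  · unfold e7
    rw [Sum.elim_inr]
    by_cases h : i = 2
    · subst h; simp
    · rw [Pi.single_eq_of_ne h, Pi.single_eq_of_ne (by simpa using h)]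

lemma qf_e7 : qf e7 = -1 := by
  rw [e7_eq, qf_elim]
  simp

lemma yu_rel {g : M7} (hg : IsO g) : yy g ⬝ᵥ yy g - uu g ⬝ᵥ uu g = -1 := by
  have h := hg.qf_mulVec e7
  rw [qf_e7] at h
  exact h

lemma uu_pos {g : M7} (hg : IsO g) : 0 < uu g ⬝ᵥ uu g := by
  have := yu_rel hg
  have h2 := dot_self_nonneg (yy g)
  linarith

lemma yu_elim (g : M7) : g *ᵥ e7 = Sum.elim (yy g) (uu g) := (elim_hi_lo _).symm

/-- a rotation of the negative part -/
def rot (R : M33) : M7 := fromBlocks 1 0 0 R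

lemma rot_isO {R : M33} (hR : Rᵀ * R = 1) : IsO (rot R) := by
  unfold IsO J7 rot
  rw [fromBlocks_transpose, fromBlocks_multiply, fromBlocks_multiply]
  simp [hR]

lemma rot_orth {R : M33} (hR : Rᵀ * R = 1) : (rot R)ᵀ * rot R = 1 := by
  unfold rot
  rw [fromBlocks_transpose, fromBlocks_multiply]
  simp [hR]

lemma rot_e7 (R : M33) : rot R *ᵥ e7 = Sum.elim (0 : V4) (R *ᵥ (Pi.single 2 1)) := by
  unfold rot
  rw [e7_eq, fromBlocks_mulVec]
  have h1 : (Sum.elim (0 : V4) (Pi.single 2 1 : V3)) ∘ Sum.inl = 0 := rfl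
  have h2 : (Sum.elim (0 : V4) (Pi.single 2 1 : V3)) ∘ Sum.inr = Pi.single 2 1 := rfl
  rw [h1, h2, mulVec_zero, mulVec_zero, zero_add, zero_mulVec, zero_add]

/-- Elements of `K` map `e₇` into `ℝ³`. -/
lemma K_e7 {k : GL I7 ℝ} (hk : k ∈ O43.K) :
    ∃ w : V3, k.val *ᵥ e7 = Sum.elim (0 : V4) w := by
  have h1 : IsO k.val := mem_O43.mp hk.1
  have h2 : k.valᵀ * k.val = 1 := hk.2
  have h3 : k.val * k.valᵀ = 1 := mul_eq_one_comm.mp h2
  have h4 : J7 * k.val = k.val * J7 := by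
    have h5 : k.valᵀ * J7 * k.val = J7 := h1
    calc J7 * k.val = (k.val * k.valᵀ) * (J7 * k.val) := by rw [h3, one_mul]
      _ = k.val * (k.valᵀ * J7 * k.val) := by simp only [mul_assoc]
      _ = k.val * J7 := by rw [h5]
  have h6 : J7 *ᵥ (k.val *ᵥ e7) = -(k.val *ᵥ e7) := by
    rw [mulVec_mulVec, h4, ← mulVec_mulVec, J7_e7, mulVec_neg]
  refine ⟨lo (k.val *ᵥ e7), ?_⟩
  have h7 : hi (k.val *ᵥ e7) = 0 := by
    ext i
    have h8 := congrFun h6 (Sum.inl i)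
    rw [J7_mulVec, Sum.elim_inl, Pi.neg_apply] at h8
    have h9 : hi (k.val *ᵥ e7) i = (k.val *ᵥ e7) (Sum.inl i) := rfl
    rw [h9] at h8 ⊢
    show _ = (0 : ℝ)
    linarith
  rw [← h7, elim_hi_lo]

/-- the fibre: one direction -/
lemma fibre_mp {p : V4} {g : GL I7 ℝ} (hg : g ∈ O43.grp)
    (h : cc p • yy g.val = D p *ᵥ uu g.val) :
    ∃ k ∈ O43.K, ∃ h ∈ O42.grp, g = Bu p * k * h := by
  have hgO := mem_O43.mp hg
  set w : V3 := (cc p)⁻¹ • uu g.val with hw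
  have hc := cc_pos p
  have h1 : g.val *ᵥ e7 = Bm p *ᵥ (Sum.elim (0 : V4) w) := by
    rw [Bm_mulVec, yu_elim, hw, mulVec_smul, ← h, smul_smul, smul_smul, inv_mul_cancel₀ hc.ne',
      mul_inv_cancel₀ hc.ne', one_smul, one_smul]
  have h2 : w ⬝ᵥ w = 1 := by
    have h3 := hgO.qf_mulVec e7
    rw [h1, (Bm_isO p).qf_mulVec, qf_e7, qf_elim] at h3
    rw [zero_dotProduct] at h3
    linarith
  obtain ⟨R, hR, hRe⟩ := exists_refl h2
  let k : GL I7 ℝ := ⟨rot R, (rot R)ᵀ, mul_eq_one_comm.mp (rot_orth hR), rot_orth hR⟩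
  have hk : k ∈ O43.K := ⟨mem_O43.mpr (rot_isO hR), rot_orth hR⟩
  have hke : k.val *ᵥ e7 = Sum.elim (0 : V4) w := by
    show rot R *ᵥ e7 = _
    rw [rot_e7, hRe]
  refine ⟨k, hk, (Bu p * k)⁻¹ * g, ?_, by group⟩
  rw [mem_O42]
  refine ⟨mem_O43.mp (O43.grp.mul_mem (O43.grp.inv_mem (O43.grp.mul_mem (Bu_mem p) hk.1)) hg), ?_⟩
  have h4 : (Bu p * k).val *ᵥ e7 = g.val *ᵥ e7 := by
    rw [Units.val_mul, ← mulVec_mulVec, hke, h1]
    rfl
  rw [Units.val_mul, ← mulVec_mulVec, ← h4, mulVec_mulVec, Units.inv_mul, one_mulVec]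

/-- the fibre: the other direction -/
lemma fibre_mpr {p : V4} {k h : GL I7 ℝ} (hk : k ∈ O43.K) (hh : h ∈ O42.grp) :
    cc p • yy (Bu p * k * h).val = D p *ᵥ uu (Bu p * k * h).val := by
  obtain ⟨w, hw⟩ := K_e7 hk
  have h1 : (Bu p * k * h).val *ᵥ e7 = Sum.elim (D p *ᵥ w) (cc p • w) := by
    rw [Units.val_mul, Units.val_mul, ← mulVec_mulVec, (mem_O42.mp hh).2, ← mulVec_mulVec, hw,
      Bu_val, Bm_mulVec]
  have h2 : yy (Bu p * k * h).val = D p *ᵥ w := by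
    unfold yy
    rw [h1, hi_elim]
  have h3 : uu (Bu p * k * h).val = cc p • w := by
    unfold uu
    rw [h1, lo_elim]
  rw [h2, h3, mulVec_smul]

/-- Every point is on the fibre of `p = |u| y u⁻¹`. -/
lemma exists_p {g : M7} (hg : IsO g) : ∃ p : V4, cc p • pv (yy g) (uu g) = p ∧
    cc p ^ 2 = uu g ⬝ᵥ uu g := by
  have hu := uu_pos hg
  have hr := yu_rel hg
  set q := pv (yy g) (uu g) with hq
  have h1 : yy g = D q *ᵥ uu g := (pv_eq_iff hu.ne' q).mp hq.symm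
  have h2 : yy g ⬝ᵥ yy g = (q ⬝ᵥ q) * (uu g ⬝ᵥ uu g) := by
    conv_lhs => rw [h1]
    exact dot_D q _
  have h3 : cc (Real.sqrt (uu g ⬝ᵥ uu g) • q) = Real.sqrt (uu g ⬝ᵥ uu g) := by
    unfold cc
    congr 1
    rw [dotProduct_smul, smul_dotProduct, smul_eq_mul, smul_eq_mul, ← mul_assoc,
      Real.mul_self_sqrt hu.le]
    linarith
  refine ⟨Real.sqrt (uu g ⬝ᵥ uu g) • q, by rw [h3], by rw [h3, Real.sq_sqrt hu.le]⟩

/-- `π g' = p / c` in terms of `p` -/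
lemma pv_iff {p q : V4} (hp : cc p • q = p) {y : V4} {u : V3} (hu : u ⬝ᵥ u ≠ 0) :
    pv y u = q ↔ cc p • y = D p *ᵥ u := by
  have hc := cc_pos p
  rw [pv_eq_iff hu]
  have h1 : D p *ᵥ u = cc p • (D q *ᵥ u) := by
    conv_lhs => rw [← hp]
    rw [D_smul, smul_mulVec]
  rw [h1]
  constructor
  · rintro rfl; rfl
  · intro h
    have := congrArg (fun v => (cc p)⁻¹ • v) h
    simpa [smul_smul, inv_mul_cancel₀ hc.ne'] using this

end F31343H.Fib
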