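import Pool.Agent.Lib_MP_f31343_h.FibB

/-!
# The local geometric fibration of `O(4,3)/O(4,2)`, part C: smoothness, submersion
-/

open Matrix Module F31343 Filter Topology
open scoped Matrix.Norms.Operator ContDiff

namespace F31343H.Fib

/-- the projection -/
noncomputable def pr4 (M : M7) : EuclideanSpace ℝ (Fin 4) := WithLp.toLp 2 (pv (yy M) (uu M))

lemma yy_apply (M : M7) (i : Fin 4) : yy M i = M (Sum.inl i) (Sum.inr 2) := by
  unfold yy e7 hi
  rw [mulVec_single_one]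
  rfl

lemma uu_apply (M : M7) (i : Fin 3) : uu M i = M (Sum.inr i) (Sum.inr 2) := by
  unfold uu e7 lo
  rw [mulVec_single_one]
  rfl

lemma contDiff_entry (i j : I7) : ContDiff ℝ ∞ (fun M : M7 => M i j) :=
  (LinearMap.toContinuousLinearMap (Matrix.entryLinearMap ℝ ℝ i j)).contDiff

lemma contDiff_yy (i : Fin 4) : ContDiff ℝ ∞ (fun M : M7 => yy M i) := by
  simp only [yy_apply]
  exact contDiff_entry _ _

lemma contDiff_uu (i : Fin 3) : ContDiff ℝ ∞ (fun M : M7 => uu M i) := by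
  simp only [uu_apply]
  exact contDiff_entry _ _

lemma contDiff_dot : ContDiff ℝ ∞ (fun M : M7 => uu M ⬝ᵥ uu M) := by
  simp only [dotProduct, Fin.sum_univ_three]
  exact (((contDiff_uu 0).mul (contDiff_uu 0)).add ((contDiff_uu 1).mul (contDiff_uu 1))).add
    ((contDiff_uu 2).mul (contDiff_uu 2))

lemma contDiff_qy (i : Fin 4) : ContDiff ℝ ∞ (fun M : M7 => qy (yy M) (uu M) i) := by
  have y := contDiff_yy
  have u := contDiff_uu
  fin_cases i
  · show ContDiff ℝ ∞ (fun M : M7 => yy M 1 * uu M 0 + yy M 2 * uu M 1 + yy M 3 * uu M 2)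
    exact (((y 1).mul (u 0)).add ((y 2).mul (u 1))).add ((y 3).mul (u 2))
  · show ContDiff ℝ ∞ (fun M : M7 => -(yy M 0 * uu M 0 + (yy M 2 * uu M 2 - yy M 3 * uu M 1)))
    exact (((y 0).mul (u 0)).add (((y 2).mul (u 2)).sub ((y 3).mul (u 1)))).neg
  · show ContDiff ℝ ∞ (fun M : M7 => -(yy M 0 * uu M 1 + (yy M 3 * uu M 0 - yy M 1 * uu M 2)))
    exact (((y 0).mul (u 1)).add (((y 3).mul (u 0)).sub ((y 1).mul (u 2)))).neg
  · show ContDiff ℝ ∞ (fun M : M7 => -(yy M 0 * uu M 2 + (yy M 1 * uu M 1 - yy M 2 * uu M 0)))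
    exact (((y 0).mul (u 2)).add (((y 1).mul (u 1)).sub ((y 2).mul (u 0)))).neg

lemma smooth_pr4 {g : M7} (hg : IsO g) : SmoothAt pr4 g := by
  unfold SmoothAt
  rw [contDiffAt_euclidean]
  intro i
  show ContDiffAt ℝ ∞ (fun M : M7 => (uu M ⬝ᵥ uu M)⁻¹ * qy (yy M) (uu M) i) g
  exact (contDiff_dot.contDiffAt.inv (uu_pos hg).ne').mul (contDiff_qy i).contDiffAt

/-! ### Tangent vectors -/

/-- the element of `𝔨` with last column `(0, q)` (if `q 2 = 0`) -/
def Ak (q : V3) : M7 := fromBlocks 0 0 0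
  (vecMulVec q (Pi.single 2 1) - vecMulVec (Pi.single 2 1) q)

lemma Ak_mem (q : V3) : Ak q ∈ O43.𝔨 := by
  refine mem_k_classical _ _ ?_ (fun M hM => absurd hM (Set.notMem_empty M)) (fun S hS => ?_)
    (mul_zero _) (zero_mul _)
  · unfold Ak
    rw [fromBlocks_transpose, fromBlocks_neg, transpose_sub, transpose_vecMulVec,
      transpose_vecMulVec]
    simp
  · rw [Set.mem_singleton_iff.mp hS]
    unfold Ak J7
    rw [fromBlocks_multiply, fromBlocks_multiply]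
    simp

lemma Ak_e7 {q : V3} (hq : q 2 = 0) : Ak q *ᵥ e7 = Sum.elim (0 : V4) q := by
  unfold Ak
  rw [e7_eq, fromBlocks_mulVec]
  have h1 : (Sum.elim (0 : V4) (Pi.single 2 1 : V3)) ∘ Sum.inl = 0 := rfl
  have h2 : (Sum.elim (0 : V4) (Pi.single 2 1 : V3)) ∘ Sum.inr = Pi.single 2 1 := rfl
  rw [h1, h2, mulVec_zero, mulVec_zero, zero_add, zero_mulVec, zero_add, sub_mulVec,
    vecMulVec_mulVec, vecMulVec_mulVec]
  congr 1
  ext i
  simp [hq]

/-- the matrix with last column `p` -/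
def colm (p : V4) : M43 := vecMulVec p (Pi.single 2 1)

lemma offd_e7 (p : V4) : offd (colm p) *ᵥ e7 = Sum.elim p (0 : V3) := by
  unfold offd colm
  rw [e7_eq, fromBlocks_mulVec]
  have h1 : (Sum.elim (0 : V4) (Pi.single 2 1 : V3)) ∘ Sum.inl = 0 := rfl
  have h2 : (Sum.elim (0 : V4) (Pi.single 2 1 : V3)) ∘ Sum.inr = Pi.single 2 1 := rfl
  rw [h1, h2, mulVec_zero, mulVec_zero, zero_add, zero_mulVec, add_zero, vecMulVec_mulVec]
  congr 1
  ext i
  simp

lemma bf_e7 (v : V7) : bf v e7 = -(lo v 2) := by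
  unfold bf
  rw [e7_eq, hi_elim, lo_elim]
  simp

/-- the curve -/
lemma pv_curve {y : V4} {u : V3} (hu : u ⬝ᵥ u ≠ 0) (v : V4) (l t : ℝ) (ht : 1 + t * l ≠ 0) :
    pv (y + t • (D v *ᵥ u + l • y)) (u + t • (l • u)) = pv y u + (t / (1 + t * l)) • v := by
  have h1 : u + t • (l • u) = (1 + t * l) • u := by
    rw [smul_smul, add_smul, one_smul]
  have h2 : (1 + t * l) • u ⬝ᵥ (1 + t * l) • u ≠ 0 := by
    rw [dotProduct_smul, smul_dotProduct, smul_eq_mul, smul_eq_mul]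
    exact mul_ne_zero ht (mul_ne_zero ht hu)
  have h3 : y = D (pv y u) *ᵥ u := (pv_eq_iff hu _).mp rfl
  rw [h1, pv_eq_iff h2]
  have hDadd : ∀ a b : V4, D (a + b) = D a + D b := by
    intro a b
    ext i j
    fin_cases i <;> fin_cases j <;> simp [D] <;> ring
  rw [hDadd, D_smul, add_mulVec, smul_mulVec, mulVec_smul, mulVec_smul, ← h3, smul_smul,
    div_mul_cancel₀ _ ht]
  ext i
  simp only [Pi.add_apply, Pi.smul_apply, smul_eq_mul]
  ring

lemma hasDerivAt_curve {g V : M7} (hg : IsO g) (v : EuclideanSpace ℝ (Fin 4)) (l : ℝ)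
    (hy : yy V = D (WithLp.ofLp v) *ᵥ uu g + l • yy g) (hu : uu V = l • uu g) :
    HasDerivAt (fun t : ℝ => pr4 (g + t • V)) v 0 := by
  have hu0 := (uu_pos hg).ne'
  have hev : (fun t : ℝ => pr4 (g + t • V)) =ᶠ[𝓝 0]
      fun t : ℝ => pr4 g + (t / (1 + t * l)) • v := by
    have hc : ContinuousAt (fun t : ℝ => 1 + t * l) 0 := by fun_prop
    have h1 : ∀ᶠ t : ℝ in 𝓝 0, 1 + t * l ≠ 0 := by
      apply hc.eventually_ne
      simp
    filter_upwards [h1] with t ht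
    have e1 : yy (g + t • V) = yy g + t • (D (WithLp.ofLp v) *ᵥ uu g + l • yy g) := by
      rw [← hy]
      ext i
      rw [Pi.add_apply, Pi.smul_apply, yy_apply, yy_apply, yy_apply]
      rfl
    have e2 : uu (g + t • V) = uu g + t • (l • uu g) := by
      rw [← hu]
      ext i
      rw [Pi.add_apply, Pi.smul_apply, uu_apply, uu_apply, uu_apply]
      rfl
    unfold pr4
    rw [e1, e2, pv_curve hu0 _ _ _ ht]
    rfl
  refine HasDerivAt.congr_of_eventuallyEq ?_ hev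
  have h2 : HasDerivAt (fun t : ℝ => t / (1 + t * l)) 1 0 := by
    have h3 : HasDerivAt (fun t : ℝ => 1 + t * l) l 0 := by
      simpa using ((hasDerivAt_id (0 : ℝ)).mul_const l).const_add 1
    have h4 : HasDerivAt (fun t : ℝ => t / (1 + t * l))
        ((1 * (1 + 0 * l) - 0 * l) / (1 + 0 * l) ^ 2) 0 :=
      (hasDerivAt_id' (0 : ℝ)).fun_div h3 (by simp)
    have e : (1 * (1 + 0 * l) - 0 * l) / (1 + 0 * l) ^ 2 = (1 : ℝ) := by norm_num
    rw [e] at h4
    exact h4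
  have h5 := (h2.smul_const v).const_add (pr4 g)
  simpa using h5

lemma submersion_pr4 {g : M7} (hg : IsO g) (v : EuclideanSpace ℝ (Fin 4)) :
    ∃ A ∈ O43.𝔨, ∃ X ∈ O43.𝔭, dirDeriv pr4 g (g * (A + X)) = v := by
  set l : ℝ := (D (WithLp.ofLp v) *ᵥ uu g) ⬝ᵥ yy g with hl
  set w : V7 := Sum.elim (D (WithLp.ofLp v) *ᵥ uu g + l • yy g) (l • uu g) with hw
  have hbf : bf w (g *ᵥ e7) = 0 := by
    rw [yu_elim, hw, bf_elim, add_dotProduct, smul_dotProduct, smul_dotProduct, ← hl]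
    have := yu_rel hg
    simp only [smul_eq_mul]
    linear_combination l * this
  have h1 : lo (g⁻¹ *ᵥ w) 2 = 0 := by
    have h2 := hg.bf_mulVec (g⁻¹ *ᵥ w) e7
    rw [mulVec_mulVec, hg.mul_inv, one_mulVec, hbf, bf_e7] at h2
    linarith
  refine ⟨Ak (lo (g⁻¹ *ᵥ w)), Ak_mem _, offd (colm (hi (g⁻¹ *ᵥ w))), offd_mem_p43 _, ?_⟩
  set V : M7 := g * (Ak (lo (g⁻¹ *ᵥ w)) + offd (colm (hi (g⁻¹ *ᵥ w)))) with hV
  have h3 : V *ᵥ e7 = w := by
    rw [hV, ← mulVec_mulVec, add_mulVec, Ak_e7 h1, offd_e7]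
    have h4 : Sum.elim (0 : V4) (lo (g⁻¹ *ᵥ w)) + Sum.elim (hi (g⁻¹ *ᵥ w)) (0 : V3) =
        g⁻¹ *ᵥ w := by
      ext i
      rcases i with i | i
      · simp [hi]
      · simp [lo]
    rw [h4, mulVec_mulVec, hg.mul_inv, one_mulVec]
  have hy : yy V = D (WithLp.ofLp v) *ᵥ uu g + l • yy g := by
    unfold yy at hw ⊢
    rw [h3, hw, hi_elim]
  have hu : uu V = l • uu g := by
    unfold uu at hw ⊢
    rw [h3, hw, lo_elim]
  have h5 := hasDerivAt_curve hg v l hy hu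
  have h6 : DifferentiableAt ℝ pr4 g := (smooth_pr4 hg).differentiableAt (by simp)
  have h7 : HasDerivAt (fun t : ℝ => g + t • V) V 0 := by
    have h10 := (hasDerivAt_id' (0 : ℝ)).smul_const V
    rw [one_smul] at h10
    exact h10.const_add g
  have h8 : HasDerivAt (fun t : ℝ => pr4 (g + t • V)) (fderiv ℝ pr4 g V) 0 := by
    have h9 : HasFDerivAt pr4 (fderiv ℝ pr4 g) (g + (0 : ℝ) • V) := by
      rw [zero_smul, add_zero]
      exact h6.hasFDerivAt
    exact h9.comp_hasDerivAt (0 : ℝ) h7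
  exact h8.unique h5

end F31343H.Fib
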