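import Pool.Agent.Lib_MP_f31343.Classical
import Pool.Agent.Lib_MP_f31343_h.Alg

/-!
# The linear reductive groups `O(4,3)` and `O(4,2)`
-/

open Matrix Module

namespace F31343H

lemma J7_transpose : J7ᵀ = J7 := by
  unfold J7
  rw [fromBlocks_transpose]
  simp

lemma J7_orth : J7ᵀ * J7 = 1 := by rw [J7_transpose, J7_mul_J7]

/-- The group `O(4,3)` of the matrices preserving the form. -/
def O43 : F31343.LinRed I7 := F31343.ClassicalData.toLinRed
  { comm := ∅
    form := {J7}
    sl := False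
    fix := 0
    skew := fun M hM => absurd hM (Set.notMem_empty M)
    orth := fun S hS => by rw [Set.mem_singleton_iff.mp hS]; exact J7_orth
    symm := transpose_zero }

/-- The subgroup `O(4,2)` of the matrices of `O(4,3)` fixing the last basis vector. -/
def O42 : F31343.LinRed I7 := F31343.ClassicalData.toLinRed
  { comm := ∅
    form := {J7}
    sl := False
    fix := Matrix.single (Sum.inr 2) (Sum.inr 2) 1
    skew := fun M hM => absurd hM (Set.notMem_empty M)
    orth := fun S hS => by rw [Set.mem_singleton_iff.mp hS]; exact J7_orth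
    symm := by rw [transpose_single] }

lemma mem_O43 {g : GL I7 ℝ} : g ∈ O43.grp ↔ IsO g.val := by
  constructor
  · intro h
    exact h.2.1 J7 rfl
  · intro h
    exact ⟨fun M hM => absurd hM (Set.notMem_empty M), fun S hS => by
      rw [Set.mem_singleton_iff.mp hS]; exact h, fun h => h.elim, mul_zero _, zero_mul _⟩

/-- the last basis vector -/
def e7 : V7 := Pi.single (Sum.inr 2) 1

lemma J7_mulVec (v : V7) : J7 *ᵥ v = Sum.elim (hi v) (-(lo v)) := by
  unfold J7
  rw [fromBlocks_mulVec]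
  simp only [one_mulVec, zero_mulVec, neg_mulVec, add_zero, zero_add]
  rfl

lemma J7_e7 : J7 *ᵥ e7 = -e7 := by
  rw [J7_mulVec]
  ext i
  rcases i with i | i
  · simp [e7, hi]
  · simp only [Sum.elim_inr, Pi.neg_apply, lo]

lemma mul_single_apply' (g : M7) (i j : I7) :
    (g * (Matrix.single (Sum.inr 2) (Sum.inr 2) (1 : ℝ) : M7) : M7) i j =
      if j = Sum.inr 2 then g i (Sum.inr 2) else 0 := by
  rw [Matrix.mul_apply]
  rw [Finset.sum_eq_single (Sum.inr 2)]
  · by_cases h : j = Sum.inr 2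
    · subst h; simp
    · rw [if_neg h, Matrix.single_apply_of_col_ne _ _ (Ne.symm h), mul_zero]
  · intro k _ hk
    rw [Matrix.single_apply_of_row_ne (Ne.symm hk), mul_zero]
  · intro h; exact absurd (Finset.mem_univ _) h

lemma fix_iff (g : M7) : g * Matrix.single (Sum.inr 2) (Sum.inr 2) (1 : ℝ) =
    (Matrix.single (Sum.inr 2) (Sum.inr 2) (1 : ℝ) : M7) ↔ g *ᵥ e7 = e7 := by
  constructor
  · intro h
    ext i
    have h1 := congrFun (congrFun h i) (Sum.inr 2)
    rw [mul_single_apply', if_pos rfl] at h1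
    unfold e7
    rw [mulVec_single_one]
    show g i (Sum.inr 2) = _
    rw [h1]
    by_cases hi : i = Sum.inr 2
    · subst hi; simp
    · rw [Matrix.single_apply_of_row_ne (Ne.symm hi), Pi.single_eq_of_ne hi]
  · intro h
    ext i j
    rw [mul_single_apply']
    have h1 := congrFun h i
    unfold e7 at h1
    rw [mulVec_single_one] at h1
    have h2 : g i (Sum.inr 2) = (Pi.single (Sum.inr 2) 1 : V7) i := h1
    by_cases hj : j = Sum.inr 2
    · subst hj
      rw [if_pos rfl, h2]
      by_cases hi : i = Sum.inr 2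
      · subst hi; simp
      · rw [Matrix.single_apply_of_row_ne (Ne.symm hi), Pi.single_eq_of_ne hi]
    · rw [if_neg hj, Matrix.single_apply_of_col_ne _ _ (Ne.symm hj)]

lemma IsO.transpose_fix {g : M7} (h : IsO g) (he : g *ᵥ e7 = e7) : gᵀ *ᵥ e7 = e7 := by
  have h1 : gᵀ *ᵥ (J7 *ᵥ (g *ᵥ e7)) = J7 *ᵥ e7 := by
    rw [mulVec_mulVec, mulVec_mulVec, show gᵀ * J7 * g = J7 from h]
  rw [he, J7_e7, mulVec_neg, neg_inj] at h1
  exact h1

lemma mem_O42 {g : GL I7 ℝ} : g ∈ O42.grp ↔ IsO g.val ∧ g.val *ᵥ e7 = e7 := by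
  constructor
  · intro h
    exact ⟨h.2.1 J7 rfl, (fix_iff _).mp h.2.2.2.1⟩
  · rintro ⟨h, he⟩
    refine ⟨fun M hM => absurd hM (Set.notMem_empty M), fun S hS => by
      rw [Set.mem_singleton_iff.mp hS]; exact h, fun h => h.elim, (fix_iff _).mpr he, ?_⟩
    have h1 := congrArg transpose ((fix_iff _).mpr (h.transpose_fix he))
    rw [transpose_mul, transpose_transpose, transpose_single] at h1
    exact h1

lemma O42_le : O42.grp ≤ O43.grp := fun g hg => mem_O43.mpr (mem_O42.mp hg).1

/-- `[0, B; Bᵀ, 0]` -/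
def offd (B : M43) : M7 := fromBlocks 0 B Bᵀ 0

/-- the signs of the form -/
def sg : I7 → ℝ := Sum.elim (fun _ => 1) (fun _ => -1)

lemma J7_eq_diagonal : J7 = diagonal sg := by
  ext i j
  unfold J7 sg
  rcases i with i | i <;> rcases j with j | j
  · by_cases h : i = j
    · subst h; simp
    · rw [fromBlocks_apply₁₁, Matrix.one_apply_ne h, diagonal_apply_ne]
      simpa using h
  · rw [fromBlocks_apply₁₂, diagonal_apply_ne]
    · rfl
    · simp
  · rw [fromBlocks_apply₂₁, diagonal_apply_ne]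
    · rfl
    · simp
  · by_cases h : i = j
    · subst h; simp
    · rw [fromBlocks_apply₂₂, Matrix.neg_apply, Matrix.one_apply_ne h, diagonal_apply_ne]
      · simp
      · simpa using h

lemma anti_iff {X : M7} : X * J7 = J7 * (-X) ↔ ∀ i j, X i j * sg j = - (sg i * X i j) := by
  rw [J7_eq_diagonal]
  constructor
  · intro h i j
    have h1 := congrFun (congrFun h i) j
    rw [mul_diagonal, diagonal_mul, Matrix.neg_apply] at h1
    linarith
  · intro h
    ext i j
    rw [mul_diagonal, diagonal_mul, Matrix.neg_apply]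
    linarith [h i j]

lemma comm_iff {X : M7} : X * J7 = J7 * X ↔ ∀ i j, X i j * sg j = sg i * X i j := by
  rw [J7_eq_diagonal]
  constructor
  · intro h i j
    have h1 := congrFun (congrFun h i) j
    rw [mul_diagonal, diagonal_mul] at h1
    exact h1
  · intro h
    ext i j
    rw [mul_diagonal, diagonal_mul]
    exact h i j

lemma offd_transpose (B : M43) : (offd B)ᵀ = offd B := by
  unfold offd
  rw [fromBlocks_transpose]
  simp

lemma offd_anti (B : M43) : offd B * J7 = J7 * (-(offd B)) := by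
  unfold J7 offd
  rw [fromBlocks_neg, fromBlocks_multiply, fromBlocks_multiply]
  simp

lemma eq_offd {X : M7} (h1 : Xᵀ = X) (h2 : X * J7 = J7 * (-X)) : X = offd X.toBlocks₁₂ := by
  have h3 := anti_iff.mp h2
  ext i j
  unfold offd
  rcases i with i | i <;> rcases j with j | j
  · rw [fromBlocks_apply₁₁]
    have := h3 (Sum.inl i) (Sum.inl j)
    simp only [sg, Sum.elim_inl] at this
    show _ = (0 : ℝ)
    linarith
  · rfl
  · rw [fromBlocks_apply₂₁]
    exact (congrFun (congrFun h1 (Sum.inr i)) (Sum.inl j)).symm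
  · rw [fromBlocks_apply₂₂]
    have := h3 (Sum.inr i) (Sum.inr j)
    simp only [sg, Sum.elim_inr] at this
    show _ = (0 : ℝ)
    linarith

lemma offd_mem_p43 (B : M43) : offd B ∈ O43.𝔭 :=
  ⟨offd_transpose B, fun M hM => absurd hM (Set.notMem_empty M), fun S hS => by
    rw [Set.mem_singleton_iff.mp hS]; exact offd_anti B, fun h => h.elim, mul_zero _⟩

lemma p43_eq {X : M7} (h : X ∈ O43.𝔭) : X = offd X.toBlocks₁₂ := eq_offd h.1 (h.2.2.1 J7 rfl)

/-- `𝔭` of `O(4,3)` is the space of `4 × 3` matrices. -/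
def p43Equiv : O43.𝔭 ≃ₗ[ℝ] M43 where
  toFun X := X.1.toBlocks₁₂
  invFun B := ⟨offd B, offd_mem_p43 B⟩
  map_add' X Y := rfl
  map_smul' c X := rfl
  left_inv X := Subtype.ext (p43_eq X.2).symm
  right_inv B := by
    show (offd B).toBlocks₁₂ = B
    unfold offd
    rw [toBlocks_fromBlocks₁₂]

lemma finrank_p43 : finrank ℝ O43.𝔭 = 12 := by
  rw [p43Equiv.finrank_eq, Module.finrank_matrix]
  simp

/-- a `4 × 2` matrix as a `4 × 3` matrix with last column zero -/
def ext3 (B : Matrix (Fin 4) (Fin 2) ℝ) : M43 :=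
  Matrix.of fun i j => if h : j.1 < 2 then B i ⟨j.1, h⟩ else 0

lemma offd_mul_single (B : M43) : offd B * Matrix.single (Sum.inr 2) (Sum.inr 2) (1 : ℝ) = 0 ↔
    ∀ i, B i 2 = 0 := by
  constructor
  · intro h i
    have h1 := congrFun (congrFun h (Sum.inl i)) (Sum.inr 2)
    rw [mul_single_apply', if_pos rfl] at h1
    exact h1
  · intro h
    ext i j
    rw [mul_single_apply']
    by_cases hj : j = Sum.inr 2
    · rw [if_pos hj]
      rcases i with i | i
      · exact h i
      · rfl
    · rw [if_neg hj]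
      rfl

lemma offd_mem_p42 {B : M43} (hB : ∀ i, B i 2 = 0) : offd B ∈ O42.𝔭 :=
  ⟨offd_transpose B, fun M hM => absurd hM (Set.notMem_empty M), fun S hS => by
    rw [Set.mem_singleton_iff.mp hS]; exact offd_anti B, fun h => h.elim,
    (offd_mul_single B).mpr hB⟩

lemma p42_eq {X : M7} (h : X ∈ O42.𝔭) : X = offd X.toBlocks₁₂ := eq_offd h.1 (h.2.2.1 J7 rfl)

lemma p42_col {X : M7} (h : X ∈ O42.𝔭) (i : Fin 4) : X.toBlocks₁₂ i 2 = 0 := by
  have h1 : X * Matrix.single (Sum.inr 2) (Sum.inr 2) (1 : ℝ) = 0 := h.2.2.2.2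
  rw [p42_eq h] at h1
  exact (offd_mul_single _).mp h1 i

/-- `𝔭` of `O(4,2)` is the space of `4 × 2` matrices. -/
def p42Equiv : O42.𝔭 ≃ₗ[ℝ] Matrix (Fin 4) (Fin 2) ℝ where
  toFun X := Matrix.of fun i j => X.1.toBlocks₁₂ i j.castSucc
  invFun B := ⟨offd (ext3 B), offd_mem_p42 fun i => by simp [ext3]⟩
  map_add' X Y := rfl
  map_smul' c X := rfl
  left_inv X := by
    refine Subtype.ext ?_
    show offd (ext3 (Matrix.of fun i j => X.1.toBlocks₁₂ i j.castSucc)) = X.1
    conv_rhs => rw [p42_eq X.2]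
    congr 1
    ext i j
    unfold ext3
    rw [Matrix.of_apply]
    split_ifs with h
    · rfl
    · have : j = 2 := by
        apply Fin.ext
        have := j.2
        show j.1 = 2
        omega
      subst this
      exact (p42_col X.2 i).symm
  right_inv B := by
    ext i j
    show (offd (ext3 B)).toBlocks₁₂ i j.castSucc = B i j
    unfold offd
    rw [toBlocks_fromBlocks₁₂]
    unfold ext3
    rw [Matrix.of_apply, dif_pos (show (j.castSucc).1 < 2 from j.2)]
    rfl

lemma finrank_p42 : finrank ℝ O42.𝔭 = 8 := by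
  rw [p42Equiv.finrank_eq, Module.finrank_matrix]
  simp

lemma codim_eq : F31343.codim O43 O42 = 4 := by
  unfold F31343.codim
  rw [finrank_p43, finrank_p42]

end F31343H
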