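import Pool.Agent.Lib_MP_f31343_h.Alg

/-!
# A0, second half: the midpoint and the halving in the group
-/

open Matrix Filter Topology
open scoped Matrix.Norms.L2Operator

namespace F31343H

/-- a minimum of a quadratic form is a singular vector -/
lemma dtd_eq (D : M33) (δ : ℝ) (u : V3) (hmin : ∀ w : V3, δ * nrm w ≤ nrm (D *ᵥ w)) (hδ : 0 ≤ δ)
    (hu : nrm (D *ᵥ u) = δ * nrm u) : Dᵀ *ᵥ (D *ᵥ u) = δ ^ 2 • u := by
  set m : V3 := Dᵀ *ᵥ (D *ᵥ u) - δ ^ 2 • u with hm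
  set Q : ℝ := (D *ᵥ m) ⬝ᵥ (D *ᵥ m) - δ ^ 2 * (m ⬝ᵥ m) with hQ
  have hall : ∀ t : ℝ, 0 ≤ Q * (t * t) + (2 * (m ⬝ᵥ m)) * t + 0 := by
    intro t
    have h1 := hmin (u + t • m)
    have h2 : (δ * nrm (u + t • m)) ^ 2 ≤ nrm (D *ᵥ (u + t • m)) ^ 2 :=
      pow_le_pow_left₀ (mul_nonneg hδ (nrm_nonneg _)) h1 2
    have h3 : (D *ᵥ u) ⬝ᵥ (D *ᵥ u) = δ ^ 2 * (u ⬝ᵥ u) := by
      rw [← nrm_sq, ← nrm_sq, hu, mul_pow]
    have h4 : (D *ᵥ u) ⬝ᵥ (D *ᵥ m) = (Dᵀ *ᵥ (D *ᵥ u)) ⬝ᵥ m := by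
      rw [dotProduct_comm, dot_mulVec_left, dotProduct_comm]
    have h5 : (Dᵀ *ᵥ (D *ᵥ u)) ⬝ᵥ m = m ⬝ᵥ m + δ ^ 2 * (u ⬝ᵥ m) := by
      have : Dᵀ *ᵥ (D *ᵥ u) = m + δ ^ 2 • u := by rw [hm]; abel
      rw [this, add_dotProduct, smul_dotProduct, smul_eq_mul]
    rw [mul_pow, nrm_sq, nrm_sq, mulVec_add, mulVec_smul] at h2
    simp only [add_dotProduct, dotProduct_add, smul_dotProduct, dotProduct_smul, smul_eq_mul] at h2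
    rw [dotProduct_comm (D *ᵥ m) (D *ᵥ u), dotProduct_comm m u, h3, h4, h5] at h2
    rw [hQ]
    linarith
  have hd := discrim_le_zero hall
  have h0 : m ⬝ᵥ m = 0 := by
    unfold discrim at hd
    nlinarith [sq_nonneg (m ⬝ᵥ m)]
  have h1 : m = 0 := dotProduct_self_eq_zero.mp h0
  rw [hm, sub_eq_zero] at h1
  exact h1

lemma midpoint_of {g : M7} (hg : IsO g) (δ : ℝ) (hδ1 : 1 ≤ δ) (u : V3) (hu1 : nrm u = 1)
    (hmin : ∀ w : V3, δ * nrm w ≤ nrm (g.toBlocks₂₂ *ᵥ w)) (hu : nrm (g.toBlocks₂₂ *ᵥ u) = δ) :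
    ∃ v : V7, qf v = -1 ∧ nrm (lo v) ^ 2 = (1 + δ) / 2 ∧
      nrm (lo (g⁻¹ *ᵥ v)) ^ 2 = (1 + δ) / 2 := by
  have hδ0 : 0 < δ := by linarith
  set D := g.toBlocks₂₂ with hD
  have hdd : Dᵀ *ᵥ (D *ᵥ u) = δ ^ 2 • u :=
    dtd_eq D δ u hmin hδ0.le (by rw [hu, hu1, mul_one])
  have hDu : (D *ᵥ u) ⬝ᵥ (D *ᵥ u) = δ ^ 2 := by rw [← nrm_sq, hu]
  have huu : u ⬝ᵥ u = 1 := by rw [← nrm_sq, hu1, one_pow]
  set u' : V3 := δ⁻¹ • (D *ᵥ u) with hu'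
  have hu'u' : u' ⬝ᵥ u' = 1 := by
    rw [hu', smul_dotProduct, dotProduct_smul, hDu]
    simp only [smul_eq_mul]
    field_simp
  set a : V7 := Sum.elim (0 : V4) u' with ha
  set b : V7 := Sum.elim (0 : V4) u with hb
  set w : V7 := a + g *ᵥ b with hw
  set c : ℝ := Real.sqrt (2 + 2 * δ) with hc
  have hc2 : c ^ 2 = 2 + 2 * δ := Real.sq_sqrt (by linarith)
  have hc0 : 0 < c := Real.sqrt_pos.mpr (by linarith)
  have hlob : lo (g *ᵥ b) = D *ᵥ u := by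
    rw [lo_mulVec, hb, hi_elim, lo_elim, mulVec_zero, zero_add]
  have hqf : qf w = -(2 + 2 * δ) := by
    have h1 : qf a = -1 := by
      rw [ha, qf_elim, hu'u']; simp
    have h2 : qf (g *ᵥ b) = -1 := by
      rw [hg.qf_mulVec, hb, qf_elim, huu]; simp
    have h3 : bf a (g *ᵥ b) = -δ := by
      unfold bf
      rw [hlob, ha, hi_elim, lo_elim, hu', zero_dotProduct, smul_dotProduct, hDu]
      simp only [smul_eq_mul]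
      field_simp
      ring
    have h4 : qf w = qf a + qf (g *ᵥ b) + 2 * bf a (g *ᵥ b) := by
      rw [hw]
      unfold qf bf
      have e1 : hi (a + g *ᵥ b) = hi a + hi (g *ᵥ b) := rfl
      have e2 : lo (a + g *ᵥ b) = lo a + lo (g *ᵥ b) := rfl
      rw [e1, e2]
      simp only [add_dotProduct, dotProduct_add]
      rw [dotProduct_comm (hi (g *ᵥ b)) (hi a), dotProduct_comm (lo (g *ᵥ b)) (lo a)]
      ring
    rw [h4, h1, h2, h3]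
    ring
  have hlow : lo w = (δ⁻¹ + 1) • (D *ᵥ u) := by
    have e2 : lo w = lo a + lo (g *ᵥ b) := rfl
    rw [e2, hlob, ha, lo_elim, hu', add_smul, one_smul]
  have hlog : lo (g⁻¹ *ᵥ w) = (δ + 1) • u := by
    have e1 : g⁻¹ *ᵥ w = g⁻¹ *ᵥ a + b := by
      rw [hw, mulVec_add, mulVec_mulVec, hg.inv_mul, one_mulVec]
    have e2 : lo (g⁻¹ *ᵥ a + b) = lo (g⁻¹ *ᵥ a) + lo b := rfl
    rw [e1, e2, lo_mulVec, hg.inv22, ha, hi_elim, lo_elim, mulVec_zero, zero_add, hu', mulVec_smul,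
      hdd, hb, lo_elim, smul_smul, add_smul, one_smul]
    congr 2
    field_simp
  have hlo_smul : ∀ (t : ℝ) (x : V7), lo (t • x) = t • lo x := fun t x => rfl
  have hhi_smul : ∀ (t : ℝ) (x : V7), hi (t • x) = t • hi x := fun t x => rfl
  refine ⟨c⁻¹ • w, ?_, ?_, ?_⟩
  · have h1 : qf (c⁻¹ • w) = c⁻¹ ^ 2 * qf w := by
      unfold qf
      rw [hlo_smul, hhi_smul]
      simp only [smul_dotProduct, dotProduct_smul, smul_eq_mul]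
      ring
    rw [h1, hqf, ← hc2]
    field_simp
  · rw [hlo_smul, hlow, nrm_smul, nrm_smul, hu, mul_pow, mul_pow, sq_abs, sq_abs, inv_pow, hc2]
    field_simp
  · rw [mulVec_smul, hlo_smul, hlog, nrm_smul, nrm_smul, hu1, mul_pow, mul_pow, sq_abs, sq_abs,
      inv_pow, hc2]
    field_simp
    ring

variable {Γ : Type*} [Group Γ] {ρ : Γ →* M7}

lemma rho_inv (ρ : Γ →* M7) (γ : Γ) : (ρ γ)⁻¹ = ρ γ⁻¹ := by
  refine inv_eq_left_inv ?_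
  rw [← map_mul, inv_mul_cancel, map_one]

theorem halving_of (isO : ∀ γ, IsO (ρ γ))
    (cocompact : ∃ C : ℝ, ∀ v, qf v = -1 → ∃ γ, nrm (lo (ρ γ⁻¹ *ᵥ v)) ≤ C)
    (hdl : ∀ {g : M7}, IsO g → ∀ {v : V7}, qf v = -1 →
      dl g ≤ 2 * nrm (lo v) * nrm (lo (g *ᵥ v)))
    (hone : ∀ {g : M7}, IsO g → 1 ≤ dl g)
    (hmid : ∀ {g : M7}, IsO g → ∃ v : V7, qf v = -1 ∧ nrm (lo v) ^ 2 = (1 + dl g) / 2 ∧
      nrm (lo (g⁻¹ *ᵥ v)) ^ 2 = (1 + dl g) / 2) :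
    ∃ C : ℝ, 1 ≤ C ∧ ∀ γ, ∃ α β : Γ, γ = α * β ∧
      dl (ρ α) ≤ C * Real.sqrt (dl (ρ γ)) ∧ dl (ρ β) ≤ C * Real.sqrt (dl (ρ γ)) := by
  obtain ⟨C0, hC0⟩ := cocompact
  refine ⟨1 + 2 * |C0|, by linarith [abs_nonneg C0], ?_⟩
  intro γ
  obtain ⟨v, hv, hv1, hv2⟩ := hmid (isO γ)
  obtain ⟨h, hh⟩ := hC0 v hv
  have hδ := hone (isO γ)
  set δ := dl (ρ γ) with hδdef
  have hs : ∀ x : ℝ, 0 ≤ x → x ^ 2 = (1 + δ) / 2 → x ≤ Real.sqrt δ := by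
    intro x hx hx2
    refine Real.le_sqrt_of_sq_le ?_
    rw [hx2]
    linarith
  have hn1 := hs _ (nrm_nonneg _) hv1
  have hn2 := hs _ (nrm_nonneg _) hv2
  have hsq : 0 ≤ Real.sqrt δ := Real.sqrt_nonneg _
  have hh' : nrm (lo (ρ h⁻¹ *ᵥ v)) ≤ |C0| := hh.trans (le_abs_self _)
  refine ⟨h, h⁻¹ * γ, by group, ?_, ?_⟩
  · have h1 : qf (ρ h⁻¹ *ᵥ v) = -1 := by rw [(isO _).qf_mulVec, hv]
    have h2 := hdl (isO h) h1
    rw [mulVec_mulVec, ← map_mul, mul_inv_cancel, map_one, one_mulVec] at h2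
    refine h2.trans ?_
    have h3 : 2 * nrm (lo (ρ h⁻¹ *ᵥ v)) * nrm (lo v) ≤ 2 * |C0| * Real.sqrt δ := by
      have := nrm_nonneg (lo (ρ h⁻¹ *ᵥ v))
      have := nrm_nonneg (lo v)
      gcongr
    linarith
  · have h1 : qf (ρ γ⁻¹ *ᵥ v) = -1 := by rw [(isO _).qf_mulVec, hv]
    have h2 := hdl (isO (h⁻¹ * γ)) h1
    rw [mulVec_mulVec, ← map_mul, mul_inv_cancel_right] at h2
    refine h2.trans ?_
    rw [rho_inv] at hn2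
    have h3 : 2 * nrm (lo (ρ γ⁻¹ *ᵥ v)) * nrm (lo (ρ h⁻¹ *ᵥ v)) ≤ 2 * Real.sqrt δ * |C0| := by
      have := nrm_nonneg (lo (ρ γ⁻¹ *ᵥ v))
      have := nrm_nonneg (lo (ρ h⁻¹ *ᵥ v))
      gcongr
    linarith

end F31343H
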