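import Pool.Agent.Lib_MP_f31343_h.Alg
import Pool.Agent.Lib_MP_f31343_h.HalveB

/-!
# A0: Lemma 0, the smallest singular value, the midpoint

* `dl g` is attained (compactness of the unit sphere).
* `dl g⁻¹ = dl g`: the block `d` of `g⁻¹` is `dᵀ`, and `‖d⁻¹‖ = 1 / dl g`.
* Lemma 0: `bf (g ν) (g (0,u)) = bf ν (0,u)` reads `lo (gν)·(d u) - hi (gν)·(b u) = lo ν·u`, i.e.
  `dᵀ (lo μ) - bᵀ (hi μ) = lo ν`, `lo μ - (Sg g)ᵀ hi μ = (dᵀ)⁻¹ lo ν`.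
* then `|lo μ| - |hi μ| ≤ |lo ν| / dl g`, and `|lo μ|² - |hi μ|² = 1` gives
  `|lo μ| - |hi μ| ≥ 1 / (2 |lo μ|)`.
* midpoint: `u` a unit vector with `|d u|` minimal, then `dᵀ d u = δ² u` (for `w ⊥ u`:
  `|d(u + t w)|² ≥ δ² |u + t w|²` for all `t` gives `d u · d w = 0`); `u' = d u / δ`;
  `v = ((0,u') + g (0,u)) / √(2 + 2 δ)`.
* halving in the group: `v` for `g = ρ γ`, `h` with `|lo (ρ h⁻¹ v)| ≤ C₀`; apply `dl_le` to `h` and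
  `ν = h⁻¹ v`, and to `h⁻¹ γ` and `ν = γ⁻¹ v`.
-/

open Matrix Filter Topology
open scoped Matrix.Norms.L2Operator

namespace F31343H

lemma continuous_nrm' {n : Type*} [Fintype n] : Continuous (fun x : n → ℝ => nrm x) := by
  unfold nrm
  exact (PiLp.continuous_toLp 2 _).norm

lemma isCompact_sphere' : IsCompact {u : V3 | nrm u = 1} := by
  refine Metric.isCompact_of_isClosed_isBounded ?_ ?_
  · exact isClosed_eq continuous_nrm' continuous_const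
  · refine (Metric.isBounded_closedBall (x := (0 : V3)) (r := 1)).subset ?_
    intro u hu
    rw [mem_closedBall_zero_iff, pi_norm_le_iff_of_nonneg zero_le_one]
    intro i
    have h := abs_le_nrm u i
    have hu' : nrm u = 1 := hu
    rw [hu'] at h
    exact h

lemma exists_dl (g : M7) : ∃ u : V3, nrm u = 1 ∧ nrm (g.toBlocks₂₂ *ᵥ u) = dl g := by
  have hne : {u : V3 | nrm u = 1}.Nonempty := ⟨Pi.single 0 1, nrm_single 0⟩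
  have hc : ContinuousOn (fun u : V3 => nrm (g.toBlocks₂₂ *ᵥ u)) {u : V3 | nrm u = 1} := by
    refine Continuous.continuousOn ?_
    exact continuous_nrm'.comp (continuous_const.matrix_mulVec continuous_id)
  obtain ⟨u, hu, h⟩ := isCompact_sphere'.exists_sInf_image_eq hne hc
  exact ⟨u, hu, h.symm⟩

lemma dl_le_apply (g : M7) (u : V3) : dl g * nrm u ≤ nrm (g.toBlocks₂₂ *ᵥ u) := by
  rcases eq_or_ne (nrm u) 0 with h | h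
  · rw [h, mul_zero]
    exact nrm_nonneg _
  · have h0 : 0 < nrm u := lt_of_le_of_ne (nrm_nonneg _) (Ne.symm h)
    have h1 : nrm ((nrm u)⁻¹ • u) = 1 := by
      rw [nrm_smul, abs_of_pos (inv_pos.mpr h0), inv_mul_cancel₀ h]
    have hb : BddBelow ((fun u : V3 => nrm (g.toBlocks₂₂ *ᵥ u)) '' {u | nrm u = 1}) := by
      refine ⟨0, ?_⟩
      rintro _ ⟨w, _, rfl⟩
      exact nrm_nonneg _
    have h2 : dl g ≤ nrm (g.toBlocks₂₂ *ᵥ ((nrm u)⁻¹ • u)) := csInf_le hb ⟨_, h1, rfl⟩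
    rw [mulVec_smul, nrm_smul, abs_of_pos (inv_pos.mpr h0)] at h2
    calc dl g * nrm u ≤ ((nrm u)⁻¹ * nrm (g.toBlocks₂₂ *ᵥ u)) * nrm u :=
          mul_le_mul_of_nonneg_right h2 h0.le
      _ = nrm (g.toBlocks₂₂ *ᵥ u) := by field_simp

lemma IsO.one_le_dl {g : M7} (hg : IsO g) : 1 ≤ dl g := by
  obtain ⟨u, hu, h⟩ := exists_dl g
  rw [← h, ← hu]
  exact hg.nrm_le_d u

lemma IsO.norm_d_inv {g : M7} (hg : IsO g) : ‖(g.toBlocks₂₂)⁻¹‖ ≤ 1 / dl g := by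
  have h0 : 0 < dl g := lt_of_lt_of_le one_pos hg.one_le_dl
  refine opNorm_le (by positivity) fun x => ?_
  have h := dl_le_apply g ((g.toBlocks₂₂)⁻¹ *ᵥ x)
  rw [inv_mulVec_den hg.det_d] at h
  rw [div_mul_eq_mul_div, one_mul, le_div_iff₀ h0, mul_comm]
  exact h

lemma IsO.dl_le_dl_inv {g : M7} (hg : IsO g) : dl g ≤ dl g⁻¹ := by
  have h0 : 0 < dl g := lt_of_lt_of_le one_pos hg.one_le_dl
  obtain ⟨u, hu, h⟩ := exists_dl g⁻¹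
  rw [hg.inv22] at h
  have hD : IsUnit (g.toBlocks₂₂).det := isUnit_iff_ne_zero.mpr hg.det_d
  have h1 : ((g.toBlocks₂₂)⁻¹)ᵀ *ᵥ ((g.toBlocks₂₂)ᵀ *ᵥ u) = u := by
    rw [mulVec_mulVec, ← transpose_mul, mul_nonsing_inv _ hD, transpose_one, one_mulVec]
  have h2 := nrm_mulVec_le ((g.toBlocks₂₂)⁻¹)ᵀ ((g.toBlocks₂₂)ᵀ *ᵥ u)
  rw [h1, hu, h, opNorm_transpose] at h2
  have h3 : 0 ≤ dl g⁻¹ := le_trans zero_le_one hg.inv.one_le_dl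
  have h4 : ‖(g.toBlocks₂₂)⁻¹‖ * dl g⁻¹ ≤ 1 / dl g * dl g⁻¹ :=
    mul_le_mul_of_nonneg_right hg.norm_d_inv h3
  have h5 : 1 ≤ 1 / dl g * dl g⁻¹ := h2.trans h4
  rw [div_mul_eq_mul_div, one_mul, le_div_iff₀ h0, one_mul] at h5
  exact h5

lemma IsO.inv_inv' {g : M7} (hg : IsO g) : g⁻¹⁻¹ = g := inv_eq_left_inv hg.mul_inv

lemma IsO.dl_inv {g : M7} (hg : IsO g) : dl g⁻¹ = dl g := by
  refine le_antisymm ?_ hg.dl_le_dl_inv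
  have h := hg.inv.dl_le_dl_inv
  rwa [hg.inv_inv'] at h

lemma dl_le_norm (g : M7) : dl g ≤ ‖g‖ := by
  obtain ⟨u, hu, h⟩ := exists_dl g
  have h1 := nrm_mulVec_le g.toBlocks₂₂ u
  rw [h, hu, mul_one] at h1
  exact h1.trans (norm_block22 g)

theorem lemma0 {g : M7} (hg : IsO g) (v : V7) :
    nrm (lo (g *ᵥ v) - (Sg g)ᵀ *ᵥ hi (g *ᵥ v)) ≤ nrm (lo v) / dl g := by
  have hD : IsUnit (g.toBlocks₂₂).det := isUnit_iff_ne_zero.mpr hg.det_d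
  have h1 : lo v = -((g.toBlocks₁₂)ᵀ *ᵥ hi (g *ᵥ v)) + (g.toBlocks₂₂)ᵀ *ᵥ lo (g *ᵥ v) := by
    have e : g⁻¹ *ᵥ (g *ᵥ v) = v := by rw [mulVec_mulVec, hg.inv_mul, one_mulVec]
    have h := lo_mulVec g⁻¹ (g *ᵥ v)
    rw [e, hg.inv21, hg.inv22, neg_mulVec] at h
    exact h
  have h2 : lo (g *ᵥ v) - (Sg g)ᵀ *ᵥ hi (g *ᵥ v) = ((g.toBlocks₂₂)⁻¹)ᵀ *ᵥ lo v := by
    rw [h1, mulVec_add, mulVec_neg, mulVec_mulVec, mulVec_mulVec, ← transpose_mul,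
      ← transpose_mul, mul_nonsing_inv _ hD, transpose_one, one_mulVec]
    unfold Sg
    abel
  rw [h2]
  refine (nrm_mulVec_le _ _).trans ?_
  rw [opNorm_transpose]
  calc ‖(g.toBlocks₂₂)⁻¹‖ * nrm (lo v) ≤ 1 / dl g * nrm (lo v) :=
        mul_le_mul_of_nonneg_right hg.norm_d_inv (nrm_nonneg _)
    _ = nrm (lo v) / dl g := by ring

theorem dl_le {g : M7} (hg : IsO g) {v : V7} (hv : qf v = -1) :
    dl g ≤ 2 * nrm (lo v) * nrm (lo (g *ᵥ v)) := by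
  have h0 : 0 < dl g := lt_of_lt_of_le one_pos hg.one_le_dl
  have hl := lemma0 hg v
  have hq : qf (g *ᵥ v) = -1 := by rw [hg.qf_mulVec, hv]
  rw [qf_eq_nrm] at hq
  have hS : ‖(Sg g)ᵀ‖ ≤ 1 := by
    rw [opNorm_transpose]
    exact (isContr_iff _).mp hg.Sg_contr
  have hH : 0 ≤ nrm (hi (g *ᵥ v)) := nrm_nonneg _
  have hL : 0 ≤ nrm (lo (g *ᵥ v)) := nrm_nonneg _
  have h1 : nrm ((Sg g)ᵀ *ᵥ hi (g *ᵥ v)) ≤ nrm (hi (g *ᵥ v)) := by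
    refine (nrm_mulVec_le _ _).trans ?_
    calc ‖(Sg g)ᵀ‖ * nrm (hi (g *ᵥ v)) ≤ 1 * nrm (hi (g *ᵥ v)) :=
          mul_le_mul_of_nonneg_right hS hH
      _ = nrm (hi (g *ᵥ v)) := one_mul _
  have h2 : nrm (lo (g *ᵥ v)) ≤ nrm (lo (g *ᵥ v) - (Sg g)ᵀ *ᵥ hi (g *ᵥ v)) +
      nrm ((Sg g)ᵀ *ᵥ hi (g *ᵥ v)) := by
    have h := nrm_add_le (lo (g *ᵥ v) - (Sg g)ᵀ *ᵥ hi (g *ᵥ v)) ((Sg g)ᵀ *ᵥ hi (g *ᵥ v))
    rwa [sub_add_cancel] at h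
  have h3 : nrm (lo (g *ᵥ v)) - nrm (hi (g *ᵥ v)) ≤ nrm (lo v) / dl g := by linarith
  have h4 : nrm (hi (g *ᵥ v)) ≤ nrm (lo (g *ᵥ v)) := by nlinarith
  have h5 : 1 ≤ nrm (lo v) / dl g * (2 * nrm (lo (g *ᵥ v))) := by
    calc (1 : ℝ) = (nrm (lo (g *ᵥ v)) - nrm (hi (g *ᵥ v))) *
          (nrm (lo (g *ᵥ v)) + nrm (hi (g *ᵥ v))) := by linarith
      _ ≤ nrm (lo v) / dl g * (nrm (lo (g *ᵥ v)) + nrm (hi (g *ᵥ v))) :=
          mul_le_mul_of_nonneg_right h3 (by linarith)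
      _ ≤ nrm (lo v) / dl g * (2 * nrm (lo (g *ᵥ v))) :=
          mul_le_mul_of_nonneg_left (by linarith) (div_nonneg (nrm_nonneg _) h0.le)
  rw [div_mul_eq_mul_div, le_div_iff₀ h0, one_mul] at h5
  linarith

theorem midpoint {g : M7} (hg : IsO g) :
    ∃ v : V7, qf v = -1 ∧ nrm (lo v) ^ 2 = (1 + dl g) / 2 ∧
      nrm (lo (g⁻¹ *ᵥ v)) ^ 2 = (1 + dl g) / 2 := by
  obtain ⟨u, hu1, hu⟩ := exists_dl g
  exact midpoint_of hg (dl g) hg.one_le_dl u hu1 (dl_le_apply g) hu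

variable {Γ : Type*} [Group Γ] {ρ : Γ →* M7}

/-- finiteness: the unit vector `u` with `|d u| = dl` gives `v = (0,u)`, `lo (g v) = d u` -/
theorem Act.finite_dl (h : Act Γ ρ) (R : ℝ) : {γ | dl (ρ γ) ≤ R}.Finite := by
  refine (h.proper (max R 1)).subset ?_
  intro γ hγ
  have hγ' : dl (ρ γ) ≤ R := hγ
  obtain ⟨u, hu1, hu⟩ := exists_dl (ρ γ)
  refine ⟨Sum.elim (0 : V4) u, ?_, ?_, ?_⟩
  · rw [qf_elim, ← nrm_sq u, hu1]
    simp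
  · rw [lo_elim, hu1]
    exact le_max_right _ _
  · rw [lo_mulVec, hi_elim, lo_elim, mulVec_zero, zero_add, hu]
    exact hγ'.trans (le_max_left _ _)

theorem Act.halving (h : Act Γ ρ) : ∃ C : ℝ, 1 ≤ C ∧ ∀ γ, ∃ α β : Γ, γ = α * β ∧
    dl (ρ α) ≤ C * Real.sqrt (dl (ρ γ)) ∧ dl (ρ β) ≤ C * Real.sqrt (dl (ρ γ)) :=
  halving_of h.isO h.cocompact (fun hg _ hv => dl_le hg hv) (fun hg => hg.one_le_dl)
    (fun hg => midpoint hg)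

end F31343H
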