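import Pool.Agent.Lib_MP_f31343_h.Claim

/-!
# A3b: different points of the limit set are transverse

For `ε ≤ ‖S_α - S_β‖` there is (by `Grow.far`) a point `x` with `l x < n` on a geodesic from `α` to
`β`; `α' = x⁻¹ α`, `β' = x⁻¹ β` satisfy the hypothesis of the claim, and
`pr S_{α'} S_{β'} = J(x, S_{α'}) pr(S_α, S_β) J(x, S_{β'})` (`IsO.pr_act` with `g = ρ x`), with
`J ≤ 6 (2 K^n)^3`.
-/

open Matrix Filter Topology
open scoped Matrix.Norms.L2Operator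

namespace F31343H

variable {Γ : Type*} [Group Γ] {ρ : Γ →* M7} {l : Γ → ℕ} {c C K : ℝ}

private lemma jf_le (h : Grow Γ ρ l c C K) {x : Γ} {n : ℕ} (hx : l x ≤ n) {S : M43}
    (hS : IsContr S) : Jf (ρ x) S ≤ 6 * (2 * K ^ n) ^ 3 := by
  have hK := h.K_ge
  unfold Jf
  refine (abs_det_le _).trans ?_
  have h1 : ‖den (ρ x) S‖ ≤ 2 * K ^ n := by
    refine (norm_den_le hS).trans ?_
    have h2 : ‖ρ x‖ ≤ K ^ n := (h.bound x).trans (pow_le_pow_right₀ hK hx)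
    linarith
  exact mul_le_mul_of_nonneg_left (pow_le_pow_left₀ (norm_nonneg _) h1 3) (by norm_num)

theorem Grow.pr_lower (h : Grow Γ ρ l c C K) : ∀ ε > 0, ∃ κ > 0, ∀ α β : Γ,
    ε ≤ ‖Sg (ρ α) - Sg (ρ β)‖ → κ ≤ pr (Sg (ρ α)) (Sg (ρ β)) := by
  intro ε hε
  obtain ⟨κ, hκ, hcl⟩ := h.claim
  obtain ⟨n, hn⟩ := h.far (ε / 2) (by positivity)
  have hK := h.K_ge
  have hK0 : (0 : ℝ) < K := by linarith
  have hB : 0 < 6 * (2 * K ^ n) ^ 3 := by positivity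
  refine ⟨κ / (6 * (2 * K ^ n) ^ 3) ^ 2, by positivity, ?_⟩
  intro α β hαβ
  have hex : ∃ x, l (α⁻¹ * β) = l (α⁻¹ * x) + l (x⁻¹ * β) ∧ l x < n := by
    by_contra hcon
    push Not at hcon
    have := hn α β hcon
    linarith
  obtain ⟨x, hx, hxn⟩ := hex
  have e1 : l (x⁻¹ * α) = l (α⁻¹ * x) := by
    rw [← h.word.inv, _root_.mul_inv_rev, inv_inv]
  have e2 : (x⁻¹ * α)⁻¹ * (x⁻¹ * β) = α⁻¹ * β := by group
  have h1 := hcl (x⁻¹ * α) (x⁻¹ * β) (by rw [e2, hx, e1])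
  have hO := h.isO
  have hca := (hO (x⁻¹ * α)).Sg_contr
  have hcb := (hO (x⁻¹ * β)).Sg_contr
  have h2 := (hO x).pr_act hca hcb
  have e3 : act (ρ x) (Sg (ρ (x⁻¹ * α))) = Sg (ρ α) := by
    rw [← Sg_mul (hO x) (hO _), ← map_mul, mul_inv_cancel_left]
  have e4 : act (ρ x) (Sg (ρ (x⁻¹ * β))) = Sg (ρ β) := by
    rw [← Sg_mul (hO x) (hO _), ← map_mul, mul_inv_cancel_left]
  rw [e3, e4] at h2
  have j1 := jf_le h hxn.le hca
  have j2 := jf_le h hxn.le hcb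
  have j3 := (hO x).Jf_pos hca
  have j4 := (hO x).Jf_pos hcb
  have p0 : 0 ≤ pr (Sg (ρ α)) (Sg (ρ β)) := abs_nonneg _
  rw [div_le_iff₀ (by positivity)]
  have h3 : Jf (ρ x) (Sg (ρ (x⁻¹ * α))) * Jf (ρ x) (Sg (ρ (x⁻¹ * β))) ≤
      (6 * (2 * K ^ n) ^ 3) ^ 2 := by
    rw [pow_two]
    exact mul_le_mul j1 j2 j4.le hB.le
  calc κ ≤ pr (Sg (ρ (x⁻¹ * α))) (Sg (ρ (x⁻¹ * β))) := h1
    _ = pr (Sg (ρ α)) (Sg (ρ β)) *
        (Jf (ρ x) (Sg (ρ (x⁻¹ * α))) * Jf (ρ x) (Sg (ρ (x⁻¹ * β)))) := by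
      rw [← h2]
      ring
    _ ≤ pr (Sg (ρ α)) (Sg (ρ β)) * (6 * (2 * K ^ n) ^ 3) ^ 2 :=
      mul_le_mul_of_nonneg_left h3 p0

/-- A point of the limit set is the limit of a sequence. -/
lemma exists_seq_of_limSet {S : M43} (hS : S ∈ limSet ρ l) :
    ∃ a : ℕ → Γ, (∀ n, n ≤ l (a n)) ∧ Tendsto (fun n => Sg (ρ (a n))) atTop (𝓝 S) := by
  choose a ha using fun n : ℕ => hS (1 / ((n : ℝ) + 1)) (by positivity) n
  refine ⟨a, fun n => (ha n).1, ?_⟩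
  refine tendsto_iff_norm_sub_tendsto_zero.2 ?_
  refine squeeze_zero (fun n => norm_nonneg _) (fun n => (ha n).2.le) ?_
  exact tendsto_one_div_add_atTop_nhds_zero_nat

lemma isClosed_contr : IsClosed {S : M43 | IsContr S} := by
  have : {S : M43 | IsContr S} = {S : M43 | ‖S‖ ≤ 1} := by
    ext S
    exact isContr_iff S
  rw [this]
  exact isClosed_le continuous_norm continuous_const

lemma continuous_pr : Continuous (fun p : M43 × M43 => pr p.1 p.2) := by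
  unfold pr
  refine continuous_abs.comp ?_
  refine Continuous.matrix_det ?_
  refine continuous_const.sub ?_
  exact (Continuous.matrix_transpose continuous_fst).matrix_mul continuous_snd

lemma tendsto_pr {ι : Type*} {F : Filter ι} {f g : ι → M43} {S S' : M43}
    (hf : Tendsto f F (𝓝 S)) (hg : Tendsto g F (𝓝 S')) :
    Tendsto (fun n => pr (f n) (g n)) F (𝓝 (pr S S')) := by
  have h := (continuous_pr.tendsto (S, S')).comp (hf.prodMk_nhds hg)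
  exact h

theorem Grow.transv (h : Grow Γ ρ l c C K) : ∀ S ∈ limSet ρ l, ∀ S' ∈ limSet ρ l, S ≠ S' →
    (1 - Sᵀ * S').det ≠ 0 := by
  intro S hS S' hS' hne
  have hpos : 0 < ‖S - S'‖ := norm_pos_iff.2 (sub_ne_zero.2 hne)
  obtain ⟨κ, hκ, hpr⟩ := h.pr_lower (‖S - S'‖ / 2) (by positivity)
  obtain ⟨a, -, ha⟩ := exists_seq_of_limSet hS
  obtain ⟨b, -, hb⟩ := exists_seq_of_limSet hS'
  have hlt : ‖S - S'‖ / 2 < ‖S - S'‖ := by linarith
  have hd : ∀ᶠ n in atTop, ‖S - S'‖ / 2 < ‖Sg (ρ (a n)) - Sg (ρ (b n))‖ := by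
    have h1 : Tendsto (fun n => ‖Sg (ρ (a n)) - Sg (ρ (b n))‖) atTop (𝓝 ‖S - S'‖) :=
      (ha.sub hb).norm
    exact h1.eventually (lt_mem_nhds hlt)
  have h2 : ∀ᶠ n in atTop, κ ≤ pr (Sg (ρ (a n))) (Sg (ρ (b n))) := by
    filter_upwards [hd] with n hn
    exact hpr (a n) (b n) hn.le
  have h4 : κ ≤ pr S S' := ge_of_tendsto (tendsto_pr ha hb) h2
  have h5 : pr S S' = |(1 - Sᵀ * S').det| := rfl
  intro h0
  rw [h5, h0, abs_zero] at h4
  linarith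

end F31343H
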