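import Pool.Agent.Lib_MP_f31343_h.Defs

/-!
# The sign of `(x - x') · (Y - Y')` is constant along a continuous section
-/

open Matrix Filter Topology
open scoped Matrix.Norms.L2Operator

namespace F31343H

/-- the pairing along a section is nonzero away from the diagonal, hence has a constant sign -/
theorem sign_sec {L : Set (V3 × V3)} {s : V3 → V3 × V3} (hs : Continuous s) (hL : ∀ a, s a ∈ L)
    (hG : ∀ a, Gm (s a) = a)
    (hne : ∀ p ∈ L, ∀ p' ∈ L, p ≠ p' → (p.1 - p'.1) ⬝ᵥ (p.2 - p'.2) ≠ 0) :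
    ∃ σ : ℝ, (σ = 1 ∨ σ = -1) ∧
      ∀ a b, a ≠ b → 0 < σ * (((s a).1 - (s b).1) ⬝ᵥ ((s a).2 - (s b).2)) := by
  have hinj : ∀ a b, a ≠ b → s a ≠ s b := by
    intro a b hab h
    apply hab
    rw [← hG a, ← hG b, h]
  -- the connected set of pairs `(w, a)`, `a ≠ 0`
  set D : Set (V3 × V3) := Set.univ ×ˢ {0}ᶜ with hD
  have hconn : IsConnected D := by
    apply isConnected_univ.prod
    apply isConnected_compl_singleton_of_one_lt_rank
    rw [rank_fin_fun]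
    norm_num
  set f : V3 × V3 → ℝ := fun q =>
    ((s (q.1 + q.2)).1 - (s q.1).1) ⬝ᵥ ((s (q.1 + q.2)).2 - (s q.1).2) with hf
  have hfc : Continuous f := by
    apply Continuous.dotProduct <;> fun_prop
  have hf0 : ∀ q ∈ D, f q ≠ 0 := by
    intro q hq
    apply hne _ (hL _) _ (hL _)
    apply hinj
    intro h
    apply hq.2
    simpa using h
  have hall : ∀ q ∈ D, ∀ q' ∈ D, 0 < f q → 0 < f q' := by
    intro q hq q' hq' h
    by_contra hcon
    obtain ⟨z, hz, hz0⟩ := hconn.isPreconnected.intermediate_value hq' hq hfc.continuousOn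
      (show (0 : ℝ) ∈ Set.Icc (f q') (f q) from ⟨not_lt.mp hcon, h.le⟩)
    exact hf0 z hz hz0
  have hab : ∀ a b : V3, a ≠ b → ((b, a - b) : V3 × V3) ∈ D ∧
      f (b, a - b) = ((s a).1 - (s b).1) ⬝ᵥ ((s a).2 - (s b).2) := by
    intro a b h
    refine ⟨⟨Set.mem_univ _, sub_ne_zero.mpr h⟩, ?_⟩
    simp only [hf]
    rw [add_sub_cancel]
  obtain ⟨q0, hq0⟩ := hconn.nonempty
  rcases lt_or_gt_of_ne (hf0 q0 hq0) with h | h
  · refine ⟨-1, Or.inr rfl, ?_⟩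
    intro a b hne'
    obtain ⟨h1, h2⟩ := hab a b hne'
    rw [← h2]
    have h3 : f (b, a - b) < 0 := by
      rcases lt_or_gt_of_ne (hf0 _ h1) with h4 | h4
      · exact h4
      · exact absurd (hall _ h1 _ hq0 h4) (not_lt.mpr h.le)
    linarith
  · refine ⟨1, Or.inl rfl, ?_⟩
    intro a b hne'
    obtain ⟨h1, h2⟩ := hab a b hne'
    rw [← h2, one_mul]
    exact hall _ hq0 _ h1 h

/-- the inequality for `z = x + σ Y` -/
theorem z_ineq {p p' : V3 × V3} {σ : ℝ} (hσ : σ = 1 ∨ σ = -1)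
    (h : 0 ≤ σ * ((p.1 - p'.1) ⬝ᵥ (p.2 - p'.2))) :
    nrm (p.1 - p'.1) ^ 2 + nrm (p.2 - p'.2) ^ 2 ≤
      nrm ((p.1 + σ • p.2) - (p'.1 + σ • p'.2)) ^ 2 := by
  have e : (p.1 + σ • p.2) - (p'.1 + σ • p'.2) = (p.1 - p'.1) + σ • (p.2 - p'.2) := by
    rw [smul_sub]; abel
  rw [e, nrm_sq, nrm_sq, nrm_sq]
  have hσ2 : σ * σ = 1 := by rcases hσ with rfl | rfl <;> norm_num
  set x := p.1 - p'.1
  set y := p.2 - p'.2
  have : (x + σ • y) ⬝ᵥ (x + σ • y) = x ⬝ᵥ x + 2 * (σ * (x ⬝ᵥ y)) + y ⬝ᵥ y := by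
    rw [dotProduct_add, add_dotProduct, add_dotProduct, smul_dotProduct, dotProduct_smul,
      smul_dotProduct, dotProduct_smul, dotProduct_comm y x]
    simp only [smul_eq_mul]
    linear_combination (y ⬝ᵥ y) * hσ2
  rw [this]
  linarith

/-- both together -/
theorem ChartData.sign {L : Set (V3 × V3)} (hL : ChartData L) :
    ∃ (s : V3 → V3 × V3) (σ : ℝ), Continuous s ∧ (∀ a, s a ∈ L) ∧ (∀ a, Gm (s a) = a) ∧
      (σ = 1 ∨ σ = -1) ∧
      (∀ a b, a ≠ b → 0 < σ * (((s a).1 - (s b).1) ⬝ᵥ ((s a).2 - (s b).2))) ∧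
      (∀ a b, nrm ((s a).1 - (s b).1) ^ 2 + nrm ((s a).2 - (s b).2) ^ 2 ≤
        nrm (((s a).1 + σ • (s a).2) - ((s b).1 + σ • (s b).2)) ^ 2) := by
  obtain ⟨s, hs, hsL, hG⟩ := hL.sec
  obtain ⟨σ, hσ, hpos⟩ := sign_sec hs hsL hG hL.ne
  refine ⟨s, σ, hs, hsL, hG, hσ, hpos, fun a b => z_ineq hσ ?_⟩
  by_cases h : a = b
  · subst h; simp
  · exact (hpos a b h).le

end F31343H
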