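import Pool.Agent.Lib_MP_f31343_h.Defs
import Pool.Agent.Lib_MP_f31343_h.Sign

/-!
# MP_f31343_gt, `H^{4,2}`: the volume argument (Step 6)
-/

set_option autoImplicit false

namespace F31343H

open MeasureTheory Metric Set Matrix

abbrev E3 := EuclideanSpace ℝ (Fin 3)

/-- Covering argument: a map `G` which on arbitrarily small balls (for the coordinate `z`) has image
of volume `≤ ε ρ ^ 3` has an image of volume zero. -/
theorem cover_null {ι : Type*} (z G : ι → E3)
    (h : ∀ p0 : ι, ∀ ε > 0, ∃ ρ : ℝ, 0 < ρ ∧ ρ < 1 ∧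
      volume (G '' {p | dist (z p) (z p0) ≤ ρ}) ≤ ENNReal.ofReal (ε * ρ ^ 3)) :
    volume (range G) = 0 := by
  have hfin : Module.finrank ℝ E3 = 3 := by simp
  have key : ∀ M : ℝ, 0 ≤ M → volume (G '' {p | ‖z p‖ ≤ M}) = 0 := by
    intro M hM
    set c : ENNReal := volume (ball (0 : E3) 1) with hc
    have hc0 : c ≠ 0 := (measure_ball_pos volume 0 one_pos).ne'
    have hct : c ≠ ⊤ := measure_ball_lt_top.ne
    set V : ENNReal := volume (closedBall (0 : E3) (M + 1)) with hV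
    have hVt : V ≠ ⊤ := measure_closedBall_lt_top.ne
    have main : ∀ ε : ℝ, 0 < ε → volume (G '' {p | ‖z p‖ ≤ M}) ≤
        ENNReal.ofReal (125 * ε) * (V / c) := by
      intro ε hε
      choose ρ hρ0 hρ1 hρ using fun p0 => h p0 ε hε
      obtain ⟨u, hut, hdis, hcov⟩ := Vitali.exists_disjoint_subfamily_covering_enlargement_closedBall
        {p : ι | ‖z p‖ ≤ M} z (fun p => ρ p / 5) 1 (fun a _ => by linarith [hρ1 a]) 5 (by norm_num)
      have hucount : u.Countable := by
        refine hdis.countable_of_nonempty_interior ?_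
        intro a _
        have : (ball (z a) (ρ a / 5)) ⊆ interior (closedBall (z a) (ρ a / 5)) :=
          ball_subset_interior_closedBall
        exact (nonempty_ball.mpr (by linarith [hρ0 a])).mono this
      have hsub : G '' {p | ‖z p‖ ≤ M} ⊆ ⋃ b ∈ u, G '' {p | dist (z p) (z b) ≤ ρ b} := by
        rintro _ ⟨p, hp, rfl⟩
        obtain ⟨b, hb, hpb⟩ := hcov p hp
        rw [mem_iUnion₂]
        refine ⟨b, hb, p, ?_, rfl⟩
        have : z p ∈ closedBall (z b) (5 * (ρ b / 5)) :=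
          hpb (mem_closedBall_self (by linarith [hρ0 p]))
        rw [mem_closedBall] at this
        simpa [mul_div_cancel₀] using (show dist (z p) (z b) ≤ ρ b by linarith)
      have hvb : ∀ b, ENNReal.ofReal (ε * ρ b ^ 3) =
          ENNReal.ofReal (125 * ε) * (volume (closedBall (z b) (ρ b / 5)) / c) := by
        intro b
        rw [Measure.addHaar_closedBall volume (z b) (by linarith [hρ0 b]), hfin, ← hc,
          mul_div_assoc]
        rw [ENNReal.div_self hc0 hct, mul_one, ← ENNReal.ofReal_mul (by positivity)]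
        congr 1
        ring
      calc volume (G '' {p | ‖z p‖ ≤ M})
          ≤ volume (⋃ b ∈ u, G '' {p | dist (z p) (z b) ≤ ρ b}) := measure_mono hsub
        _ ≤ ∑' b : u, volume (G '' {p | dist (z p) (z b) ≤ ρ b}) := measure_biUnion_le _ hucount _
        _ ≤ ∑' b : u, ENNReal.ofReal (125 * ε) * (volume (closedBall (z b) (ρ b / 5)) / c) := by
            refine ENNReal.tsum_le_tsum fun b => ?_
            rw [← hvb]
            exact hρ b
        _ = ENNReal.ofReal (125 * ε) * ((∑' b : u, volume (closedBall (z b) (ρ b / 5))) / c) := by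
            rw [ENNReal.tsum_mul_left]
            congr 1
            simp only [div_eq_mul_inv]
            rw [ENNReal.tsum_mul_right]
        _ ≤ ENNReal.ofReal (125 * ε) * (V / c) := by
            gcongr
            rw [← measure_biUnion hucount hdis (fun b _ => isClosed_closedBall.measurableSet)]
            refine measure_mono ?_
            refine iUnion₂_subset fun b hb => ?_
            refine closedBall_subset_closedBall' ?_
            have h1 : ‖z b‖ ≤ M := hut hb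
            rw [dist_zero_right]
            linarith [hρ1 b, hρ0 b]
    refine le_antisymm ?_ zero_le
    have hlim : Filter.Tendsto (fun ε : ℝ => ENNReal.ofReal (125 * ε) * (V / c))
        (nhdsWithin 0 (Ioi 0)) (nhds (ENNReal.ofReal (125 * 0) * (V / c))) := by
      refine ENNReal.Tendsto.mul_const ?_ (Or.inr (ENNReal.div_lt_top hVt hc0).ne)
      refine (ENNReal.continuous_ofReal.tendsto _).comp ?_
      exact ((continuous_const.mul continuous_id).tendsto 0).mono_left nhdsWithin_le_nhds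
    simp only [mul_zero, ENNReal.ofReal_zero, zero_mul] at hlim
    exact ge_of_tendsto hlim (by
      filter_upwards [self_mem_nhdsWithin] with ε hε
      exact main ε hε)
  have hU : range G = ⋃ n : ℕ, G '' {p | ‖z p‖ ≤ n} := by
    ext y
    simp only [mem_range, mem_iUnion, mem_image, mem_ofPred_eq]
    constructor
    · rintro ⟨p, rfl⟩
      obtain ⟨n, hn⟩ := exists_nat_ge ‖z p‖
      exact ⟨n, p, hn, rfl⟩
    · rintro ⟨n, p, _, hp⟩
      exact ⟨p, hp⟩
  rw [hU]
  exact measure_iUnion_null fun n => key n (Nat.cast_nonneg n)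

/-- The volume of a slab in a ball. -/
theorem slab (n : E3) (hn : ‖n‖ = 1) (a : E3) (η R : ℝ) (hη : 0 ≤ η) (hR : 0 ≤ R) :
    volume {y : E3 | |inner ℝ n (y - a)| ≤ η ∧ ‖y - a‖ ≤ R} ≤ ENNReal.ofReal (8 * η * R ^ 2) := by
  have hon : Orthonormal ℝ (({0} : Set (Fin 3)).domRestrict fun _ => n) := by
    refine ⟨fun i => hn, ?_⟩
    intro i j hij
    exact absurd (Subsingleton.elim i j) hij
  obtain ⟨b, hb⟩ := hon.exists_orthonormalBasis_extension_of_card_eq (ι := Fin 3) (by simp)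
  have hb0 : b 0 = n := hb 0 rfl
  have hmp : MeasurePreserving (fun y : E3 => (WithLp.ofLp (b.repr (y - a)) : Fin 3 → ℝ)) := by
    refine (PiLp.volume_preserving_ofLp (Fin 3)).comp ?_
    exact b.measurePreserving_repr.comp (measurePreserving_sub_right volume a)
  set L : Fin 3 → ℝ := ![η, R, R] with hL
  have hsub : {y : E3 | |inner ℝ n (y - a)| ≤ η ∧ ‖y - a‖ ≤ R} ⊆
      (fun y : E3 => (WithLp.ofLp (b.repr (y - a)) : Fin 3 → ℝ)) ⁻¹' (Icc (-L) L) := by
    rintro y ⟨h1, h2⟩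
    have h3 : ∀ i, |b.repr (y - a) i| ≤ R := by
      intro i
      rw [b.repr_apply_apply]
      refine (abs_real_inner_le_norm _ _).trans ?_
      rw [b.norm_eq_one, one_mul]
      exact h2
    have h4 : |b.repr (y - a) 0| ≤ η := by
      rw [b.repr_apply_apply, hb0]
      exact h1
    rw [mem_preimage, mem_Icc]
    constructor
    · intro i
      fin_cases i
      · exact (abs_le.mp h4).1
      · exact (abs_le.mp (h3 1)).1
      · exact (abs_le.mp (h3 2)).1
    · intro i
      fin_cases i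
      · exact (abs_le.mp h4).2
      · exact (abs_le.mp (h3 1)).2
      · exact (abs_le.mp (h3 2)).2
  refine (measure_mono hsub).trans ?_
  rw [hmp.measure_preimage measurableSet_Icc.nullMeasurableSet, Real.volume_Icc_pi,
    Fin.prod_univ_three, ← ENNReal.ofReal_mul (by simp [hL]; linarith),
    ← ENNReal.ofReal_mul (by simp [hL]; positivity)]
  refine ENNReal.ofReal_le_ofReal (le_of_eq ?_)
  simp [hL]
  ring

/-- there is a unit vector orthogonal to two given vectors -/
theorem exists_normal (v w : E3) : ∃ n : E3, ‖n‖ = 1 ∧ inner ℝ n v = 0 ∧ inner ℝ n w = 0 := by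
  classical
  have h1 : Module.finrank ℝ (Submodule.span ℝ ({v, w} : Set E3)) ≤ 2 := by
    have := finrank_span_finset_le_card (R := ℝ) ({v, w} : Finset E3)
    simp only [Finset.coe_insert, Finset.coe_singleton] at this
    exact this.trans (Finset.card_insert_le _ _)
  have h2 : Module.finrank ℝ E3 = 3 := by simp
  have h3 := Submodule.finrank_add_finrank_orthogonal (Submodule.span ℝ ({v, w} : Set E3))
  have h4 : 0 < Module.finrank ℝ (Submodule.span ℝ ({v, w} : Set E3))ᗮ := by omega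
  obtain ⟨n, hn⟩ := Module.finrank_pos_iff_exists_ne_zero.mp h4
  have hn0 : (n : E3) ≠ 0 := fun h => hn (Subtype.ext h)
  have hv : inner ℝ (n : E3) v = 0 :=
    Submodule.inner_left_of_mem_orthogonal (Submodule.subset_span (by simp)) n.2
  have hw : inner ℝ (n : E3) w = 0 :=
    Submodule.inner_left_of_mem_orthogonal (Submodule.subset_span (by simp)) n.2
  refine ⟨(‖(n : E3)‖⁻¹ : ℝ) • (n : E3), ?_, ?_, ?_⟩
  · rw [norm_smul, norm_inv, norm_norm, inv_mul_cancel₀ (norm_ne_zero_iff.mpr hn0)]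
  · rw [inner_smul_left, hv, mul_zero]
  · rw [inner_smul_left, hw, mul_zero]

/-- the decomposition of `Gm p - Gm p₀` -/
theorem Gm_sub (p₀ p : V3 × V3) (κ : V3) (hκ : κ ⬝ᵥ κ = 1) :
    Gm p - Gm p₀ = ((p.1 - p₀.1) 0) • ![1, -(p₀.1 1) / 2, -(p₀.1 2) / 2] +
      (Yt p₀ p ⬝ᵥ κ) • ![0, κ 2 / 2, -(κ 1) / 2] +
      ![0, -((p.1 - p₀.1) 0 * (p.1 - p₀.1) 1) / 4 + (κ ⨯₃ (Yt p₀ p ⨯₃ κ)) 2 / 2,
        -((p.1 - p₀.1) 0 * (p.1 - p₀.1) 2) / 4 - (κ ⨯₃ (Yt p₀ p ⨯₃ κ)) 1 / 2] := by
  have h2 : (Yt p₀ p) 2 = 2 * (p.2 2 - p₀.2 2) -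
      (p₀.1 0 * (p.1 1 - p₀.1 1) - p₀.1 1 * (p.1 0 - p₀.1 0)) / 2 := by
    simp [Yt, crossProduct]
    ring
  have h1 : (Yt p₀ p) 1 = 2 * (p.2 1 - p₀.2 1) -
      (p₀.1 2 * (p.1 0 - p₀.1 0) - p₀.1 0 * (p.1 2 - p₀.1 2)) / 2 := by
    simp [Yt, crossProduct]
    ring
  generalize Yt p₀ p = T at h1 h2 ⊢
  simp only [dotProduct, Fin.sum_univ_three] at hκ ⊢
  ext i
  fin_cases i
  · simp [Gm]
  · simp [Gm, crossProduct]
    linear_combination (-(T 2) / 2) * hκ - h2 / 2
  · simp [Gm, crossProduct]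
    linear_combination ((T 1) / 2) * hκ + h1 / 2

theorem nrm_cross_le (a b : V3) : nrm (a ⨯₃ b) ≤ nrm a * nrm b := by
  refine abs_le_of_sq_le_sq' ?_ (mul_nonneg (nrm_nonneg _) (nrm_nonneg _)) |>.2
  rw [mul_pow, nrm_sq, nrm_sq, nrm_sq, cross_dot_cross, dotProduct_comm b a]
  nlinarith [sq_nonneg (a ⬝ᵥ b)]

theorem abs_apply_le (a : V3) (i : Fin 3) : |a i| ≤ nrm a := by
  refine abs_le_of_sq_le_sq' ?_ (nrm_nonneg _) |> abs_le.mpr
  rw [nrm_sq, dotProduct, Fin.sum_univ_three]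
  fin_cases i <;> simp <;> nlinarith [sq_nonneg (a 0), sq_nonneg (a 1), sq_nonneg (a 2)]

theorem nrm_le_sum (a : V3) : nrm a ≤ |a 0| + |a 1| + |a 2| := by
  refine abs_le_of_sq_le_sq' ?_ (by positivity) |>.2
  rw [nrm_sq, dotProduct, Fin.sum_univ_three]
  have h0 := sq_abs (a 0)
  have h1 := sq_abs (a 1)
  have h2 := sq_abs (a 2)
  nlinarith [mul_nonneg (abs_nonneg (a 0)) (abs_nonneg (a 1)),
    mul_nonneg (abs_nonneg (a 0)) (abs_nonneg (a 2)),
    mul_nonneg (abs_nonneg (a 1)) (abs_nonneg (a 2))]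

/-- The volume of the image of a small ball. -/
theorem vol_step (p₀ : V3 × V3) (C : ℝ) (hC : 0 ≤ C) : ∃ B : ℝ, 0 < B ∧ ∀ (ε r : ℝ) (κ : V3),
    0 < ε → ε ≤ 1 → 0 < r → r < ε → nrm κ = 1 → ∀ S : Set (V3 × V3),
    (∀ p ∈ S, nrm (p.1 - p₀.1) ≤ r ∧ nrm (p.2 - p₀.2) ≤ r ∧
      nrm (Yt p₀ p ⨯₃ κ) ≤ C * r * ε) →
    volume ((fun p => (WithLp.toLp 2 (Gm p) : E3)) '' S) ≤ ENNReal.ofReal (B * ε * r ^ 3) := by
  set v : V3 := ![1, -(p₀.1 1) / 2, -(p₀.1 2) / 2] with hv
  set A : ℝ := nrm v + 2 + nrm p₀.1 / 2 + (1 / 2 + C) with hA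
  have hA0 : 0 < A := by
    have := nrm_nonneg v
    have := nrm_nonneg p₀.1
    positivity
  refine ⟨8 * (1 / 2 + C) * A ^ 2, by positivity, ?_⟩
  intro ε r κ hε hε1 hr hrε hκ S hS
  have hκ2 : κ ⬝ᵥ κ = 1 := by rw [← nrm_sq, hκ, one_pow]
  set w : V3 := ![0, κ 2 / 2, -(κ 1) / 2] with hw
  obtain ⟨n, hn1, hnv, hnw⟩ := exists_normal (WithLp.toLp 2 v) (WithLp.toLp 2 w)
  set η : ℝ := (1 / 2 + C) * r * ε with hη
  have hη0 : 0 ≤ η := by positivity
  have hsub : (fun p => (WithLp.toLp 2 (Gm p) : E3)) '' S ⊆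
      {y : E3 | |inner ℝ n (y - WithLp.toLp 2 (Gm p₀))| ≤ η ∧
        ‖y - WithLp.toLp 2 (Gm p₀)‖ ≤ A * r} := by
    rintro _ ⟨p, hp, rfl⟩
    obtain ⟨h1, h2, h3⟩ := hS p hp
    set d : V3 := p.1 - p₀.1 with hd
    set T : V3 := Yt p₀ p with hT
    set u : V3 := κ ⨯₃ (T ⨯₃ κ) with hu
    set e : V3 := ![0, -(d 0 * d 1) / 4 + u 2 / 2, -(d 0 * d 2) / 4 - u 1 / 2] with he
    have hdec : Gm p - Gm p₀ = d 0 • v + (T ⬝ᵥ κ) • w + e := Gm_sub p₀ p κ hκ2
    have hun : nrm u ≤ C * r * ε := by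
      refine (nrm_cross_le _ _).trans ?_
      rw [hκ, one_mul]
      exact h3
    have hdd : ∀ i j, |d i * d j| ≤ r * ε := by
      intro i j
      rw [abs_mul]
      have hi := (abs_apply_le d i).trans h1
      have hj := (abs_apply_le d j).trans h1
      exact mul_le_mul hi (hj.trans hrε.le) (abs_nonneg _) hr.le
    have hen : nrm e ≤ η := by
      refine (nrm_le_sum e).trans ?_
      have h01 := abs_le.mp (hdd 0 1)
      have h02 := abs_le.mp (hdd 0 2)
      have hu1 := abs_le.mp ((abs_apply_le u 1).trans hun)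
      have hu2 := abs_le.mp ((abs_apply_le u 2).trans hun)
      have e1 : |e 1| ≤ r * ε / 4 + C * r * ε / 2 := by
        simp only [he]
        refine abs_le.mpr ⟨?_, ?_⟩ <;> simp <;> linarith [h01.1, h01.2, hu2.1, hu2.2]
      have e2 : |e 2| ≤ r * ε / 4 + C * r * ε / 2 := by
        simp only [he]
        refine abs_le.mpr ⟨?_, ?_⟩ <;> simp <;> linarith [h02.1, h02.2, hu1.1, hu1.2]
      have e0 : |e 0| = 0 := by simp [he]
      rw [e0, hη]
      linarith
    have hTn : nrm T ≤ (2 + nrm p₀.1 / 2) * r := by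
      rw [hT, Yt]
      refine (nrm_sub_le _ _).trans ?_
      rw [nrm_smul, nrm_smul]
      have := (nrm_cross_le p₀.1 d).trans (mul_le_mul_of_nonneg_left h1 (nrm_nonneg _))
      rw [abs_of_pos (by norm_num : (0 : ℝ) < 2), abs_of_pos (by norm_num : (0 : ℝ) < 1 / 2)]
      linarith
    have hwn : nrm w ≤ 1 := by
      refine (nrm_le_sum w).trans ?_
      have k1 := abs_le.mp ((abs_apply_le κ 1).trans hκ.le)
      have k2 := abs_le.mp ((abs_apply_le κ 2).trans hκ.le)
      have w0 : |w 0| = 0 := by simp [hw]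
      have w1 : |w 1| ≤ 1 / 2 := by
        simp only [hw]
        refine abs_le.mpr ⟨?_, ?_⟩ <;> simp <;> linarith [k2.1, k2.2]
      have w2 : |w 2| ≤ 1 / 2 := by
        simp only [hw]
        refine abs_le.mpr ⟨?_, ?_⟩ <;> simp <;> linarith [k1.1, k1.2]
      linarith
    have hE : (WithLp.toLp 2 (Gm p) : E3) - WithLp.toLp 2 (Gm p₀) =
        d 0 • WithLp.toLp 2 v + (T ⬝ᵥ κ) • WithLp.toLp 2 w + WithLp.toLp 2 e := by
      rw [← WithLp.toLp_sub, hdec]
      simp
    constructor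
    · simp only
      rw [hE, inner_add_right, inner_add_right, inner_smul_right, inner_smul_right, hnv, hnw]
      simp only [mul_zero, zero_add]
      refine (abs_real_inner_le_norm _ _).trans ?_
      rw [hn1, one_mul]
      exact hen
    · simp only
      rw [hE]
      refine (norm_add_le _ _).trans ?_
      refine (add_le_add (norm_add_le _ _) le_rfl).trans ?_
      rw [norm_smul, norm_smul, Real.norm_eq_abs, Real.norm_eq_abs]
      change |d 0| * nrm v + |T ⬝ᵥ κ| * nrm w + nrm e ≤ A * r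
      have t1 : |d 0| * nrm v ≤ r * nrm v :=
        mul_le_mul_of_nonneg_right ((abs_apply_le d 0).trans h1) (nrm_nonneg _)
      have t2 : |T ⬝ᵥ κ| * nrm w ≤ (2 + nrm p₀.1 / 2) * r := by
        have := (abs_dot_le T κ).trans (by rw [hκ, mul_one])
        calc |T ⬝ᵥ κ| * nrm w ≤ nrm T * 1 := mul_le_mul this hwn (nrm_nonneg _) (nrm_nonneg _)
          _ ≤ _ := by rw [mul_one]; exact hTn
      have t3 : nrm e ≤ (1 / 2 + C) * r := by
        refine hen.trans ?_
        rw [hη]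
        have : (1 / 2 + C) * r * ε ≤ (1 / 2 + C) * r * 1 :=
          mul_le_mul_of_nonneg_left hε1 (by positivity)
        linarith
      rw [hA]
      linarith
  refine (measure_mono hsub).trans ((slab n hn1 _ η (A * r) hη0 (by positivity)).trans ?_)
  refine ENNReal.ofReal_le_ofReal (le_of_eq ?_)
  rw [hη]
  ring

/-- No section with constant sign. -/
theorem no_section (s : V3 → V3 × V3) (hG : ∀ a, Gm (s a) = a) (σ : ℝ) (hσ : σ = 1 ∨ σ = -1)
    (hz : ∀ a b, 0 ≤ σ * (((s a).1 - (s b).1) ⬝ᵥ ((s a).2 - (s b).2)))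
    (hdyn : ∀ a, ∃ C : ℝ, ∀ ε > 0, ∃ r > 0, r < ε ∧ ∃ κ : V3, nrm κ = 1 ∧
      ∀ b, nrm ((s b).1 - (s a).1) ≤ r → nrm (Yt (s a) (s b) ⨯₃ κ) ≤ C * r * ε) : False := by
  set z : V3 → E3 := fun a => WithLp.toLp 2 ((s a).1 + σ • (s a).2) with hzdef
  have hzz : ∀ a b : V3, nrm ((s b).1 - (s a).1) ≤ dist (z b) (z a) ∧
      nrm ((s b).2 - (s a).2) ≤ dist (z b) (z a) := by
    intro a b
    have h1 : dist (z b) (z a) = nrm (((s b).1 - (s a).1) + σ • ((s b).2 - (s a).2)) := by
      rw [dist_eq_norm, hzdef]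
      simp only
      rw [← WithLp.toLp_sub, nrm]
      congr 2
      rw [smul_sub]
      abel
    have hσ2 : σ * σ = 1 := by rcases hσ with h | h <;> rw [h] <;> norm_num
    set x := (s b).1 - (s a).1 with hx
    set y := (s b).2 - (s a).2 with hy
    have h2 : dist (z b) (z a) ^ 2 = x ⬝ᵥ x + y ⬝ᵥ y + 2 * (σ * (x ⬝ᵥ y)) := by
      rw [h1, nrm_sq, add_dotProduct, dotProduct_add, dotProduct_add, smul_dotProduct,
        dotProduct_smul, smul_dotProduct, dotProduct_smul, dotProduct_comm y x]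
      simp only [smul_eq_mul]
      linear_combination (y ⬝ᵥ y) * hσ2
    have h3 := hz b a
    rw [← hx, ← hy] at h3
    have hx2 := nrm_sq x
    have hy2 := nrm_sq y
    constructor
    · refine abs_le_of_sq_le_sq' ?_ dist_nonneg |>.2
      nlinarith [sq_nonneg (nrm y)]
    · refine abs_le_of_sq_le_sq' ?_ dist_nonneg |>.2
      nlinarith [sq_nonneg (nrm x)]
  have hnull := cover_null z (fun a => (WithLp.toLp 2 a : E3)) (by
    intro a₀ ε hε
    obtain ⟨C, hC⟩ := hdyn a₀
    obtain ⟨B, hB, hB2⟩ := vol_step (s a₀) |C| (abs_nonneg _)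
    set ε' : ℝ := min 1 (ε / B) with hε'
    have hε'0 : 0 < ε' := lt_min one_pos (div_pos hε hB)
    obtain ⟨r, hr, hrε, κ, hκ, hκ2⟩ := hC ε' hε'0
    have hr1 : r < 1 := lt_of_lt_of_le hrε (min_le_left _ _)
    refine ⟨r, hr, hr1, ?_⟩
    have h1 := hB2 ε' r κ hε'0 (min_le_left _ _) hr hrε hκ
      (s '' {p | dist (z p) (z a₀) ≤ r}) (by
        rintro _ ⟨b, hb, rfl⟩
        have hb' : dist (z b) (z a₀) ≤ r := hb
        obtain ⟨k1, k2⟩ := hzz a₀ b
        refine ⟨k1.trans hb', k2.trans hb', ?_⟩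
        refine (hκ2 b (k1.trans hb')).trans ?_
        have := le_abs_self C
        gcongr)
    rw [image_image] at h1
    simp only [hG] at h1
    refine h1.trans (ENNReal.ofReal_le_ofReal ?_)
    have h2 : B * ε' ≤ ε := by
      calc B * ε' ≤ B * (ε / B) := mul_le_mul_of_nonneg_left (min_le_right _ _) hB.le
        _ = ε := by field_simp
    exact mul_le_mul_of_nonneg_right h2 (by positivity))
  have hrange : range (fun a : V3 => (WithLp.toLp 2 a : E3)) = univ := by
    rw [range_eq_univ]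
    intro y
    exact ⟨WithLp.ofLp y, rfl⟩
  rw [hrange] at hnull
  have : (volume (univ : Set E3)) ≠ 0 := by
    rw [Measure.measure_univ_ne_zero]
    exact NeZero.ne _
  exact this hnull

/-- There are no data as in `ChartData`. -/
theorem no_chartData {L : Set (V3 × V3)} (hL : ChartData L) : False := by
  obtain ⟨s, σ, -, hsL, hG, hσ, hpos, -⟩ := hL.sign
  refine no_section s hG σ hσ ?_ ?_
  · intro a b
    by_cases h : a = b
    · subst h; simp
    · exact (hpos a b h).le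
  · intro a
    obtain ⟨C, hC⟩ := hL.dyn (s a) (hsL a)
    refine ⟨C, fun ε hε => ?_⟩
    obtain ⟨r, hr, hrε, κ, hκ, h⟩ := hC ε hε
    exact ⟨r, hr, hrε, κ, hκ, fun b hb => h (s b) (hsL b) hb⟩

end F31343H
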