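import Pool.Agent.Lib_MP_f31343_h.ChartDyn
import Pool.Agent.Lib_MP_f31343_h.Vol

/-!
# Theorem B: there is no limit set
-/

namespace F31343H

theorem no_limitSet {Λ : Set M43} (h : LimitSet Λ) : False := by
  obtain ⟨Λ', h', h0⟩ := h.exists_S0
  exact no_chartData (L := chartSet Λ') ⟨h'.exists_sec h0, h'.chart_ne, h'.chart_dyn h0⟩

end F31343H
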