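import Pool.Agent.Lib_MP_f31343_h.TheoremA
import Pool.Agent.Lib_MP_f31343_h.TheoremB
import Pool.Agent.Lib_MP_f31343_h.Bridge
import Pool.Agent.Lib_MP_f31343_h.Fib

/-!
# `O(4,3)/O(4,2)` has a local geometric fibration, but no compact quotients
-/

open F31343

namespace F31343H

theorem no_act {Γ : Type*} [Group Γ] {ρ : Γ →* M7} (h : Act Γ ρ) : False := by
  obtain ⟨Λ, hΛ⟩ := h.exists_limitSet
  exact no_limitSet hΛ

theorem not_admitsCompactQuotients : ¬ AdmitsCompactQuotients O43 O42 := by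
  intro h
  obtain ⟨Γ, _, ρ, hρ⟩ := exists_act h
  exact no_act hρ

end F31343H
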