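import Pool.Agent.Lib_MP_f31343_h.Defs

/-!
# Moving a plane of the limit set to the standard isotropic plane
-/

open Matrix Filter Topology
open scoped Matrix.Norms.L2Operator

namespace F31343H

/-- An isometric `S₁` is moved to `S0` by an orthogonal matrix. -/
theorem exists_orth {S₁ : M43} (h₁ : IsIsom S₁) :
    ∃ A : Matrix (Fin 4) (Fin 4) ℝ, Aᵀ * A = 1 ∧ A * S₁ = S0 := by
  classical
  -- the columns
  let v : Fin 4 → EuclideanSpace ℝ (Fin 4) :=
    Fin.snoc (fun j : Fin 3 => WithLp.toLp 2 (fun i => S₁ i j)) 0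
  have hv : ∀ j : Fin 3, v j.castSucc = WithLp.toLp 2 (fun i => S₁ i j) := fun j => by
    simp [v]
  have hin : ∀ j k : Fin 3, inner ℝ (v j.castSucc) (v k.castSucc) = (1 : M33) j k := by
    intro j k
    rw [hv, hv, EuclideanSpace.inner_toLp_toLp, ← h₁, Matrix.mul_apply]
    simp only [dotProduct, star_trivial, transpose_apply]
    exact Finset.sum_congr rfl fun i _ => mul_comm _ _
  have hcard : Module.finrank ℝ (EuclideanSpace ℝ (Fin 4)) = Fintype.card (Fin 4) := by simp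
  have hon : Orthonormal ℝ ((Set.range (Fin.castSucc : Fin 3 → Fin 4)).domRestrict v) := by
    constructor
    · rintro ⟨_, j, rfl⟩
      have h2 : ‖v j.castSucc‖ ^ 2 = 1 := by
        rw [← real_inner_self_eq_norm_sq, hin]
        simp
      have h3 : 0 ≤ ‖v j.castSucc‖ := norm_nonneg _
      change ‖v j.castSucc‖ = 1
      nlinarith
    · rintro ⟨_, j, rfl⟩ ⟨_, k, rfl⟩ hjk
      change inner ℝ (v j.castSucc) (v k.castSucc) = 0
      rw [hin, Matrix.one_apply_ne]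
      rintro rfl
      exact hjk rfl
  obtain ⟨b, hb⟩ := Orthonormal.exists_orthonormalBasis_extension_of_card_eq (𝕜 := ℝ) hcard hon
  let Q : Matrix (Fin 4) (Fin 4) ℝ := Matrix.of fun i j => b j i
  have hQ : Qᵀ * Q = 1 := by
    ext j k
    rw [Matrix.mul_apply]
    have h := b.inner_eq_ite j k
    rw [Matrix.one_apply, ← h, PiLp.inner_apply]
    refine Finset.sum_congr rfl fun i _ => ?_
    simp [Q, mul_comm]
  have hQS : Q * S0 = S₁ := by
    ext i j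
    rw [Matrix.mul_apply, Finset.sum_eq_single j.castSucc]
    · have h := hb j.castSucc ⟨j, rfl⟩
      rw [hv] at h
      have h' : b j.castSucc i = S₁ i j := by rw [h]
      simp [Q, S0, h']
    · intro k _ hk
      simp [S0, hk]
    · intro h
      exact absurd (Finset.mem_univ _) h
  refine ⟨Qᵀ, ?_, ?_⟩
  · rw [transpose_transpose]
    exact mul_eq_one_comm.1 hQ
  · rw [← hQS, ← Matrix.mul_assoc, hQ, Matrix.one_mul]

section conj
variable {A : Matrix (Fin 4) (Fin 4) ℝ}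

/-- the block diagonal matrix -/
noncomputable def blk (A : Matrix (Fin 4) (Fin 4) ℝ) (g : M7) : M7 :=
  fromBlocks (A * g.toBlocks₁₁ * Aᵀ) (A * g.toBlocks₁₂) (g.toBlocks₂₁ * Aᵀ) g.toBlocks₂₂

theorem blk_eq (g : M7) : blk A g = fromBlocks A 0 0 1 * g * fromBlocks Aᵀ 0 0 1 := by
  conv_rhs => rw [← fromBlocks_toBlocks g]
  rw [fromBlocks_multiply, fromBlocks_multiply, blk]
  simp

theorem isO_blk (hA : Aᵀ * A = 1) {g : M7} (hg : IsO g) : IsO (blk A g) := by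
  have hA' : A * Aᵀ = 1 := mul_eq_one_comm.1 hA
  have e1 : (fromBlocks A 0 0 1 : M7)ᵀ * J7 * fromBlocks A 0 0 1 = J7 := by
    rw [J7, fromBlocks_transpose, fromBlocks_multiply, fromBlocks_multiply]
    simp [hA]
  have e2 : (fromBlocks Aᵀ 0 0 1 : M7)ᵀ * J7 * fromBlocks Aᵀ 0 0 1 = J7 := by
    rw [J7, fromBlocks_transpose, fromBlocks_multiply, fromBlocks_multiply]
    simp [hA']
  unfold IsO at hg ⊢
  rw [blk_eq, transpose_mul, transpose_mul]
  calc (fromBlocks Aᵀ 0 0 1 : M7)ᵀ * (gᵀ * (fromBlocks A 0 0 1 : M7)ᵀ) * J7 *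
        (fromBlocks A 0 0 1 * g * fromBlocks Aᵀ 0 0 1)
      = (fromBlocks Aᵀ 0 0 1 : M7)ᵀ * (gᵀ * ((fromBlocks A 0 0 1 : M7)ᵀ * J7 *
        fromBlocks A 0 0 1) * g) * fromBlocks Aᵀ 0 0 1 := by
        simp only [Matrix.mul_assoc]
    _ = J7 := by rw [e1, hg, e2]

theorem den_blk (hA : Aᵀ * A = 1) (g : M7) (S : M43) : den (blk A g) (A * S) = den g S := by
  unfold den blk
  rw [toBlocks_fromBlocks₂₁, toBlocks_fromBlocks₂₂, Matrix.mul_assoc, ← Matrix.mul_assoc Aᵀ, hA,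
    Matrix.one_mul]

theorem act_blk (hA : Aᵀ * A = 1) (g : M7) (S : M43) : act (blk A g) (A * S) = A * act g S := by
  unfold act
  rw [den_blk hA]
  unfold blk
  rw [toBlocks_fromBlocks₁₁, toBlocks_fromBlocks₁₂]
  have : A * g.toBlocks₁₁ * Aᵀ * (A * S) + A * g.toBlocks₁₂ =
      A * (g.toBlocks₁₁ * S + g.toBlocks₁₂) := by
    rw [Matrix.mul_add, Matrix.mul_assoc (A * g.toBlocks₁₁), ← Matrix.mul_assoc Aᵀ, hA,
      Matrix.one_mul, Matrix.mul_assoc]
  rw [this, Matrix.mul_assoc]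

theorem tr_blk (hA : Aᵀ * A = 1) (S S' : M43) : (A * S)ᵀ * (A * S') = Sᵀ * S' := by
  rw [transpose_mul, Matrix.mul_assoc, ← Matrix.mul_assoc Aᵀ, hA, Matrix.one_mul]

theorem pr_blk (hA : Aᵀ * A = 1) (S S' : M43) : pr (A * S) (A * S') = pr S S' := by
  unfold pr
  rw [tr_blk hA]

theorem nrm_orth {n : Type*} [Fintype n] [DecidableEq n] {A : Matrix n n ℝ} (hA : Aᵀ * A = 1)
    (y : n → ℝ) : nrm (A *ᵥ y) = nrm y := by
  have h : nrm (A *ᵥ y) ^ 2 = nrm y ^ 2 := by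
    rw [nrm_sq, nrm_sq, dotProduct_mulVec, vecMul_mulVec, ← dotProduct_mulVec, hA, one_mulVec]
  exact (pow_left_inj₀ (nrm_nonneg _) (nrm_nonneg _) two_ne_zero).1 h

theorem LimitSet.image {Λ : Set M43} (hΛ : LimitSet Λ) (hA : Aᵀ * A = 1) :
    LimitSet ((fun S => A * S) '' Λ) := by
  have hA' : A * Aᵀ = 1 := mul_eq_one_comm.1 hA
  refine ⟨?_, ?_, ?_, ?_, ?_⟩
  · exact hΛ.compact.image (by fun_prop)
  · rintro _ ⟨S, hS, rfl⟩
    change (A * S)ᵀ * (A * S) = 1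
    rw [tr_blk hA]
    exact hΛ.isom S hS
  · intro y u hy hu
    obtain ⟨S, hS, hSu⟩ := hΛ.cover (Aᵀ *ᵥ y) u
      ((nrm_orth (by rw [transpose_transpose]; exact hA') y).trans hy) hu
    refine ⟨A * S, ⟨S, hS, rfl⟩, ?_⟩
    rw [← mulVec_mulVec, hSu, mulVec_mulVec, hA', one_mulVec]
  · rintro _ ⟨S, hS, rfl⟩ _ ⟨S', hS', rfl⟩ hne
    change (1 - (A * S)ᵀ * (A * S')).det ≠ 0
    rw [tr_blk hA]
    exact hΛ.transv S hS S' hS' fun h => hne (by rw [h])
  · rintro _ ⟨S, hS, rfl⟩ _ ⟨S', hS', rfl⟩ hne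
    obtain ⟨κ, hκ, h⟩ := hΛ.dyn S hS S' hS' fun h => hne (by rw [h])
    refine ⟨κ, hκ, fun ε hε => ?_⟩
    obtain ⟨g, hg, hg1, hg2, hg3⟩ := h ε hε
    refine ⟨blk A g, isO_blk hA hg, ?_, ?_, ?_⟩
    · rintro _ ⟨T, hT, rfl⟩
      exact ⟨act g T, hg1 T hT, (act_blk hA g T).symm⟩
    · intro u
      change nrm (den (blk A g) (A * S) *ᵥ u) ≤ _
      rw [den_blk hA]
      exact hg2 u
    · change κ ≤ pr (act (blk A g) (A * S)) (act (blk A g) (A * S'))
      rw [act_blk hA, act_blk hA, pr_blk hA]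
      exact hg3

end conj

/-- Every plane of the limit set can be moved to `S0` by a block diagonal isometry. -/
theorem LimitSet.normalize {Λ : Set M43} (hΛ : LimitSet Λ) {S₁ : M43} (h₁ : S₁ ∈ Λ) :
    ∃ A : Matrix (Fin 4) (Fin 4) ℝ, Aᵀ * A = 1 ∧ A * S₁ = S0 ∧
      LimitSet ((fun S => A * S) '' Λ) := by
  obtain ⟨A, hA, hAS⟩ := exists_orth (hΛ.isom S₁ h₁)
  exact ⟨A, hA, hAS, hΛ.image hA⟩

/-- We can assume that `S0` belongs to the limit set. -/
theorem LimitSet.exists_S0 {Λ : Set M43} (hΛ : LimitSet Λ) :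
    ∃ Λ' : Set M43, LimitSet Λ' ∧ S0 ∈ Λ' := by
  obtain ⟨S, hS, -⟩ := hΛ.cover (Pi.single 0 1) (Pi.single 0 1) (by
    have h1 : nrm (Pi.single 0 1 : V4) ^ 2 = 1 := by
      rw [nrm_sq]
      simp
    have h2 : nrm (Pi.single 0 1 : V3) ^ 2 = 1 := by
      rw [nrm_sq]
      simp
    exact (pow_left_inj₀ (nrm_nonneg _) (nrm_nonneg _) two_ne_zero).1 (h1.trans h2.symm)) (by
      intro h
      have := congrFun h 0
      simp at this)
  obtain ⟨A, -, hAS, hL⟩ := hΛ.normalize hS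
  exact ⟨_, hL, S, hS, hAS⟩

end F31343H
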