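import Pool.Agent.Lib_MP_f31343_h.Halve

/-!
# A0': word length from halving (abstract groups), and the structure `Grow`

`L : Γ → ℝ` with finite sublevel sets, invariant under inversion, and such that each `γ` is a product
`h h'` with `L h, L h' ≤ L γ / 2 + c₀`.  Then `F = {L ≤ 4 c₀}` generates `Γ` and the word length is
bounded by `1 + L / c₀`.
-/

open Matrix Filter Topology
open scoped Matrix.Norms.L2Operator

namespace F31343H

section word
variable {Γ : Type*} [Group Γ]

/-- the lengths of the words in `F` representing `γ` -/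
def wordSet (F : Set Γ) (γ : Γ) : Set ℕ :=
  {k | ∃ w : List Γ, (∀ x ∈ w, x ∈ F) ∧ w.prod = γ ∧ w.length = k}

/-- the word length -/
noncomputable def wlen (F : Set Γ) (γ : Γ) : ℕ := sInf (wordSet F γ)

lemma wlen_le {F : Set Γ} {w : List Γ} (hw : ∀ x ∈ w, x ∈ F) : wlen F w.prod ≤ w.length :=
  Nat.sInf_le ⟨w, hw, rfl, rfl⟩

lemma exists_word {F : Set Γ} (hF : ∀ γ, (wordSet F γ).Nonempty) (γ : Γ) :
    ∃ w : List Γ, (∀ x ∈ w, x ∈ F) ∧ w.prod = γ ∧ w.length = wlen F γ :=
  Nat.sInf_mem (hF γ)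

/-- the word length of a finite symmetric generating set is a word length -/
lemma wordLen_wlen {F : Set Γ} (hfin : F.Finite) (hinv : ∀ x ∈ F, x⁻¹ ∈ F)
    (hF : ∀ γ, (wordSet F γ).Nonempty) : WordLen (wlen F) where
  one := by
    have h := wlen_le (F := F) (w := []) (by simp)
    simpa using h
  eq_one γ h := by
    obtain ⟨w, -, hp, hl⟩ := exists_word hF γ
    rw [h, List.length_eq_zero_iff] at hl
    rw [← hp, hl, List.prod_nil]
  inv := by
    have key : ∀ γ, wlen F γ⁻¹ ≤ wlen F γ := by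
      intro γ
      obtain ⟨w, hw, hp, hl⟩ := exists_word hF γ
      have h := wlen_le (F := F) (w := (w.map (·⁻¹)).reverse) (by
        intro x hx
        simp only [List.mem_reverse, List.mem_map] at hx
        obtain ⟨y, hy, rfl⟩ := hx
        exact hinv y (hw y hy))
      rw [← List.prod_inv_reverse, hp] at h
      simpa [hl] using h
    intro γ
    refine le_antisymm (key γ) ?_
    have h := key γ⁻¹
    rwa [inv_inv] at h
  mul_le γ γ' := by
    obtain ⟨w, hw, hp, hl⟩ := exists_word hF γ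
    obtain ⟨w', hw', hp', hl'⟩ := exists_word hF γ'
    have h := wlen_le (F := F) (w := w ++ w') (by
      intro x hx
      rcases List.mem_append.1 hx with h | h
      · exact hw x h
      · exact hw' x h)
    rw [List.prod_append, hp, hp', List.length_append, hl, hl'] at h
    exact h
  finite n := by
    have hset : ∀ n : ℕ, {γ : Γ | ∃ w : List Γ, (∀ x ∈ w, x ∈ F) ∧ w.prod = γ ∧
        w.length = n}.Finite := by
      intro n
      induction n with
      | zero =>
        refine (Set.finite_singleton (1 : Γ)).subset ?_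
        rintro γ ⟨w, -, hp, hl⟩
        rw [List.length_eq_zero_iff] at hl
        rw [Set.mem_singleton_iff, ← hp, hl, List.prod_nil]
      | succ n ih =>
        refine (Set.Finite.mul hfin ih).subset ?_
        rintro γ ⟨w, hw, hp, hl⟩
        cases w with
        | nil => simp at hl
        | cons x w =>
          rw [List.prod_cons] at hp
          refine Set.mem_mul.2 ⟨x, hw x (by simp), w.prod, ⟨w, fun y hy => hw y (by simp [hy]), rfl,
            by simpa using hl⟩, hp⟩
    refine ((Set.finite_Iic n).biUnion fun k _ => hset k).subset ?_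
    intro γ hγ
    obtain ⟨w, hw, hp, hl⟩ := exists_word hF γ
    exact Set.mem_iUnion₂.2 ⟨wlen F γ, hγ, w, hw, hp, hl⟩
  split γ k hk := by
    obtain ⟨w, hw, hp, hl⟩ := exists_word hF γ
    refine ⟨(w.take k).prod, (w.drop k).prod, ?_, ?_⟩
    · rw [← List.prod_append, List.take_append_drop, hp]
    · have h1 := wlen_le (F := F) (w := w.take k) fun x hx => hw x (List.mem_of_mem_take hx)
      have h2 := wlen_le (F := F) (w := w.drop k) fun x hx => hw x (List.mem_of_mem_drop hx)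
      rw [List.length_take, hl, min_eq_left hk] at h1
      rw [List.length_drop, hl] at h2
      have h3 : wlen F γ ≤ wlen F (w.take k).prod + wlen F (w.drop k).prod := by
        obtain ⟨w₁, hw₁, hp₁, hl₁⟩ := exists_word hF (w.take k).prod
        obtain ⟨w₂, hw₂, hp₂, hl₂⟩ := exists_word hF (w.drop k).prod
        have h := wlen_le (F := F) (w := w₁ ++ w₂) (by
          intro x hx
          rcases List.mem_append.1 hx with h | h
          · exact hw₁ x h
          · exact hw₂ x h)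
        rw [List.prod_append, hp₁, hp₂, List.length_append, hl₁, hl₂, ← List.prod_append,
          List.take_append_drop, hp] at h
        exact h
      omega

/-- **Halving implies generation**, with a linear bound on the number of letters. -/
lemma exists_word_of_halve {L : Γ → ℝ} {c₀ : ℝ} (hc₀ : 0 < c₀)
    (halve : ∀ γ, ∃ h h' : Γ, γ = h * h' ∧ L h ≤ L γ / 2 + c₀ ∧ L h' ≤ L γ / 2 + c₀) (n : ℕ) :
    ∀ γ, L γ ≤ 4 * c₀ + n * c₀ → ∃ w : List Γ, (∀ x ∈ w, L x ≤ 4 * c₀) ∧ w.prod = γ ∧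
      (w.length : ℝ) ≤ max 1 ((L γ - 2 * c₀) / c₀) := by
  have base : ∀ γ, L γ ≤ 4 * c₀ → ∃ w : List Γ, (∀ x ∈ w, L x ≤ 4 * c₀) ∧ w.prod = γ ∧
      (w.length : ℝ) ≤ max 1 ((L γ - 2 * c₀) / c₀) := by
    intro γ h
    refine ⟨[γ], by simpa using h, by simp, ?_⟩
    simp
  induction n with
  | zero => intro γ h; exact base γ (by simpa using h)
  | succ n ih =>
    intro γ hγ
    by_cases h4 : L γ ≤ 4 * c₀
    · exact base γ h4
    push_neg at h4
    push_cast at hγ
    obtain ⟨h, h', hp, h1, h2⟩ := halve γ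
    obtain ⟨w, hw, hwp, hwl⟩ := ih h (by linarith)
    obtain ⟨w', hw', hwp', hwl'⟩ := ih h' (by linarith)
    refine ⟨w ++ w', ?_, by rw [List.prod_append, hwp, hwp', ← hp], ?_⟩
    · intro x hx
      rcases List.mem_append.1 hx with h | h
      · exact hw x h
      · exact hw' x h
    · have key : ∀ x, x ≤ L γ / 2 + c₀ → max 1 ((x - 2 * c₀) / c₀) ≤ (L γ - 2 * c₀) / c₀ / 2 := by
        intro x hx
        rw [max_le_iff]
        constructor
        · rw [div_div, le_div_iff₀ (by positivity)]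
          linarith
        · rw [div_div, div_le_div_iff₀ hc₀ (by positivity)]
          nlinarith
      have k1 := hwl.trans (key _ h1)
      have k2 := hwl'.trans (key _ h2)
      rw [List.length_append, Nat.cast_add]
      exact (by linarith : (w.length : ℝ) + w'.length ≤ (L γ - 2 * c₀) / c₀).trans (le_max_right _ _)

/-- **Word length from halving.** -/
theorem exists_wordLen_full {L : Γ → ℝ} {c₀ : ℝ} (hc₀ : 0 < c₀) (hL : ∀ γ, 0 ≤ L γ)
    (hinv : ∀ γ, L γ⁻¹ = L γ) (hfin : ∀ R : ℝ, {γ | L γ ≤ R}.Finite)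
    (halve : ∀ γ, ∃ h h' : Γ, γ = h * h' ∧ L h ≤ L γ / 2 + c₀ ∧ L h' ≤ L γ / 2 + c₀) :
    ∃ l : Γ → ℕ, WordLen l ∧ (∀ γ, c₀ * l γ ≤ c₀ + L γ) ∧
      ∀ N : Γ → ℝ, N 1 ≤ 1 → (∀ γ, 0 ≤ N γ) → (∀ γ γ', N (γ * γ') ≤ N γ * N γ') →
        ∃ K : ℝ, 1 ≤ K ∧ ∀ γ, N γ ≤ K ^ l γ := by
  set F : Set Γ := {γ | L γ ≤ 4 * c₀} with hFdef
  have hw : ∀ γ, ∃ w : List Γ, (∀ x ∈ w, x ∈ F) ∧ w.prod = γ ∧
      (w.length : ℝ) ≤ max 1 ((L γ - 2 * c₀) / c₀) := by
    intro γ
    obtain ⟨n, hn⟩ := exists_nat_ge (L γ / c₀)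
    refine exists_word_of_halve hc₀ halve n γ ?_
    rw [div_le_iff₀ hc₀] at hn
    linarith
  have hF : ∀ γ, (wordSet F γ).Nonempty := by
    intro γ
    obtain ⟨w, h1, h2, -⟩ := hw γ
    exact ⟨w.length, w, h1, h2, rfl⟩
  refine ⟨wlen F, wordLen_wlen (hfin _) (fun x hx => ?_) hF, ?_, ?_⟩
  · show L x⁻¹ ≤ 4 * c₀
    rw [hinv]; exact hx
  · intro γ
    obtain ⟨w, h1, h2, h3⟩ := hw γ
    have h4 : (wlen F γ : ℝ) ≤ w.length := by
      have := wlen_le (F := F) h1
      rw [h2] at this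
      exact_mod_cast this
    have h5 : (wlen F γ : ℝ) ≤ 1 + L γ / c₀ := by
      refine (h4.trans h3).trans (max_le ?_ ?_)
      · have := div_nonneg (hL γ) hc₀.le
        linarith
      · rw [div_le_iff₀ hc₀, add_mul, div_mul_cancel₀ _ hc₀.ne']
        linarith
    calc c₀ * wlen F γ ≤ c₀ * (1 + L γ / c₀) := by gcongr
      _ = c₀ + L γ := by field_simp
  · intro N hN1 hN0 hmul
    obtain ⟨K, hK⟩ := ((hfin (4 * c₀)).image N).bddAbove
    refine ⟨max 1 K, le_max_left _ _, fun γ => ?_⟩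
    obtain ⟨w, hw1, hw2, hw3⟩ := exists_word hF γ
    rw [← hw3, ← hw2]
    clear hw3 hw2
    induction w with
    | nil => simpa using hN1
    | cons x w ih =>
      rw [List.prod_cons, List.length_cons, pow_succ']
      refine (hmul _ _).trans ?_
      have h1 : N x ≤ max 1 K :=
        (hK ⟨x, hw1 x (by simp), rfl⟩).trans (le_max_right _ _)
      exact mul_le_mul h1 (ih fun y hy => hw1 y (by simp [hy])) (hN0 _)
        (zero_le_one.trans (le_max_left _ _))

end word

theorem exists_wordLen {Γ : Type*} [Group Γ] (L : Γ → ℝ) (_h1 : L 1 = 0) (h0 : ∀ γ, 0 ≤ L γ)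
    (hinv : ∀ γ, L γ⁻¹ = L γ) (hfin : ∀ R : ℝ, {γ | L γ ≤ R}.Finite) (c₀ : ℝ) (hc : 0 < c₀)
    (halv : ∀ γ, ∃ α β : Γ, γ = α * β ∧ L α ≤ L γ / 2 + c₀ ∧ L β ≤ L γ / 2 + c₀) :
    ∃ l : Γ → ℕ, WordLen l ∧ ∀ γ, c₀ * l γ ≤ L γ + c₀ := by
  obtain ⟨l, h2, h3, -⟩ := exists_wordLen_full hc h0 hinv hfin halv
  exact ⟨l, h2, fun γ => by linarith [h3 γ]⟩

/-- geodesics exist -/
theorem WordLen.exists_geod {Γ : Type*} [Group Γ] {l : Γ → ℕ} (hl : WordLen l) (γ : Γ) :
    ∃ h : ℕ → Γ, h 0 = 1 ∧ h (l γ) = γ ∧ IsGeod l h (l γ) := by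
  have key : ∀ n : ℕ, ∀ γ, l γ = n → ∃ h : ℕ → Γ, h 0 = 1 ∧ h n = γ ∧ IsGeod l h n := by
    intro n
    induction n with
    | zero =>
      intro γ hγ
      refine ⟨fun _ => 1, rfl, (hl.eq_one γ hγ).symm, fun i j hij hj => ?_⟩
      have hj0 : j = 0 := by omega
      subst hj0
      have hi0 : i = 0 := by omega
      subst hi0
      simpa using hl.one
    | succ n ih =>
      intro γ hγ
      obtain ⟨α, β, hp, hα, hβ⟩ := hl.split γ n (by omega)
      obtain ⟨h, hh0, hhn, hg⟩ := ih α hα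
      refine ⟨fun k => if k ≤ n then h k else γ, by simp [hh0], by simp, ?_⟩
      intro i j hij hj
      by_cases hjn : j ≤ n
      · have hin : i ≤ n := hij.trans hjn
        simp only [hin, hjn, if_true]
        exact hg i j hij hjn
      · have hj1 : j = n + 1 := by omega
        subst hj1
        by_cases hin : i ≤ n
        · simp only [hin, if_true, hjn, if_false]
          have h1 : l ((h i)⁻¹ * γ) ≤ (n - i) + (n + 1 - n) := by
            have h2 := hl.mul_le ((h i)⁻¹ * α) β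
            have h3 := hg i n hin le_rfl
            rw [hhn] at h3
            rw [mul_assoc, ← hp, h3, hβ, hγ] at h2
            exact h2
          have h4 : l γ ≤ i + l ((h i)⁻¹ * γ) := by
            have h5 := hl.mul_le (h i) ((h i)⁻¹ * γ)
            have h6 := hg 0 i (Nat.zero_le _) hin
            rw [hh0, inv_one, one_mul] at h6
            rw [mul_inv_cancel_left, h6] at h5
            simpa using h5
          omega
        · have hi1 : i = n + 1 := by omega
          subst hi1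
          simp only [hjn, if_false]
          rw [inv_mul_cancel, hl.one]
          simp
  exact key (l γ) γ rfl

variable {Γ : Type*} [Group Γ] {ρ : Γ →* M7}

lemma norm_one_M7 : ‖(1 : M7)‖ ≤ 1 := by
  refine opNorm_le zero_le_one fun x => ?_
  rw [one_mulVec, one_mul]

/-- `ρ γ` is bounded by `K ^ l γ`: `K` is the maximum of `1` and the norms of the elements of the
generating set.  `L γ = log (dl (ρ γ))`. -/
theorem Act.exists_grow (h : Act Γ ρ) : ∃ (l : Γ → ℕ) (c C K : ℝ), Grow Γ ρ l c C K := by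
  obtain ⟨C₁, hC₁, halv⟩ := h.halving
  have hpos : ∀ γ, 0 < dl (ρ γ) := fun γ => zero_lt_one.trans_le (h.isO γ).one_le_dl
  have hc₀ : 0 < Real.log C₁ + 1 := by
    have := Real.log_nonneg hC₁
    linarith
  have hlog : ∀ x y : ℝ, 0 < x → 0 < y → x ≤ C₁ * Real.sqrt y →
      Real.log x ≤ Real.log y / 2 + (Real.log C₁ + 1) := by
    intro x y hx hy hxy
    have h1 := Real.log_le_log hx hxy
    rw [Real.log_mul (by positivity) (Real.sqrt_ne_zero'.2 hy), Real.log_sqrt hy.le] at h1
    linarith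
  obtain ⟨l, hl, hgrow, hN⟩ := exists_wordLen_full (L := fun γ => Real.log (dl (ρ γ))) hc₀
    (fun γ => Real.log_nonneg (h.isO γ).one_le_dl)
    (fun γ => by
      have h1 : ρ γ⁻¹ = (ρ γ)⁻¹ := by
        refine (Matrix.inv_eq_left_inv ?_).symm
        rw [← map_mul, inv_mul_cancel, map_one]
      show Real.log (dl (ρ γ⁻¹)) = Real.log (dl (ρ γ))
      rw [h1, (h.isO γ).dl_inv])
    (fun R => (h.finite_dl (Real.exp R)).subset fun γ hγ => by
      have h2 : Real.log (dl (ρ γ)) ≤ R := hγ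
      exact (Real.log_le_iff_le_exp (hpos γ)).1 h2)
    (fun γ => by
      obtain ⟨α, β, hp, h1, h2⟩ := halv γ
      exact ⟨α, β, hp, hlog _ _ (hpos α) (hpos γ) h1, hlog _ _ (hpos β) (hpos γ) h2⟩)
  obtain ⟨K, hK1, hK⟩ := hN (fun γ => ‖ρ γ‖) (by
    show ‖ρ 1‖ ≤ 1
    rw [map_one]
    exact norm_one_M7) (fun γ => norm_nonneg _) (fun γ γ' => by
    show ‖ρ (γ * γ')‖ ≤ ‖ρ γ‖ * ‖ρ γ'‖
    rw [map_mul]
    exact opNorm_mul_le _ _)
  refine ⟨l, Real.log C₁ + 1, Real.exp (Real.log C₁ + 1), K, h.isO, hl, hc₀, Real.exp_pos _, hK1,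
    fun γ => ?_, hK, h.cocompact⟩
  have h1 := Real.exp_le_exp.2 (hgrow γ)
  rw [Real.exp_add] at h1
  have h2 : Real.exp (Real.log (dl (ρ γ))) = dl (ρ γ) := Real.exp_log (hpos γ)
  rw [h2] at h1
  exact h1

end F31343H
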