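import Pool.Agent.Lib_MP_f31343_h.Halve
import Pool.Agent.Lib_MP_f31343_h.Word

/-!
# A1: step 2

`S_{gs} - S_g = (a - b d⁻¹ c) S (c S + d)⁻¹` with `S = Sg s`, the blocks being those of `g`.
`a - b d⁻¹ c` is the inverse of the block `aᵀ` of `g⁻¹` (Schur complement), and `|aᵀ y| ≥ |y|`, so
its norm is `≤ 1`; `c S + d = d (1 - (Sg g⁻¹)ᵀ S)`, so `‖(c S + d)⁻¹‖ ≤ (1/dl g) / (1 - ‖S‖)`,
and `‖Sg s‖ < 1` (`1 - Sᵀ S = (dᵀ)⁻¹ d⁻¹`).
On a geodesic `h 0, ..., h N` of `l`, if all `l (h i) ≥ n`, let `m` be the index with `l (h m)`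
minimal: `|i - m| ≤ l (h i) + l (h m) ≤ 2 l (h i)`, so `l (h i) ≥ n/2 + |i - m|/4`.
-/

open Matrix Filter Topology
open scoped Matrix.Norms.L2Operator

namespace F31343H

/-- `den g S = d (1 - (Sg g⁻¹)ᵀ S)` -/
lemma IsO.st2_den_eq {g : M7} (hg : IsO g) (S : M43) :
    den g S = g.toBlocks₂₂ * (1 - (Sg g⁻¹)ᵀ * S) := by
  have hd : IsUnit g.toBlocks₂₂.det := isUnit_iff_ne_zero.2 hg.det_d
  have h1 : (Sg g⁻¹)ᵀ = -((g.toBlocks₂₂)⁻¹ * g.toBlocks₂₁) := by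
    unfold Sg
    rw [hg.inv12, hg.inv22, transpose_mul, transpose_neg, transpose_transpose,
      transpose_nonsing_inv, transpose_transpose, Matrix.mul_neg]
  rw [h1, Matrix.mul_sub, Matrix.mul_one, Matrix.neg_mul, Matrix.mul_neg, Matrix.mul_assoc,
    ← Matrix.mul_assoc g.toBlocks₂₂, mul_nonsing_inv _ hd, Matrix.one_mul, sub_neg_eq_add]
  unfold den
  rw [add_comm]

lemma st2_dot_gram {m n : Type*} [Fintype m] [Fintype n] (A : Matrix m n ℝ) (x y : n → ℝ) :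
    x ⬝ᵥ ((Aᵀ * A) *ᵥ y) = (A *ᵥ x) ⬝ᵥ (A *ᵥ y) := by
  rw [← mulVec_mulVec, dotProduct_mulVec, vecMul_transpose]

lemma IsO.st2_one_le_norm {g : M7} (hg : IsO g) : 1 ≤ ‖g‖ := by
  have h1 := hg.one_le_dl
  have h2 := dl_le_apply g (Pi.single 0 1)
  have h3 := nrm_mulVec_le g.toBlocks₂₂ (Pi.single 0 1)
  have h4 := norm_block22 g
  have h5 : nrm (Pi.single 0 1 : V3) = 1 := by
    have h := nrm_sq (Pi.single 0 1 : V3)
    rw [single_dotProduct, Pi.single_eq_same, one_mul] at h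
    have h2 := nrm_nonneg (Pi.single 0 1 : V3)
    nlinarith
  rw [h5, mul_one] at h2 h3
  linarith

/-- `‖Sg s‖² ≤ 1 - 1/‖s‖²` -/
lemma IsO.st2_Sg_strict {s : M7} (hs : IsO s) (u : V3) :
    nrm (Sg s *ᵥ u) ^ 2 ≤ (1 - 1 / ‖s‖ ^ 2) * nrm u ^ 2 := by
  have hd : IsUnit s.toBlocks₂₂.det := isUnit_iff_ne_zero.2 hs.det_d
  obtain ⟨w, rfl⟩ : ∃ w, u = s.toBlocks₂₂ *ᵥ w :=
    ⟨(s.toBlocks₂₂)⁻¹ *ᵥ u, by rw [mulVec_mulVec, mul_nonsing_inv _ hd, one_mulVec]⟩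
  have h1 : Sg s *ᵥ (s.toBlocks₂₂ *ᵥ w) = s.toBlocks₁₂ *ᵥ w := by
    unfold Sg
    rw [mulVec_mulVec, Matrix.mul_assoc, nonsing_inv_mul _ hd, Matrix.mul_one]
  rw [h1]
  have h2 : nrm (s.toBlocks₂₂ *ᵥ w) ^ 2 = nrm w ^ 2 + nrm (s.toBlocks₁₂ *ᵥ w) ^ 2 := by
    have h3 := congrArg (fun M => w ⬝ᵥ (M *ᵥ w)) hs.rel22
    simp only [Matrix.add_mulVec, one_mulVec, dotProduct_add, st2_dot_gram] at h3
    rw [nrm_sq, nrm_sq, nrm_sq, ← h3]
  have h3 : nrm (s.toBlocks₂₂ *ᵥ w) ^ 2 ≤ ‖s‖ ^ 2 * nrm w ^ 2 := by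
    rw [← mul_pow]
    refine pow_le_pow_left₀ (nrm_nonneg _) ?_ 2
    exact (nrm_mulVec_le _ _).trans (mul_le_mul_of_nonneg_right (norm_block22 s) (nrm_nonneg _))
  have h4 := hs.st2_one_le_norm
  have h5 : nrm (s.toBlocks₂₂ *ᵥ w) ^ 2 / ‖s‖ ^ 2 ≤ nrm w ^ 2 := by
    rw [div_le_iff₀ (by positivity)]
    linarith
  have h6 : (1 - 1 / ‖s‖ ^ 2) * nrm (s.toBlocks₂₂ *ᵥ w) ^ 2 =
      nrm (s.toBlocks₂₂ *ᵥ w) ^ 2 - nrm (s.toBlocks₂₂ *ᵥ w) ^ 2 / ‖s‖ ^ 2 := by ring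
  rw [h6]
  linarith

lemma IsO.st2_Sg_strict' {s : M7} (hs : IsO s) (u : V3) :
    nrm (Sg s *ᵥ u) ≤ (1 - 1 / (2 * ‖s‖ ^ 2)) * nrm u := by
  have h4 := hs.st2_one_le_norm
  have h5 : 1 ≤ ‖s‖ ^ 2 := one_le_pow₀ h4
  have h6 : 1 / (2 * ‖s‖ ^ 2) ≤ 1 / 2 := by
    apply div_le_div_of_nonneg_left <;> linarith
  have h7 := hs.st2_Sg_strict u
  have h8 : (0 : ℝ) < 1 / (2 * ‖s‖ ^ 2) := by positivity
  have h9 : 1 / ‖s‖ ^ 2 = 2 * (1 / (2 * ‖s‖ ^ 2)) := by field_simp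
  refine le_of_sq_le_sq (h7.trans ?_) (mul_nonneg (by linarith) (nrm_nonneg u))
  rw [mul_pow]
  refine mul_le_mul_of_nonneg_right ?_ (sq_nonneg _)
  rw [h9]
  nlinarith

theorem st2_norm_Sg_le {g : M7} (hg : IsO g) : ‖Sg g‖ ≤ 1 - 1 / (2 * ‖g‖ ^ 2) := by
  have h4 := hg.st2_one_le_norm
  have h5 : 1 ≤ ‖g‖ ^ 2 := one_le_pow₀ h4
  have h6 : 1 / (2 * ‖g‖ ^ 2) ≤ 1 / 2 := by
    apply div_le_div_of_nonneg_left <;> linarith
  exact opNorm_le (by linarith) hg.st2_Sg_strict'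

theorem norm_Sg_lt {g : M7} (hg : IsO g) : ‖Sg g‖ < 1 := by
  have h1 := st2_norm_Sg_le hg
  have h4 := hg.st2_one_le_norm
  have h5 : (0 : ℝ) < 1 / (2 * ‖g‖ ^ 2) := by positivity
  linarith

/-- the Schur complement -/
lemma IsO.st2_schur {g : M7} (hg : IsO g) :
    (g.toBlocks₁₁ - Sg g * g.toBlocks₂₁) * (g.toBlocks₁₁)ᵀ = 1 := by
  have hd : IsUnit g.toBlocks₂₂.det := isUnit_iff_ne_zero.2 hg.det_d
  have h1 := hg.inv.rel12
  rw [hg.inv11, hg.inv12, hg.inv21, hg.inv22, transpose_transpose, transpose_neg,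
    transpose_transpose, Matrix.mul_neg, Matrix.neg_mul, neg_inj] at h1
  have h2 : g.toBlocks₂₁ * (g.toBlocks₁₁)ᵀ = g.toBlocks₂₂ * (g.toBlocks₁₂)ᵀ := by
    have h3 := congrArg transpose h1
    rwa [transpose_mul, transpose_mul, transpose_transpose, transpose_transpose] at h3
  rw [Matrix.sub_mul, Matrix.mul_assoc (Sg g), h2, hg.rel11']
  unfold Sg
  rw [Matrix.mul_assoc, ← Matrix.mul_assoc (g.toBlocks₂₂)⁻¹, nonsing_inv_mul _ hd,
    Matrix.one_mul, add_sub_cancel_right]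

lemma IsO.st2_norm_schur {g : M7} (hg : IsO g) :
    ‖g.toBlocks₁₁ - Sg g * g.toBlocks₂₁‖ ≤ 1 := by
  have ha : IsUnit (g.toBlocks₁₁)ᵀ.det := by
    rw [det_transpose]
    exact isUnit_iff_ne_zero.2 hg.det_a
  refine opNorm_le zero_le_one fun x => ?_
  obtain ⟨y, rfl⟩ : ∃ y, x = (g.toBlocks₁₁)ᵀ *ᵥ y :=
    ⟨((g.toBlocks₁₁)ᵀ)⁻¹ *ᵥ x, by rw [mulVec_mulVec, mul_nonsing_inv _ ha, one_mulVec]⟩
  rw [mulVec_mulVec, hg.st2_schur, one_mulVec, one_mul]
  have h1 : nrm ((g.toBlocks₁₁)ᵀ *ᵥ y) ^ 2 = nrm y ^ 2 + nrm ((g.toBlocks₁₂)ᵀ *ᵥ y) ^ 2 := by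
    have h3 := congrArg (fun M => y ⬝ᵥ (M *ᵥ y)) hg.rel11'
    have h4 := st2_dot_gram (g.toBlocks₁₁)ᵀ y y
    have h5 := st2_dot_gram (g.toBlocks₁₂)ᵀ y y
    rw [transpose_transpose] at h4 h5
    simp only [Matrix.add_mulVec, one_mulVec, dotProduct_add, h4, h5] at h3
    rw [nrm_sq, nrm_sq, nrm_sq, ← h3]
  exact le_of_sq_le_sq (by nlinarith [sq_nonneg (nrm ((g.toBlocks₁₂)ᵀ *ᵥ y))]) (nrm_nonneg _)

theorem Sg_mul_sub {g s : M7} (hg : IsO g) (hs : IsO s) :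
    ‖Sg (g * s) - Sg g‖ ≤ 1 / (dl g * (1 - ‖Sg s‖)) := by
  have hdl := hg.one_le_dl
  have hk := norm_Sg_lt hs
  have hk0 : (0 : ℝ) < 1 - ‖Sg s‖ := by linarith
  have hS := hs.Sg_contr
  have hden := hg.den_det hS
  have hd : IsUnit g.toBlocks₂₂.det := isUnit_iff_ne_zero.2 hg.det_d
  rw [Sg_mul hg hs]
  refine opNorm_le (by positivity) fun w => ?_
  obtain ⟨u, rfl⟩ : ∃ u, w = den g (Sg s) *ᵥ u :=
    ⟨(den g (Sg s))⁻¹ *ᵥ w, by
      rw [mulVec_mulVec, mul_nonsing_inv _ (isUnit_iff_ne_zero.2 hden), one_mulVec]⟩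
  -- the vector
  have h1 : (act g (Sg s) - Sg g) *ᵥ (den g (Sg s) *ᵥ u) =
      (g.toBlocks₁₁ - Sg g * g.toBlocks₂₁) *ᵥ (Sg s *ᵥ u) := by
    have h2 : (act g (Sg s) - Sg g) * den g (Sg s) =
        (g.toBlocks₁₁ - Sg g * g.toBlocks₂₁) * Sg s := by
      rw [Matrix.sub_mul, hg.act_den hS, Matrix.sub_mul]
      have h3 : Sg g * den g (Sg s) = Sg g * g.toBlocks₂₁ * Sg s + g.toBlocks₁₂ := by
        unfold den
        rw [Matrix.mul_add, ← Matrix.mul_assoc]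
        congr 1
        show g.toBlocks₁₂ * (g.toBlocks₂₂)⁻¹ * g.toBlocks₂₂ = g.toBlocks₁₂
        rw [Matrix.mul_assoc, nonsing_inv_mul _ hd, Matrix.mul_one]
      rw [h3]
      abel
    rw [mulVec_mulVec, h2, ← mulVec_mulVec]
  have h2 : nrm ((act g (Sg s) - Sg g) *ᵥ (den g (Sg s) *ᵥ u)) ≤ nrm u := by
    rw [h1]
    refine (nrm_mulVec_le _ _).trans ?_
    have h3 := hg.st2_norm_schur
    have h4 := hS u
    have h5 := nrm_nonneg (Sg s *ᵥ u)
    nlinarith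
  -- the denominator
  have h3 : dl g * ((1 - ‖Sg s‖) * nrm u) ≤ nrm (den g (Sg s) *ᵥ u) := by
    have h4 : den g (Sg s) *ᵥ u = g.toBlocks₂₂ *ᵥ (u - (Sg g⁻¹)ᵀ *ᵥ (Sg s *ᵥ u)) := by
      rw [hg.st2_den_eq, ← mulVec_mulVec, Matrix.sub_mulVec, one_mulVec, mulVec_mulVec]
    have h5 := dl_le_apply g (u - (Sg g⁻¹)ᵀ *ᵥ (Sg s *ᵥ u))
    rw [← h4] at h5
    refine le_trans (mul_le_mul_of_nonneg_left ?_ (by linarith)) h5
    have h6 : nrm ((Sg g⁻¹)ᵀ *ᵥ (Sg s *ᵥ u)) ≤ nrm (Sg s *ᵥ u) := by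
      refine (nrm_mulVec_le _ _).trans ?_
      rw [opNorm_transpose]
      have h7 := (isContr_iff _).1 hg.inv.Sg_contr
      have h8 := nrm_nonneg (Sg s *ᵥ u)
      nlinarith
    have h7 := nrm_add_le (u - (Sg g⁻¹)ᵀ *ᵥ (Sg s *ᵥ u)) ((Sg g⁻¹)ᵀ *ᵥ (Sg s *ᵥ u))
    rw [sub_add_cancel] at h7
    have h8 := nrm_mulVec_le (Sg s) u
    linarith
  refine h2.trans ?_
  rw [one_div, inv_mul_eq_div, le_div_iff₀ (by positivity)]
  calc nrm u * (dl g * (1 - ‖Sg s‖)) = dl g * ((1 - ‖Sg s‖) * nrm u) := by ring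
    _ ≤ _ := h3

section
variable {Γ : Type*} [Group Γ] {ρ : Γ →* M7} {l : Γ → ℕ} {c C K : ℝ}

/-- bounded distance: `n` steps -/
theorem Grow.steps (h : Grow Γ ρ l c C K) (n : ℕ) : ∃ A > 0, ∀ γ s : Γ, l s ≤ n →
    ‖Sg (ρ (γ * s)) - Sg (ρ γ)‖ ≤ A * Real.exp (-(c * l γ)) := by
  have hK := h.K_ge
  have hC := h.C_pos
  refine ⟨2 * (K ^ n) ^ 2 * C, by positivity, fun γ s hs => ?_⟩
  have h1 := Sg_mul_sub (h.isO γ) (h.isO s)
  rw [map_mul]
  refine h1.trans ?_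
  have h2 : ‖ρ s‖ ≤ K ^ n := (h.bound s).trans (pow_le_pow_right₀ hK hs)
  have h3 := (h.isO γ).one_le_dl
  have h4 := h.grow γ
  have h5 := st2_norm_Sg_le (h.isO s)
  have h6 := (h.isO s).st2_one_le_norm
  have h7 : 1 / (2 * (K ^ n) ^ 2) ≤ 1 - ‖Sg (ρ s)‖ := by
    have h8 : 1 / (2 * (K ^ n) ^ 2) ≤ 1 / (2 * ‖ρ s‖ ^ 2) := by
      apply div_le_div_of_nonneg_left
      · norm_num
      · positivity
      · gcongr
    linarith
  have hKn : (0 : ℝ) < K ^ n := by positivity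
  have h9 : (0 : ℝ) < Real.exp (c * l γ) := Real.exp_pos _
  have h10 : Real.exp (c * l γ) / C ≤ dl (ρ γ) := by
    rw [div_le_iff₀ hC, mul_comm (dl (ρ γ))]
    exact h4
  have h11 : Real.exp (c * l γ) / C * (1 / (2 * (K ^ n) ^ 2)) ≤
      dl (ρ γ) * (1 - ‖Sg (ρ s)‖) := by
    gcongr
  calc 1 / (dl (ρ γ) * (1 - ‖Sg (ρ s)‖))
      ≤ 1 / (Real.exp (c * l γ) / C * (1 / (2 * (K ^ n) ^ 2))) := by
        apply div_le_div_of_nonneg_left
        · norm_num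
        · positivity
        · exact h11
    _ = 2 * (K ^ n) ^ 2 * C * Real.exp (-(c * l γ)) := by
        rw [Real.exp_neg]
        field_simp

/-- one step -/
theorem Grow.step (h : Grow Γ ρ l c C K) : ∃ A > 0, ∀ γ s : Γ, l s ≤ 1 →
    ‖Sg (ρ (γ * s)) - Sg (ρ γ)‖ ≤ A * Real.exp (-(c * l γ)) := h.steps 1

/-- along a radial geodesic: `β` lies on a geodesic from `1` to `γ` -/
theorem Grow.radial (h : Grow Γ ρ l c C K) : ∃ A > 0, ∀ β γ : Γ, l γ = l β + l (β⁻¹ * γ) →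
    ‖Sg (ρ γ) - Sg (ρ β)‖ ≤ A * Real.exp (-(c * l β)) := by
  have hc := h.c_pos
  obtain ⟨A, hA, hstep⟩ := h.step
  have h0 : Real.exp (-c) < 1 := Real.exp_lt_one_iff.2 (by linarith)
  have h1 : (0 : ℝ) < 1 - Real.exp (-c) := by linarith
  have key : ∀ n : ℕ, ∀ β γ : Γ, l (β⁻¹ * γ) = n → l γ = l β + n →
      ‖Sg (ρ γ) - Sg (ρ β)‖ ≤
        A / (1 - Real.exp (-c)) * (Real.exp (-(c * l β)) - Real.exp (-(c * l γ))) := by
    intro n
    induction n with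
    | zero =>
      intro β γ h2 h3
      have h4 : β = γ := by
        have h5 := h.word.eq_one _ h2
        rwa [inv_mul_eq_one] at h5
      rw [h4]
      simp
    | succ n ih =>
      intro β γ h2 h3
      obtain ⟨α, α', h4, h5, h6⟩ := h.word.split (β⁻¹ * γ) 1 (by omega)
      have h7 : (β * α)⁻¹ * γ = α' := by
        rw [_root_.mul_inv_rev, mul_assoc, h4, inv_mul_cancel_left]
      have h8 : l ((β * α)⁻¹ * γ) = n := by
        rw [h7, h6, h2]
        omega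
      have h9 : l (β * α) = l β + 1 := by
        have h10 := h.word.mul_le β α
        have h11 := h.word.mul_le (β * α) ((β * α)⁻¹ * γ)
        rw [mul_inv_cancel_left, h8] at h11
        omega
      have h10 := ih (β * α) γ h8 (by omega)
      have h11 := hstep β α (by omega)
      have h12 : Real.exp (-(c * l (β * α))) = Real.exp (-(c * l β)) * Real.exp (-c) := by
        rw [← Real.exp_add, h9]
        congr 1
        push_cast
        ring
      rw [h12] at h10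
      have h13 := norm_add_le (Sg (ρ γ) - Sg (ρ (β * α))) (Sg (ρ (β * α)) - Sg (ρ β))
      rw [sub_add_sub_cancel] at h13
      refine h13.trans ((add_le_add h10 h11).trans (le_of_eq ?_))
      field_simp
      ring
  refine ⟨A / (1 - Real.exp (-c)), by positivity, fun β γ hβγ => ?_⟩
  refine (key _ β γ rfl hβγ).trans ?_
  have h2 : (0 : ℝ) ≤ A / (1 - Real.exp (-c)) := by positivity
  refine mul_le_mul_of_nonneg_left ?_ h2
  linarith [Real.exp_pos (-(c * l γ))]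

end

/-! ### Geodesics -/

section geod
variable {Γ : Type*} [Group Γ] {ρ : Γ →* M7} {l : Γ → ℕ} {c C K : ℝ}

lemma st2_path_sum {A : ℝ} (hA : ∀ γ s : Γ, l s ≤ 1 →
      ‖Sg (ρ (γ * s)) - Sg (ρ γ)‖ ≤ A * Real.exp (-(c * l γ))) (h : ℕ → Γ) {i j : ℕ}
    (hij : i ≤ j) (hh : ∀ k, i ≤ k → k < j → l ((h k)⁻¹ * h (k + 1)) ≤ 1) :
    ‖Sg (ρ (h j)) - Sg (ρ (h i))‖ ≤
      ∑ k ∈ Finset.Ico i j, A * Real.exp (-(c * l (h k))) := by
  induction j, hij using Nat.le_induction with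
  | base => simp
  | succ j hij ih =>
    rw [Finset.sum_Ico_succ_top hij]
    have h1 := ih (fun k hk hkj => hh k hk (by omega))
    have h2 := hA (h j) ((h j)⁻¹ * h (j + 1)) (hh j hij (by omega))
    rw [mul_inv_cancel_left] at h2
    have h3 := norm_add_le (Sg (ρ (h (j + 1))) - Sg (ρ (h j))) (Sg (ρ (h j)) - Sg (ρ (h i)))
    rw [sub_add_sub_cancel] at h3
    linarith

lemma IsGeod.st2_step {h : ℕ → Γ} {N : ℕ} (hg : IsGeod l h N) {k : ℕ} (hk : k < N) :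
    l ((h k)⁻¹ * h (k + 1)) ≤ 1 := by
  rw [hg k (k + 1) (by omega) (by omega)]
  omega

/-- geometric series -/
lemma st2_sum_exp_le {a : ℝ} (ha : 0 < a) (i j : ℕ) :
    ∑ k ∈ Finset.Ico i j, Real.exp (-(a * k)) ≤ Real.exp (-(a * i)) / (1 - Real.exp (-a)) := by
  have h0 : Real.exp (-a) < 1 := (Real.exp_lt_one_iff.2 (by linarith))
  have h1 : (0 : ℝ) < 1 - Real.exp (-a) := by linarith
  rcases le_or_gt i j with hij | hij
  · have key : ∑ k ∈ Finset.Ico i j, Real.exp (-(a * k)) * (1 - Real.exp (-a)) =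
        Real.exp (-(a * i)) - Real.exp (-(a * j)) := by
      induction j, hij using Nat.le_induction with
      | base => simp
      | succ j hij ih =>
        rw [Finset.sum_Ico_succ_top hij, ih]
        have h2 : Real.exp (-(a * (j + 1 : ℕ))) = Real.exp (-(a * j)) * Real.exp (-a) := by
          rw [← Real.exp_add]
          congr 1
          push_cast
          ring
        rw [h2]
        ring
    rw [le_div_iff₀ h1, Finset.sum_mul, key]
    linarith [Real.exp_pos (-(a * j))]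
  · rw [Finset.Ico_eq_empty (by omega), Finset.sum_empty]
    positivity

/-- two-sided geometric series -/
lemma st2_sum_exp_abs_le {a : ℝ} (ha : 0 < a) (i j m : ℕ) :
    ∑ k ∈ Finset.Ico i j, Real.exp (-(a * |(k : ℝ) - m|)) ≤ 2 / (1 - Real.exp (-a)) := by
  have h0 : Real.exp (-a) < 1 := (Real.exp_lt_one_iff.2 (by linarith))
  have h1 : (0 : ℝ) < 1 - Real.exp (-a) := by linarith
  have hR : ∀ n, ∑ k ∈ Finset.range n, Real.exp (-(a * k)) ≤ 1 / (1 - Real.exp (-a)) := by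
    intro n
    have h2 := st2_sum_exp_le ha 0 n
    rw [Nat.Ico_zero_eq_range] at h2
    simpa using h2
  have hsub : Finset.Ico i j ⊆ Finset.range m ∪ Finset.Ico m (m + j) := by
    intro k hk
    rw [Finset.mem_Ico] at hk
    rw [Finset.mem_union, Finset.mem_range, Finset.mem_Ico]
    omega
  calc ∑ k ∈ Finset.Ico i j, Real.exp (-(a * |(k : ℝ) - m|))
      ≤ ∑ k ∈ Finset.range m ∪ Finset.Ico m (m + j), Real.exp (-(a * |(k : ℝ) - m|)) :=
        Finset.sum_le_sum_of_subset_of_nonneg hsub fun _ _ _ => (Real.exp_pos _).le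
    _ ≤ ∑ k ∈ Finset.range m, Real.exp (-(a * |(k : ℝ) - m|)) +
          ∑ k ∈ Finset.Ico m (m + j), Real.exp (-(a * |(k : ℝ) - m|)) := by
        rw [← Finset.sum_union_inter]
        have : 0 ≤ ∑ k ∈ Finset.range m ∩ Finset.Ico m (m + j),
          Real.exp (-(a * |(k : ℝ) - m|)) := Finset.sum_nonneg fun _ _ => (Real.exp_pos _).le
        linarith
    _ ≤ 1 / (1 - Real.exp (-a)) + 1 / (1 - Real.exp (-a)) := by
        refine add_le_add ?_ ?_
        · refine le_trans ?_ (hR (m + 1))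
          rw [Finset.sum_range_succ', ← Finset.sum_range_reflect]
          have h3 : ∀ k ∈ Finset.range m, Real.exp (-(a * |((m - 1 - k : ℕ) : ℝ) - m|)) =
              Real.exp (-(a * ((k + 1 : ℕ) : ℝ))) := by
            intro k hk
            rw [Finset.mem_range] at hk
            have h4 : ((m - 1 - k : ℕ) : ℝ) = m - 1 - k := by
              rw [Nat.cast_sub (by omega), Nat.cast_sub (by omega)]
              push_cast
              ring
            rw [h4, show ((m : ℝ) - 1 - k - m) = -((k : ℝ) + 1) by ring, abs_neg,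
              abs_of_nonneg (by positivity)]
            push_cast
            rfl
          rw [Finset.sum_congr rfl h3]
          linarith [Real.exp_pos (-(a * ((0 : ℕ) : ℝ)))]
        · rw [Finset.sum_Ico_eq_sum_range]
          refine le_trans (le_of_eq ?_) (hR (m + j - m))
          refine Finset.sum_congr rfl fun k _ => ?_
          push_cast
          rw [add_sub_cancel_left, abs_of_nonneg (Nat.cast_nonneg k)]
    _ = 2 / (1 - Real.exp (-a)) := by ring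

/-- geodesics far from the identity -/
lemma Grow.far_geod (G : Grow Γ ρ l c C K) : ∃ C' > 0, ∀ (h : ℕ → Γ) (N L : ℕ), IsGeod l h N →
    (∀ k, k ≤ N → L ≤ l (h k)) → ∀ i j, i ≤ j → j ≤ N →
      ‖Sg (ρ (h j)) - Sg (ρ (h i))‖ ≤ C' * Real.exp (-(c / 2 * L)) := by
  have hc := G.c_pos
  obtain ⟨A, hA, hstep⟩ := G.step
  have h0 : Real.exp (-(c / 4)) < 1 := (Real.exp_lt_one_iff.2 (by linarith))
  have h1 : (0 : ℝ) < 1 - Real.exp (-(c / 4)) := by linarith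
  refine ⟨A * (2 / (1 - Real.exp (-(c / 4)))), by positivity,
    fun h N L hg hL i j hij hj => ?_⟩
  -- the point closest to the identity
  obtain ⟨m, hmN, hm⟩ : ∃ m ≤ N, ∀ k ≤ N, l (h m) ≤ l (h k) := by
    obtain ⟨m, hm, hmin⟩ := Finset.exists_min_image (Finset.range (N + 1)) (fun k => l (h k))
      ⟨0, by simp⟩
    exact ⟨m, by simpa using Nat.lt_succ_iff.1 (Finset.mem_range.1 hm), fun k hk =>
      hmin k (Finset.mem_range.2 (by omega))⟩
  have hk : ∀ k, k ≤ N → (L : ℝ) / 2 + |(k : ℝ) - m| / 4 ≤ l (h k) := by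
    intro k hkN
    have h3 : (L : ℝ) ≤ l (h k) := by exact_mod_cast hL k hkN
    have h4 : |(k : ℝ) - m| ≤ 2 * l (h k) := by
      have h5 : l ((h k)⁻¹ * h m) ≤ l (h k) + l (h m) := by
        refine (G.word.mul_le _ _).trans ?_
        rw [G.word.inv]
      have h5' : l ((h m)⁻¹ * h k) ≤ l (h k) + l (h m) := by
        refine (G.word.mul_le _ _).trans ?_
        rw [G.word.inv, add_comm]
      have h6 := hm k hkN
      rcases le_total k m with h7 | h7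
      · rw [hg k m h7 hmN] at h5
        have h8 : m - k ≤ 2 * l (h k) := by omega
        have h9 : ((m - k : ℕ) : ℝ) ≤ 2 * l (h k) := by exact_mod_cast h8
        rw [Nat.cast_sub h7] at h9
        rw [abs_sub_comm, abs_of_nonneg (by
          have : (k : ℝ) ≤ m := by exact_mod_cast h7
          linarith)]
        exact h9
      · rw [hg m k h7 hkN] at h5'
        have h8 : k - m ≤ 2 * l (h k) := by omega
        have h9 : ((k - m : ℕ) : ℝ) ≤ 2 * l (h k) := by exact_mod_cast h8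
        rw [Nat.cast_sub h7] at h9
        rw [abs_of_nonneg (by
          have : (m : ℝ) ≤ k := by exact_mod_cast h7
          linarith)]
        exact h9
    linarith
  refine (st2_path_sum hstep h hij fun k _ hk => hg.st2_step (by omega)).trans ?_
  rw [← Finset.mul_sum]
  have h2 : ∑ k ∈ Finset.Ico i j, Real.exp (-(c * l (h k))) ≤
      Real.exp (-(c / 2 * L)) * (2 / (1 - Real.exp (-(c / 4)))) := by
    calc ∑ k ∈ Finset.Ico i j, Real.exp (-(c * l (h k)))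
        ≤ ∑ k ∈ Finset.Ico i j, Real.exp (-(c / 2 * L)) *
            Real.exp (-(c / 4 * |(k : ℝ) - m|)) := by
          refine Finset.sum_le_sum fun k hk' => ?_
          rw [Finset.mem_Ico] at hk'
          rw [← Real.exp_add]
          refine Real.exp_le_exp.2 ?_
          have := hk k (by omega)
          nlinarith
      _ = Real.exp (-(c / 2 * L)) * ∑ k ∈ Finset.Ico i j,
            Real.exp (-(c / 4 * |(k : ℝ) - m|)) := by rw [Finset.mul_sum]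
      _ ≤ _ := by
          gcongr
          exact st2_sum_exp_abs_le (by linarith) i j m
  calc A * ∑ k ∈ Finset.Ico i j, Real.exp (-(c * l (h k)))
      ≤ A * (Real.exp (-(c / 2 * L)) * (2 / (1 - Real.exp (-(c / 4))))) := by gcongr
    _ = _ := by ring

/-- a geodesic which avoids a large ball: for two points `α`, `β` such that every `x` on a geodesic
between them (`l (α⁻¹ β) = l (α⁻¹ x) + l (x⁻¹ β)`) has length `≥ n`. -/
theorem Grow.far (h : Grow Γ ρ l c C K) : ∀ ε > 0, ∃ n : ℕ, ∀ α β : Γ,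
    (∀ x, l (α⁻¹ * β) = l (α⁻¹ * x) + l (x⁻¹ * β) → n ≤ l x) →
    ‖Sg (ρ α) - Sg (ρ β)‖ ≤ ε := by
  intro ε hε
  have hc := h.c_pos
  obtain ⟨C', hC', hfar⟩ := h.far_geod
  obtain ⟨n, hn⟩ : ∃ n : ℕ, C' * Real.exp (-(c / 2 * n)) ≤ ε := by
    obtain ⟨n, hn⟩ := exists_nat_gt (C' / ε / (c / 2))
    refine ⟨n, ?_⟩
    rw [div_lt_iff₀ (by positivity)] at hn
    have h1 := Real.add_one_le_exp ((n : ℝ) * (c / 2))
    have h2 : C' / ε ≤ Real.exp ((n : ℝ) * (c / 2)) := by linarith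
    rw [div_le_iff₀ hε] at h2
    rw [Real.exp_neg, ← div_eq_mul_inv, div_le_iff₀ (Real.exp_pos _), mul_comm (c / 2)]
    linarith
  refine ⟨n, fun α β hx => ?_⟩
  obtain ⟨g, hg0, hgN, hg⟩ := h.word.exists_geod (α⁻¹ * β)
  have hgl : ∀ k, k ≤ l (α⁻¹ * β) → l (g k) = k := by
    intro k hk
    have h1 := hg 0 k (Nat.zero_le _) hk
    rwa [hg0, inv_one, one_mul, Nat.sub_zero] at h1
  have hgeo : IsGeod l (fun k => α * g k) (l (α⁻¹ * β)) := by
    intro i j hij hj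
    show l ((α * g i)⁻¹ * (α * g j)) = j - i
    rw [_root_.mul_inv_rev, mul_assoc, inv_mul_cancel_left]
    exact hg i j hij hj
  have h1 := hfar (fun k => α * g k) (l (α⁻¹ * β)) n hgeo (fun k hk => by
    apply hx
    show l (α⁻¹ * β) = l (α⁻¹ * (α * g k)) + l ((α * g k)⁻¹ * β)
    rw [inv_mul_cancel_left, hgl k hk, _root_.mul_inv_rev, mul_assoc, ← hgN, hg k _ hk le_rfl, hgN]
    omega) 0 (l (α⁻¹ * β)) (Nat.zero_le _) le_rfl
  simp only [hg0, hgN, mul_one, mul_inv_cancel_left] at h1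
  rw [norm_sub_rev]
  exact h1.trans hn

end geod

end F31343H
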