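import Pool.Agent.Lib_MP_f31343_h.VitaliNull
import Pool.Agent.Lib_MP_f31343_h.Slab

open MeasureTheory Metric Set Filter Topology

namespace Pool.Agent.LibF31343h

/-- Euclidean three-space. -/
abbrev E3 : Type := EuclideanSpace ℝ (Fin 3)

/-- The vector product. -/
noncomputable def cr (a b : E3) : E3 :=
  !₂[a 1 * b 2 - a 2 * b 1, a 2 * b 0 - a 0 * b 2, a 0 * b 1 - a 1 * b 0]

/-- The coordinates of the point of the plane `(x,Y)` over the first basis vector. -/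
noncomputable def Gm (x Y : E3) : E3 :=
  !₂[x 0, -(x 0 * x 1) / 4 + Y 2, -(x 0 * x 2) / 4 - Y 1]

/-- The skew part of the pairing of the planes `(x,Y)` and `(x0,Y0)`. -/
noncomputable def Wt (x0 Y0 x Y : E3) : E3 :=
  (2 : ℝ) • (Y - Y0) - (1 / 2 : ℝ) • cr x0 (x - x0)

theorem cr_zero (a b : E3) : cr a b 0 = a 1 * b 2 - a 2 * b 1 := by simp [cr]
theorem cr_one (a b : E3) : cr a b 1 = a 2 * b 0 - a 0 * b 2 := by simp [cr]
theorem cr_two (a b : E3) : cr a b 2 = a 0 * b 1 - a 1 * b 0 := by simp [cr]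

theorem Gm_zero (x Y : E3) : Gm x Y 0 = x 0 := by simp [Gm]
theorem Gm_one (x Y : E3) : Gm x Y 1 = -(x 0 * x 1) / 4 + Y 2 := by simp [Gm]
theorem Gm_two (x Y : E3) : Gm x Y 2 = -(x 0 * x 2) / 4 - Y 1 := by simp [Gm]

theorem Wt_apply (x0 Y0 x Y : E3) (i : Fin 3) :
    Wt x0 Y0 x Y i = 2 * (Y i - Y0 i) - (1 / 2) * cr x0 (x - x0) i := by
  simp [Wt]

theorem inner3 (a b : E3) : inner ℝ a b = a 0 * b 0 + a 1 * b 1 + a 2 * b 2 := by
  rw [PiLp.inner_apply, Fin.sum_univ_three]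
  simp only [RCLike.inner_apply, conj_trivial]
  ring

theorem normSq3 (a : E3) : ‖a‖ ^ 2 = a 0 ^ 2 + a 1 ^ 2 + a 2 ^ 2 := by
  rw [← real_inner_self_eq_norm_sq, inner3]
  ring

theorem coordLe (a : E3) (i : Fin 3) : |a i| ≤ ‖a‖ := by
  have := PiLp.norm_apply_le a i
  simpa using this

/-- Components in direction `m` of a plane vector and a triple. -/
theorem twoCS (p q u v : ℝ) : |p * u - q * v| ≤ Real.sqrt (p ^ 2 + q ^ 2) * Real.sqrt (u ^ 2 + v ^ 2) := by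
  rw [← Real.sqrt_mul (by positivity)]
  apply Real.le_sqrt_of_sq_le
  rw [sq_abs]
  nlinarith [sq_nonneg (p * v + q * u)]

theorem crLe (a b : E3) (i : Fin 3) : |cr a b i| ≤ ‖a‖ * ‖b‖ := by
  have ha := normSq3 a
  have hb := normSq3 b
  have key : (cr a b i) ^ 2 ≤ (‖a‖ * ‖b‖) ^ 2 := by
    rw [mul_pow, ha, hb]
    fin_cases i
    · show cr a b 0 ^ 2 ≤ _
      rw [cr_zero]
      nlinarith [sq_nonneg (a 1 * b 1 + a 2 * b 2), sq_nonneg (a 0 * b 0), sq_nonneg (a 0 * b 1),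
        sq_nonneg (a 0 * b 2), sq_nonneg (a 1 * b 0), sq_nonneg (a 2 * b 0)]
    · show cr a b 1 ^ 2 ≤ _
      rw [cr_one]
      nlinarith [sq_nonneg (a 2 * b 2 + a 0 * b 0), sq_nonneg (a 1 * b 0), sq_nonneg (a 1 * b 1),
        sq_nonneg (a 1 * b 2), sq_nonneg (a 0 * b 1), sq_nonneg (a 2 * b 1)]
    · show cr a b 2 ^ 2 ≤ _
      rw [cr_two]
      nlinarith [sq_nonneg (a 0 * b 0 + a 1 * b 1), sq_nonneg (a 2 * b 0), sq_nonneg (a 2 * b 1),
        sq_nonneg (a 2 * b 2), sq_nonneg (a 0 * b 2), sq_nonneg (a 1 * b 2)]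
  exact abs_le_of_sq_le_sq key (by positivity)

/-- A unit vector of the plane which is orthogonal to `(p, q)`. -/
theorem exists_unit2 (p q : ℝ) : ∃ m1 m2 : ℝ, m1 ^ 2 + m2 ^ 2 = 1 ∧ m1 * p + m2 * q = 0 := by
  by_cases h : p = 0 ∧ q = 0
  · exact ⟨1, 0, by norm_num, by rw [h.1, h.2]; ring⟩
  · have hpos : 0 < p ^ 2 + q ^ 2 := by
      by_contra hc
      apply h
      have h1 : p ^ 2 + q ^ 2 = 0 := le_antisymm (not_lt.1 hc) (by positivity)
      have h2 : p ^ 2 = 0 := by nlinarith [sq_nonneg p, sq_nonneg q]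
      have h3 : q ^ 2 = 0 := by nlinarith [sq_nonneg p, sq_nonneg q]
      exact ⟨pow_eq_zero_iff (two_ne_zero) |>.1 h2, pow_eq_zero_iff (two_ne_zero) |>.1 h3⟩
    set r := Real.sqrt (p ^ 2 + q ^ 2) with hr
    have hr2 : r ^ 2 = p ^ 2 + q ^ 2 := Real.sq_sqrt hpos.le
    have hr0 : r ≠ 0 := (Real.sqrt_pos.2 hpos).ne'
    refine ⟨q / r, -p / r, ?_, ?_⟩
    · field_simp
      rw [hr2]; ring
    · field_simp
      ring

/-- The normal vector of Step 6. -/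
theorem exists_normal (x0 κ : E3) : ∃ n : E3, ‖n‖ = 1 ∧ ∀ Y0 x Y : E3,
    |inner ℝ (Gm x Y - Gm x0 Y0) n| ≤
      ‖Wt x0 Y0 x Y - (inner ℝ (Wt x0 Y0 x Y) κ : ℝ) • κ‖ / 2 + ‖x - x0‖ ^ 2 / 4 := by
  obtain ⟨m1, m2, hm, hmk⟩ := exists_unit2 (κ 2) (-κ 1)
  set a : ℝ := (x0 1 * m1 + x0 2 * m2) / 2 with ha
  set N : E3 := !₂[a, m1, m2] with hN
  have hN0 : N 0 = a := by simp [hN]
  have hN1 : N 1 = m1 := by simp [hN]
  have hN2 : N 2 = m2 := by simp [hN]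
  have hNn : ‖N‖ ^ 2 = a ^ 2 + 1 := by
    rw [normSq3, hN0, hN1, hN2]; linarith
  have hN1' : 1 ≤ ‖N‖ := by
    have : (1 : ℝ) ^ 2 ≤ ‖N‖ ^ 2 := by rw [hNn]; nlinarith [sq_nonneg a]
    exact le_of_sq_le_sq this (norm_nonneg _) |> fun h => h
  have hNpos : 0 < ‖N‖ := by linarith
  refine ⟨(‖N‖)⁻¹ • N, ?_, ?_⟩
  · rw [norm_smul, norm_inv, norm_norm, inv_mul_cancel₀ hNpos.ne']
  · intro Y0 x Y
    set W := Wt x0 Y0 x Y with hW
    set R := W - (inner ℝ W κ : ℝ) • κ with hR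
    set t : ℝ := inner ℝ W κ with ht
    have hWi : ∀ i, W i = R i + t * κ i := by
      intro i
      simp [hR]
    have e0 : W 0 = 2 * (Y 0 - Y0 0) - (1 / 2) * (x0 1 * (x 2 - x0 2) - x0 2 * (x 1 - x0 1)) := by
      rw [hW, Wt_apply, cr_zero]; simp
    have e1 : W 1 = 2 * (Y 1 - Y0 1) - (1 / 2) * (x0 2 * (x 0 - x0 0) - x0 0 * (x 2 - x0 2)) := by
      rw [hW, Wt_apply, cr_one]; simp
    have e2 : W 2 = 2 * (Y 2 - Y0 2) - (1 / 2) * (x0 0 * (x 1 - x0 1) - x0 1 * (x 0 - x0 0)) := by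
      rw [hW, Wt_apply, cr_two]; simp
    have hval : inner ℝ (Gm x Y - Gm x0 Y0) N =
        (m1 * R 2 - m2 * R 1) / 2 - (x 0 - x0 0) * (m1 * (x 1 - x0 1) + m2 * (x 2 - x0 2)) / 4 := by
      rw [inner3, hN0, hN1, hN2]
      simp only [PiLp.sub_apply, Gm_zero, Gm_one, Gm_two]
      have f1 := hWi 1
      have f2 := hWi 2
      rw [e1] at f1
      rw [e2] at f2
      rw [ha]
      have hmk' : m1 * κ 2 - m2 * κ 1 = 0 := by linarith
      linear_combination (m1 / 2) * f2 - (m2 / 2) * f1 + (t / 2) * hmk'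
    rw [inner_smul_right, abs_mul, abs_inv, abs_norm]
    have h1 : |inner ℝ (Gm x Y - Gm x0 Y0) N| ≤ ‖R‖ / 2 + ‖x - x0‖ ^ 2 / 4 := by
      rw [hval]
      have hR3 := normSq3 R
      have g1 : |m1 * R 2 - m2 * R 1| ≤ ‖R‖ := by
        refine abs_le_of_sq_le_sq ?_ (norm_nonneg _)
        rw [hR3]
        nlinarith [sq_nonneg (m1 * R 1 + m2 * R 2), sq_nonneg (R 0),
          mul_nonneg (sq_nonneg (R 1)) (sq_nonneg m1), hm]
      have hx3 := normSq3 (x - x0)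
      simp only [PiLp.sub_apply] at hx3
      have g2 : |(x 0 - x0 0) * (m1 * (x 1 - x0 1) + m2 * (x 2 - x0 2))| ≤ ‖x - x0‖ ^ 2 := by
        have g3 : (m1 * (x 1 - x0 1) + m2 * (x 2 - x0 2)) ^ 2 ≤
            (x 1 - x0 1) ^ 2 + (x 2 - x0 2) ^ 2 := by
          nlinarith [sq_nonneg (m1 * (x 2 - x0 2) - m2 * (x 1 - x0 1)), hm]
        rw [abs_le]
        constructor
        · nlinarith [sq_nonneg ((x 0 - x0 0) + (m1 * (x 1 - x0 1) + m2 * (x 2 - x0 2)))]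
        · nlinarith [sq_nonneg ((x 0 - x0 0) - (m1 * (x 1 - x0 1) + m2 * (x 2 - x0 2)))]
      have g4 := abs_sub ((m1 * R 2 - m2 * R 1) / 2)
        ((x 0 - x0 0) * (m1 * (x 1 - x0 1) + m2 * (x 2 - x0 2)) / 4)
      rw [abs_div, abs_div] at g4
      have h22 : |(2 : ℝ)| = 2 := abs_of_pos (by norm_num)
      have h44 : |(4 : ℝ)| = 4 := abs_of_pos (by norm_num)
      rw [h22, h44] at g4
      linarith
    calc ‖N‖⁻¹ * |inner ℝ (Gm x Y - Gm x0 Y0) N|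
        ≤ 1 * |inner ℝ (Gm x Y - Gm x0 Y0) N| := by
          apply mul_le_mul_of_nonneg_right _ (abs_nonneg _)
          exact inv_le_one_of_one_le₀ hN1'
      _ ≤ ‖R‖ / 2 + ‖x - x0‖ ^ 2 / 4 := by rw [one_mul]; exact h1

theorem normLeOfCoord (w : E3) (c : ℝ) (h : ∀ i, |w i| ≤ c) : ‖w‖ ≤ 2 * c := by
  have hc : 0 ≤ c := (abs_nonneg _).trans (h 0)
  have h0 := h 0
  have h1 := h 1
  have h2 := h 2
  have hs : ∀ i, w i ^ 2 ≤ c ^ 2 := fun i => by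
    have := abs_le.1 (h i)
    nlinarith [this.1, this.2]
  refine abs_le_of_sq_le_sq' ?_ (by positivity) |>.2
  rw [normSq3]
  nlinarith [hs 0, hs 1, hs 2, sq_nonneg c]

theorem GmDist (x0 Y0 x Y : E3) (ρ : ℝ) (hρ1 : ρ ≤ 1) (hx : ‖x - x0‖ ≤ ρ)
    (hY : ‖Y - Y0‖ ≤ ρ) : ‖Gm x Y - Gm x0 Y0‖ ≤ (4 + 2 * ‖x0‖) * ρ := by
  have hρ0 : 0 ≤ ρ := (norm_nonneg _).trans hx
  have hx0 : ∀ i, |x i - x0 i| ≤ ρ := fun i => by
    have := coordLe (x - x0) i
    simp only [PiLp.sub_apply] at this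
    exact this.trans hx
  have hY0 : ∀ i, |Y i - Y0 i| ≤ ρ := fun i => by
    have := coordLe (Y - Y0) i
    simp only [PiLp.sub_apply] at this
    exact this.trans hY
  have ha : ∀ i, |x0 i| ≤ ‖x0‖ := coordLe x0
  have hprod : ∀ i, |x 0 * x i - x0 0 * x0 i| ≤ (1 + 2 * ‖x0‖) * ρ := by
    intro i
    have e : x 0 * x i - x0 0 * x0 i =
        (x 0 - x0 0) * (x i - x0 i) + (x0 0 * (x i - x0 i) + x0 i * (x 0 - x0 0)) := by ring
    rw [e]
    calc |(x 0 - x0 0) * (x i - x0 i) + (x0 0 * (x i - x0 i) + x0 i * (x 0 - x0 0))|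
        ≤ |(x 0 - x0 0) * (x i - x0 i)| + |x0 0 * (x i - x0 i) + x0 i * (x 0 - x0 0)| :=
          abs_add_le _ _
      _ ≤ |(x 0 - x0 0) * (x i - x0 i)| + (|x0 0 * (x i - x0 i)| + |x0 i * (x 0 - x0 0)|) := by
          gcongr
          exact abs_add_le _ _
      _ = |x 0 - x0 0| * |x i - x0 i| + (|x0 0| * |x i - x0 i| + |x0 i| * |x 0 - x0 0|) := by
          rw [abs_mul, abs_mul, abs_mul]
      _ ≤ ρ * 1 + (‖x0‖ * ρ + ‖x0‖ * ρ) := by
          gcongr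
          · exact hx0 0
          · exact (hx0 i).trans hρ1
          · exact ha 0
          · exact hx0 i
          · exact ha i
          · exact hx0 0
      _ = (1 + 2 * ‖x0‖) * ρ := by ring
  have hn : 0 ≤ ‖x0‖ := norm_nonneg _
  have hmul : 0 ≤ ‖x0‖ * ρ := mul_nonneg hn hρ0
  have key : ∀ i, |(Gm x Y - Gm x0 Y0) i| ≤ (2 + ‖x0‖) * ρ := by
    intro i
    fin_cases i
    · show |(Gm x Y - Gm x0 Y0) 0| ≤ _
      simp only [PiLp.sub_apply, Gm_zero]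
      have := hx0 0
      nlinarith
    · show |(Gm x Y - Gm x0 Y0) 1| ≤ _
      simp only [PiLp.sub_apply, Gm_one]
      have e : -(x 0 * x 1) / 4 + Y 2 - (-(x0 0 * x0 1) / 4 + Y0 2) =
        -((x 0 * x 1 - x0 0 * x0 1) / 4) + (Y 2 - Y0 2) := by ring
      rw [e]
      have h1 := hprod 1
      have h2 := hY0 2
      rw [abs_le] at h1 h2 ⊢
      constructor <;> nlinarith [h1.1, h1.2, h2.1, h2.2]
    · show |(Gm x Y - Gm x0 Y0) 2| ≤ _
      simp only [PiLp.sub_apply, Gm_two]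
      have e : -(x 0 * x 2) / 4 - Y 1 - (-(x0 0 * x0 2) / 4 - Y0 1) =
        -((x 0 * x 2 - x0 0 * x0 2) / 4) - (Y 1 - Y0 1) := by ring
      rw [e]
      have h1 := hprod 2
      have h2 := hY0 1
      rw [abs_le] at h1 h2 ⊢
      constructor <;> nlinarith [h1.1, h1.2, h2.1, h2.2]
  have := normLeOfCoord _ _ key
  calc _ ≤ _ := this
    _ = _ := by ring

/-- Step 6. -/
theorem stepSix {P : Type*} (x Y : P → E3) (s : ℝ) (hs : s = 1 ∨ s = -1)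
    (hsign : ∀ p p', 0 ≤ s * inner ℝ (x p - x p') (Y p - Y p'))
    (hG : ∀ c : E3, ∃ p, Gm (x p) (Y p) = c)
    (hloc : ∀ p0, ∀ η : ℝ, 0 < η → ∃ ρ : ℝ, 0 < ρ ∧ ρ ≤ η ∧ ∃ κ : E3, ‖κ‖ = 1 ∧
      ∀ p, ‖(x p + s • Y p) - (x p0 + s • Y p0)‖ ≤ ρ →
        ‖Wt (x p0) (Y p0) (x p) (Y p) -
          (inner ℝ (Wt (x p0) (Y p0) (x p) (Y p)) κ : ℝ) • κ‖ ≤ η * ρ) : False := by
  have hs2 : s ^ 2 = 1 := by rcases hs with h | h <;> rw [h] <;> norm_num
  have hz : ∀ p p', ‖x p - x p'‖ ^ 2 + ‖Y p - Y p'‖ ^ 2 ≤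
      ‖(x p + s • Y p) - (x p' + s • Y p')‖ ^ 2 := by
    intro p p'
    have e : (x p + s • Y p) - (x p' + s • Y p') = (x p - x p') + s • (Y p - Y p') := by
      rw [smul_sub]; abel
    rw [e, norm_add_sq_real, norm_smul, inner_smul_right, mul_pow, Real.norm_eq_abs, sq_abs, hs2]
    have := hsign p p'
    linarith
  have hnull := vitaliNull (fun p => x p + s • Y p) (fun p => Gm (x p) (Y p)) ?_
  · have hr : Set.range (fun p => Gm (x p) (Y p)) = univ := by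
      ext c
      simp only [mem_range, mem_univ, iff_true]
      exact hG c
    rw [hr] at hnull
    exact (isOpen_univ.measure_pos (volume : Measure E3) univ_nonempty).ne' hnull
  · intro p0 ε hε
    set b : ℝ := 4 + 2 * ‖x p0‖ with hb
    have hb0 : 0 < b := by positivity
    set η : ℝ := min 1 (ε / (8 * b ^ 2)) with hη
    have hη0 : 0 < η := lt_min one_pos (by positivity)
    obtain ⟨ρ, hρ0, hρη, κ, -, hκ⟩ := hloc p0 η hη0
    have hρ1 : ρ ≤ 1 := hρη.trans (min_le_left _ _)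
    refine ⟨ρ, hρ0, hρ1, ?_⟩
    obtain ⟨n, hn, hnW⟩ := exists_normal (x p0) κ
    have hsub : (fun p => Gm (x p) (Y p)) ''
        {p' | dist ((fun p => x p + s • Y p) p') ((fun p => x p + s • Y p) p0) ≤ ρ} ⊆
        {w : EuclideanSpace ℝ (Fin 3) | ‖w - Gm (x p0) (Y p0)‖ ≤ b * ρ ∧
          |inner ℝ (w - Gm (x p0) (Y p0)) n| ≤ η * ρ} := by
      rintro _ ⟨p, hp, rfl⟩
      have hp' : ‖(x p + s • Y p) - (x p0 + s • Y p0)‖ ≤ ρ := by
        have := hp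
        simp only [mem_ofPred_eq, dist_eq_norm] at this
        exact this
      have hz' := hz p p0
      have hsq : ‖(x p + s • Y p) - (x p0 + s • Y p0)‖ ^ 2 ≤ ρ ^ 2 :=
        pow_le_pow_left₀ (norm_nonneg _) hp' 2
      have hx : ‖x p - x p0‖ ≤ ρ := by
        refine abs_le_of_sq_le_sq' ?_ hρ0.le |>.2
        nlinarith [sq_nonneg ‖Y p - Y p0‖]
      have hY : ‖Y p - Y p0‖ ≤ ρ := by
        refine abs_le_of_sq_le_sq' ?_ hρ0.le |>.2
        nlinarith [sq_nonneg ‖x p - x p0‖]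
      refine ⟨GmDist _ _ _ _ ρ hρ1 hx hY, ?_⟩
      have h1 := hnW (Y p0) (x p) (Y p)
      have h2 := hκ p hp'
      have h3 : ‖x p - x p0‖ ^ 2 ≤ η * ρ := by
        calc ‖x p - x p0‖ ^ 2 ≤ ρ ^ 2 := pow_le_pow_left₀ (norm_nonneg _) hx 2
          _ = ρ * ρ := by ring
          _ ≤ η * ρ := by gcongr
      have h4 : 0 ≤ η * ρ := by positivity
      calc _ ≤ _ := h1
        _ ≤ η * ρ / 2 + η * ρ / 4 := by gcongr
        _ ≤ η * ρ := by linarith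
    calc volume _ ≤ volume {w : EuclideanSpace ℝ (Fin 3) | ‖w - Gm (x p0) (Y p0)‖ ≤ b * ρ ∧
          |inner ℝ (w - Gm (x p0) (Y p0)) n| ≤ η * ρ} := measure_mono hsub
      _ ≤ ENNReal.ofReal (8 * (η * ρ) * (b * ρ) ^ 2) :=
          slabVolume n _ hn _ _ (by positivity) (by positivity)
      _ ≤ ENNReal.ofReal (ε * ρ ^ 3) := by
          apply ENNReal.ofReal_le_ofReal
          have h5 : η ≤ ε / (8 * b ^ 2) := min_le_right _ _
          have h6 : η * (8 * b ^ 2) ≤ ε := by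
            rwa [le_div_iff₀ (by positivity)] at h5
          calc 8 * (η * ρ) * (b * ρ) ^ 2 = (η * (8 * b ^ 2)) * ρ ^ 3 := by ring
            _ ≤ ε * ρ ^ 3 := by gcongr

end Pool.Agent.LibF31343h
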