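import Pool.Agent.Lib_MP_f31343_h.Dyn

/-!
# Theorem A: the limit set
-/

open Matrix Filter Topology
open scoped Matrix.Norms.L2Operator

namespace F31343H

variable {Γ : Type*} [Group Γ] {ρ : Γ →* M7}

theorem Act.exists_limitSet (h : Act Γ ρ) : ∃ Λ : Set M43, LimitSet Λ := by
  obtain ⟨l, c, C, K, hg⟩ := h.exists_grow
  refine ⟨limSet ρ l, hg.isCompact_limSet, hg.isom_limSet, hg.cover, hg.transv, ?_⟩
  intro S hS S' hS' hne
  obtain ⟨κ, hκ, hd⟩ := hg.dyn S hS S' hS' hne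
  refine ⟨κ, hκ, fun ε hε => ?_⟩
  obtain ⟨γ, h1, h2⟩ := hd ε hε
  exact ⟨ρ γ, hg.isO γ, hg.act_mem_limSet γ, h1, h2⟩

end F31343H
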