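import Mathlib

open MeasureTheory Metric Set

namespace Pool.Agent.F31343H

/-- Volume of a piece of a slab in a ball. -/
theorem slab_volume (n : EuclideanSpace ℝ (Fin 3)) (hn : ‖n‖ = 1)
    (w0 : EuclideanSpace ℝ (Fin 3)) (A : Set (EuclideanSpace ℝ (Fin 3))) (η R : ℝ)
    (h : ∀ w ∈ A, |inner ℝ n (w - w0)| ≤ η ∧ ‖w - w0‖ ≤ R) :
    volume A ≤ ENNReal.ofReal (2 * η * (2 * R) ^ 2) := by
  classical
  have hort : Orthonormal ℝ (({0} : Set (Fin 3)).domRestrict (fun _ : Fin 3 => n)) := by
    constructor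
    · intro i
      show ‖n‖ = 1
      exact hn
    · intro i j hij
      exact absurd (Subsingleton.elim i j) hij
  obtain ⟨b, hb⟩ := hort.exists_orthonormalBasis_extension_of_card_eq
    (by simp)
  have hb0 : b 0 = n := hb 0 (by simp)
  let c : Fin 3 → ℝ := ![η, R, R]
  let f : EuclideanSpace ℝ (Fin 3) → (Fin 3 → ℝ) := fun w => (b.repr (w - w0)).ofLp
  have hf : MeasurePreserving f volume volume := by
    have h1 : MeasurePreserving (fun w : EuclideanSpace ℝ (Fin 3) => w - w0) volume volume :=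
      measurePreserving_sub_right volume w0
    have h2 := b.measurePreserving_repr
    have h3 := PiLp.volume_preserving_ofLp (Fin 3)
    exact h3.comp (h2.comp h1)
  have hsub : A ⊆ f ⁻¹' (Set.pi Set.univ fun i => Set.Icc (-(c i)) (c i)) := by
    intro w hw
    obtain ⟨h1, h2⟩ := h w hw
    rw [Set.mem_preimage, Set.mem_univ_pi]
    have hR : ∀ i, |(b.repr (w - w0)).ofLp i| ≤ R := by
      intro i
      have h3 := PiLp.norm_apply_le (b.repr (w - w0)) i
      rw [LinearIsometryEquiv.norm_map] at h3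
      exact (by simpa using h3 : |(b.repr (w - w0)).ofLp i| ≤ ‖w - w0‖).trans h2
    intro i
    rw [Set.mem_Icc, ← abs_le]
    fin_cases i
    · show |(b.repr (w - w0)).ofLp 0| ≤ η
      rw [b.repr_apply_apply, hb0]
      exact h1
    · exact hR 1
    · exact hR 2
  calc volume A ≤ volume (f ⁻¹' (Set.pi Set.univ fun i => Set.Icc (-(c i)) (c i))) :=
        measure_mono hsub
    _ = volume (Set.pi Set.univ fun i => Set.Icc (-(c i)) (c i)) :=
        hf.measure_preimage (MeasurableSet.univ_pi fun i => measurableSet_Icc).nullMeasurableSet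
    _ ≤ ENNReal.ofReal (2 * η * (2 * R) ^ 2) := by
        rw [volume_pi_pi, Fin.prod_univ_three]
        simp only [Real.volume_Icc]
        show ENNReal.ofReal (η - -η) * ENNReal.ofReal (R - -R) * ENNReal.ofReal (R - -R) ≤ _
        rcases lt_or_ge η 0 with hη | hη
        · rw [ENNReal.ofReal_of_nonpos (by linarith : η - -η ≤ 0)]
          simp
        rcases lt_or_ge R 0 with hR | hR
        · rw [ENNReal.ofReal_of_nonpos (by linarith : R - -R ≤ 0)]
          simp
        rw [← ENNReal.ofReal_mul (by linarith), ← ENNReal.ofReal_mul (by nlinarith)]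
        apply ENNReal.ofReal_le_ofReal
        nlinarith [sq_nonneg R]

/-- Vitali argument: a set covered finely by small balls whose images have small volume
has a null image. -/
theorem vitali_null {P : Type*} (z G : P → EuclideanSpace ℝ (Fin 3)) (S : Set P)
    (hb : Bornology.IsBounded (z '' S))
    (h : ∀ p ∈ S, ∀ ε > 0, ∀ r > 0, ∃ ρ, 0 < ρ ∧ ρ < r ∧
      volume (G '' {p' | p' ∈ S ∧ dist (z p') (z p) ≤ ρ}) ≤ ENNReal.ofReal (ε * ρ ^ 3)) :
    volume (G '' S) = 0 := by
  classical
  obtain ⟨R, hRpos, hR⟩ : ∃ R : ℝ, 0 < R ∧ ∀ p ∈ S, z p ∈ closedBall (0 : EuclideanSpace ℝ (Fin 3)) R := by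
    obtain ⟨R, hR⟩ := hb.subset_closedBall 0
    exact ⟨max R 1, by positivity, fun p hp => closedBall_subset_closedBall (le_max_left _ _)
      (hR ⟨p, hp, rfl⟩)⟩
  -- main estimate
  have key : ∀ ε > 0, volume (G '' S) ≤ ENNReal.ofReal ε * volume (closedBall (0 : EuclideanSpace ℝ (Fin 3)) (R + 1)) := by
    intro ε hε
    -- constant: volume of a ball of radius ρ/5
    obtain ⟨κ, hκpos, hκ⟩ : ∃ κ : ℝ, 0 < κ ∧ ∀ (x : EuclideanSpace ℝ (Fin 3)) (ρ : ℝ), 0 < ρ →
        ENNReal.ofReal (κ * ρ ^ 3) ≤ volume (closedBall x (ρ / 5)) := by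
      have hV0 : 0 < volume (ball (0 : EuclideanSpace ℝ (Fin 3)) 1) := measure_ball_pos _ _ one_pos
      have hVt : volume (ball (0 : EuclideanSpace ℝ (Fin 3)) 1) < ⊤ := measure_ball_lt_top
      refine ⟨(volume (ball (0 : EuclideanSpace ℝ (Fin 3)) 1)).toReal / 125,
        div_pos (ENNReal.toReal_pos hV0.ne' hVt.ne) (by norm_num), fun x ρ hρ => ?_⟩
      rw [Measure.addHaar_closedBall volume x (by positivity)]
      have h3 : Module.finrank ℝ (EuclideanSpace ℝ (Fin 3)) = 3 := by simp
      rw [h3]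
      have h4 : volume (ball (0 : EuclideanSpace ℝ (Fin 3)) 1) =
          ENNReal.ofReal (volume (ball (0 : EuclideanSpace ℝ (Fin 3)) 1)).toReal :=
        (ENNReal.ofReal_toReal hVt.ne).symm
      rw [h4, ← ENNReal.ofReal_mul (by positivity), ENNReal.toReal_ofReal ENNReal.toReal_nonneg]
      apply ENNReal.ofReal_le_ofReal
      apply le_of_eq
      ring
    choose! ρ hρ0 hρ1 hρ2 using fun p (hp : p ∈ S) => h p hp (ε * κ) (by positivity) 1 one_pos
    obtain ⟨u, huS, hudis, hucov⟩ := Vitali.exists_disjoint_subfamily_covering_enlargement_closedBall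
      S z (fun p => ρ p / 5) 1 (fun p hp => by have := hρ1 p hp; linarith) 5 (by norm_num)
    have hcount : u.Countable := by
      apply hudis.countable_of_nonempty_interior
      intro p hp
      refine ⟨z p, ?_⟩
      apply ball_subset_interior_closedBall
      have := hρ0 p (huS hp)
      simp only [mem_ball, dist_self]
      positivity
    have hsub : G '' S ⊆ ⋃ p ∈ u, G '' {p' | p' ∈ S ∧ dist (z p') (z p) ≤ ρ p} := by
      rintro _ ⟨a, ha, rfl⟩
      obtain ⟨b, hbu, hb'⟩ := hucov a ha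
      refine mem_iUnion₂.2 ⟨b, hbu, ⟨a, ⟨ha, ?_⟩, rfl⟩⟩
      have h1 : z a ∈ closedBall (z a) (ρ a / 5) := by
        have := hρ0 a ha
        apply mem_closedBall_self
        positivity
      have h2 := hb' h1
      rw [mem_closedBall] at h2
      linarith
    calc volume (G '' S) ≤ volume (⋃ p ∈ u, G '' {p' | p' ∈ S ∧ dist (z p') (z p) ≤ ρ p}) :=
          measure_mono hsub
      _ ≤ ∑' p : u, volume (G '' {p' | p' ∈ S ∧ dist (z p') (z p) ≤ ρ p}) :=
          measure_biUnion_le volume hcount _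
      _ ≤ ∑' p : u, ENNReal.ofReal ε * volume (closedBall (z p) (ρ p / 5)) := by
          apply ENNReal.tsum_le_tsum
          intro p
          have hp := huS p.2
          calc volume (G '' {p' | p' ∈ S ∧ dist (z p') (z p) ≤ ρ p})
              ≤ ENNReal.ofReal (ε * κ * ρ p ^ 3) := hρ2 p hp
            _ = ENNReal.ofReal ε * ENNReal.ofReal (κ * ρ p ^ 3) := by
                rw [← ENNReal.ofReal_mul hε.le]
                congr 1
                ring
            _ ≤ _ := mul_le_mul_right (hκ (z p) (ρ p) (hρ0 p hp)) _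
      _ = ENNReal.ofReal ε * ∑' p : u, volume (closedBall (z p) (ρ p / 5)) :=
          ENNReal.tsum_mul_left
      _ = ENNReal.ofReal ε * volume (⋃ p ∈ u, closedBall (z p) (ρ p / 5)) := by
          rw [measure_biUnion hcount hudis (fun p _ => measurableSet_closedBall)]
      _ ≤ ENNReal.ofReal ε * volume (closedBall (0 : EuclideanSpace ℝ (Fin 3)) (R + 1)) := by
          apply mul_le_mul_right
          apply measure_mono
          refine iUnion₂_subset fun p hp => ?_
          have h1 := hρ1 p (huS hp)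
          have h2 := hR p (huS hp)
          rw [mem_closedBall] at h2
          apply closedBall_subset_closedBall'
          linarith
  have hfin : volume (closedBall (0 : EuclideanSpace ℝ (Fin 3)) (R + 1)) < ⊤ :=
    measure_closedBall_lt_top
  by_contra hne
  have hpos : 0 < volume (G '' S) := pos_iff_ne_zero.2 hne
  have hGfin : volume (G '' S) < ⊤ := by
    refine (key 1 one_pos).trans_lt ?_
    exact ENNReal.mul_lt_top ENNReal.ofReal_lt_top hfin
  have hB : 0 < (volume (closedBall (0 : EuclideanSpace ℝ (Fin 3)) (R + 1))).toReal :=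
    ENNReal.toReal_pos (measure_closedBall_pos volume _ (by linarith)).ne' hfin.ne
  have hG : 0 < (volume (G '' S)).toReal := ENNReal.toReal_pos hpos.ne' hGfin.ne
  have h1 := key ((volume (G '' S)).toReal /
    (2 * (volume (closedBall (0 : EuclideanSpace ℝ (Fin 3)) (R + 1))).toReal)) (by positivity)
  have h2 := ENNReal.toReal_mono (ENNReal.mul_lt_top ENNReal.ofReal_lt_top hfin).ne h1
  rw [ENNReal.toReal_mul, ENNReal.toReal_ofReal (by positivity)] at h2
  have h3 : (volume (G '' S)).toReal /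
    (2 * (volume (closedBall (0 : EuclideanSpace ℝ (Fin 3)) (R + 1))).toReal) *
    (volume (closedBall (0 : EuclideanSpace ℝ (Fin 3)) (R + 1))).toReal =
      (volume (G '' S)).toReal / 2 := by
    field_simp
  rw [h3] at h2
  linarith

/-- A unit vector orthogonal to two given vectors. -/
theorem exists_unit_orthogonal (v1 v2 : EuclideanSpace ℝ (Fin 3)) :
    ∃ n : EuclideanSpace ℝ (Fin 3), ‖n‖ = 1 ∧ inner ℝ n v1 = 0 ∧ inner ℝ n v2 = 0 := by
  classical
  let K : Submodule ℝ (EuclideanSpace ℝ (Fin 3)) := Submodule.span ℝ {v1, v2}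
  have h3 : Module.finrank ℝ (EuclideanSpace ℝ (Fin 3)) = 3 := by simp
  have hK : Module.finrank ℝ K ≤ 2 := by
    have h2 : K = Submodule.span ℝ (({v1, v2} : Finset (EuclideanSpace ℝ (Fin 3))) : Set (EuclideanSpace ℝ (Fin 3))) := by
      simp [K]
    rw [h2]
    exact (finrank_span_finset_le_card (R := ℝ) ({v1, v2} : Finset (EuclideanSpace ℝ (Fin 3)))).trans
      Finset.card_le_two
  have hsum := K.finrank_add_finrank_orthogonal
  have hne : 0 < Module.finrank ℝ Kᗮ := by omega
  obtain ⟨m, hm, hm0⟩ := Submodule.exists_mem_ne_zero_of_ne_bot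
    (p := Kᗮ) (by rintro h; rw [h] at hne; simp at hne)
  refine ⟨‖m‖⁻¹ • m, ?_, ?_, ?_⟩
  · rw [norm_smul, norm_inv, norm_norm, inv_mul_cancel₀ (norm_ne_zero_iff.2 hm0)]
  · rw [inner_smul_left, K.inner_left_of_mem_orthogonal (Submodule.subset_span (by simp)) hm, mul_zero]
  · rw [inner_smul_left, K.inner_left_of_mem_orthogonal (Submodule.subset_span (by simp)) hm, mul_zero]

/-- Volume of a thin neighbourhood of a piece of a plane (parametrised). -/
theorem plane_volume (v1 v2 w0 : EuclideanSpace ℝ (Fin 3)) (A : Set (EuclideanSpace ℝ (Fin 3)))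
    (a0 b0 η : ℝ)
    (h : ∀ w ∈ A, ∃ a b : ℝ, ∃ r : EuclideanSpace ℝ (Fin 3), w = w0 + a • v1 + b • v2 + r ∧
      |a| ≤ a0 ∧ |b| ≤ b0 ∧ ‖r‖ ≤ η) :
    volume A ≤ ENNReal.ofReal (2 * η * (2 * (a0 * ‖v1‖ + b0 * ‖v2‖ + η)) ^ 2) := by
  obtain ⟨n, hn, hn1, hn2⟩ := exists_unit_orthogonal v1 v2
  apply slab_volume n hn w0 A η _
  intro w hw
  obtain ⟨a, b, r, rfl, ha, hb, hr⟩ := h w hw
  have e1 : w0 + a • v1 + b • v2 + r - w0 = a • v1 + b • v2 + r := by abel
  rw [e1]
  constructor
  · rw [inner_add_right, inner_add_right, inner_smul_right, inner_smul_right, hn1, hn2]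
    simp only [mul_zero, zero_add]
    refine (abs_real_inner_le_norm n r).trans ?_
    rw [hn, one_mul]
    exact hr
  · refine (norm_add₃_le).trans ?_
    rw [norm_smul, norm_smul, Real.norm_eq_abs, Real.norm_eq_abs]
    gcongr

end Pool.Agent.F31343H
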