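import Mathlib

/-!
MP_f31343_gt, H^{4,2}: the Vitali argument.
-/

open MeasureTheory Metric Set

noncomputable section

namespace MP_f31343_h

/-- if every point of `K` is the centre of arbitrarily small balls (measured by z) whose image under `G`
has volume `≤ ε ρ³`, then `G '' K` is a null set -/
theorem vitali_zero {ι : Type*} {X : Type*} [MeasurableSpace X] (μ : Measure X)
    (K K' : Set ι) (z : ι → EuclideanSpace ℝ (Fin 3)) (G : ι → X) (R : ℝ)
    (hKK : K ⊆ K') (hR : ∀ p ∈ K, ‖z p‖ ≤ R)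
    (h : ∀ p0 ∈ K, ∀ ε : ℝ, 0 < ε → ∃ ρ : ℝ, 0 < ρ ∧ ρ ≤ ε ∧
      μ (G '' {p | p ∈ K' ∧ ‖z p - z p0‖ ≤ ρ}) ≤ ENNReal.ofReal (ε * ρ ^ 3)) :
    μ (G '' K) = 0 := by
  classical
  set ν : Measure (EuclideanSpace ℝ (Fin 3)) := volume with hν
  set b1 : ENNReal := ν (closedBall 0 1) with hb1
  have hb1pos : b1 ≠ 0 := (measure_closedBall_pos ν 0 one_pos).ne'
  have hb1top : b1 ≠ ⊤ := (isCompact_closedBall _ _).measure_lt_top.ne
  have hball : ∀ (x : EuclideanSpace ℝ (Fin 3)) {r : ℝ}, 0 ≤ r →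
      ν (closedBall x r) = ENNReal.ofReal (r ^ 3) * b1 := by
    intro x r hr
    have := Measure.addHaar_closedBall' ν x hr
    rwa [finrank_euclideanSpace_fin] at this
  -- the constant
  set C : ENNReal := 125 * (ν (closedBall 0 (R + 1)) / b1) with hC
  have hCtop : C ≠ ⊤ := by
    refine ENNReal.mul_ne_top (by norm_num) (ENNReal.div_ne_top ?_ hb1pos)
    exact (isCompact_closedBall _ _).measure_lt_top.ne
  have key : ∀ ε : ℝ, 0 < ε → ε ≤ 1 → μ (G '' K) ≤ ENNReal.ofReal ε * C := by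
    intro ε hε hε1
    have h' : ∀ p0 : ι, ∃ ρ : ℝ, p0 ∈ K → (0 < ρ ∧ ρ ≤ ε ∧
        μ (G '' {p | p ∈ K' ∧ ‖z p - z p0‖ ≤ ρ}) ≤ ENNReal.ofReal (ε * ρ ^ 3)) := by
      intro p0
      by_cases hp : p0 ∈ K
      · obtain ⟨ρ, hρ⟩ := h p0 hp ε hε
        exact ⟨ρ, fun _ => hρ⟩
      · exact ⟨0, fun h => absurd h hp⟩
    choose ρ hρ using h'
    obtain ⟨u, huK, hdisj, hcov⟩ := Vitali.exists_disjoint_subfamily_covering_enlargement_closedBall
      K z (fun p => ρ p / 5) ε (fun a ha => by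
        have := hρ a ha
        linarith [this.1, this.2.1]) 5 (by norm_num)
    have hucount : u.Countable := by
      refine hdisj.countable_of_nonempty_interior fun a ha => ?_
      have h1 : ball (z a) (ρ a / 5) ⊆ interior (closedBall (z a) (ρ a / 5)) :=
        ball_subset_interior_closedBall
      exact ⟨z a, h1 (mem_ball_self (by linarith [(hρ a (huK ha)).1]))⟩
    -- the sum of the volumes
    have hsum : ∑' b : u, ENNReal.ofReal (ρ b ^ 3) ≤ C := by
      have h1 : ∑' b : u, ν (closedBall (z b) (ρ b / 5)) ≤ ν (closedBall 0 (R + 1)) := by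
        rw [← measure_biUnion hucount hdisj fun a _ => isClosed_closedBall.measurableSet]
        refine measure_mono ?_
        intro y hy
        rw [mem_iUnion₂] at hy
        obtain ⟨a, ha, hy⟩ := hy
        have h2 := hρ a (huK ha)
        have h3 := hR a (huK ha)
        rw [mem_closedBall] at hy ⊢
        calc dist y 0 ≤ dist y (z a) + dist (z a) 0 := dist_triangle _ _ _
          _ ≤ ρ a / 5 + R := by
              rw [dist_zero_right]
              exact add_le_add hy h3
          _ ≤ R + 1 := by linarith [h2.1, h2.2.1]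
      have h2 : ∀ b : u, ν (closedBall (z b) (ρ b / 5)) =
          ENNReal.ofReal (ρ b ^ 3) * (b1 / 125) := by
        intro b
        have h3 := (hρ b (huK b.2)).1
        rw [hball _ (by linarith)]
        have h4 : (ρ b / 5) ^ 3 = ρ b ^ 3 * (1 / 125) := by ring
        rw [h4, ENNReal.ofReal_mul (by positivity), mul_assoc]
        congr 1
        rw [ENNReal.ofReal_div_of_pos (by norm_num)]
        simp only [ENNReal.ofReal_one, ENNReal.ofReal_ofNat, one_div]
        rw [mul_comm, ENNReal.div_eq_inv_mul, mul_comm]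
      simp_rw [h2] at h1
      rw [ENNReal.tsum_mul_right] at h1
      have hb : b1 / 125 ≠ 0 := by
        simp [hb1pos]
      have hb' : b1 / 125 ≠ ⊤ := ENNReal.div_ne_top hb1top (by norm_num)
      calc ∑' b : u, ENNReal.ofReal (ρ b ^ 3)
          ≤ ν (closedBall 0 (R + 1)) / (b1 / 125) := by
            rw [ENNReal.le_div_iff_mul_le (Or.inl hb) (Or.inl hb')]
            exact h1
        _ = C := by
            rw [hC, div_eq_mul_inv, div_eq_mul_inv b1,
              ENNReal.mul_inv (Or.inl hb1pos) (Or.inl hb1top), inv_inv, div_eq_mul_inv]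
            ring
    have hsub : G '' K ⊆ ⋃ b ∈ u, G '' {p | p ∈ K' ∧ ‖z p - z b‖ ≤ ρ b} := by
      rintro _ ⟨a, ha, rfl⟩
      obtain ⟨b, hb, hab⟩ := hcov a ha
      have h1 : z a ∈ closedBall (z a) (ρ a / 5) :=
        mem_closedBall_self (by linarith [(hρ a ha).1])
      have h2 := hab h1
      rw [mem_closedBall, dist_eq_norm] at h2
      refine mem_iUnion₂.mpr ⟨b, hb, a, ⟨hKK ha, ?_⟩, rfl⟩
      calc ‖z a - z b‖ ≤ 5 * (ρ b / 5) := h2
        _ = ρ b := by ring
    calc μ (G '' K) ≤ μ (⋃ b ∈ u, G '' {p | p ∈ K' ∧ ‖z p - z b‖ ≤ ρ b}) := measure_mono hsub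
      _ ≤ ∑' b : u, μ (G '' {p | p ∈ K' ∧ ‖z p - z b‖ ≤ ρ b}) :=
          measure_biUnion_le μ hucount _
      _ ≤ ∑' b : u, ENNReal.ofReal ε * ENNReal.ofReal (ρ b ^ 3) := by
          refine ENNReal.tsum_le_tsum fun b => ?_
          rw [← ENNReal.ofReal_mul hε.le]
          exact (hρ b (huK b.2)).2.2
      _ = ENNReal.ofReal ε * ∑' b : u, ENNReal.ofReal (ρ b ^ 3) := ENNReal.tsum_mul_left
      _ ≤ ENNReal.ofReal ε * C := by gcongr
  -- let ε → 0
  have hlim : Filter.Tendsto (fun n : ℕ => ENNReal.ofReal (1 / ((n : ℝ) + 1)) * C) Filter.atTop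
      (nhds (ENNReal.ofReal 0 * C)) := by
    refine ENNReal.Tendsto.mul_const ?_ (Or.inr hCtop)
    exact (ENNReal.continuous_ofReal.tendsto 0).comp tendsto_one_div_add_atTop_nhds_zero_nat
  rw [ENNReal.ofReal_zero, zero_mul] at hlim
  refine le_antisymm (ge_of_tendsto' hlim fun n => ?_) bot_le
  refine key _ (by positivity) ?_
  rw [div_le_one (by positivity)]
  have : (0 : ℝ) ≤ n := Nat.cast_nonneg n
  linarith

end MP_f31343_h
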