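import Mathlib

open MeasureTheory Metric Set Filter Topology

namespace Pool.Agent.LibF31343h

theorem vitaliBdd {P : Type*} (z G : P → EuclideanSpace ℝ (Fin 3))
    (h : ∀ p, ∀ ε : ℝ, 0 < ε → ∃ ρ : ℝ, 0 < ρ ∧ ρ ≤ 1 ∧
      volume (G '' {p' | dist (z p') (z p) ≤ ρ}) ≤ ENNReal.ofReal (ε * ρ ^ 3))
    (n : ℝ) (ε : ℝ) (hε : 0 < ε) :
    volume (G '' {p | ‖z p‖ ≤ n}) ≤ ENNReal.ofReal ε *
      (125 * (volume (ball (0 : EuclideanSpace ℝ (Fin 3)) 1))⁻¹ *
        volume (closedBall (0 : EuclideanSpace ℝ (Fin 3)) (n + 1))) := by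
  classical
  choose ρ hρ0 hρ1 hρ using fun p => h p ε hε
  obtain ⟨u, hut, hdis, hcov⟩ :=
    Vitali.exists_disjoint_subfamily_covering_enlargement_closedBall
      {p : P | ‖z p‖ ≤ n} z (fun p => ρ p / 5) 1
      (fun a _ => by have := hρ1 a; linarith) 5 (by norm_num)
  set V1 := volume (ball (0 : EuclideanSpace ℝ (Fin 3)) 1) with hV1
  have hV10 : V1 ≠ 0 := (measure_ball_pos _ _ one_pos).ne'
  have hV1t : V1 ≠ ⊤ := measure_ball_lt_top.ne
  have hcount : u.Countable := by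
    refine hdis.countable_of_nonempty_interior ?_
    intro a _
    refine ⟨z a, ?_⟩
    exact ball_subset_interior_closedBall (mem_ball_self (by have := hρ0 a; linarith))
  have hsub : G '' {p | ‖z p‖ ≤ n} ⊆ ⋃ b ∈ u, G '' {p' | dist (z p') (z b) ≤ ρ b} := by
    rintro _ ⟨a, ha, rfl⟩
    obtain ⟨b, hb, hab⟩ := hcov a ha
    have h1 : z a ∈ closedBall (z b) (5 * (ρ b / 5)) :=
      hab (mem_closedBall_self (by have := hρ0 a; linarith))
    have h2 : 5 * (ρ b / 5) = ρ b := by ring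
    rw [h2, mem_closedBall] at h1
    exact mem_biUnion hb ⟨a, h1, rfl⟩
  have hball : ∀ b : P, ENNReal.ofReal (ε * ρ b ^ 3) =
      ENNReal.ofReal ε * (125 * V1⁻¹) * volume (closedBall (z b) (ρ b / 5)) := by
    intro b
    have hr : (0 : ℝ) ≤ ρ b / 5 := by have := hρ0 b; linarith
    rw [Measure.addHaar_closedBall _ _ hr, finrank_euclideanSpace, Fintype.card_fin, ← hV1]
    have h3 : ENNReal.ofReal (ε * ρ b ^ 3) =
        ENNReal.ofReal ε * (125 * ENNReal.ofReal ((ρ b / 5) ^ 3)) := by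
      rw [ENNReal.ofReal_mul hε.le]
      congr 1
      have h4 : (125 : ENNReal) = ENNReal.ofReal 125 := by norm_num
      rw [h4, ← ENNReal.ofReal_mul (by norm_num)]
      congr 1
      ring
    rw [h3]
    calc ENNReal.ofReal ε * (125 * ENNReal.ofReal ((ρ b / 5) ^ 3))
        = ENNReal.ofReal ε * (125 * ENNReal.ofReal ((ρ b / 5) ^ 3)) * (V1⁻¹ * V1) := by
          rw [ENNReal.inv_mul_cancel hV10 hV1t, mul_one]
      _ = ENNReal.ofReal ε * (125 * V1⁻¹) * (ENNReal.ofReal ((ρ b / 5) ^ 3) * V1) := by ring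
  have hUn : (⋃ b ∈ u, closedBall (z b) (ρ b / 5)) ⊆
      closedBall (0 : EuclideanSpace ℝ (Fin 3)) (n + 1) := by
    intro w hw
    simp only [mem_iUnion, exists_prop] at hw
    obtain ⟨b, hb, hwb⟩ := hw
    have hb' : ‖z b‖ ≤ n := hut hb
    rw [mem_closedBall, dist_eq_norm] at hwb
    rw [mem_closedBall, dist_zero_right]
    have h5 := hρ1 b
    have h6 := hρ0 b
    calc ‖w‖ = ‖(w - z b) + z b‖ := by simp
      _ ≤ ‖w - z b‖ + ‖z b‖ := norm_add_le _ _
      _ ≤ n + 1 := by linarith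
  calc volume (G '' {p | ‖z p‖ ≤ n})
      ≤ volume (⋃ b ∈ u, G '' {p' | dist (z p') (z b) ≤ ρ b}) := measure_mono hsub
    _ ≤ ∑' b : u, volume (G '' {p' | dist (z p') (z b) ≤ ρ b}) :=
        measure_biUnion_le volume hcount _
    _ ≤ ∑' b : u, ENNReal.ofReal ε * (125 * V1⁻¹) * volume (closedBall (z b) (ρ b / 5)) := by
        refine ENNReal.tsum_le_tsum fun b => ?_
        rw [← hball b]
        exact hρ b
    _ = ENNReal.ofReal ε * (125 * V1⁻¹) * ∑' b : u, volume (closedBall (z b) (ρ b / 5)) :=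
        ENNReal.tsum_mul_left
    _ = ENNReal.ofReal ε * (125 * V1⁻¹) * volume (⋃ b ∈ u, closedBall (z b) (ρ b / 5)) := by
        rw [measure_biUnion hcount hdis (fun b _ => measurableSet_closedBall)]
    _ ≤ ENNReal.ofReal ε * (125 * V1⁻¹) *
          volume (closedBall (0 : EuclideanSpace ℝ (Fin 3)) (n + 1)) := by
        gcongr
    _ = _ := by ring

/-- Black box for Step 6: a set which is covered, at every point and for every `ε`, by images of
`z`-balls of volume at most `ε ρ ^ 3` is a null set. -/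
theorem vitaliNull {P : Type*} (z G : P → EuclideanSpace ℝ (Fin 3))
    (h : ∀ p, ∀ ε : ℝ, 0 < ε → ∃ ρ : ℝ, 0 < ρ ∧ ρ ≤ 1 ∧
      volume (G '' {p' | dist (z p') (z p) ≤ ρ}) ≤ ENNReal.ofReal (ε * ρ ^ 3)) :
    volume (Set.range G) = 0 := by
  have hbd : ∀ n : ℕ, volume (G '' {p | ‖z p‖ ≤ (n : ℝ)}) = 0 := by
    intro n
    set K := (125 * (volume (ball (0 : EuclideanSpace ℝ (Fin 3)) 1))⁻¹ *
        volume (closedBall (0 : EuclideanSpace ℝ (Fin 3)) ((n : ℝ) + 1))) with hK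
    have hKt : K ≠ ⊤ := by
      refine ENNReal.mul_ne_top (ENNReal.mul_ne_top (by norm_num) ?_) measure_closedBall_lt_top.ne
      exact ENNReal.inv_ne_top.mpr (measure_ball_pos _ _ one_pos).ne'
    have hlim : Tendsto (fun m : ℕ => ENNReal.ofReal (1 / ((m : ℝ) + 1)) * K) atTop
        (𝓝 (ENNReal.ofReal 0 * K)) := by
      refine ENNReal.Tendsto.mul_const ?_ (Or.inr hKt)
      exact ENNReal.tendsto_ofReal tendsto_one_div_add_atTop_nhds_zero_nat
    rw [ENNReal.ofReal_zero, zero_mul] at hlim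
    refine le_antisymm (ge_of_tendsto' hlim fun m => ?_) zero_le
    exact vitaliBdd z G h n _ (by positivity)
  have hr : Set.range G ⊆ ⋃ n : ℕ, G '' {p | ‖z p‖ ≤ (n : ℝ)} := by
    rintro _ ⟨p, rfl⟩
    obtain ⟨n, hn⟩ := exists_nat_ge ‖z p‖
    exact mem_iUnion.2 ⟨n, p, hn, rfl⟩
  exact measure_mono_null hr (measure_iUnion_null hbd)

end Pool.Agent.LibF31343h
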