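import Mathlib

open MeasureTheory Metric Set

namespace Pool.Agent.LibF31343h.Vol

abbrev E3 := EuclideanSpace ℝ (Fin 3)

/-- cross product -/
noncomputable def cr (a b : E3) : E3 :=
  !₂[a 1 * b 2 - a 2 * b 1, a 2 * b 0 - a 0 * b 2, a 0 * b 1 - a 1 * b 0]

/-- the chart map of the points of the limit set through the vectors with first part the third
basis vector -/
noncomputable def G (p : E3 × E3) : Fin 3 → ℝ :=
  ![p.1 2, p.2 1 - p.1 2 * p.1 0 / 4, - p.2 0 - p.1 2 * p.1 1 / 4]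

/-- volume of a slab in a box -/
theorem slab (m g : Fin 3 → ℝ) (i : Fin 3) (hi : 1 / 2 ≤ |m i|) (A h : ℝ) (hA : 0 ≤ A)
    (hh : 0 ≤ h) :
    volume {w : Fin 3 → ℝ | (∀ j, |w j - g j| ≤ A) ∧ |∑ k, m k * (w k - g k)| ≤ h}
      ≤ ENNReal.ofReal (16 * A ^ 2 * h) := by
  classical
  set M : Matrix (Fin 3) (Fin 3) ℝ := (1 : Matrix (Fin 3) (Fin 3) ℝ).updateRow i m with hM
  have hdet : M.det = m i := by
    have h1 : Matrix.cramer (1 : Matrix (Fin 3) (Fin 3) ℝ) m i = m i := by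
      rw [Matrix.cramer_one]; rfl
    rw [Matrix.cramer_apply] at h1
    rw [← h1, ← Matrix.det_transpose, hM, ← Matrix.updateCol_transpose, Matrix.transpose_one]
  set f : (Fin 3 → ℝ) →ₗ[ℝ] (Fin 3 → ℝ) := Matrix.toLin' M with hf
  have hfd : LinearMap.det f = m i := by rw [hf, LinearMap.det_toLin', hdet]
  have hmi : m i ≠ 0 := by
    intro h0; rw [h0] at hi; norm_num at hi
  set B : Set (Fin 3 → ℝ) := Icc (fun j => if j = i then -h else -A)
    (fun j => if j = i then h else A) with hB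
  have hsub : {w : Fin 3 → ℝ | (∀ j, |w j - g j| ≤ A) ∧ |∑ k, m k * (w k - g k)| ≤ h}
      ⊆ (fun w => w + (-g)) ⁻¹' (f ⁻¹' B) := by
    rintro w ⟨h1, h2⟩
    have hfi : ∀ v : Fin 3 → ℝ, ∀ j, f v j = if j = i then ∑ k, m k * v k else v j := by
      intro v j
      rw [hf, Matrix.toLin'_apply, hM]
      by_cases hj : j = i
      · subst hj
        simp [Matrix.mulVec, dotProduct]
      · simp [Matrix.mulVec, dotProduct, hj, Matrix.updateRow_apply, Matrix.one_apply]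
    rw [mem_preimage, mem_preimage, hB, mem_Icc]
    constructor
    · intro j
      rw [hfi]
      by_cases hj : j = i
      · simp only [hj, if_true]
        have := (abs_le.1 h2).1
        simpa [sub_eq_add_neg] using this
      · simp only [hj, if_false]
        have := (abs_le.1 (h1 j)).1
        simpa [sub_eq_add_neg] using this
    · intro j
      rw [hfi]
      by_cases hj : j = i
      · simp only [hj, if_true]
        have := (abs_le.1 h2).2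
        simpa [sub_eq_add_neg] using this
      · simp only [hj, if_false]
        have := (abs_le.1 (h1 j)).2
        simpa [sub_eq_add_neg] using this
  refine (measure_mono hsub).trans ?_
  rw [measure_preimage_add_right, Measure.addHaar_preimage_linearMap volume (by rw [hfd]; exact hmi),
    hfd, hB, Real.volume_Icc_pi]
  have hprod : ∏ j : Fin 3, ENNReal.ofReal ((if j = i then h else A) - (if j = i then -h else -A))
      = ENNReal.ofReal (8 * A ^ 2 * h) := by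
    rw [← ENNReal.ofReal_prod_of_nonneg]
    · congr 1
      fin_cases i <;> simp [Fin.prod_univ_three] <;> ring
    · intro j _
      split_ifs <;> linarith
  rw [hprod, ← ENNReal.ofReal_mul (abs_nonneg _)]
  apply ENNReal.ofReal_le_ofReal
  have h3 : |(m i)⁻¹| ≤ 2 := by
    rw [abs_inv, inv_le_comm₀ (by linarith) (by norm_num)]
    linarith
  have h4 : 0 ≤ 8 * A ^ 2 * h := by positivity
  nlinarith [abs_nonneg (m i)⁻¹]

theorem norm_sq3 (a : E3) : ‖a‖ ^ 2 = a 0 ^ 2 + a 1 ^ 2 + a 2 ^ 2 := by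
  rw [EuclideanSpace.norm_sq_eq, Fin.sum_univ_three]
  simp [sq_abs]

theorem inner3 (a b : E3) : inner ℝ a b = a 0 * b 0 + a 1 * b 1 + a 2 * b 2 := by
  rw [PiLp.inner_apply, Fin.sum_univ_three]
  simp [mul_comm]

theorem abs_le_norm3 (a : E3) (i : Fin 3) : |a i| ≤ ‖a‖ := by
  have h := norm_sq3 a
  apply abs_le_of_sq_le_sq _ (norm_nonneg a)
  rw [h]
  fin_cases i <;> simp <;> nlinarith [sq_nonneg (a 0), sq_nonneg (a 1), sq_nonneg (a 2)]

@[simp] theorem cr_0 (a b : E3) : cr a b 0 = a 1 * b 2 - a 2 * b 1 := rfl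
@[simp] theorem cr_1 (a b : E3) : cr a b 1 = a 2 * b 0 - a 0 * b 2 := rfl
@[simp] theorem cr_2 (a b : E3) : cr a b 2 = a 0 * b 1 - a 1 * b 0 := rfl

/-- the two-dimensional direction -/
theorem exists_dir (k0 k1 : ℝ) : ∃ n0 n1 : ℝ, n0 ^ 2 + n1 ^ 2 = 1 ∧ n0 * k1 = n1 * k0 := by
  by_cases h : k0 ^ 2 + k1 ^ 2 = 0
  · refine ⟨1, 0, by norm_num, ?_⟩
    have : k1 = 0 := by nlinarith [sq_nonneg k0, sq_nonneg k1]
    simp [this]
  · have hp : 0 < k0 ^ 2 + k1 ^ 2 := lt_of_le_of_ne (by positivity) (Ne.symm h)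
    set r := Real.sqrt (k0 ^ 2 + k1 ^ 2) with hr
    have hr2 : r ^ 2 = k0 ^ 2 + k1 ^ 2 := Real.sq_sqrt hp.le
    have hr0 : 0 < r := Real.sqrt_pos.2 hp
    refine ⟨k0 / r, k1 / r, ?_, ?_⟩
    · field_simp
      linarith
    · ring

/-- the image of a small piece lies in a thin slab -/
theorem piece_volume (L : Set (E3 × E3)) (R : ℝ) (hR : 0 ≤ R) (p : E3 × E3)
    (hp : ‖p.1‖ ≤ R) (ε ρ : ℝ) (hε : 0 < ε) (hρ : 0 < ρ) (hρε : ρ < ε) (hρ1 : ρ < 1)
    (kap : E3) (hk : ‖kap‖ = 1)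
    (hV : ∀ q ∈ L, ‖q.1 - p.1‖ ≤ ρ → ‖q.2 - p.2‖ ≤ ρ →
      ‖cr ((2 : ℝ) • (q.2 - p.2) - (1 / 2 : ℝ) • cr p.1 (q.1 - p.1)) kap‖ ≤ ε * ρ) :
    volume (G '' {q ∈ L | ‖q.1 - p.1‖ ≤ ρ ∧ ‖q.2 - p.2‖ ≤ ρ})
      ≤ ENNReal.ofReal (16 * (2 + R) ^ 2 * ε * ρ ^ 3) := by
  obtain ⟨n0, n1, hn, hnk⟩ := exists_dir (kap 0) (kap 1)
  set m : Fin 3 → ℝ := ![(p.1 0 * n0 + p.1 1 * n1) / 2, n0, n1] with hm
  obtain ⟨i, hi⟩ : ∃ i, 1 / 2 ≤ |m i| := by
    by_cases h0 : 1 / 2 ≤ |n0|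
    · exact ⟨1, by simpa [hm] using h0⟩
    · refine ⟨2, ?_⟩
      have : (1:ℝ) / 2 ≤ |n1| := by
        by_contra h1
        push Not at h0 h1
        have e0 : n0 ^ 2 < 1 / 4 := by
          rw [← sq_abs]; nlinarith [abs_nonneg n0]
        have e1 : n1 ^ 2 < 1 / 4 := by
          rw [← sq_abs]; nlinarith [abs_nonneg n1]
        linarith
      simpa [hm] using this
  have hA : (0:ℝ) ≤ (2 + R) * ρ := by positivity
  have hh : (0:ℝ) ≤ ε * ρ := by positivity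
  refine (measure_mono ?_).trans ((slab m (G p) i hi ((2 + R) * ρ) (ε * ρ) hA hh).trans ?_)
  · rintro w ⟨q, ⟨hq, hd, hW⟩, rfl⟩
    have hcr := hV q hq hd hW
    set d := q.1 - p.1 with hdd
    set W := q.2 - p.2 with hWW
    have hd0 := (abs_le_norm3 d 0).trans hd
    have hd1 := (abs_le_norm3 d 1).trans hd
    have hd2 := (abs_le_norm3 d 2).trans hd
    have hW0 := (abs_le_norm3 W 0).trans hW
    have hW1 := (abs_le_norm3 W 1).trans hW
    have ed : ∀ j, q.1 j = p.1 j + d j := by intro j; simp [hdd]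
    have eW : ∀ j, q.2 j = p.2 j + W j := by intro j; simp [hWW]
    have hp0 := (abs_le_norm3 p.1 0).trans hp
    have hp1 := (abs_le_norm3 p.1 1).trans hp
    have hp2 := (abs_le_norm3 p.1 2).trans hp
    have hmul : ∀ a b A B : ℝ, |a| ≤ A → |b| ≤ B → |a * b| ≤ A * B := by
      intro a b A B ha hb
      rw [abs_mul]
      exact mul_le_mul ha hb (abs_nonneg _) ((abs_nonneg _).trans ha)
    refine ⟨?_, ?_⟩
    · intro j
      fin_cases j
      · simp only [G, Fin.zero_eta, Matrix.cons_val_zero]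
        rw [ed 2, add_sub_cancel_left]
        refine hd2.trans ?_
        nlinarith
      · simp only [G, Fin.mk_one, Matrix.cons_val_one, Matrix.cons_val_zero]
        rw [ed 2, ed 0, eW 1]
        have e : p.2 1 + W 1 - (p.1 2 + d 2) * (p.1 0 + d 0) / 4
            - (p.2 1 - p.1 2 * p.1 0 / 4)
            = W 1 - (p.1 2 * d 0 + d 2 * p.1 0 + d 2 * d 0) / 4 := by ring
        rw [e]
        have h1 := abs_le.1 (hmul _ _ _ _ hp2 hd0)
        have h2 := abs_le.1 (hmul _ _ _ _ hd2 hp0)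
        have h3 := abs_le.1 (hmul _ _ _ _ hd2 hd0)
        have h4 := abs_le.1 hW1
        rw [abs_le]
        constructor <;> nlinarith
      · simp only [G, Fin.reduceFinMk, Matrix.cons_val]
        rw [ed 2, ed 1, eW 0]
        have e : -(p.2 0 + W 0) - (p.1 2 + d 2) * (p.1 1 + d 1) / 4
            - (-p.2 0 - p.1 2 * p.1 1 / 4)
            = -W 0 - (p.1 2 * d 1 + d 2 * p.1 1 + d 2 * d 1) / 4 := by ring
        rw [e]
        have h1 := abs_le.1 (hmul _ _ _ _ hp2 hd1)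
        have h2 := abs_le.1 (hmul _ _ _ _ hd2 hp1)
        have h3 := abs_le.1 (hmul _ _ _ _ hd2 hd1)
        have h4 := abs_le.1 hW0
        rw [abs_le]
        constructor <;> nlinarith
    · set Y : E3 := (2 : ℝ) • W - (1 / 2 : ℝ) • cr p.1 d with hY
      have hY0 : Y 0 = 2 * W 0 - 1 / 2 * (p.1 1 * d 2 - p.1 2 * d 1) := by simp [hY]
      have hY1 : Y 1 = 2 * W 1 - 1 / 2 * (p.1 2 * d 0 - p.1 0 * d 2) := by simp [hY]
      -- the value of the linear form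
      have e : ∑ k, m k * (G q k - G p k)
          = (n0 * Y 1 - n1 * Y 0) / 2 - d 2 * (n0 * d 0 + n1 * d 1) / 4 := by
        rw [Fin.sum_univ_three]
        simp only [hm, G, Matrix.cons_val_zero, Matrix.cons_val_one, Matrix.cons_val]
        rw [ed 2, ed 0, ed 1, eW 1, eW 0, hY0, hY1]
        ring
      rw [e]
      -- the first term
      have hkap : kap 0 ^ 2 + kap 1 ^ 2 + kap 2 ^ 2 = 1 := by
        rw [← norm_sq3, hk]; norm_num
      set al : ℝ := Y 0 * kap 0 + Y 1 * kap 1 + Y 2 * kap 2 with hal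
      have hcr2 : ‖cr Y kap‖ ^ 2 ≤ (ε * ρ) ^ 2 := by
        have := norm_nonneg (cr Y kap)
        exact pow_le_pow_left₀ this hcr 2
      rw [norm_sq3, cr_0, cr_1, cr_2] at hcr2
      have hLag : (Y 1 * kap 2 - Y 2 * kap 1) ^ 2 + (Y 2 * kap 0 - Y 0 * kap 2) ^ 2
          + (Y 0 * kap 1 - Y 1 * kap 0) ^ 2
          = (Y 0 - al * kap 0) ^ 2 + (Y 1 - al * kap 1) ^ 2 + (Y 2 - al * kap 2) ^ 2 := by
        have e1 : (Y 1 * kap 2 - Y 2 * kap 1) ^ 2 + (Y 2 * kap 0 - Y 0 * kap 2) ^ 2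
          + (Y 0 * kap 1 - Y 1 * kap 0) ^ 2
          = (Y 0 ^ 2 + Y 1 ^ 2 + Y 2 ^ 2) * (kap 0 ^ 2 + kap 1 ^ 2 + kap 2 ^ 2) - al ^ 2 := by
          rw [hal]; ring
        have e2 : (Y 0 - al * kap 0) ^ 2 + (Y 1 - al * kap 1) ^ 2 + (Y 2 - al * kap 2) ^ 2
          = (Y 0 ^ 2 + Y 1 ^ 2 + Y 2 ^ 2) - 2 * al * al
            + al ^ 2 * (kap 0 ^ 2 + kap 1 ^ 2 + kap 2 ^ 2) := by
          rw [hal]; ring
        rw [e1, e2, hkap]; ring
      rw [hLag] at hcr2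
      set N0 := Y 0 - al * kap 0 with hN0
      set N1 := Y 1 - al * kap 1 with hN1
      have hfirst : n0 * Y 1 - n1 * Y 0 = n0 * N1 - n1 * N0 := by
        rw [hN0, hN1]
        linear_combination al * hnk
      have hsq : (n0 * N1 - n1 * N0) ^ 2 ≤ (ε * ρ) ^ 2 := by
        have : (n0 * N1 - n1 * N0) ^ 2 + (n0 * N0 + n1 * N1) ^ 2
            = (n0 ^ 2 + n1 ^ 2) * (N0 ^ 2 + N1 ^ 2) := by ring
        rw [hn, one_mul] at this
        nlinarith [sq_nonneg (n0 * N0 + n1 * N1), sq_nonneg (Y 2 - al * kap 2)]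
      have h1 : |n0 * Y 1 - n1 * Y 0| ≤ ε * ρ := by
        rw [hfirst]
        exact abs_le_of_sq_le_sq hsq hh
      have h2 : |n0 * d 0 + n1 * d 1| ≤ ρ := by
        apply abs_le_of_sq_le_sq _ hρ.le
        have e3 : (n0 * d 0 + n1 * d 1) ^ 2 + (n0 * d 1 - n1 * d 0) ^ 2
            = (n0 ^ 2 + n1 ^ 2) * (d 0 ^ 2 + d 1 ^ 2) := by ring
        rw [hn, one_mul] at e3
        have e4 : ‖d‖ ^ 2 ≤ ρ ^ 2 := pow_le_pow_left₀ (norm_nonneg _) hd 2
        rw [norm_sq3] at e4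
        nlinarith [sq_nonneg (n0 * d 1 - n1 * d 0), sq_nonneg (d 2)]
      have h3 := abs_le.1 (hmul _ _ _ _ hd2 h2)
      have h4 := abs_le.1 h1
      rw [abs_le]
      constructor <;> nlinarith
  · apply ENNReal.ofReal_le_ofReal
    have : 16 * ((2 + R) * ρ) ^ 2 * (ε * ρ) = 16 * (2 + R) ^ 2 * ε * ρ ^ 3 := by ring
    rw [this]

/-- the volume of the image of the bounded part is as small as we like -/
theorem bounded_part (L : Set (E3 × E3)) (s : ℝ) (hs : s = 1 ∨ s = -1)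
    (hmono : ∀ p ∈ L, ∀ q ∈ L, p ≠ q → 0 < s * inner ℝ (p.1 - q.1) (p.2 - q.2))
    (hV : ∀ p ∈ L, ∀ ε : ℝ, 0 < ε → ∃ ρ : ℝ, 0 < ρ ∧ ρ < ε ∧ ∃ kap : E3, ‖kap‖ = 1 ∧
      ∀ q ∈ L, ‖q.1 - p.1‖ ≤ ρ → ‖q.2 - p.2‖ ≤ ρ →
        ‖cr ((2 : ℝ) • (q.2 - p.2) - (1 / 2 : ℝ) • cr p.1 (q.1 - p.1)) kap‖ ≤ ε * ρ)
    (R : ℝ) (hR : 0 ≤ R) :
    ∃ C : ℝ, 0 ≤ C ∧ ∀ ε : ℝ, 0 < ε → ε < 1 →
      volume (G '' {q ∈ L | ‖q.1‖ ≤ R ∧ ‖q.1 + s • q.2‖ ≤ R}) ≤ ENNReal.ofReal (C * ε) := by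
  classical
  set z : E3 × E3 → E3 := fun q => q.1 + s • q.2 with hz
  have hs2 : s ^ 2 = 1 := by rcases hs with h | h <;> rw [h] <;> norm_num
  -- the coordinate z is expanding
  have hexp : ∀ p ∈ L, ∀ q ∈ L, ‖q.1 - p.1‖ ≤ ‖z q - z p‖ ∧ ‖q.2 - p.2‖ ≤ ‖z q - z p‖ := by
    intro p hp q hq
    by_cases hpq : q = p
    · subst hpq; simp
    · have h1 := hmono q hq p hp hpq
      have h2 : z q - z p = (q.1 - p.1) + s • (q.2 - p.2) := by
        simp only [hz]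
        rw [smul_sub]; abel
      have h3 : ‖z q - z p‖ ^ 2 = ‖q.1 - p.1‖ ^ 2 + 2 * (s * inner ℝ (q.1 - p.1) (q.2 - p.2))
          + ‖q.2 - p.2‖ ^ 2 := by
        rw [h2, norm_add_sq_real, inner_smul_right, norm_smul, mul_pow, Real.norm_eq_abs, sq_abs,
          hs2]
        ring
      constructor
      · apply le_of_sq_le_sq _ (norm_nonneg _)
        nlinarith [sq_nonneg ‖q.2 - p.2‖]
      · apply le_of_sq_le_sq _ (norm_nonneg _)
        nlinarith [sq_nonneg ‖q.1 - p.1‖]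
  set c : ENNReal := volume (ball (0 : E3) 1) with hc
  have hcpos : 0 < c := measure_ball_pos _ _ one_pos
  have hctop : c ≠ ⊤ := measure_ball_lt_top.ne
  have hcr : 0 < c.toReal := ENNReal.toReal_pos hcpos.ne' hctop
  have hfr : Module.finrank ℝ E3 = 3 := by simp
  refine ⟨16 * (2 + R) ^ 2 * 125 * (R + 1) ^ 3, by positivity, ?_⟩
  intro ε hε hε1
  set t : Set (E3 × E3) := {q ∈ L | ‖q.1‖ ≤ R ∧ ‖z q‖ ≤ R} with ht
  have hch : ∀ p : E3 × E3, ∃ ρ : ℝ, p ∈ L → 0 < ρ ∧ ρ < ε ∧ ∃ kap : E3, ‖kap‖ = 1 ∧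
      ∀ q ∈ L, ‖q.1 - p.1‖ ≤ ρ → ‖q.2 - p.2‖ ≤ ρ →
        ‖cr ((2 : ℝ) • (q.2 - p.2) - (1 / 2 : ℝ) • cr p.1 (q.1 - p.1)) kap‖ ≤ ε * ρ := by
    intro p
    by_cases hp : p ∈ L
    · obtain ⟨ρ, h⟩ := hV p hp ε hε
      exact ⟨ρ, fun _ => h⟩
    · exact ⟨0, fun h => absurd h hp⟩
  choose ρ hρ using hch
  obtain ⟨u, hut, hudis, hucov⟩ := Vitali.exists_disjoint_subfamily_covering_enlargement_closedBall
    t z (fun a => ρ a / 5) 1 (by
      intro a ha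
      have h := hρ a ha.1
      linarith [h.2.1]) 5 (by norm_num)
  have huc : u.Countable := hudis.countable_of_nonempty_interior (by
    intro a ha
    have h := hρ a (hut ha).1
    refine ⟨z a, ?_⟩
    rw [interior_closedBall _ (by linarith [h.1] : ρ a / 5 ≠ 0)]
    exact mem_ball_self (by linarith [h.1]))
  -- the total volume of the disjoint balls
  have htot : ∑' a : u, volume (closedBall (z a) (ρ a / 5)) ≤ volume (closedBall (0 : E3) (R + 1)) := by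
    have := huc.to_subtype
    rw [← measure_biUnion huc hudis (fun a _ => measurableSet_closedBall)]
    apply measure_mono
    intro x hx
    simp only [mem_iUnion, exists_prop] at hx
    obtain ⟨a, ha, hxa⟩ := hx
    have h := hρ a (hut ha).1
    rw [mem_closedBall, dist_eq_norm] at hxa
    rw [mem_closedBall_zero_iff]
    have h1 : ‖x‖ ≤ ‖x - z a‖ + ‖z a‖ := by
      calc ‖x‖ = ‖(x - z a) + z a‖ := by rw [sub_add_cancel]
        _ ≤ _ := norm_add_le _ _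
    have h2 := (hut ha).2.2
    linarith [h.2.1]
  -- covering
  have hcov : G '' t ⊆ ⋃ a ∈ u, G '' {q ∈ L | ‖q.1 - a.1‖ ≤ ρ a ∧ ‖q.2 - a.2‖ ≤ ρ a} := by
    rintro w ⟨q, hq, rfl⟩
    obtain ⟨b, hb, hsub⟩ := hucov q hq
    have hq0 : z q ∈ closedBall (z q) (ρ q / 5) := mem_closedBall_self (by
      have h := hρ q hq.1
      linarith [h.1])
    have h1 := hsub hq0
    rw [mem_closedBall, dist_eq_norm] at h1
    have h2 : ‖z q - z b‖ ≤ ρ b := by linarith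
    have h3 := hexp b (hut hb).1 q hq.1
    refine mem_biUnion hb ⟨q, ⟨hq.1, h3.1.trans h2, h3.2.trans h2⟩, rfl⟩
  have hpiece : ∀ a ∈ u, volume (G '' {q ∈ L | ‖q.1 - a.1‖ ≤ ρ a ∧ ‖q.2 - a.2‖ ≤ ρ a})
      ≤ ENNReal.ofReal (16 * (2 + R) ^ 2 * 125 * ε / c.toReal)
        * volume (closedBall (z a) (ρ a / 5)) := by
    intro a ha
    obtain ⟨h1, h2, kap, hk, hq⟩ := hρ a (hut ha).1
    refine (piece_volume L R hR a (hut ha).2.1 ε (ρ a) hε h1 h2 (h2.trans hε1) kap hk hq).trans ?_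
    rw [Measure.addHaar_closedBall volume (z a) (by linarith : 0 ≤ ρ a / 5), hfr, ← hc,
      ← ENNReal.ofReal_toReal hctop, ← ENNReal.ofReal_mul (by positivity),
      ← ENNReal.ofReal_mul (by positivity)]
    apply ENNReal.ofReal_le_ofReal
    have : 16 * (2 + R) ^ 2 * 125 * ε / (ENNReal.ofReal c.toReal).toReal
        * ((ρ a / 5) ^ 3 * c.toReal) = 16 * (2 + R) ^ 2 * ε * ρ a ^ 3 := by
      rw [ENNReal.toReal_ofReal hcr.le]
      field_simp
      norm_num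
    exact this.ge
  have := huc.to_subtype
  calc volume (G '' t) ≤ volume (⋃ a ∈ u, G '' {q ∈ L | ‖q.1 - a.1‖ ≤ ρ a ∧ ‖q.2 - a.2‖ ≤ ρ a}) :=
        measure_mono hcov
    _ ≤ ∑' a : u, volume (G '' {q ∈ L | ‖q.1 - a.1.1‖ ≤ ρ a ∧ ‖q.2 - a.1.2‖ ≤ ρ a}) :=
        measure_biUnion_le _ huc _
    _ ≤ ∑' a : u, ENNReal.ofReal (16 * (2 + R) ^ 2 * 125 * ε / c.toReal)
        * volume (closedBall (z a) (ρ a / 5)) := ENNReal.tsum_le_tsum (fun a => hpiece a a.2)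
    _ = ENNReal.ofReal (16 * (2 + R) ^ 2 * 125 * ε / c.toReal)
        * ∑' a : u, volume (closedBall (z a) (ρ a / 5)) := ENNReal.tsum_mul_left
    _ ≤ ENNReal.ofReal (16 * (2 + R) ^ 2 * 125 * ε / c.toReal)
        * volume (closedBall (0 : E3) (R + 1)) := by gcongr
    _ = ENNReal.ofReal (16 * (2 + R) ^ 2 * 125 * (R + 1) ^ 3 * ε) := by
        rw [Measure.addHaar_closedBall volume _ (by linarith : 0 ≤ R + 1), hfr, ← hc]
        nth_rewrite 2 [← ENNReal.ofReal_toReal hctop]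
        rw [← ENNReal.ofReal_mul (by positivity), ← ENNReal.ofReal_mul (by positivity)]
        congr 1
        field_simp

/-- STEP 6. -/
theorem no_lambda (L : Set (E3 × E3)) (s : ℝ) (hs : s = 1 ∨ s = -1)
    (hmono : ∀ p ∈ L, ∀ q ∈ L, p ≠ q → 0 < s * inner ℝ (p.1 - q.1) (p.2 - q.2))
    (hG : ∀ w : Fin 3 → ℝ, ∃ p ∈ L, G p = w)
    (hV : ∀ p ∈ L, ∀ ε : ℝ, 0 < ε → ∃ ρ : ℝ, 0 < ρ ∧ ρ < ε ∧ ∃ kap : E3, ‖kap‖ = 1 ∧
      ∀ q ∈ L, ‖q.1 - p.1‖ ≤ ρ → ‖q.2 - p.2‖ ≤ ρ →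
        ‖cr ((2 : ℝ) • (q.2 - p.2) - (1 / 2 : ℝ) • cr p.1 (q.1 - p.1)) kap‖ ≤ ε * ρ) :
    False := by
  have hzero : ∀ n : ℕ, volume (G '' {q ∈ L | ‖q.1‖ ≤ (n : ℝ) ∧ ‖q.1 + s • q.2‖ ≤ (n : ℝ)}) = 0 := by
    intro n
    obtain ⟨C, hC, h⟩ := bounded_part L s hs hmono hV n (Nat.cast_nonneg n)
    by_contra hne
    have hpos : 0 < volume (G '' {q ∈ L | ‖q.1‖ ≤ (n : ℝ) ∧ ‖q.1 + s • q.2‖ ≤ (n : ℝ)}) :=
      pos_iff_ne_zero.2 hne
    have hfin : volume (G '' {q ∈ L | ‖q.1‖ ≤ (n : ℝ) ∧ ‖q.1 + s • q.2‖ ≤ (n : ℝ)}) ≠ ⊤ :=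
      ne_top_of_le_ne_top ENNReal.ofReal_ne_top (h (1 / 2) (by norm_num) (by norm_num))
    set v := (volume (G '' {q ∈ L | ‖q.1‖ ≤ (n : ℝ) ∧ ‖q.1 + s • q.2‖ ≤ (n : ℝ)})).toReal with hv
    have hvpos : 0 < v := ENNReal.toReal_pos hne hfin
    set e : ℝ := min (1 / 2) (v / (2 * (C + 1))) with he
    have he0 : 0 < e := lt_min (by norm_num) (by positivity)
    have h1 := h e he0 ((min_le_left _ _).trans_lt (by norm_num))
    have h2 : v ≤ C * e := by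
      have := ENNReal.toReal_mono ENNReal.ofReal_ne_top h1
      rwa [ENNReal.toReal_ofReal (by positivity)] at this
    have h3 : C * e ≤ C * (v / (2 * (C + 1))) := mul_le_mul_of_nonneg_left (min_le_right _ _) hC
    have h4 : C * (v / (2 * (C + 1))) < v := by
      rw [mul_div_assoc', div_lt_iff₀ (by positivity)]
      nlinarith
    linarith
  have hcover : (univ : Set (Fin 3 → ℝ)) ⊆
      ⋃ n : ℕ, G '' {q ∈ L | ‖q.1‖ ≤ (n : ℝ) ∧ ‖q.1 + s • q.2‖ ≤ (n : ℝ)} := by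
    intro w _
    obtain ⟨p, hp, hw⟩ := hG w
    obtain ⟨n, hn⟩ := exists_nat_ge (max ‖p.1‖ ‖p.1 + s • p.2‖)
    exact mem_iUnion.2 ⟨n, p, ⟨hp, (le_max_left _ _).trans hn, (le_max_right _ _).trans hn⟩, hw⟩
  have h0 : volume (univ : Set (Fin 3 → ℝ)) = 0 :=
    measure_mono_null hcover (measure_iUnion_null hzero)
  exact (isOpen_univ.measure_ne_zero volume univ_nonempty) h0

end Pool.Agent.LibF31343h.Vol
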