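import Mathlib

/-!
Step 6 of note 2741 (no compact quotient of H^{4,2}): the volume argument, in coordinates.
-/

namespace HypFT

set_option maxHeartbeats 1000000

open MeasureTheory Set

/-- Coordinates `R^3`. -/
abbrev V3 := Fin 3 → ℝ

/-- The chart map `G(x, Y)` for `e0 = (1,0,0)`. -/
noncomputable def Gmap (p : V3 × V3) : V3 :=
  ![p.1 0, p.2 2 - p.1 0 * p.1 1 / 4, - p.2 1 - p.1 0 * p.1 2 / 4]

/-- `z = x + s Y`. -/
def zz (s : ℝ) (p : V3 × V3) : V3 := fun i => p.1 i + s * p.2 i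

/-- `Yt = 2 (Y - Y0) - (x0 × (x - x0)) / 2`. -/
noncomputable def Yt (p0 p : V3 × V3) : V3 :=
  fun i => 2 * (p.2 i - p0.2 i) - (crossProduct p0.1 (p.1 - p0.1)) i / 2

/-- Square of the euclidean norm. -/
def ssq (v : V3) : ℝ := v 0 ^ 2 + v 1 ^ 2 + v 2 ^ 2

theorem cross0 (u v : V3) : (crossProduct u v) 0 = u 1 * v 2 - u 2 * v 1 := by
  simp [cross_apply]

theorem cross1 (u v : V3) : (crossProduct u v) 1 = u 2 * v 0 - u 0 * v 2 := by
  simp [cross_apply]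

theorem cross2 (u v : V3) : (crossProduct u v) 2 = u 0 * v 1 - u 1 * v 0 := by
  simp [cross_apply]

theorem abs_le_of_sq_le' {a r : ℝ} (hr : 0 ≤ r) (h : a ^ 2 ≤ r ^ 2) : |a| ≤ r := by
  exact abs_le_of_sq_le_sq h hr

theorem two_prod {a b A B r : ℝ} (h1 : a ^ 2 + b ^ 2 ≤ 1) (h2 : A ^ 2 + B ^ 2 ≤ r ^ 2) :
    (a * A - b * B) ^ 2 ≤ r ^ 2 := by
  have h3 : (a * A - b * B) ^ 2 ≤ (a ^ 2 + b ^ 2) * (A ^ 2 + B ^ 2) := by
    nlinarith [sq_nonneg (a * B + b * A)]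
  have h4 : (a ^ 2 + b ^ 2) * (A ^ 2 + B ^ 2) ≤ 1 * r ^ 2 :=
    mul_le_mul h1 h2 (by positivity) zero_le_one
  linarith

/-- The two differences of `Gmap` in terms of `Yt`. -/
theorem gmap_diff1 (p0 p : V3 × V3) :
    Gmap p 1 - Gmap p0 1 + p0.1 1 * (Gmap p 0 - Gmap p0 0) / 2 =
      Yt p0 p 2 / 2 - (p.1 0 - p0.1 0) * (p.1 1 - p0.1 1) / 4 := by
  simp only [Gmap, Yt, cross2, Matrix.cons_val_zero, Matrix.cons_val_one, Pi.sub_apply]
  ring

theorem gmap_diff2 (p0 p : V3 × V3) :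
    Gmap p 2 - Gmap p0 2 + p0.1 2 * (Gmap p 0 - Gmap p0 0) / 2 =
      - Yt p0 p 1 / 2 - (p.1 0 - p0.1 0) * (p.1 2 - p0.1 2) / 4 := by
  have h2 : ∀ q : V3 × V3, Gmap q 2 = - q.2 1 - q.1 0 * q.1 2 / 4 := fun q => rfl
  have h0 : ∀ q : V3 × V3, Gmap q 0 = q.1 0 := fun q => rfl
  rw [h2, h2, h0, h0]
  simp only [Yt, cross1, Pi.sub_apply]
  ring

/-- A unit vector parallel to `(a, b)` (with nonnegative factor at most `1` if `a^2+b^2 <= 1`). -/
theorem exists_unit (a b : ℝ) : ∃ l c e : ℝ, c ^ 2 + e ^ 2 = 1 ∧ a = l * c ∧ b = l * e := by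
  by_cases h : a ^ 2 + b ^ 2 = 0
  · refine ⟨0, 1, 0, by norm_num, ?_, ?_⟩
    · nlinarith [sq_nonneg a, sq_nonneg b]
    · nlinarith [sq_nonneg a, sq_nonneg b]
  · have hp : 0 < a ^ 2 + b ^ 2 := lt_of_le_of_ne (by positivity) (Ne.symm h)
    set l := Real.sqrt (a ^ 2 + b ^ 2) with hl
    have hl0 : 0 < l := Real.sqrt_pos.mpr hp
    have hl2 : l ^ 2 = a ^ 2 + b ^ 2 := Real.sq_sqrt hp.le
    refine ⟨l, a / l, b / l, ?_, ?_, ?_⟩
    · field_simp
      linarith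
    · field_simp
    · field_simp

/-- The shear-rotation whose preimages of boxes we use. -/
noncomputable def Phi (x1 x2 c e : ℝ) : V3 →ₗ[ℝ] V3 :=
  Matrix.toLin' !![1, 0, 0;
    (c * x1 + e * x2) / 2, c, e;
    (- e * x1 + c * x2) / 2, - e, c]

theorem Phi_det (x1 x2 c e : ℝ) (h : c ^ 2 + e ^ 2 = 1) : LinearMap.det (Phi x1 x2 c e) = 1 := by
  rw [Phi, LinearMap.det_toLin', Matrix.det_fin_three]
  simp
  nlinarith [h]

theorem Phi_apply (x1 x2 c e : ℝ) (w : V3) :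
    Phi x1 x2 c e w = ![w 0, (c * x1 + e * x2) / 2 * w 0 + c * w 1 + e * w 2,
      (- e * x1 + c * x2) / 2 * w 0 + - e * w 1 + c * w 2] := by
  rw [Phi, Matrix.toLin'_apply]
  ext i
  fin_cases i <;> simp [Matrix.mulVec, dotProduct, Fin.sum_univ_three]

/-- Volume of the preimage of a box. -/
theorem vol_box (x1 x2 c e : ℝ) (h : c ^ 2 + e ^ 2 = 1) (w0 : V3) (r : V3) (S : Set V3)
    (hS : ∀ w ∈ S, ∀ i, |Phi x1 x2 c e (w - w0) i| ≤ r i) (hr : ∀ i, 0 ≤ r i) :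
    volume S ≤ ENNReal.ofReal (8 * (r 0 * r 1 * r 2)) := by
  have hsub : S ⊆ (fun w => w - w0) ⁻¹' ((Phi x1 x2 c e) ⁻¹' (Set.Icc (fun i => - r i) r)) := by
    intro w hw
    simp only [Set.mem_preimage, Set.mem_Icc]
    constructor
    · intro i
      exact (abs_le.mp (hS w hw i)).1
    · intro i
      exact (abs_le.mp (hS w hw i)).2
  refine (measure_mono hsub).trans ?_
  have h1 : volume ((fun w : V3 => w - w0) ⁻¹' ((Phi x1 x2 c e) ⁻¹' (Set.Icc (fun i => - r i) r)))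
      = volume ((Phi x1 x2 c e) ⁻¹' (Set.Icc (fun i => - r i) r)) := by
    have := measure_preimage_add_right (volume : Measure V3) (- w0)
      ((Phi x1 x2 c e) ⁻¹' (Set.Icc (fun i => - r i) r))
    simpa [sub_eq_add_neg] using this
  rw [h1, Measure.addHaar_preimage_linearMap _ (by rw [Phi_det _ _ _ _ h]; norm_num),
    Phi_det _ _ _ _ h, Real.volume_Icc_pi]
  simp only [inv_one, abs_one, ENNReal.ofReal_one, one_mul, sub_neg_eq_add, Fin.prod_univ_three]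
  rw [← ENNReal.ofReal_mul (by linarith [hr 0]), ← ENNReal.ofReal_mul
    (by have := hr 0; have := hr 1; positivity)]
  apply ENNReal.ofReal_le_ofReal
  nlinarith [hr 0, hr 1, hr 2]

/-- The local volume estimate. -/
theorem local_vol (L : Set (V3 × V3)) (s : ℝ)
    (hmono : ∀ p ∈ L, ∀ p' ∈ L,
      ssq (p.1 - p'.1) + ssq (p.2 - p'.2) ≤ ssq (zz s p - zz s p'))
    (M : ℝ) (hM : 0 ≤ M) (p0 : V3 × V3) (hp0 : p0 ∈ L) (hb : ∀ i, |p0.1 i| ≤ M)
    (rho eps : ℝ) (hr0 : 0 < rho) (hr1 : rho ≤ 1) (hre : rho ≤ eps) (k : V3) (hk : ssq k = 1)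
    (hY : ∀ p ∈ L, ssq (zz s p - zz s p0) ≤ rho ^ 2 →
      ssq (crossProduct (Yt p0 p) k) ≤ (eps * rho) ^ 2) :
    volume (Gmap '' {p ∈ L | ssq (zz s p - zz s p0) ≤ rho ^ 2}) ≤
      ENNReal.ofReal (16 * (3 + M) * eps * rho ^ 3) := by
  obtain ⟨l, c, e, hce, hlc, hle⟩ := exists_unit (k 2) (- k 1)
  have heps : 0 < eps := lt_of_lt_of_le hr0 hre
  have hmain : ∀ w ∈ Gmap '' {p ∈ L | ssq (zz s p - zz s p0) ≤ rho ^ 2}, ∀ i,
      |Phi (p0.1 1) (p0.1 2) c e (w - Gmap p0) i| ≤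
        (![rho, (3 + M) * rho, 2 * (eps * rho)] : V3) i := by
    rintro w ⟨p, ⟨hpL, hpz⟩, rfl⟩ i
    have hm := hmono p hpL p0 hp0
    have hcr := hY p hpL hpz
    have hd : ssq (p.1 - p0.1) + ssq (p.2 - p0.2) ≤ rho ^ 2 := hm.trans hpz
    simp only [ssq, Pi.sub_apply] at hd
    have e1 : ∀ i, |p.1 i - p0.1 i| ≤ rho := by
      intro i
      apply abs_le_of_sq_le' hr0.le
      fin_cases i <;> simp only [Fin.zero_eta, Fin.mk_one, Fin.reduceFinMk, Fin.isValue] <;>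
      nlinarith [sq_nonneg (p.1 0 - p0.1 0), sq_nonneg (p.1 1 - p0.1 1), sq_nonneg (p.1 2 - p0.1 2),
        sq_nonneg (p.2 0 - p0.2 0), sq_nonneg (p.2 1 - p0.2 1), sq_nonneg (p.2 2 - p0.2 2)]
    have e2 : ∀ i, |p.2 i - p0.2 i| ≤ rho := by
      intro i
      apply abs_le_of_sq_le' hr0.le
      fin_cases i <;> simp only [Fin.zero_eta, Fin.mk_one, Fin.reduceFinMk, Fin.isValue] <;>
      nlinarith [sq_nonneg (p.1 0 - p0.1 0), sq_nonneg (p.1 1 - p0.1 1), sq_nonneg (p.1 2 - p0.1 2),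
        sq_nonneg (p.2 0 - p0.2 0), sq_nonneg (p.2 1 - p0.2 1), sq_nonneg (p.2 2 - p0.2 2)]
    -- abbreviations
    set d0 := p.1 0 - p0.1 0 with hd0
    set d1 := p.1 1 - p0.1 1 with hd1
    set d2 := p.1 2 - p0.1 2 with hd2
    set y0 := Yt p0 p 0 with hy0
    set y1 := Yt p0 p 1 with hy1
    set y2 := Yt p0 p 2 with hy2
    have g0 : Gmap p 0 - Gmap p0 0 = d0 := rfl
    have g1 := gmap_diff1 p0 p
    have g2 := gmap_diff2 p0 p
    rw [g0, ← hy2, ← hd0, ← hd1] at g1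
    rw [g0, ← hy1, ← hd0, ← hd2] at g2
    have b0 : |d0| ≤ rho := e1 0
    have b1 : |d1| ≤ rho := e1 1
    have b2 : |d2| ≤ rho := e1 2
    have dd1 : |d0 * d1| ≤ rho ^ 2 := by
      rw [abs_mul, sq]; exact mul_le_mul b0 b1 (abs_nonneg _) hr0.le
    have dd2 : |d0 * d2| ≤ rho ^ 2 := by
      rw [abs_mul, sq]; exact mul_le_mul b0 b2 (abs_nonneg _) hr0.le
    have hy1b : |y1| ≤ (2 + M) * rho := by
      have : y1 = 2 * (p.2 1 - p0.2 1) - (p0.1 2 * d0 - p0.1 0 * d2) / 2 := by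
        rw [hy1, Yt, cross1]; rfl
      rw [this]
      have t1 : |p0.1 2 * d0| ≤ M * rho := by
        rw [abs_mul]; exact mul_le_mul (hb 2) b0 (abs_nonneg _) hM
      have t2 : |p0.1 0 * d2| ≤ M * rho := by
        rw [abs_mul]; exact mul_le_mul (hb 0) b2 (abs_nonneg _) hM
      have t3 := e2 1
      rw [abs_le] at t1 t2 t3 ⊢
      constructor <;> linarith [t1.1, t1.2, t2.1, t2.2, t3.1, t3.2]
    have hy2b : |y2| ≤ (2 + M) * rho := by
      have : y2 = 2 * (p.2 2 - p0.2 2) - (p0.1 0 * d1 - p0.1 1 * d0) / 2 := by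
        rw [hy2, Yt, cross2]; rfl
      rw [this]
      have t1 : |p0.1 0 * d1| ≤ M * rho := by
        rw [abs_mul]; exact mul_le_mul (hb 0) b1 (abs_nonneg _) hM
      have t2 : |p0.1 1 * d0| ≤ M * rho := by
        rw [abs_mul]; exact mul_le_mul (hb 1) b0 (abs_nonneg _) hM
      have t3 := e2 2
      rw [abs_le] at t1 t2 t3 ⊢
      constructor <;> linarith [t1.1, t1.2, t2.1, t2.2, t3.1, t3.2]
    clear_value y0 y1 y2 d0 d1 d2
    -- the normal component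
    simp only [ssq, cross0, cross1, cross2, ← hy0, ← hy1, ← hy2] at hcr hk
    -- y - (y.k) k = k × (y × k)
    set A0 := y1 * k 2 - y2 * k 1 with hA0
    set A1 := y2 * k 0 - y0 * k 2 with hA1
    set A2 := y0 * k 1 - y1 * k 0 with hA2
    have r1 : y1 - (y0 * k 0 + y1 * k 1 + y2 * k 2) * k 1 = k 2 * A0 - k 0 * A2 := by
      rw [hA0, hA2]
      linear_combination (- y1) * hk
    have r2 : y2 - (y0 * k 0 + y1 * k 1 + y2 * k 2) * k 2 = k 0 * A1 - k 1 * A0 := by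
      rw [hA0, hA1]
      linear_combination (- y2) * hk
    have er : 0 ≤ eps * rho := by positivity
    -- each entry of k × A is at most eps*rho
    have s1 : |k 2 * A0 - k 0 * A2| ≤ eps * rho := by
      apply abs_le_of_sq_le' er
      exact two_prod (by linarith [sq_nonneg (k 1)]) (by linarith [sq_nonneg A1])
    have s2 : |k 0 * A1 - k 1 * A0| ≤ eps * rho := by
      apply abs_le_of_sq_le' er
      exact two_prod (by linarith [sq_nonneg (k 2)]) (by linarith [sq_nonneg A2])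
    have c1 : |c| ≤ 1 := abs_le_of_sq_le' zero_le_one (by nlinarith [sq_nonneg e])
    have c2 : |e| ≤ 1 := abs_le_of_sq_le' zero_le_one (by nlinarith [sq_nonneg c])
    have rr : rho ^ 2 ≤ rho * 1 := by rw [sq]; exact mul_le_mul_of_nonneg_left hr1 hr0.le
    have rr' : rho ^ 2 ≤ eps * rho := by rw [sq]; exact mul_le_mul_of_nonneg_right hre hr0.le
    rw [Phi_apply]
    fin_cases i
    · simpa [g0] using b0
    · have hT : (c * p0.1 1 + e * p0.1 2) / 2 * (Gmap p - Gmap p0) 0 + c * (Gmap p - Gmap p0) 1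
          + e * (Gmap p - Gmap p0) 2
          = c * (y2 / 2 - d0 * d1 / 4) + e * (- y1 / 2 - d0 * d2 / 4) := by
        rw [← g1, ← g2]
        simp only [Pi.sub_apply, g0]
        ring
      have hu : |y2 / 2 - d0 * d1 / 4| ≤ (2 + M) * rho / 2 + rho / 4 := by
        rw [abs_le] at hy2b dd1 ⊢
        constructor <;> linarith [hy2b.1, hy2b.2, dd1.1, dd1.2]
      have hv : |- y1 / 2 - d0 * d2 / 4| ≤ (2 + M) * rho / 2 + rho / 4 := by
        rw [abs_le] at hy1b dd2 ⊢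
        constructor <;> linarith [hy1b.1, hy1b.2, dd2.1, dd2.2]
      have hcu : |c * (y2 / 2 - d0 * d1 / 4)| ≤ 1 * ((2 + M) * rho / 2 + rho / 4) := by
        rw [abs_mul]; exact mul_le_mul c1 hu (abs_nonneg _) zero_le_one
      have hev : |e * (- y1 / 2 - d0 * d2 / 4)| ≤ 1 * ((2 + M) * rho / 2 + rho / 4) := by
        rw [abs_mul]; exact mul_le_mul c2 hv (abs_nonneg _) zero_le_one
      simp only [Fin.mk_one, Matrix.cons_val_one, Matrix.cons_val_zero]
      rw [hT]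
      refine (abs_add_le _ _).trans ?_
      linarith
    · have hN : (- e * p0.1 1 + c * p0.1 2) / 2 * (Gmap p - Gmap p0) 0
          + - e * (Gmap p - Gmap p0) 1 + c * (Gmap p - Gmap p0) 2
          = - e * (y2 / 2 - d0 * d1 / 4) + c * (- y1 / 2 - d0 * d2 / 4) := by
        rw [← g1, ← g2]
        simp only [Pi.sub_apply, g0]
        ring
      set q := y0 * k 0 + y1 * k 1 + y2 * k 2 with hq
      have hN2 : - e * (y2 / 2 - d0 * d1 / 4) + c * (- y1 / 2 - d0 * d2 / 4)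
          = - e * ((k 0 * A1 - k 1 * A0) / 2 + d0 * d1 * (-1) / 4)
            + c * (- (k 2 * A0 - k 0 * A2) / 2 - d0 * d2 / 4) := by
        rw [← r1, ← r2]
        have hk1 : k 1 = - (l * e) := by linarith [hle]
        rw [hlc, hk1]
        ring
      have hu : |(k 0 * A1 - k 1 * A0) / 2 + d0 * d1 * (-1) / 4| ≤ eps * rho := by
        rw [abs_le] at s2 dd1 ⊢
        constructor <;> linarith [s2.1, s2.2, dd1.1, dd1.2]
      have hv : |- (k 2 * A0 - k 0 * A2) / 2 - d0 * d2 / 4| ≤ eps * rho := by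
        rw [abs_le] at s1 dd2 ⊢
        constructor <;> linarith [s1.1, s1.2, dd2.1, dd2.2]
      have hcu : |- e * ((k 0 * A1 - k 1 * A0) / 2 + d0 * d1 * (-1) / 4)| ≤ 1 * (eps * rho) := by
        rw [abs_mul, abs_neg]; exact mul_le_mul c2 hu (abs_nonneg _) zero_le_one
      have hev : |c * (- (k 2 * A0 - k 0 * A2) / 2 - d0 * d2 / 4)| ≤ 1 * (eps * rho) := by
        rw [abs_mul]; exact mul_le_mul c1 hv (abs_nonneg _) zero_le_one
      have hfin : |(- e * p0.1 1 + c * p0.1 2) / 2 * (Gmap p - Gmap p0) 0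
          + - e * (Gmap p - Gmap p0) 1 + c * (Gmap p - Gmap p0) 2| ≤ 2 * (eps * rho) := by
        rw [hN, hN2]
        refine (abs_add_le _ _).trans ?_
        linarith
      exact hfin
  have hpos : ∀ i, 0 ≤ (![rho, (3 + M) * rho, 2 * (eps * rho)] : V3) i := by
    intro i
    fin_cases i
    · exact hr0.le
    · show 0 ≤ (3 + M) * rho
      positivity
    · show 0 ≤ 2 * (eps * rho)
      positivity
  refine (vol_box _ _ _ _ hce (Gmap p0) _ _ hmain hpos).trans ?_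
  apply ENNReal.ofReal_le_ofReal
  have : (![rho, (3 + M) * rho, 2 * (eps * rho)] : V3) 0 *
      (![rho, (3 + M) * rho, 2 * (eps * rho)] : V3) 1 *
      (![rho, (3 + M) * rho, 2 * (eps * rho)] : V3) 2
      = rho * ((3 + M) * rho) * (2 * (eps * rho)) := rfl
  rw [this]
  apply le_of_eq
  ring

end HypFT
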