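import Pool.Agent.Lib_MP_f31343_h.Halve

/-!
# A0', last step: the structure `Grow` from a word length
-/

open Matrix Filter Topology
open scoped Matrix.Norms.L2Operator

namespace F31343H

lemma dl_one' : dl (1 : M7) = 1 := by
  obtain ⟨u, hu1, hu⟩ := exists_dl (1 : M7)
  have h1 : (1 : M7).toBlocks₂₂ = (1 : M33) := by
    rw [← fromBlocks_one, toBlocks_fromBlocks₂₂]
  rw [← hu, h1, one_mulVec, hu1]

lemma norm_one_le' : ‖(1 : M7)‖ ≤ 1 := by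
  refine opNorm_le zero_le_one fun x => ?_
  rw [one_mulVec, one_mul]

/-- `ρ γ` is bounded by `K ^ l γ` -/
lemma WordLen.exists_bound {Γ : Type*} [Group Γ] {l : Γ → ℕ} (hl : WordLen l) (ρ : Γ →* M7) :
    ∃ K : ℝ, 1 ≤ K ∧ ∀ γ, ‖ρ γ‖ ≤ K ^ l γ := by
  obtain ⟨B, hB⟩ := ((hl.finite 1).image (fun γ => ‖ρ γ‖)).bddAbove
  refine ⟨max 1 B, le_max_left _ _, ?_⟩
  have hB' : ∀ γ, l γ ≤ 1 → ‖ρ γ‖ ≤ max 1 B := fun γ hγ =>
    (hB ⟨γ, hγ, rfl⟩).trans (le_max_right _ _)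
  have key : ∀ n : ℕ, ∀ γ, l γ = n → ‖ρ γ‖ ≤ (max 1 B) ^ n := by
    intro n
    induction n with
    | zero =>
      intro γ hγ
      rw [hl.eq_one γ hγ, map_one, pow_zero]
      exact norm_one_le'
    | succ n ih =>
      intro γ hγ
      obtain ⟨α, β, hab, ha, hb⟩ := hl.split γ 1 (by omega)
      rw [hab, map_mul, pow_succ']
      have h1 : ‖ρ α‖ ≤ max 1 B := hB' α (by omega)
      have h2 : ‖ρ β‖ ≤ (max 1 B) ^ n := ih β (by omega)
      refine (opNorm_mul_le _ _).trans ?_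
      exact mul_le_mul h1 h2 (norm_nonneg _) (le_trans zero_le_one (le_max_left _ _))
  exact fun γ => key _ γ rfl

variable {Γ : Type*} [Group Γ] {ρ : Γ →* M7}

theorem Act.exists_grow_of (h : Act Γ ρ)
    (hword : ∀ (L : Γ → ℝ) (_ : L 1 = 0) (_ : ∀ γ, 0 ≤ L γ)
      (_ : ∀ γ, L γ⁻¹ = L γ) (_ : ∀ R : ℝ, {γ | L γ ≤ R}.Finite) (c₀ : ℝ) (_ : 0 < c₀)
      (_ : ∀ γ, ∃ α β : Γ, γ = α * β ∧ L α ≤ L γ / 2 + c₀ ∧ L β ≤ L γ / 2 + c₀),
      ∃ l : Γ → ℕ, WordLen l ∧ ∀ γ, c₀ * l γ ≤ L γ + c₀) :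
    ∃ (l : Γ → ℕ) (c C K : ℝ), Grow Γ ρ l c C K := by
  obtain ⟨C, hC1, hC⟩ := h.halving
  have hone : ∀ γ, 1 ≤ dl (ρ γ) := fun γ => (h.isO γ).one_le_dl
  have hpos : ∀ γ, 0 < dl (ρ γ) := fun γ => lt_of_lt_of_le one_pos (hone γ)
  have hlogC : 0 ≤ Real.log C := Real.log_nonneg hC1
  have hsqrt : ∀ α γ : Γ, dl (ρ α) ≤ C * Real.sqrt (dl (ρ γ)) →
      Real.log (dl (ρ α)) ≤ Real.log (dl (ρ γ)) / 2 + (Real.log C + 1) := by
    intro α γ hαγ
    have h1 := Real.log_le_log (hpos α) hαγ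
    rw [Real.log_mul (by linarith) (Real.sqrt_pos.mpr (hpos γ)).ne',
      Real.log_sqrt (hpos γ).le] at h1
    linarith
  obtain ⟨l, hl, hL⟩ := hword (fun γ => Real.log (dl (ρ γ)))
    (by simp only [map_one, dl_one', Real.log_one])
    (fun γ => Real.log_nonneg (hone γ))
    (fun γ => by simp only [map_inv', (h.isO γ).dl_inv])
    (fun R => by
      refine (h.finite_dl (Real.exp R)).subset ?_
      intro γ hγ
      exact (Real.log_le_iff_le_exp (hpos γ)).mp hγ)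
    (Real.log C + 1) (by linarith)
    (fun γ => by
      obtain ⟨α, β, hab, ha, hb⟩ := hC γ
      exact ⟨α, β, hab, hsqrt α γ ha, hsqrt β γ hb⟩)
  obtain ⟨K, hK1, hK⟩ := hl.exists_bound ρ
  refine ⟨l, Real.log C + 1, Real.exp (Real.log C + 1), K, ?_⟩
  refine ⟨h.isO, hl, by linarith, Real.exp_pos _, hK1, ?_, hK, h.cocompact⟩
  intro γ
  have h1 := hL γ
  have h2 : Real.exp ((Real.log C + 1) * l γ) ≤
      Real.exp (Real.log (dl (ρ γ)) + (Real.log C + 1)) := Real.exp_le_exp.mpr h1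
  rw [Real.exp_add, Real.exp_log (hpos γ)] at h2
  linarith

end F31343H
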