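import Pool.Agent.Lib_MP_f31343_h.Defs

/-!
# A0': geodesics exist
-/

namespace F31343H

theorem WordLen.exists_geod' {Γ : Type*} [Group Γ] {l : Γ → ℕ} (hl : WordLen l) :
    ∀ (n : ℕ) (γ : Γ), l γ = n → ∃ h : ℕ → Γ, h 0 = 1 ∧ h n = γ ∧ IsGeod l h n := by
  intro n
  induction n with
  | zero =>
    intro γ hγ
    refine ⟨fun _ => 1, rfl, (hl.eq_one γ hγ).symm, ?_⟩
    intro i j hij hj
    have hi0 : i = 0 := by omega
    have hj0 : j = 0 := by omega
    subst hi0
    subst hj0
    simp only [inv_one, mul_one, hl.one]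
  | succ n ih =>
    intro γ hγ
    obtain ⟨α, β, hab, ha, hb⟩ := hl.split γ n (by omega)
    obtain ⟨h, h0, hn, hg⟩ := ih α ha
    have hb' : l β = 1 := by omega
    refine ⟨fun i => if i ≤ n then h i else γ, ?_, ?_, ?_⟩
    · show (if 0 ≤ n then h 0 else γ) = 1
      rw [if_pos (Nat.zero_le n)]
      exact h0
    · show (if n + 1 ≤ n then h (n + 1) else γ) = γ
      rw [if_neg (by omega)]
    · intro i j hij hj
      show l ((if i ≤ n then h i else γ)⁻¹ * (if j ≤ n then h j else γ)) = j - i
      by_cases hjn : j ≤ n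
      · rw [if_pos (hij.trans hjn), if_pos hjn]
        exact hg i j hij hjn
      · have hj1 : j = n + 1 := by omega
        rw [if_neg hjn]
        by_cases hin : i ≤ n
        · rw [if_pos hin]
          have e1 : l (h i) = i := by
            have := hg 0 i (Nat.zero_le i) hin
            rwa [h0, inv_one, one_mul, Nat.sub_zero] at this
          have e2 : l ((h i)⁻¹ * h n) = n - i := hg i n hin le_rfl
          have e3 : (h i)⁻¹ * γ = ((h i)⁻¹ * h n) * β := by rw [hn, hab, mul_assoc]
          have e4 : l ((h i)⁻¹ * γ) ≤ (n - i) + 1 := by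
            rw [e3]
            refine (hl.mul_le _ _).trans ?_
            rw [e2, hb']
          have e5 : l γ ≤ l (h i) + l ((h i)⁻¹ * γ) := by
            have := hl.mul_le (h i) ((h i)⁻¹ * γ)
            rwa [mul_inv_cancel_left] at this
          omega
        · rw [if_neg hin, inv_mul_cancel, hl.one]
          omega

end F31343H
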