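import Pool.Agent.Lib_MP_f31343_h.Defs

/-!
# A0': the word length
-/

namespace F31343H

section word
variable {Γ : Type*} [Group Γ]

/-- `γ` is a product of `n` elements of `F` -/
def IsWd (F : Set Γ) (γ : Γ) (n : ℕ) : Prop :=
  ∃ w : List Γ, (∀ x ∈ w, x ∈ F) ∧ w.prod = γ ∧ w.length = n

lemma IsWd.mul {F : Set Γ} {γ γ' : Γ} {n m : ℕ} (h : IsWd F γ n) (h' : IsWd F γ' m) :
    IsWd F (γ * γ') (n + m) := by
  obtain ⟨w, h1, h2, h3⟩ := h
  obtain ⟨w', h1', h2', h3'⟩ := h'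
  refine ⟨w ++ w', ?_, ?_, ?_⟩
  · intro x hx
    rcases List.mem_append.mp hx with hx | hx
    · exact h1 x hx
    · exact h1' x hx
  · rw [List.prod_append, h2, h2']
  · rw [List.length_append, h3, h3']

lemma IsWd.inv {F : Set Γ} (hF : ∀ x ∈ F, x⁻¹ ∈ F) {γ : Γ} {n : ℕ} (h : IsWd F γ n) :
    IsWd F γ⁻¹ n := by
  obtain ⟨w, h1, h2, h3⟩ := h
  refine ⟨(w.map fun x => x⁻¹).reverse, ?_, ?_, ?_⟩
  · intro x hx
    rw [List.mem_reverse, List.mem_map] at hx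
    obtain ⟨y, hy, rfl⟩ := hx
    exact hF y (h1 y hy)
  · rw [← h2, List.prod_inv_reverse]
  · rw [List.length_reverse, List.length_map, h3]

/-- the word length with respect to `F` -/
noncomputable def wdl (F : Set Γ) (γ : Γ) : ℕ := sInf {n | IsWd F γ n}

variable {F : Set Γ}

lemma isWd_wdl (hgen : ∀ γ, ∃ n, IsWd F γ n) (γ : Γ) : IsWd F γ (wdl F γ) :=
  Nat.sInf_mem (s := {n | IsWd F γ n}) (hgen γ)

lemma wdl_le {γ : Γ} {n : ℕ} (h : IsWd F γ n) : wdl F γ ≤ n := Nat.sInf_le h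

lemma wdl_finite (hfin : F.Finite) (hgen : ∀ γ, ∃ n, IsWd F γ n) :
    ∀ n : ℕ, {γ | wdl F γ ≤ n}.Finite := by
  intro n
  induction n with
  | zero =>
    refine (Set.finite_singleton (1 : Γ)).subset ?_
    intro γ hγ
    have hγ' : wdl F γ ≤ 0 := hγ
    obtain ⟨w, _, h2, h3⟩ := isWd_wdl hgen γ
    have h4 : w = [] := List.length_eq_zero_iff.mp (by omega)
    rw [h4, List.prod_nil] at h2
    exact h2.symm
  | succ n ih =>
    refine (ih.union (Set.Finite.image2 (fun a b : Γ => a * b) hfin ih)).subset ?_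
    intro γ hγ
    have hγ' : wdl F γ ≤ n + 1 := hγ
    by_cases hn : wdl F γ ≤ n
    · exact Or.inl hn
    · right
      obtain ⟨w, h1, h2, h3⟩ := isWd_wdl hgen γ
      match w, h1, h2, h3 with
      | [], _, _, h3 =>
        exfalso
        simp only [List.length_nil] at h3
        omega
      | x :: w', h1, h2, h3 =>
        refine ⟨x, h1 x List.mem_cons_self, w'.prod, ?_, ?_⟩
        · have h4 : wdl F w'.prod ≤ w'.length :=
            wdl_le ⟨w', fun y hy => h1 y (List.mem_cons_of_mem _ hy), rfl, rfl⟩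
          rw [List.length_cons] at h3
          show wdl F w'.prod ≤ n
          omega
        · rw [List.prod_cons] at h2
          exact h2

lemma wdl_wordLen (hfin : F.Finite) (hF : ∀ x ∈ F, x⁻¹ ∈ F) (hgen : ∀ γ, ∃ n, IsWd F γ n) :
    WordLen (wdl F) := by
  have hone : wdl F 1 = 0 := by
    have : wdl F 1 ≤ 0 := wdl_le ⟨[], fun x hx => absurd hx List.not_mem_nil, rfl, rfl⟩
    omega
  have hmul : ∀ γ γ', wdl F (γ * γ') ≤ wdl F γ + wdl F γ' := fun γ γ' =>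
    wdl_le ((isWd_wdl hgen γ).mul (isWd_wdl hgen γ'))
  have hinv : ∀ γ, wdl F γ⁻¹ ≤ wdl F γ := fun γ => wdl_le ((isWd_wdl hgen γ).inv hF)
  refine ⟨hone, ?_, ?_, hmul, wdl_finite hfin hgen, ?_⟩
  · intro γ hγ
    obtain ⟨w, _, h2, h3⟩ := isWd_wdl hgen γ
    have h4 : w = [] := List.length_eq_zero_iff.mp (by omega)
    rw [h4, List.prod_nil] at h2
    exact h2.symm
  · intro γ
    refine le_antisymm (hinv γ) ?_
    have := hinv γ⁻¹
    rwa [inv_inv] at this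
  · intro γ k hk
    obtain ⟨w, h1, h2, h3⟩ := isWd_wdl hgen γ
    have e : γ = (w.take k).prod * (w.drop k).prod := by
      rw [← List.prod_append, List.take_append_drop, h2]
    have ha : wdl F (w.take k).prod ≤ k := by
      refine (wdl_le ⟨w.take k, fun y hy => h1 y (List.mem_of_mem_take hy), rfl, rfl⟩).trans ?_
      rw [List.length_take]
      exact min_le_left _ _
    have hb : wdl F (w.drop k).prod ≤ wdl F γ - k := by
      refine (wdl_le ⟨w.drop k, fun y hy => h1 y (List.mem_of_mem_drop hy), rfl, rfl⟩).trans ?_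
      rw [List.length_drop, h3]
    have hc := hmul (w.take k).prod (w.drop k).prod
    rw [← e] at hc
    exact ⟨_, _, e, by omega, by omega⟩

/-- halving gives short words -/
lemma exists_short (L : Γ → ℝ) (c₀ : ℝ) (hc : 0 < c₀)
    (halv : ∀ γ, ∃ α β : Γ, γ = α * β ∧ L α ≤ L γ / 2 + c₀ ∧ L β ≤ L γ / 2 + c₀) :
    ∀ (n : ℕ) (γ : Γ), L γ ≤ n * c₀ →
      ∃ m : ℕ, IsWd {x | L x ≤ 4 * c₀} γ m ∧ c₀ * m ≤ max c₀ (L γ - 2 * c₀) := by
  have base : ∀ γ, L γ ≤ 4 * c₀ →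
      ∃ m : ℕ, IsWd {x | L x ≤ 4 * c₀} γ m ∧ c₀ * m ≤ max c₀ (L γ - 2 * c₀) := by
    intro γ hγ
    refine ⟨1, ⟨[γ], ?_, ?_, rfl⟩, ?_⟩
    · intro x hx
      rw [List.mem_singleton] at hx
      rw [hx]
      exact hγ
    · rw [List.prod_singleton]
    · rw [Nat.cast_one, mul_one]
      exact le_max_left _ _
  intro n
  induction n with
  | zero =>
    intro γ hγ
    refine base γ ?_
    rw [Nat.cast_zero, zero_mul] at hγ
    linarith
  | succ n ih =>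
    intro γ hγ
    by_cases h4 : L γ ≤ 4 * c₀
    · exact base γ h4
    · obtain ⟨α, β, hab, ha, hb⟩ := halv γ
      rw [Nat.cast_add, Nat.cast_one, add_mul, one_mul] at hγ
      obtain ⟨m₁, hm₁, hm₁'⟩ := ih α (by linarith)
      obtain ⟨m₂, hm₂, hm₂'⟩ := ih β (by linarith)
      refine ⟨m₁ + m₂, ?_, ?_⟩
      · rw [hab]
        exact hm₁.mul hm₂
      · have e1 : max c₀ (L α - 2 * c₀) ≤ L γ / 2 - c₀ := max_le (by linarith) (by linarith)
        have e2 : max c₀ (L β - 2 * c₀) ≤ L γ / 2 - c₀ := max_le (by linarith) (by linarith)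
        refine le_trans ?_ (le_max_right _ _)
        rw [Nat.cast_add, mul_add]
        linarith

theorem exists_wordLen' (L : Γ → ℝ) (h0 : ∀ γ, 0 ≤ L γ)
    (hinv : ∀ γ, L γ⁻¹ = L γ) (hfin : ∀ R : ℝ, {γ | L γ ≤ R}.Finite) (c₀ : ℝ) (hc : 0 < c₀)
    (halv : ∀ γ, ∃ α β : Γ, γ = α * β ∧ L α ≤ L γ / 2 + c₀ ∧ L β ≤ L γ / 2 + c₀) :
    ∃ l : Γ → ℕ, WordLen l ∧ ∀ γ, c₀ * l γ ≤ L γ + c₀ := by
  have key : ∀ γ : Γ, ∃ m : ℕ, IsWd {x | L x ≤ 4 * c₀} γ m ∧
      c₀ * m ≤ max c₀ (L γ - 2 * c₀) := by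
    intro γ
    obtain ⟨n, hn⟩ := exists_nat_ge (L γ / c₀)
    exact exists_short L c₀ hc halv n γ ((div_le_iff₀ hc).mp hn)
  refine ⟨wdl {x | L x ≤ 4 * c₀}, wdl_wordLen (hfin _) ?_ ?_, ?_⟩
  · intro x hx
    have hx' : L x ≤ 4 * c₀ := hx
    show L x⁻¹ ≤ 4 * c₀
    rw [hinv]
    exact hx'
  · intro γ
    obtain ⟨m, hm, _⟩ := key γ
    exact ⟨m, hm⟩
  · intro γ
    obtain ⟨m, hm, hm'⟩ := key γ
    have h1 : (wdl {x | L x ≤ 4 * c₀} γ : ℝ) ≤ m := by exact_mod_cast wdl_le hm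
    have h2 : c₀ * (wdl {x | L x ≤ 4 * c₀} γ : ℝ) ≤ c₀ * m := mul_le_mul_of_nonneg_left h1 hc.le
    have h3 : max c₀ (L γ - 2 * c₀) ≤ L γ + c₀ := max_le (by linarith [h0 γ]) (by linarith)
    linarith

end word

end F31343H
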